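import Pool.Agent.TH454.BW.Cycle
import Pool.Agent.H607R2.BW.ASY2

/-!
# Width of graphs without even cycles and without complete bipartite graphs
-/

set_option autoImplicit false

namespace Pool.Agent.TH454.BW

open Pool.Agent.H607R2.BW Filter

theorem asy (C : ℕ) (c ε η : ℝ) (hη : 0 < η) (hlt : c < ε) :
    ∃ m₀ : ℕ, ∀ m w : ℕ, m₀ ≤ m → (w : ℝ) ≤ ((2 : ℝ) ^ m) ^ c →
      (C : ℝ) * (w * m * 2 ^ m) ≤ η * ((2 : ℝ) ^ m) ^ (1 + ε) := by
  set d : ℝ := ε - c with hd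
  have hd0 : 0 < d := by linarith
  have hq : (1 : ℝ) < 2 ^ (d / 2) := Real.one_lt_rpow (by norm_num) (by linarith)
  obtain ⟨m₁, hm₁⟩ := ASY2_poly 1 C _ hq
  obtain ⟨m₂, hm₂⟩ := eventually_atTop.1
    ((tendsto_pow_atTop_atTop_of_one_lt hq).eventually_ge_atTop (1 / η))
  refine ⟨max m₁ m₂, fun m w hm hw => ?_⟩
  have hp := hm₁ m ((le_max_left _ _).trans hm)
  have hp2 := hm₂ m ((le_max_right _ _).trans hm)
  rw [ASY2_rp] at hw
  rw [ASY2_rp]
  rw [pow_one] at hp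
  have e4 : ((2 : ℝ) ^ (d / 2)) ^ m = 2 ^ (d / 2 * m) := by
    rw [← Real.rpow_natCast, ← Real.rpow_mul (by norm_num)]
  have hm0 : (0 : ℝ) ≤ m := Nat.cast_nonneg m
  have h1 : (1 : ℝ) ≤ η * (2 ^ (d / 2)) ^ m := by
    have := mul_le_mul_of_nonneg_left hp2 hη.le
    rwa [mul_one_div_cancel hη.ne'] at this
  have h2 : (C : ℝ) * m ≤ η * 2 ^ (d * m) := by
    calc (C : ℝ) * m ≤ 1 * (2 ^ (d / 2)) ^ m := by linarith
      _ ≤ (η * (2 ^ (d / 2)) ^ m) * (2 ^ (d / 2)) ^ m :=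
        mul_le_mul_of_nonneg_right h1 (by positivity)
      _ = η * 2 ^ (d * m) := by
        rw [e4, mul_assoc, ← Real.rpow_add (by norm_num)]
        congr 2
        ring
  calc (C : ℝ) * (w * m * 2 ^ m) = (C * m) * w * 2 ^ m := by ring
    _ ≤ (η * 2 ^ (d * m)) * 2 ^ (c * m) * 2 ^ m := by
      apply mul_le_mul_of_nonneg_right _ (by positivity)
      exact mul_le_mul h2 hw (Nat.cast_nonneg w) (by positivity)
    _ = η * 2 ^ ((1 + ε) * m) := by
      rw [mul_assoc, mul_assoc, ← Real.rpow_natCast 2 m, ← Real.rpow_add (by norm_num),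
        ← Real.rpow_add (by norm_num)]
      congr 2
      rw [hd]
      ring

theorem card_edges_zero (G : SimpleGraph (Str 0)) : Nat.card G.edgeSet = 0 := by
  have : IsEmpty G.edgeSet := by
    constructor
    rintro ⟨e, he⟩
    induction e using Sym2.ind with
    | _ x y =>
      rw [SimpleGraph.mem_edgeSet] at he
      exact he.ne (Subsingleton.elim _ _)
  exact Nat.card_of_isEmpty

theorem two_mul_pred {m : ℕ} (hm : 1 ≤ m) (x y : ℕ) :
    2 * (m * x * (y * 2 ^ (m - 1))) = y * (x * m * 2 ^ m) := by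
  obtain ⟨n, rfl⟩ : ∃ n, m = n + 1 := ⟨m - 1, by omega⟩
  rw [Nat.add_sub_cancel, pow_succ]
  ring

/-- graphs without cycles of length `2 k` -/
theorem cycle_trellis_bound (m β k : ℕ) (G : SimpleGraph (Str m)) (hk : 2 ≤ k)
    (hG : HasTrellis β (fun x : Fin 2 → Str m => G.Adj (x 0) (x 1)))
    (hfree : (SimpleGraph.cycleGraph (2 * k)).Free G) :
    4 * Nat.card G.edgeSet ≤ 7 * k * (β * m * 2 ^ m) := by
  rcases Nat.eq_zero_or_pos m with rfl | hm
  · rw [card_edges_zero]; omega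
  by_contra hcon
  push Not at hcon
  apply hfree
  apply cycle_of_trellis G hG k hk
  have := two_mul_pred hm β (7 * k)
  omega

theorem cycle_width_bound (m w k : ℕ) (G : SimpleGraph (Str m)) (hk : 2 ≤ k)
    (hG : GraphWidth w G) (hfree : (SimpleGraph.cycleGraph (2 * k)).Free G) :
    Nat.card G.edgeSet ≤ 7 * k * (w * m * 2 ^ m) := by
  have h := cycle_trellis_bound m _ k G hk (trellis_of_width hG) hfree
  rw [Fintype.card_fin] at h
  have e : 7 * k * (2 ^ 2 * w * m * 2 ^ m) = 4 * (7 * k * (w * m * 2 ^ m)) := by ring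
  omega

/-- graphs without `K_{s,t}` -/
theorem kst_trellis_bound (m β s t : ℕ) (G : SimpleGraph (Str m)) (hs : 2 ≤ s) (ht : 2 ≤ t)
    (hG : HasTrellis β (fun x : Fin 2 → Str m => G.Adj (x 0) (x 1)))
    (hfree : (completeBipartiteGraph (Fin s) (Fin t)).Free G) :
    4 * Nat.card G.edgeSet ≤ (s - 1) * (t - 1) * (β * m * 2 ^ m) := by
  rcases Nat.eq_zero_or_pos m with rfl | hm
  · rw [card_edges_zero]; omega
  by_contra hcon
  push Not at hcon
  apply hfree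
  apply kst_of_trellis G hG s t hs ht
  have := two_mul_pred hm β ((s - 1) * (t - 1))
  omega

theorem kst_width_bound (m w s t : ℕ) (G : SimpleGraph (Str m)) (hs : 2 ≤ s) (ht : 2 ≤ t)
    (hG : GraphWidth w G) (hfree : (completeBipartiteGraph (Fin s) (Fin t)).Free G) :
    Nat.card G.edgeSet ≤ (s - 1) * (t - 1) * (w * m * 2 ^ m) := by
  have h := kst_trellis_bound m _ s t G hs ht (trellis_of_width hG) hfree
  rw [Fintype.card_fin] at h
  have e : (s - 1) * (t - 1) * (2 ^ 2 * w * m * 2 ^ m) =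
      4 * ((s - 1) * (t - 1) * (w * m * 2 ^ m)) := by ring
  omega

theorem cycle_asy (k : ℕ) (c c' : ℝ) (hk : 2 ≤ k) (hc' : 0 < c') (hc : c < 1 / k) :
    ∃ m₀ : ℕ, ∀ (m w : ℕ) (G : SimpleGraph (Str m)), m₀ ≤ m → GraphWidth w G →
      (SimpleGraph.cycleGraph (2 * k)).Free G →
      c' * ((2 : ℝ) ^ m) ^ (1 + 1 / (k : ℝ)) ≤ Nat.card G.edgeSet →
      ((2 : ℝ) ^ m) ^ c < w := by
  obtain ⟨m₀, hm₀⟩ := asy (7 * k) c (1 / (k : ℝ)) (c' / 2) (by positivity) hc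
  refine ⟨m₀, fun m w G hm hw hG he => ?_⟩
  by_contra hcon
  rw [not_lt] at hcon
  have h1 := cycle_width_bound m w k G hk hw hG
  have h2 := hm₀ m w hm hcon
  have h3 : (Nat.card G.edgeSet : ℝ) ≤ ((7 * k : ℕ) : ℝ) * (w * m * 2 ^ m) := by exact_mod_cast h1
  have h5 : (0 : ℝ) < c' * ((2 : ℝ) ^ m) ^ (1 + 1 / (k : ℝ)) := by positivity
  linarith

theorem kst_asy (s t : ℕ) (c c' : ℝ) (hs : 2 ≤ s) (ht : 2 ≤ t) (hc' : 0 < c')
    (hc : c < 1 - 1 / s) :
    ∃ m₀ : ℕ, ∀ (m w : ℕ) (G : SimpleGraph (Str m)), m₀ ≤ m → GraphWidth w G →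
      (completeBipartiteGraph (Fin s) (Fin t)).Free G →
      c' * ((2 : ℝ) ^ m) ^ (2 - 1 / (s : ℝ)) ≤ Nat.card G.edgeSet →
      ((2 : ℝ) ^ m) ^ c < w := by
  obtain ⟨m₀, hm₀⟩ := asy ((s - 1) * (t - 1)) c (1 - 1 / (s : ℝ)) (c' / 2) (by positivity) hc
  refine ⟨m₀, fun m w G hm hw hG he => ?_⟩
  by_contra hcon
  rw [not_lt] at hcon
  have h1 := kst_width_bound m w s t G hs ht hw hG
  have h2 := hm₀ m w hm hcon
  have h3 : (Nat.card G.edgeSet : ℝ) ≤ (((s - 1) * (t - 1) : ℕ) : ℝ) * (w * m * 2 ^ m) := by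
    exact_mod_cast h1
  have h4 : (1 : ℝ) + (1 - 1 / (s : ℝ)) = 2 - 1 / (s : ℝ) := by ring
  rw [h4] at h2
  have h5 : (0 : ℝ) < c' * ((2 : ℝ) ^ m) ^ (2 - 1 / (s : ℝ)) := by positivity
  linarith

end Pool.Agent.TH454.BW
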