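import Pool.Agent.TH454.BW.Cut3
import Pool.Agent.TH454.BW.Asy
import Pool.Agent.H607R2.BW.ORD

/-!
# Sparse configurations in hypergraphs of small width
-/

set_option autoImplicit false

namespace Pool.Agent.TH454.BW

open Pool.Agent.H607R2.BW

/-- many edges of a hypergraph of small width give `k` edges on few vertices -/
theorem bes_of_width (r m w k p : ℕ) (E : Finset (Finset (Str m))) (hr : 3 ≤ r)
    (hE : ∀ s ∈ E, s.card = r) (hW : HyperWidth r w E) (hk : r.factorial * k ≤ p ^ 3)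
    (hp : 2 ≤ p) (hm : 1 ≤ m)
    (hcard : (m * (2 ^ r * w)) * (m * (2 ^ r * w)) * ((p - 1) ^ 3 * 2 ^ (m - 1)) <
      r.factorial * E.card) :
    ∃ T ⊆ E, T.card = k ∧ (T.biUnion id).card ≤ (r - 3) * k + 3 * p ^ 2 := by
  classical
  have hW' := hW
  unfold HyperWidth at hW'
  have hw1 : 1 ≤ w := by
    obtain ⟨_, s0, _⟩ := hW'
    exact Nat.one_le_iff_ne_zero.2 (by rintro rfl; exact s0.elim0)
  obtain ⟨σ, T, s₀, acc, hT, hR⟩ := trellis_of_width hW'
  rw [Fintype.card_fin] at hT
  -- the number of accepted words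
  have hcount : r.factorial * E.card ≤ (suf T acc 0 m s₀).card := by
    have h1 := t_ORD m r E hE
    rw [← h1]
    have hinj : Function.Injective
        (fun x : {x : Fin r → Str m // Function.Injective x ∧ Finset.univ.image x ∈ E} =>
        (⟨word x.1, by
          rw [mem_suf]
          exact ⟨by simp [word], (hR x.1).1 (by convert x.2)⟩⟩ :
            {l // l ∈ suf T acc 0 m s₀})) := by
      intro x y hxy
      have h3 : word x.1 = word y.1 := congrArg Subtype.val hxy
      have h4 := List.ofFn_injective h3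
      apply Subtype.ext
      funext j t
      exact congrFun (congrFun h4 t) j
    have h5 := Nat.card_le_card_of_injective _ hinj
    have h6 : Nat.card {l // l ∈ suf T acc 0 m s₀} = (suf T acc 0 m s₀).card := by
      rw [Nat.card_eq_fintype_card, Fintype.card_coe]
    rw [h6] at h5
    exact h5
  -- the cut
  obtain ⟨q₁, q₂, q₃, hq, s₁, s₂, hc1, hc2, hc3⟩ := exists_cut3 T (2 ^ r * w) m hT s₀ acc
    (p - 1) (p - 1) (p - 1) hm (Nat.mul_pos (by positivity) hw1) (by omega) (by omega) (by omega)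
    (by
      refine lt_of_lt_of_le (lt_of_le_of_lt (le_of_eq ?_) hcard) hcount
      ring)
  let j1 : Fin r := ⟨0, by omega⟩
  let j2 : Fin r := ⟨1, by omega⟩
  let j3 : Fin r := ⟨2, by omega⟩
  obtain ⟨u, hu, hu1, yu, hyu⟩ := exists_star _ q₁ p (fun l hl => ((mem_pre _).1 hl).1) hc1 j1
  obtain ⟨v, hv, hv1, yv, hyv⟩ := exists_star _ q₂ p (fun l hl => ((mem_pre _).1 hl).1) hc2 j2
  obtain ⟨z, hz, hz1, yz, hyz⟩ := exists_star _ q₃ p (fun l hl => ((mem_suf _).1 hl).1) hc3 j3
  have lu : ∀ i, (u i).length = q₁ := fun i => ((mem_pre _).1 (hu1 i)).1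
  have lv : ∀ i, (v i).length = q₂ := fun i => ((mem_pre _).1 (hv1 i)).1
  have lz : ∀ i, (z i).length = q₃ := fun i => ((mem_suf _).1 (hz1 i)).1
  let W : Fin p × Fin p × Fin p → List (Fin r → Bool) := fun a => u a.1 ++ (v a.2.1 ++ z a.2.2)
  have hWl : ∀ a, (W a).length = m := by
    intro a
    simp only [W, List.length_append, lu, lv, lz]
    omega
  have hWinj : Function.Injective W := by
    intro a a' h
    have h1 := List.append_inj h (by rw [lu, lu])
    have h2 := List.append_inj h1.2 (by rw [lv, lv])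
    exact Prod.ext (hu h1.1) (Prod.ext (hv h2.1) (hz h2.2))
  have hacc : ∀ a, Function.Injective (strs m (W a)) ∧ Finset.univ.image (strs m (W a)) ∈ E := by
    intro a
    have h1 : (fun x : Fin r → Str m => Function.Injective x ∧ Finset.univ.image x ∈ E)
        (strs m (W a)) := by
      refine (hR _).2 ?_
      rw [word_strs _ (hWl a)]
      have h2 := ((mem_pre _).1 (hu1 a.1)).2
      have h3 := ((mem_pre _).1 (hv1 a.2.1)).2
      obtain ⟨_, s', hs', h4⟩ := (mem_suf _).1 (hz1 a.2.2)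
      refine ⟨s', hs', ?_⟩
      rw [path_append]
      refine ⟨s₁, h2, ?_⟩
      rw [lu, zero_add, path_append]
      refine ⟨s₂, ?_, ?_⟩
      · rw [path_shift] at h3
        exact h3
      · rw [lv]
        exact h4
    exact h1
  -- the edges
  let ed : Fin p × Fin p × Fin p → Finset (Str m) := fun a => Finset.univ.image (strs m (W a))
  set E' : Finset (Finset (Str m)) := Finset.univ.image ed with hE'
  have hE'E : E' ⊆ E := by
    intro s hs
    obtain ⟨a, _, rfl⟩ := Finset.mem_image.1 hs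
    exact (hacc a).2
  have hE'card : k ≤ E'.card := by
    have h1 := t_ORD m r E' (fun s hs => hE s (hE'E hs))
    have hinj : Function.Injective (fun a : Fin p × Fin p × Fin p =>
        (⟨strs m (W a), (hacc a).1, Finset.mem_image.2 ⟨a, Finset.mem_univ _, rfl⟩⟩ :
          {x : Fin r → Str m // Function.Injective x ∧ Finset.univ.image x ∈ E'})) := by
      intro a a' h
      have h2 : strs m (W a) = strs m (W a') := congrArg Subtype.val h
      exact hWinj (strs_inj (hWl a) (hWl a') h2)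
    have h2 := Nat.card_le_card_of_injective _ hinj
    have h3 : Nat.card (Fin p × Fin p × Fin p) = p ^ 3 := by
      rw [Nat.card_eq_fintype_card]
      simp only [Fintype.card_prod, Fintype.card_fin]
      ring
    have h4 : Nat.card {x : Fin r → Str m // Function.Injective x ∧ Finset.univ.image x ∈ E'} =
        r.factorial * E'.card := by
      convert h1
    rw [h3, h4] at h2
    exact Nat.le_of_mul_le_mul_left (hk.trans h2) (Nat.factorial_pos r)
  obtain ⟨S, hSE', hSk⟩ := Finset.exists_subset_card_eq hE'card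
  refine ⟨S, hSE'.trans hE'E, hSk, ?_⟩
  -- representatives
  have hrep : ∀ e : Finset (Str m), ∃ a : Fin p × Fin p × Fin p, e ∈ S → ed a = e := by
    intro e
    by_cases he : e ∈ S
    · obtain ⟨a, _, ha⟩ := Finset.mem_image.1 (hSE' he)
      exact ⟨a, fun _ => ha⟩
    · exact ⟨(⟨0, by omega⟩, ⟨0, by omega⟩, ⟨0, by omega⟩), fun h => absurd h he⟩
  choose rep hrep using hrep
  let zero : Fin p := ⟨0, by omega⟩
  let V1 : Finset (Str m) := Finset.univ.image (fun a : Fin p × Fin p =>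
    strs m (W (zero, a.1, a.2)) j1)
  let V2 : Finset (Str m) := Finset.univ.image (fun a : Fin p × Fin p =>
    strs m (W (a.1, zero, a.2)) j2)
  let V3 : Finset (Str m) := Finset.univ.image (fun a : Fin p × Fin p =>
    strs m (W (a.1, a.2, zero)) j3)
  let J : Finset (Fin r) := ((Finset.univ.erase j1).erase j2).erase j3
  have hJ : J.card = r - 3 := by
    have h12 : j2 ≠ j1 := by intro h; have := congrArg Fin.val h; simp [j1, j2] at this
    have h13 : j3 ≠ j1 := by intro h; have := congrArg Fin.val h; simp [j1, j3] at this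
    have h23 : j3 ≠ j2 := by intro h; have := congrArg Fin.val h; simp [j2, j3] at this
    simp only [J]
    rw [Finset.card_erase_of_mem, Finset.card_erase_of_mem, Finset.card_erase_of_mem,
      Finset.card_univ, Fintype.card_fin]
    · omega
    · exact Finset.mem_univ _
    · exact Finset.mem_erase.2 ⟨h12, Finset.mem_univ _⟩
    · exact Finset.mem_erase.2 ⟨h23, Finset.mem_erase.2 ⟨h13, Finset.mem_univ _⟩⟩
  have hV : ∀ V : Fin p × Fin p → Str m, (Finset.univ.image V).card ≤ p ^ 2 := by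
    intro V
    refine le_trans Finset.card_image_le ?_
    rw [Finset.card_univ, Fintype.card_prod, Fintype.card_fin]
    exact le_of_eq (by ring)
  have hsub : S.biUnion id ⊆ (V1 ∪ (V2 ∪ V3)) ∪
      S.biUnion (fun e => J.image (strs m (W (rep e)))) := by
    intro x hx
    obtain ⟨e, he, hxe⟩ := Finset.mem_biUnion.1 hx
    have hxe' : x ∈ e := hxe
    rw [← hrep e he] at hxe'
    obtain ⟨i, _, hi⟩ := Finset.mem_image.1 hxe'
    rw [Finset.mem_union]
    by_cases hi1 : i = j1
    · left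
      rw [Finset.mem_union]
      left
      rw [Finset.mem_image]
      refine ⟨((rep e).2.1, (rep e).2.2), Finset.mem_univ _, ?_⟩
      rw [← hi, hi1]
      simp only [strs, W, List.map_append]
      rw [hyu, hyu]
    · by_cases hi2 : i = j2
      · left
        rw [Finset.mem_union, Finset.mem_union]
        right; left
        rw [Finset.mem_image]
        refine ⟨((rep e).1, (rep e).2.2), Finset.mem_univ _, ?_⟩
        rw [← hi, hi2]
        simp only [strs, W, List.map_append]
        rw [hyv, hyv]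
      · by_cases hi3 : i = j3
        · left
          rw [Finset.mem_union, Finset.mem_union]
          right; right
          rw [Finset.mem_image]
          refine ⟨((rep e).1, (rep e).2.1), Finset.mem_univ _, ?_⟩
          rw [← hi, hi3]
          simp only [strs, W, List.map_append]
          rw [hyz, hyz]
        · right
          rw [Finset.mem_biUnion]
          refine ⟨e, he, Finset.mem_image.2 ⟨i, ?_, hi⟩⟩
          exact Finset.mem_erase.2 ⟨hi3, Finset.mem_erase.2 ⟨hi2, Finset.mem_erase.2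
            ⟨hi1, Finset.mem_univ _⟩⟩⟩
  refine le_trans (Finset.card_le_card hsub) ?_
  refine le_trans (Finset.card_union_le _ _) ?_
  have h1 := Finset.card_union_le V1 (V2 ∪ V3)
  have h2 := Finset.card_union_le V2 V3
  have h3 : (S.biUnion (fun e => J.image (strs m (W (rep e))))).card ≤ k * (r - 3) := by
    refine le_trans Finset.card_biUnion_le ?_
    refine le_trans (Finset.sum_le_card_nsmul _ _ (r - 3) ?_) ?_
    · intro e _
      rw [← hJ]
      exact Finset.card_image_le
    · rw [hSk, smul_eq_mul]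
  have h4 := hV (fun a => strs m (W (zero, a.1, a.2)) j1)
  have h5 := hV (fun a => strs m (W (a.1, zero, a.2)) j2)
  have h6 := hV (fun a => strs m (W (a.1, a.2, zero)) j3)
  have h7 : k * (r - 3) = (r - 3) * k := mul_comm _ _
  have h4' : V1.card ≤ p ^ 2 := h4
  have h5' : V2.card ≤ p ^ 2 := h5
  have h6' : V3.card ≤ p ^ 2 := h6
  omega

/-- sizes of the grid -/
theorem exists_side (r k : ℕ) (hk : 1728 * r.factorial ^ 2 ≤ k) :
    ∃ p : ℕ, 2 ≤ p ∧ r.factorial * k ≤ p ^ 3 ∧ 3 * p ^ 2 ≤ k ∧ (p - 1) ^ 3 ≤ r.factorial * k := by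
  have hf : 0 < r.factorial := Nat.factorial_pos r
  have hex : ∃ p : ℕ, r.factorial * k ≤ p ^ 3 := ⟨r.factorial * k, by
    calc r.factorial * k = (r.factorial * k) ^ 1 := (pow_one _).symm
      _ ≤ (r.factorial * k) ^ 3 := by
        apply Nat.pow_le_pow_right _ (by norm_num)
        have : 0 < k := lt_of_lt_of_le (by positivity) hk
        positivity⟩
  classical
  set p := Nat.find hex with hp
  have h1 : r.factorial * k ≤ p ^ 3 := Nat.find_spec hex
  have hk0 : 1728 ≤ k := le_trans (Nat.le_mul_of_pos_right _ (by positivity)) hk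
  have hp2 : 2 ≤ p := by
    by_contra hlt
    have : p ≤ 1 := by omega
    have : p ^ 3 ≤ 1 ^ 3 := Nat.pow_le_pow_left this 3
    have h2 : 1 * 1728 ≤ r.factorial * k := Nat.mul_le_mul hf hk0
    omega
  have h2 : (p - 1) ^ 3 < r.factorial * k := by
    have := Nat.find_min hex (m := p - 1) (by omega)
    omega
  refine ⟨p, hp2, h1, ?_, h2.le⟩
  have h3 : p ^ 3 ≤ 8 * (r.factorial * k) := by
    have h4 : p ≤ 2 * (p - 1) := by omega
    calc p ^ 3 ≤ (2 * (p - 1)) ^ 3 := Nat.pow_le_pow_left h4 3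
      _ = 8 * (p - 1) ^ 3 := by ring
      _ ≤ 8 * (r.factorial * k) := by omega
  have h5 : (3 * p ^ 2) ^ 3 ≤ k ^ 3 := by
    calc (3 * p ^ 2) ^ 3 = 27 * (p ^ 3) ^ 2 := by ring
      _ ≤ 27 * (8 * (r.factorial * k)) ^ 2 := by gcongr
      _ = (1728 * r.factorial ^ 2) * k ^ 2 := by ring
      _ ≤ k * k ^ 2 := Nat.mul_le_mul_right _ hk
      _ = k ^ 3 := by ring
  exact (Nat.pow_le_pow_iff_left (by norm_num)).1 h5

/-- the bound for hypergraphs without `k` edges on `(r - 2) k + 3` vertices -/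
theorem bes_bound (r m w k : ℕ) (E : Finset (Finset (Str m))) (hr : 3 ≤ r)
    (hk : 1728 * r.factorial ^ 2 ≤ k) (hE : ∀ s ∈ E, s.card = r) (hW : HyperWidth r w E)
    (hfree : ∀ T ⊆ E, T.card = k → (r - 2) * k + 3 < (T.biUnion id).card) :
    E.card ≤ 4 ^ r * k * (w * m) ^ 2 * 2 ^ m := by
  obtain ⟨p, hp2, hp1, hp3, hp4⟩ := exists_side r k hk
  have hf : 0 < r.factorial := Nat.factorial_pos r
  rcases Nat.eq_zero_or_pos m with hm | hm
  · subst hm
    have : E = ∅ := by
      by_contra hne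
      obtain ⟨s, hs⟩ := Finset.nonempty_iff_ne_empty.2 hne
      have h1 := hE s hs
      have h2 := Finset.card_le_univ s
      have h3 : Fintype.card (Str 0) = 1 := by simp
      rw [h3, h1] at h2
      omega
    rw [this]
    simp
  by_contra hcon
  push Not at hcon
  obtain ⟨T, hTE, hTk, hTc⟩ := bes_of_width r m w k p E hr hE hW hp1 hp2 hm (by
    calc (m * (2 ^ r * w)) * (m * (2 ^ r * w)) * ((p - 1) ^ 3 * 2 ^ (m - 1))
        ≤ (m * (2 ^ r * w)) * (m * (2 ^ r * w)) * ((r.factorial * k) * 2 ^ m) := by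
          gcongr
          · norm_num
          · omega
      _ = r.factorial * (4 ^ r * k * (w * m) ^ 2 * 2 ^ m) := by
          have : (4 : ℕ) ^ r = 2 ^ r * 2 ^ r := by
            rw [← mul_pow]; norm_num
          rw [this]
          ring
      _ < r.factorial * E.card := Nat.mul_lt_mul_of_pos_left hcon hf)
  have h1 := hfree T hTE hTk
  have h2 : (r - 2) * k = (r - 3) * k + k := by
    obtain ⟨r', rfl⟩ : ∃ r', r = r' + 3 := ⟨r - 3, by omega⟩
    have e1 : r' + 3 - 2 = r' + 1 := by omega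
    have e2 : r' + 3 - 3 = r' := by omega
    rw [e1, e2]
    ring
  omega

theorem asy2 (C : ℕ) (c ε η : ℝ) (hη : 0 < η) (hlt : 2 * c < ε) :
    ∃ m₀ : ℕ, ∀ m w : ℕ, m₀ ≤ m → (w : ℝ) ≤ ((2 : ℝ) ^ m) ^ c →
      (C : ℝ) * (w * m) ^ 2 * 2 ^ m ≤ η * ((2 : ℝ) ^ m) ^ (1 + ε) := by
  set d : ℝ := ε - 2 * c with hd
  have hd0 : 0 < d := by linarith
  have hq : (1 : ℝ) < 2 ^ (d / 2) := Real.one_lt_rpow (by norm_num) (by linarith)
  obtain ⟨m₁, hm₁⟩ := ASY2_poly 2 C _ hq
  obtain ⟨m₂, hm₂⟩ := Filter.eventually_atTop.1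
    ((tendsto_pow_atTop_atTop_of_one_lt hq).eventually_ge_atTop (1 / η))
  refine ⟨max m₁ m₂, fun m w hm hw => ?_⟩
  have hp := hm₁ m ((le_max_left _ _).trans hm)
  have hp2 := hm₂ m ((le_max_right _ _).trans hm)
  rw [ASY2_rp] at hw
  rw [ASY2_rp]
  have e4 : ((2 : ℝ) ^ (d / 2)) ^ m = 2 ^ (d / 2 * m) := by
    rw [← Real.rpow_natCast, ← Real.rpow_mul (by norm_num)]
  have hm0 : (0 : ℝ) ≤ m := Nat.cast_nonneg m
  have hC0 : (0 : ℝ) ≤ C := Nat.cast_nonneg C
  have hw0 : (0 : ℝ) ≤ w := Nat.cast_nonneg w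
  have h1 : (1 : ℝ) ≤ η * (2 ^ (d / 2)) ^ m := by
    have := mul_le_mul_of_nonneg_left hp2 hη.le
    rwa [mul_one_div_cancel hη.ne'] at this
  have hCm : (C : ℝ) * m ^ 2 ≤ (1 + (C : ℝ) * m) ^ 2 := by
    rcases Nat.eq_zero_or_pos C with h | h
    · subst h; simp
    · have : (1 : ℝ) ≤ C := by exact_mod_cast h
      nlinarith [mul_nonneg hC0 hm0, sq_nonneg (m : ℝ), mul_nonneg (sub_nonneg.2 this)
        (mul_nonneg hC0 (sq_nonneg (m : ℝ)))]
  have h2 : (C : ℝ) * m ^ 2 ≤ η * 2 ^ (d * m) := by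
    calc (C : ℝ) * m ^ 2 ≤ 1 * (2 ^ (d / 2)) ^ m := by linarith
      _ ≤ (η * (2 ^ (d / 2)) ^ m) * (2 ^ (d / 2)) ^ m :=
        mul_le_mul_of_nonneg_right h1 (by positivity)
      _ = η * 2 ^ (d * m) := by
        rw [e4, mul_assoc, ← Real.rpow_add (by norm_num)]
        congr 2
        ring
  have hw2 : (w : ℝ) ^ 2 ≤ 2 ^ (2 * c * m) := by
    calc (w : ℝ) ^ 2 ≤ ((2 : ℝ) ^ (c * m)) ^ 2 := by gcongr
      _ = 2 ^ (2 * c * m) := by
        rw [← Real.rpow_natCast, ← Real.rpow_mul (by norm_num)]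
        congr 1
        push_cast
        ring
  calc (C : ℝ) * (w * m) ^ 2 * 2 ^ m = (C * m ^ 2) * w ^ 2 * 2 ^ m := by ring
    _ ≤ (η * 2 ^ (d * m)) * 2 ^ (2 * c * m) * 2 ^ m := by
      apply mul_le_mul_of_nonneg_right _ (by positivity)
      exact mul_le_mul h2 hw2 (by positivity) (by positivity)
    _ = η * 2 ^ ((1 + ε) * m) := by
      rw [mul_assoc, mul_assoc, ← Real.rpow_natCast 2 m, ← Real.rpow_add (by norm_num),
        ← Real.rpow_add (by norm_num)]
      congr 2
      rw [hd]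
      ring

theorem bes_asy (r k : ℕ) (c ε : ℝ) (hr : 3 ≤ r) (hk : 1728 * r.factorial ^ 2 ≤ k)
    (hc : 2 * c < ε) :
    ∃ m₀ : ℕ, ∀ (m w : ℕ) (E : Finset (Finset (Str m))), m₀ ≤ m →
      (w : ℝ) ≤ ((2 : ℝ) ^ m) ^ c → (∀ s ∈ E, s.card = r) → HyperWidth r w E →
      (∀ T ⊆ E, T.card = k → (r - 2) * k + 3 < (T.biUnion id).card) →
      (E.card : ℝ) ≤ ((2 : ℝ) ^ m) ^ (1 + ε) := by
  obtain ⟨m₀, hm₀⟩ := asy2 (4 ^ r * k) c ε 1 one_pos hc
  refine ⟨m₀, fun m w E hm hw hE hW hfree => ?_⟩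
  have h1 := bes_bound r m w k E hr hk hE hW hfree
  have h2 := hm₀ m w hm hw
  have h3 : (E.card : ℝ) ≤ ((4 ^ r * k : ℕ) : ℝ) * (w * m) ^ 2 * 2 ^ m := by exact_mod_cast h1
  linarith

end Pool.Agent.TH454.BW
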