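import Mathlib

/-!
# Small subgraphs with more edges than vertices in dense bipartite relations
-/

set_option autoImplicit false

namespace Pool.Agent.TH454.BW

open Finset

/-- A connected graph in which three different sets of edges have the same boundary has more edges
than vertices. -/
theorem bicyc_core {V E : Type} [Fintype V] [Fintype E] [DecidableEq V] [DecidableEq E]
    (a b : E → V) (v0 : V)
    (hconn : ∀ f : V → ZMod 2, (∀ e, f (a e) = f (b e)) → ∀ v, f v = f v0)
    (c : Fin 3 → E → ZMod 2) (hc : Function.Injective c)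
    (hb : ∀ i j v, ∑ e, ((if a e = v then 1 else 0) + (if b e = v then 1 else 0)) * c i e =
      ∑ e, ((if a e = v then 1 else 0) + (if b e = v then 1 else 0)) * c j e) :
    Fintype.card V + 1 ≤ Fintype.card E := by
  have : Fact (Nat.Prime 2) := ⟨Nat.prime_two⟩
  let A : Matrix V E (ZMod 2) := fun v e =>
    (if a e = v then 1 else 0) + (if b e = v then 1 else 0)
  -- the rank of the transpose
  have h1 : A.transpose.rank + Module.finrank (ZMod 2) (LinearMap.ker A.transpose.mulVecLin) =
      Fintype.card V := by
    have := LinearMap.finrank_range_add_finrank_ker A.transpose.mulVecLin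
    rw [Module.finrank_fintype_fun_eq_card] at this
    exact this
  have h2 : Module.finrank (ZMod 2) (LinearMap.ker A.transpose.mulVecLin) ≤ 1 := by
    let ev : LinearMap.ker A.transpose.mulVecLin →ₗ[ZMod 2] ZMod 2 :=
      (LinearMap.proj v0).comp (Submodule.subtype _)
    have hinj : Function.Injective ev := by
      rw [← LinearMap.ker_eq_bot, LinearMap.ker_eq_bot']
      rintro ⟨f, hf⟩ h0
      have hf0 : f v0 = 0 := h0
      have hfe : ∀ e, f (a e) = f (b e) := by
        intro e
        have h3 := congrFun (LinearMap.mem_ker.1 hf) e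
        simp only [Matrix.mulVecLin_apply, Matrix.mulVec, dotProduct, Matrix.transpose_apply, A,
          Pi.zero_apply, add_mul, ite_mul, one_mul, zero_mul, Finset.sum_add_distrib,
          Finset.sum_ite_eq, Finset.mem_univ, if_true] at h3
        have h4 : f (a e) = - f (b e) := eq_neg_of_add_eq_zero_left h3
        rw [h4, ZMod.neg_eq_self_mod_two]
      apply Subtype.ext
      funext v
      show f v = 0
      rw [hconn f hfe v, hf0]
    have := LinearMap.finrank_le_finrank_of_injective hinj
    rwa [Module.finrank_self] at this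
  -- the kernel
  have h3 : A.rank + Module.finrank (ZMod 2) (LinearMap.ker A.mulVecLin) =
      Fintype.card E := by
    have := LinearMap.finrank_range_add_finrank_ker A.mulVecLin
    rw [Module.finrank_fintype_fun_eq_card] at this
    exact this
  have h4 : 2 ≤ Module.finrank (ZMod 2) (LinearMap.ker A.mulVecLin) := by
    by_contra hlt
    have hcard : Nat.card (LinearMap.ker A.mulVecLin) ≤ 2 := by
      rw [Module.natCard_eq_pow_finrank (K := ZMod 2), Nat.card_zmod]
      calc 2 ^ Module.finrank (ZMod 2) (LinearMap.ker A.mulVecLin) ≤ 2 ^ 1 :=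
            Nat.pow_le_pow_right (by norm_num) (by omega)
        _ = 2 := by norm_num
    have hinj : Function.Injective (fun i : Fin 3 =>
        (⟨c i - c 0, by
          rw [LinearMap.mem_ker, map_sub, sub_eq_zero]
          funext v
          exact hb i 0 v⟩ : LinearMap.ker A.mulVecLin)) := by
      intro i j h
      apply hc
      have := congrArg Subtype.val h
      exact sub_left_injective this
    have := Nat.card_le_card_of_injective _ hinj
    rw [Nat.card_fin] at this
    omega
  rw [Matrix.rank_transpose] at h1
  omega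

section

variable {α γ : Type} [LinearOrder α] [LinearOrder γ]

/-- the edges which can be reached by a move: along the row to the left if `h`, and up the column
otherwise -/
def nxt (h : Bool) (E : Finset (α × γ)) (z : α × γ) : Finset (α × γ) :=
  if h then E.filter (fun w => w.1 = z.1 ∧ w.2 < z.2) else E.filter (fun w => w.2 = z.2 ∧ z.1 < w.1)

theorem nxt_sub (h : Bool) (E : Finset (α × γ)) (z : α × γ) : nxt h E z ⊆ E := by
  unfold nxt
  split_ifs <;> exact Finset.filter_subset _ _

/-- the edges with at least `D` moves, repeatedly; `odd k` decides the direction -/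
def lev (B : Finset (α × γ)) (D : ℕ) : ℕ → Finset (α × γ)
  | 0 => B
  | k + 1 => B.filter (fun z => D ≤ (nxt (k % 2 == 0) (lev B D k) z).card)

theorem lev_sub (B : Finset (α × γ)) (D : ℕ) (k : ℕ) : lev B D k ⊆ B := by
  cases k with
  | zero => exact Finset.Subset.refl _
  | succ k => exact Finset.filter_subset _ _

/-- few elements have fewer than `D` moves -/
theorem few_moves (h : Bool) (E : Finset (α × γ)) (D N : ℕ) (U : Finset α) (V : Finset γ)
    (hU : ∀ z ∈ E, z.1 ∈ U) (hV : ∀ z ∈ E, z.2 ∈ V) (hUN : U.card ≤ N) (hVN : V.card ≤ N) :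
    (E.filter (fun z => (nxt h E z).card < D)).card ≤ D * N := by
  classical
  cases h with
  | true =>
    have hinj : Set.InjOn (fun z : α × γ => ((nxt true E z).card, z.1))
        (E.filter (fun z => (nxt true E z).card < D)) := by
      intro z hz z' hz' heq
      simp only [Finset.coe_filter, Set.mem_ofPred_eq] at hz hz'
      simp only [Prod.mk.injEq] at heq
      refine Prod.ext heq.2 ?_
      have key : ∀ z z' : α × γ, z ∈ E → z.1 = z'.1 → z.2 < z'.2 →
          (nxt true E z).card < (nxt true E z').card := by
        intro z z' hz h1 h2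
        apply Finset.card_lt_card
        rw [Finset.ssubset_iff_of_subset]
        · refine ⟨z, ?_, ?_⟩
          · simp only [nxt, if_true, Finset.mem_filter]
            exact ⟨hz, h1, h2⟩
          · simp [nxt]
        · intro w hw
          simp only [nxt, if_true, Finset.mem_filter] at hw ⊢
          exact ⟨hw.1, hw.2.1.trans h1, hw.2.2.trans h2⟩
      rcases lt_trichotomy z.2 z'.2 with h | h | h
      · have := key z z' hz.1 heq.2 h
        omega
      · exact h
      · have := key z' z hz'.1 heq.2.symm h
        omega
    refine le_trans (Finset.card_le_card_of_injOn (t := Finset.range D ×ˢ U) _ ?_ hinj) ?_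
    · intro z hz
      simp only [Finset.coe_filter, Set.mem_ofPred_eq] at hz
      simp only [Finset.coe_product, Finset.coe_range, Set.mem_prod, Set.mem_Iio,
        Finset.mem_coe]
      exact ⟨hz.2, hU z hz.1⟩
    · rw [Finset.card_product, Finset.card_range]
      exact Nat.mul_le_mul_left _ hUN
  | false =>
    have hinj : Set.InjOn (fun z : α × γ => ((nxt false E z).card, z.2))
        (E.filter (fun z => (nxt false E z).card < D)) := by
      intro z hz z' hz' heq
      simp only [Finset.coe_filter, Set.mem_ofPred_eq] at hz hz'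
      simp only [Prod.mk.injEq] at heq
      refine Prod.ext ?_ heq.2
      have key : ∀ z z' : α × γ, z ∈ E → z.2 = z'.2 → z'.1 < z.1 →
          (nxt false E z).card < (nxt false E z').card := by
        intro z z' hz h1 h2
        apply Finset.card_lt_card
        rw [Finset.ssubset_iff_of_subset]
        · refine ⟨z, ?_, ?_⟩
          · simp only [nxt, Bool.false_eq_true, if_false, Finset.mem_filter]
            exact ⟨hz, h1, h2⟩
          · simp [nxt]
        · intro w hw
          simp only [nxt, Bool.false_eq_true, if_false, Finset.mem_filter] at hw ⊢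
          exact ⟨hw.1, hw.2.1.trans h1, h2.trans hw.2.2⟩
      rcases lt_trichotomy z.1 z'.1 with h | h | h
      · have := key z' z hz'.1 heq.2.symm h
        omega
      · exact h
      · have := key z z' hz.1 heq.2 h
        omega
    refine le_trans (Finset.card_le_card_of_injOn (t := Finset.range D ×ˢ V) _ ?_ hinj) ?_
    · intro z hz
      simp only [Finset.coe_filter, Set.mem_ofPred_eq] at hz
      simp only [Finset.coe_product, Finset.coe_range, Set.mem_prod, Set.mem_Iio,
        Finset.mem_coe]
      exact ⟨hz.2, hV z hz.1⟩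
    · rw [Finset.card_product, Finset.card_range]
      exact Nat.mul_le_mul_left _ hVN

theorem lev_card (B : Finset (α × γ)) (D N : ℕ) (U : Finset α) (V : Finset γ)
    (hU : ∀ z ∈ B, z.1 ∈ U) (hV : ∀ z ∈ B, z.2 ∈ V) (hUN : U.card ≤ N) (hVN : V.card ≤ N)
    (k : ℕ) : B.card ≤ (lev B D k).card + k * (D * N) := by
  classical
  induction k with
  | zero => simp [lev]
  | succ k ih =>
    have hsub : lev B D k ⊆ lev B D (k + 1) ∪
        (lev B D k).filter (fun z => (nxt (k % 2 == 0) (lev B D k) z).card < D) := by
      intro z hz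
      rw [Finset.mem_union]
      by_cases h : D ≤ (nxt (k % 2 == 0) (lev B D k) z).card
      · left
        simp only [lev, Finset.mem_filter]
        exact ⟨lev_sub B D k hz, h⟩
      · right
        rw [Finset.mem_filter]
        exact ⟨hz, by omega⟩
    have h1 := Finset.card_le_card hsub
    have h2 := Finset.card_union_le (lev B D (k + 1))
      ((lev B D k).filter (fun z => (nxt (k % 2 == 0) (lev B D k) z).card < D))
    have h3 := few_moves (k % 2 == 0) (lev B D k) D N U V (fun z hz => hU z (lev_sub B D k hz))
      (fun z hz => hV z (lev_sub B D k hz)) hUN hVN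
    have : (k + 1) * (D * N) = k * (D * N) + D * N := by ring
    omega

open Classical in
/-- the edge sets of the paths with `k` moves from `z` -/
noncomputable def pths (B : Finset (α × γ)) (D : ℕ) : ℕ → α × γ → Finset (Finset (α × γ))
  | 0, z => {{z}}
  | k + 1, z => (nxt (k % 2 == 0) (lev B D k) z).biUnion
      (fun w => (pths B D k w).image (fun S => insert z S))

/-- the boundary of a set of edges -/
def bd [DecidableEq α] [DecidableEq γ] (S : Finset (α × γ)) (v : α ⊕ γ) : ZMod 2 :=
  ∑ e ∈ S, ((if Sum.inl e.1 = v then 1 else 0) + (if Sum.inr e.2 = v then 1 else 0))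

/-- the first vertex of a path -/
def startV (k : ℕ) (z : α × γ) : α ⊕ γ := if k % 2 = 1 then Sum.inr z.2 else Sum.inl z.1

/-- properties of the paths -/
structure PathProp (B : Finset (α × γ)) (k : ℕ) (z : α × γ) (S : Finset (α × γ)) : Prop where
  mem : z ∈ S
  sub : S ⊆ B
  card : S.card ≤ k + 1
  le1 : ∀ s ∈ S, z.1 ≤ s.1
  le2 : ∀ s ∈ S, s.2 ≤ z.2
  bdy : ∃ y ∈ S.image Prod.snd, ∀ v, bd S v =
    (if startV k z = v then 1 else 0) + (if Sum.inr y = v then 1 else 0)
  conn : ∀ f : α ⊕ γ → ZMod 2, (∀ e ∈ S, f (Sum.inl e.1) = f (Sum.inr e.2)) →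
    ∀ e ∈ S, f (Sum.inl e.1) = f (Sum.inl z.1)

theorem two_add (x y w : ZMod 2) : (x + y) + (x + w) = y + w := by
  have : (x + y) + (x + w) = (x + x) + (y + w) := by ring
  rw [this, CharTwo.add_self_eq_zero, zero_add]

theorem pths_prop (B : Finset (α × γ)) (D : ℕ) : ∀ (k : ℕ) (z : α × γ), z ∈ lev B D k →
    (∀ S ∈ pths B D k z, PathProp B k z S) ∧ D ^ k ≤ (pths B D k z).card := by
  classical
  intro k
  induction k with
  | zero =>
    intro z hz
    refine ⟨?_, by simp [pths]⟩
    intro S hS
    simp only [pths, Finset.mem_singleton] at hS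
    subst hS
    refine ⟨by simp, by simpa [lev] using hz, by simp, by simp, by simp, ?_, ?_⟩
    · refine ⟨z.2, by simp, fun v => ?_⟩
      simp [bd, startV]
    · intro f _ e he
      rw [Finset.mem_singleton] at he
      rw [he]
  | succ k ih =>
    intro z hz
    have hzB : z ∈ B := lev_sub B D _ hz
    have hD : D ≤ (nxt (k % 2 == 0) (lev B D k) z).card := by
      simp only [lev, Finset.mem_filter] at hz
      exact hz.2
    -- a member of the next family does not contain `z`
    have hw : ∀ w ∈ nxt (k % 2 == 0) (lev B D k) z, w ∈ lev B D k := fun w hw => nxt_sub _ _ _ hw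
    have hnot : ∀ w ∈ nxt (k % 2 == 0) (lev B D k) z, ∀ S ∈ pths B D k w, z ∉ S := by
      intro w hw' S hS hzS
      have hp := (ih w (hw w hw')).1 S hS
      unfold nxt at hw'
      split_ifs at hw' with hpar
      · rw [Finset.mem_filter] at hw'
        exact absurd (hp.le2 z hzS) (not_le.2 hw'.2.2)
      · rw [Finset.mem_filter] at hw'
        exact absurd (hp.le1 z hzS) (not_le.2 hw'.2.2)
    constructor
    · intro S hS
      simp only [pths, Finset.mem_biUnion, Finset.mem_image] at hS
      obtain ⟨w, hw', S', hS', rfl⟩ := hS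
      have hp := (ih w (hw w hw')).1 S' hS'
      have hz' := hnot w hw' S' hS'
      obtain ⟨y, hy, hbd⟩ := hp.bdy
      have hle : z.1 ≤ w.1 ∧ w.2 ≤ z.2 := by
        unfold nxt at hw'
        split_ifs at hw' with hpar
        · rw [Finset.mem_filter] at hw'
          exact ⟨le_of_eq hw'.2.1.symm, hw'.2.2.le⟩
        · rw [Finset.mem_filter] at hw'
          exact ⟨hw'.2.2.le, le_of_eq hw'.2.1⟩
      refine ⟨Finset.mem_insert_self _ _, ?_, ?_, ?_, ?_, ?_, ?_⟩
      · exact Finset.insert_subset hzB hp.sub
      · rw [Finset.card_insert_of_notMem hz']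
        have := hp.card
        omega
      · intro s hs
        rcases Finset.mem_insert.1 hs with rfl | hs
        · exact le_rfl
        · exact hle.1.trans (hp.le1 s hs)
      · intro s hs
        rcases Finset.mem_insert.1 hs with rfl | hs
        · exact le_rfl
        · exact (hp.le2 s hs).trans hle.2
      · refine ⟨y, ?_, fun v => ?_⟩
        · rw [Finset.image_insert]
          exact Finset.mem_insert_of_mem hy
        · have hb : bd (insert z S') v =
              ((if Sum.inl z.1 = v then 1 else 0) + (if Sum.inr z.2 = v then 1 else 0)) +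
                bd S' v := by
            unfold bd
            rw [Finset.sum_insert hz']
          rw [hb, hbd v]
          unfold nxt at hw'
          by_cases hpar : k % 2 = 0
          · have e1 : (k % 2 == 0) = true := by simp [hpar]
            rw [e1] at hw'
            simp only [if_true, Finset.mem_filter] at hw'
            have e2 : startV k w = Sum.inl z.1 := by
              unfold startV
              rw [if_neg (by omega), hw'.2.1]
            have e3 : startV (k + 1) z = Sum.inr z.2 := by
              unfold startV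
              rw [if_pos (by omega)]
            rw [e2, e3]
            exact two_add _ _ _
          · have e1 : (k % 2 == 0) = false := by simp [hpar]
            rw [e1] at hw'
            simp only [Bool.false_eq_true, if_false, Finset.mem_filter] at hw'
            have e2 : startV k w = Sum.inr z.2 := by
              unfold startV
              rw [if_pos (by omega), hw'.2.1]
            have e3 : startV (k + 1) z = Sum.inl z.1 := by
              unfold startV
              rw [if_neg (by omega)]
            rw [e2, e3, add_comm (if Sum.inl z.1 = v then (1 : ZMod 2) else 0)]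
            exact two_add _ _ _
      · intro f hf e he
        have hfz := hf z (Finset.mem_insert_self _ _)
        have hfw := hf w (Finset.mem_insert_of_mem hp.mem)
        have hzw : f (Sum.inl w.1) = f (Sum.inl z.1) := by
          unfold nxt at hw'
          split_ifs at hw' with hpar
          · rw [Finset.mem_filter] at hw'
            rw [hw'.2.1]
          · rw [Finset.mem_filter] at hw'
            rw [hfw, hw'.2.1, hfz]
        rcases Finset.mem_insert.1 he with rfl | he
        · rfl
        · rw [hp.conn f (fun e he => hf e (Finset.mem_insert_of_mem he)) e he, hzw]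
    · -- the number of paths
      simp only [pths]
      rw [Finset.card_biUnion]
      · calc D ^ (k + 1) = D * D ^ k := by ring
          _ ≤ (nxt (k % 2 == 0) (lev B D k) z).card * D ^ k := Nat.mul_le_mul_right _ hD
          _ = ∑ _w ∈ nxt (k % 2 == 0) (lev B D k) z, D ^ k := by
            rw [Finset.sum_const, smul_eq_mul]
          _ ≤ _ := by
            refine Finset.sum_le_sum fun w hw' => ?_
            rw [Finset.card_image_of_injOn]
            · exact (ih w (hw w hw')).2
            · intro S hS S' hS' h
              have h1 := hnot w hw' S hS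
              have h2 := hnot w hw' S' hS'
              have h3 : insert z S = insert z S' := h
              rw [← Finset.erase_insert h1, ← Finset.erase_insert h2, h3]
      · intro w hw1 w' hw2 hne
        show Disjoint _ _
        rw [Finset.disjoint_left]
        intro S hS hS'
        obtain ⟨S1, hS1, rfl⟩ := Finset.mem_image.1 hS
        obtain ⟨S2, hS2, he⟩ := Finset.mem_image.1 hS'
        have h1 := hnot w hw1 S1 hS1
        have h2 := hnot w' hw2 S2 hS2
        have h3 : S1 = S2 := by
          rw [← Finset.erase_insert h1, ← Finset.erase_insert h2, he]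
        subst h3
        have p1 := (ih w (hw w hw1)).1 S1 hS1
        have p2 := (ih w' (hw w' hw2)).1 S1 hS2
        apply hne
        exact Prod.ext (le_antisymm (p1.le1 _ p2.mem) (p2.le1 _ p1.mem))
          (le_antisymm (p2.le2 _ p1.mem) (p1.le2 _ p2.mem))

/-- a dense relation contains a small set of edges with fewer vertices than edges -/
theorem exists_bicyc (B : Finset (α × γ)) (D N L : ℕ) (U : Finset α) (V : Finset γ)
    (hU : ∀ z ∈ B, z.1 ∈ U) (hV : ∀ z ∈ B, z.2 ∈ V) (hUN : U.card ≤ N) (hVN : V.card ≤ N)
    (hB : L * (D * N) < B.card) (hD : 2 * N < D ^ L) :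
    ∃ S ⊆ B, S.card ≤ 3 * (L + 1) ∧
      (S.image Prod.fst).card + (S.image Prod.snd).card + 1 ≤ S.card := by
  classical
  have h1 := lev_card B D N U V hU hV hUN hVN L
  have h2 : (lev B D L).Nonempty := by
    rw [← Finset.card_pos]; omega
  obtain ⟨z, hz⟩ := h2
  obtain ⟨hprop, hcard⟩ := pths_prop B D L z hz
  -- the last vertex
  have hlast : ∀ S : Finset (α × γ), ∃ y : γ, S ∈ pths B D L z → (y ∈ V ∧ ∀ v, bd S v =
      (if startV L z = v then 1 else 0) + (if Sum.inr y = v then 1 else 0)) := by
    intro S
    by_cases hS : S ∈ pths B D L z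
    · obtain ⟨y, hy, hb⟩ := (hprop S hS).bdy
      refine ⟨y, fun _ => ⟨?_, hb⟩⟩
      obtain ⟨e, he, rfl⟩ := Finset.mem_image.1 hy
      exact hV e ((hprop S hS).sub he)
    · exact ⟨z.2, fun h => absurd h hS⟩
  choose en hen using hlast
  obtain ⟨y, _, hy⟩ := Finset.exists_lt_card_fiber_of_mul_lt_card_of_maps_to
    (s := pths B D L z) (t := V) (f := en) (n := 2) (fun S hS => (hen S hS).1) (by
      have : V.card * 2 ≤ 2 * N := by omega
      omega)
  obtain ⟨S1, S2, S3, hS1, hS2, hS3, h12, h13, h23⟩ := Finset.two_lt_card_iff.1 hy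
  rw [Finset.mem_filter] at hS1 hS2 hS3
  let c : Fin 3 → Finset (α × γ) := ![S1, S2, S3]
  have hc : ∀ i, c i ∈ pths B D L z ∧ en (c i) = y := by
    intro i
    fin_cases i
    · exact hS1
    · exact hS2
    · exact hS3
  have hcinj : Function.Injective c := by
    intro i j h
    fin_cases i <;> fin_cases j <;> simp_all [c] <;> first | exact absurd h.symm h12 | exact absurd h.symm h13 | exact absurd h.symm h23 | skip
  set S : Finset (α × γ) := Finset.univ.biUnion c with hS
  have hcS : ∀ i, c i ⊆ S := fun i => Finset.subset_biUnion_of_mem c (Finset.mem_univ i)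
  refine ⟨S, ?_, ?_, ?_⟩
  · intro e he
    obtain ⟨i, _, hi⟩ := Finset.mem_biUnion.1 he
    exact (hprop _ (hc i).1).sub hi
  · refine le_trans Finset.card_biUnion_le ?_
    refine le_trans (Finset.sum_le_card_nsmul _ _ (L + 1) (fun i _ => (hprop _ (hc i).1).card)) ?_
    simp
  · -- the core lemma
    let VS : Finset (α ⊕ γ) := (S.image Prod.fst).disjSum (S.image Prod.snd)
    have hVS : VS.card = (S.image Prod.fst).card + (S.image Prod.snd).card :=
      Finset.card_disjSum _ _
    have ha : ∀ e : {e // e ∈ S}, Sum.inl e.1.1 ∈ VS := fun e =>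
      Finset.inl_mem_disjSum.2 (Finset.mem_image_of_mem _ e.2)
    have hb : ∀ e : {e // e ∈ S}, Sum.inr e.1.2 ∈ VS := fun e =>
      Finset.inr_mem_disjSum.2 (Finset.mem_image_of_mem _ e.2)
    have hzS : z ∈ S := hcS 0 (hprop _ (hc 0).1).mem
    have key := bicyc_core (V := {v // v ∈ VS}) (E := {e // e ∈ S})
      (fun e => ⟨Sum.inl e.1.1, ha e⟩) (fun e => ⟨Sum.inr e.1.2, hb e⟩)
      ⟨Sum.inl z.1, ha ⟨z, hzS⟩⟩ ?_ (fun i e => if e.1 ∈ c i then 1 else 0) ?_ ?_
    · rw [Fintype.card_coe, Fintype.card_coe, hVS] at key
      exact key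
    · -- connectedness
      intro f hf v
      let g : α ⊕ γ → ZMod 2 := fun v => if hv : v ∈ VS then f ⟨v, hv⟩ else 0
      have hg : ∀ (v : α ⊕ γ) (hv : v ∈ VS), g v = f ⟨v, hv⟩ := fun v hv => by
        simp only [g]; rw [dif_pos hv]
      have hge : ∀ e ∈ S, g (Sum.inl e.1) = g (Sum.inr e.2) := by
        intro e he
        rw [hg _ (ha ⟨e, he⟩), hg _ (hb ⟨e, he⟩)]
        exact hf ⟨e, he⟩
      have hall : ∀ e ∈ S, g (Sum.inl e.1) = g (Sum.inl z.1) := by
        intro e he
        obtain ⟨i, _, hi⟩ := Finset.mem_biUnion.1 he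
        exact (hprop _ (hc i).1).conn g (fun e he => hge e (hcS i he)) e hi
      have hv := v.2
      have hgoal : g v.1 = g (Sum.inl z.1) := by
        rcases Finset.mem_disjSum.1 hv with ⟨x, hx, hxv⟩ | ⟨x, hx, hxv⟩
        · obtain ⟨e, he, rfl⟩ := Finset.mem_image.1 hx
          rw [← hxv]
          exact hall e he
        · obtain ⟨e, he, rfl⟩ := Finset.mem_image.1 hx
          rw [← hxv, ← hge e he]
          exact hall e he
      rw [hg _ v.2, hg _ (ha ⟨z, hzS⟩)] at hgoal
      exact hgoal
    · -- the three sets are different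
      intro i j hij
      apply hcinj
      ext e
      by_cases he : e ∈ S
      · have := congrFun hij ⟨e, he⟩
        by_cases h1 : e ∈ c i <;> by_cases h2 : e ∈ c j <;> simp_all
      · constructor
        · intro h; exact absurd (hcS i h) he
        · intro h; exact absurd (hcS j h) he
    · -- the boundaries agree
      have hbdc : ∀ (i : Fin 3) (v : {v // v ∈ VS}), ∑ e : {e // e ∈ S},
          ((if (⟨Sum.inl e.1.1, ha e⟩ : {v // v ∈ VS}) = v then (1 : ZMod 2) else 0) +
            (if (⟨Sum.inr e.1.2, hb e⟩ : {v // v ∈ VS}) = v then 1 else 0)) *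
            (if e.1 ∈ c i then 1 else 0) = bd (c i) v.1 := by
        intro i v
        unfold bd
        have e1 : ∑ e ∈ c i, (((if Sum.inl e.1 = v.1 then (1 : ZMod 2) else 0) +
            (if Sum.inr e.2 = v.1 then 1 else 0))) = ∑ e ∈ S,
            (((if Sum.inl e.1 = v.1 then (1 : ZMod 2) else 0) +
            (if Sum.inr e.2 = v.1 then 1 else 0))) * (if e ∈ c i then 1 else 0) := by
          rw [← Finset.sum_subset (hcS i)]
          · refine Finset.sum_congr rfl fun e he => ?_
            rw [if_pos he, mul_one]
          · intro e _ he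
            rw [if_neg he, mul_zero]
        rw [e1]
        refine Eq.trans ?_ (Finset.sum_coe_sort S (fun e =>
            (((if Sum.inl e.1 = v.1 then (1 : ZMod 2) else 0) +
            (if Sum.inr e.2 = v.1 then 1 else 0))) * (if e ∈ c i then 1 else 0)))
        refine Finset.sum_congr rfl fun e _ => ?_
        simp only [Subtype.ext_iff]
      intro i j v
      rw [hbdc i v, hbdc j v, (hen _ (hc i).1).2 v.1, (hen _ (hc j).1).2 v.1, (hc i).2, (hc j).2]

/-- `exists_bicyc` for all decidability instances -/
theorem exists_bicyc' [i1 : DecidableEq α] [i2 : DecidableEq γ] (B : Finset (α × γ)) (D N L : ℕ)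
    (U : Finset α) (V : Finset γ)
    (hU : ∀ z ∈ B, z.1 ∈ U) (hV : ∀ z ∈ B, z.2 ∈ V) (hUN : U.card ≤ N) (hVN : V.card ≤ N)
    (hB : L * (D * N) < B.card) (hD : 2 * N < D ^ L) :
    ∃ S ⊆ B, S.card ≤ 3 * (L + 1) ∧
      (@Finset.image _ _ i1 Prod.fst S).card + (@Finset.image _ _ i2 Prod.snd S).card + 1 ≤
        S.card := by
  obtain ⟨S, h1, h2, h3⟩ := exists_bicyc B D N L U V hU hV hUN hVN hB hD
  refine ⟨S, h1, h2, ?_⟩
  have e1 : i1 = LinearOrder.toDecidableEq := Subsingleton.elim _ _
  have e2 : i2 = LinearOrder.toDecidableEq := Subsingleton.elim _ _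
  rw [e1, e2]
  exact h3

end

end Pool.Agent.TH454.BW
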