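import Pool.Agent.TH454.BW.NormFree
import Pool.Agent.TH454.BW.Asy

/-!
# Norm graphs show that the width exponent is sharp
-/

set_option autoImplicit false

namespace Pool.Agent.TH454.BW

open Pool.Agent.H607R2.BW

theorem kst_sharp (s t l : ℕ) (hs : 2 ≤ s) (ht : (s - 1).factorial < t) (hl : 2 ≤ l) :
    ∃ (w : ℕ) (G : SimpleGraph (Str (s * l))), GraphWidth w G ∧
      (completeBipartiteGraph (Fin s) (Fin t)).Free G ∧
      (w : ℝ) ≤ 4 * ((2 : ℝ) ^ (s * l)) ^ (1 - 1 / (s : ℝ)) ∧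
      1 / 8 * ((2 : ℝ) ^ (s * l)) ^ (2 - 1 / (s : ℝ)) ≤ Nat.card G.edgeSet := by
  obtain ⟨m, rfl⟩ : ∃ m, s = m + 1 := ⟨s - 1, by omega⟩
  have hm : 1 ≤ m := by omega
  rw [Nat.add_sub_cancel] at ht
  have e : (m + 1) * l = m * l + l := by ring
  rw [e]
  obtain ⟨G, hw, hfree, hcard⟩ := exists_norm_graph m l hm hl
  have hs0 : ((m + 1 : ℕ) : ℝ) ≠ 0 := by positivity
  refine ⟨_, G, hw, hfree t ht, ?_, ?_⟩
  · have h1 : ((2 : ℝ) ^ (m * l + l)) ^ (1 - 1 / ((m + 1 : ℕ) : ℝ)) = 2 ^ (m * l) := by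
      rw [ASY2_rp, ← Real.rpow_natCast]
      congr 1
      field_simp
      push_cast
      ring
    rw [h1]
    have h2 : 2 ^ l ≤ 2 ^ (m * l) := Nat.pow_le_pow_right (by norm_num) (by nlinarith)
    have h3 : 1 ≤ 2 ^ (m * l) := Nat.one_le_two_pow
    have h4 : 2 ^ (m * l) + (2 ^ l * 2 + 1) ≤ 4 * 2 ^ (m * l) := by omega
    exact_mod_cast h4
  · have h1 : ((2 : ℝ) ^ (m * l + l)) ^ (2 - 1 / ((m + 1 : ℕ) : ℝ)) = 2 ^ (2 * (m * l) + l) := by
      rw [ASY2_rp, ← Real.rpow_natCast]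
      congr 1
      field_simp
      push_cast
      ring
    rw [h1]
    have h2 : 2 ^ (m * l) * (2 ^ (l - 1) * 2 ^ (l - 1)) * 2 ^ ((m - 1) * l) * 4 =
        2 ^ (2 * (m * l) + l) := by
      have h4 : (4 : ℕ) = 2 ^ 2 := by norm_num
      rw [h4, ← pow_add, ← pow_add, ← pow_add, ← pow_add]
      congr 1
      obtain ⟨k, rfl⟩ : ∃ k, m = k + 1 := ⟨m - 1, by omega⟩
      rw [Nat.add_sub_cancel]
      have h5 : (k + 1) * l = k * l + l := by ring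
      rw [h5]
      omega
    have h3 : 2 ^ (2 * (m * l) + l) ≤ 8 * Nat.card G.edgeSet := by
      rw [← h2]
      omega
    have h6 : ((2 : ℝ) ^ (2 * (m * l) + l)) ≤ 8 * (Nat.card G.edgeSet : ℝ) := by exact_mod_cast h3
    linarith

end Pool.Agent.TH454.BW
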