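import Pool.Agent.TH454.BW.Obdd
import Pool.Agent.TH454.BW.NormFinal

/-!
# Decision diagrams of extremal graphs without K_{r,r}
-/

set_option autoImplicit false

namespace Pool.Agent.TH454.BW

open Pool.Agent.H607R2.BW

theorem run_append' {σ A : Type} (δ : ℕ → σ → A → σ) (x y : List A) (p : ℕ) (s : σ) :
    run δ p s (x ++ y) = run δ (p + x.length) (run δ p s x) y := by
  induction x generalizing p s with
  | nil => simp [run]
  | cons a x ih =>
    simp only [List.cons_append, run, List.length_cons]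
    rw [ih]
    congr 1
    omega

theorem run_take_succ {σ A : Type} (δ : ℕ → σ → A → σ) (l : List A) (s : σ) (t : ℕ)
    (ht : t < l.length) :
    run δ 0 s (l.take (t + 1)) = δ t (run δ 0 s (l.take t)) l[t] := by
  rw [List.take_succ_eq_append_getElem ht, run_append']
  simp only [run, List.length_take, zero_add]
  congr 1
  omega

/-- the order in which the bits of the two strings alternate -/
def alt (m : ℕ) : Fin (2 * m) ≃ Fin 2 × Fin m :=
  (finCongr (mul_comm 2 m)).trans (finProdFinEquiv.symm.trans (Equiv.prodComm _ _))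

theorem alt_fst {m : ℕ} (p : Fin (2 * m)) : ((alt m p).1 : ℕ) = p % 2 := by
  simp [alt, finProdFinEquiv]

theorem alt_snd {m : ℕ} (p : Fin (2 * m)) : ((alt m p).2 : ℕ) = p / 2 := by
  simp [alt, finProdFinEquiv]

/-- one step of the decision diagram made from a machine -/
def obStep {w : ℕ} (δ : ℕ → Fin w → (Fin 2 → Bool) → Fin w) (p : ℕ) :
    (Fin w ⊕ Fin w × Bool) → Bool → (Fin w ⊕ Fin w × Bool)
  | Sum.inl s, b => Sum.inr (s, b)
  | Sum.inr z, b => Sum.inl (δ (p / 2) z.1 ![z.2, b])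

theorem obdd_of_width {m w : ℕ} {R : (Fin 2 → Str m) → Prop} (h : HasWidth w R) :
    ObddWidth (3 * w) R := by
  classical
  obtain ⟨δ, s, acc, hR⟩ := h
  let e : (Fin w ⊕ Fin w × Bool) ≃ Fin (3 * w) := Fintype.equivFinOfCardEq (by
    simp only [Fintype.card_sum, Fintype.card_prod, Fintype.card_fin, Fintype.card_bool]
    ring)
  refine ⟨alt m, fun q st a => e (obStep δ q (e.symm st) a), e (Sum.inl s),
    e '' {st | ∃ s' ∈ acc, st = Sum.inl s'}, fun x => ?_⟩
  rw [run_map, e.injective.mem_set_image, hR]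
  have hlen : (word x).length = m := by simp [word]
  have hinv := run_inv (obStep δ) (fun p st =>
      (p % 2 = 0 → st = Sum.inl (run δ 0 s ((word x).take (p / 2)))) ∧
      (p % 2 = 1 → ∃ ht : p / 2 < m,
        st = Sum.inr (run δ 0 s ((word x).take (p / 2)), x 0 ⟨p / 2, ht⟩)))
    (2 * m) (fun p => x (alt m p).1 (alt m p).2) 0 (Sum.inl s) (by
      intro i hi st hst
      rw [zero_add] at hst ⊢
      rcases Nat.mod_two_eq_zero_or_one i with h2 | h2
      · refine ⟨fun h => by omega, fun _ => ?_⟩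
        have ht : (i + 1) / 2 < m := by omega
        refine ⟨ht, ?_⟩
        rw [hst.1 h2]
        simp only [obStep]
        have e1 : (i + 1) / 2 = i / 2 := by omega
        congr 2
        · rw [e1]
        · have h3 : (alt m ⟨i, hi⟩).1 = 0 := Fin.ext (by rw [alt_fst]; exact h2)
          have h4 : (alt m ⟨i, hi⟩).2 = ⟨(i + 1) / 2, ht⟩ := Fin.ext (by
            rw [alt_snd]; exact e1.symm)
          rw [h3, h4]
      · refine ⟨fun _ => ?_, fun h => by omega⟩
        obtain ⟨ht, hst'⟩ := hst.2 h2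
        rw [hst']
        simp only [obStep]
        have e1 : (i + 1) / 2 = i / 2 + 1 := by omega
        rw [e1, run_take_succ δ (word x) s (i / 2) (by rw [hlen]; exact ht)]
        congr 2
        funext j
        have h3 : (alt m ⟨i, hi⟩).1 = 1 := Fin.ext (by rw [alt_fst]; exact h2)
        have h4 : (alt m ⟨i, hi⟩).2 = ⟨i / 2, ht⟩ := Fin.ext (by rw [alt_snd])
        rw [h3, h4]
        fin_cases j
        · simp [word]
        · simp [word]) (by
      refine ⟨fun _ => ?_, fun h => by omega⟩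
      simp [run])
  rw [zero_add] at hinv
  have h1 := hinv.1 (by omega)
  have e2 : 2 * m / 2 = m := by omega
  have e3 : (word x).take m = word x := List.take_of_length_le (le_of_eq hlen)
  rw [e2, e3] at h1
  show _ ↔ run (obStep δ) 0 (Sum.inl s) (List.ofFn (fun p => x (alt m p).1 (alt m p).2)) ∈ _
  rw [h1]
  constructor
  · intro h
    exact ⟨_, h, rfl⟩
  · rintro ⟨s', hs', h⟩
    rw [Sum.inl.inj h]
    exact hs'

theorem krr_obdd_asy (r : ℕ) (c c' : ℝ) (hr : 2 ≤ r) (hc' : 0 < c')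
    (hc : c < 1 - 1 / r) :
    ∃ m₀ : ℕ, ∀ (m w : ℕ) (G : SimpleGraph (Str m)), m₀ ≤ m →
      ObddWidth w (fun x : Fin 2 → Str m => G.Adj (x 0) (x 1)) →
      (completeBipartiteGraph (Fin r) (Fin r)).Free G →
      c' * ((2 : ℝ) ^ m) ^ (2 - 1 / (r : ℝ)) ≤ Nat.card G.edgeSet →
      ((2 : ℝ) ^ m) ^ c < w := by
  obtain ⟨m₀, hm₀⟩ := asy ((r - 1) * (r - 1)) c (1 - 1 / (r : ℝ)) (c' / 2) (by positivity) hc
  refine ⟨m₀, fun m w G hm hw hG he => ?_⟩
  by_contra hcon
  rw [not_lt] at hcon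
  have h1 := kst_obdd_bound m w r r G hr hr hw hG
  have h2 := hm₀ m w hm hcon
  have h3 : (Nat.card G.edgeSet : ℝ) ≤ (((r - 1) * (r - 1) : ℕ) : ℝ) * (w * m * 2 ^ m) := by
    exact_mod_cast h1
  have h4 : (1 : ℝ) + (1 - 1 / (r : ℝ)) = 2 - 1 / (r : ℝ) := by ring
  rw [h4] at h2
  have h5 : (0 : ℝ) < c' * ((2 : ℝ) ^ m) ^ (2 - 1 / (r : ℝ)) := by positivity
  linarith

theorem krr_obdd_sharp (r l : ℕ) (hr : r = 2 ∨ r = 3) (hl : 2 ≤ l) :
    ∃ (w : ℕ) (G : SimpleGraph (Str (r * l))),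
      ObddWidth w (fun x : Fin 2 → Str (r * l) => G.Adj (x 0) (x 1)) ∧
      (completeBipartiteGraph (Fin r) (Fin r)).Free G ∧
      (w : ℝ) ≤ 12 * ((2 : ℝ) ^ (r * l)) ^ (1 - 1 / (r : ℝ)) ∧
      1 / 8 * ((2 : ℝ) ^ (r * l)) ^ (2 - 1 / (r : ℝ)) ≤ Nat.card G.edgeSet := by
  have hfac : (r - 1).factorial < r := by
    rcases hr with rfl | rfl <;> decide
  obtain ⟨w, G, h1, h2, h3, h4⟩ := kst_sharp r r l (by omega) hfac hl
  refine ⟨3 * w, G, obdd_of_width h1, h2, ?_, h4⟩
  push_cast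
  linarith

end Pool.Agent.TH454.BW
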