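import Pool.Agent.TH454.BW.NormFinal
import Pool.Agent.TH454.BW.ObddFinal

/-!
# Disjoint copies: the trade-off between width and number of edges
-/

set_option autoImplicit false

namespace Pool.Agent.TH454.BW

open Pool.Agent.H607R2.BW

/-- disjoint copies of `G`, one for each choice of the last `k` bits -/
def copies {L : ℕ} (k : ℕ) (G : SimpleGraph (Str L)) : SimpleGraph (Str (L + k)) where
  Adj x y := G.Adj (fun t => x (Fin.castAdd k t)) (fun t => y (Fin.castAdd k t)) ∧
    ∀ t : Fin k, x (Fin.natAdd L t) = y (Fin.natAdd L t)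
  symm := ⟨fun x y hxy => ⟨hxy.1.symm, fun t => (hxy.2 t).symm⟩⟩
  loopless := ⟨fun x hx => hx.1.ne rfl⟩

theorem run_app {σ A : Type} (δ : ℕ → σ → A → σ) (x y : List A) : ∀ (p : ℕ) (s : σ),
    run δ p s (x ++ y) = run δ (p + x.length) (run δ p s x) y := by
  induction x with
  | nil => intro p s; rfl
  | cons a x ih =>
    intro p s
    simp only [List.cons_append, run, List.length_cons, ih]
    have e : p + 1 + x.length = p + (x.length + 1) := by omega
    rw [e]

/-- transitions of the machine for the copies -/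
def copyStep {w : ℕ} (L : ℕ) (δ : ℕ → Fin w → (Fin 2 → Bool) → Fin w) (p : ℕ) :
    Option (Fin w) → (Fin 2 → Bool) → Option (Fin w)
  | none, _ => none
  | some q, a => if p < L then some (δ p q a) else if a 0 = a 1 then some q else none

theorem copy_run1 {w L : ℕ} (δ : ℕ → Fin w → (Fin 2 → Bool) → Fin w) (l : List (Fin 2 → Bool)) :
    ∀ (p : ℕ) (s : Fin w), p + l.length ≤ L →
      run (copyStep L δ) p (some s) l = some (run δ p s l) := by
  induction l with
  | nil => intro p s _; rfl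
  | cons a l ih =>
    intro p s h
    simp only [List.length_cons] at h
    have h1 : copyStep L δ p (some s) a = some (δ p s a) := by
      simp only [copyStep]
      rw [if_pos (by omega)]
    simp only [run]
    rw [h1]
    exact ih (p + 1) _ (by omega)

theorem copy_run0 {w L : ℕ} (δ : ℕ → Fin w → (Fin 2 → Bool) → Fin w) (l : List (Fin 2 → Bool)) :
    ∀ (p : ℕ), run (copyStep L δ) p none l = none := by
  induction l with
  | nil => intro p; rfl
  | cons a l ih =>
    intro p
    simp only [run, copyStep]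
    exact ih (p + 1)

theorem copy_run2 {w L : ℕ} (δ : ℕ → Fin w → (Fin 2 → Bool) → Fin w) (l : List (Fin 2 → Bool)) :
    ∀ (p : ℕ) (s q : Fin w), L ≤ p →
      (run (copyStep L δ) p (some s) l = some q ↔ s = q ∧ ∀ a ∈ l, a 0 = a 1) := by
  induction l with
  | nil =>
    intro p s q _
    simp [run]
  | cons a l ih =>
    intro p s q h
    by_cases ha : a 0 = a 1
    · have h1 : copyStep L δ p (some s) a = some s := by
        simp only [copyStep]
        rw [if_neg (by omega), if_pos ha]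
      simp only [run]
      rw [h1, ih (p + 1) s q (by omega)]
      simp [ha]
    · have h1 : copyStep L δ p (some s) a = none := by
        simp only [copyStep]
        rw [if_neg (by omega), if_neg ha]
      simp only [run]
      rw [h1, copy_run0]
      simp [ha]

theorem copies_width {L w : ℕ} (k : ℕ) (G : SimpleGraph (Str L)) (hG : GraphWidth w G) :
    GraphWidth (w + 1) (copies k G) := by
  obtain ⟨δ, s, acc, hR⟩ := hG
  refine hasWidth_of (Option (Fin w)) (by simp) (copyStep L δ) (some s)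
    {o | ∃ q ∈ acc, o = some q} ?_
  intro x
  have hsplit : word x = word (fun j => (fun t : Fin L => x j (Fin.castAdd k t))) ++
      List.ofFn (fun (t : Fin k) (j : Fin 2) => x j (Fin.natAdd L t)) := by
    unfold word
    rw [List.ofFn_add]
    rfl
  have hlen : (word (fun j => (fun t : Fin L => x j (Fin.castAdd k t)))).length = L := by
    simp [word]
  have h1 := hR (fun j => (fun t : Fin L => x j (Fin.castAdd k t)))
  simp only at h1
  rw [hsplit, run_app, hlen, copy_run1 δ _ 0 s (by rw [hlen]; omega)]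
  show (G.Adj _ _ ∧ _) ↔ _
  rw [h1]
  simp only [Set.mem_setOf_eq]
  constructor
  · rintro ⟨h2, h3⟩
    refine ⟨_, h2, ?_⟩
    rw [copy_run2 δ _ _ _ _ (by omega)]
    refine ⟨rfl, ?_⟩
    intro a ha
    rw [List.mem_ofFn] at ha
    obtain ⟨t, rfl⟩ := ha
    exact h3 t
  · rintro ⟨q, hq, h2⟩
    rw [copy_run2 δ _ _ _ _ (by omega)] at h2
    obtain ⟨rfl, h3⟩ := h2
    refine ⟨hq, fun t => ?_⟩
    exact h3 _ (by rw [List.mem_ofFn]; exact ⟨t, rfl⟩)

theorem copies_free {L s t : ℕ} (k : ℕ) (G : SimpleGraph (Str L)) (hs : 1 ≤ s) (ht : 1 ≤ t)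
    (hG : (completeBipartiteGraph (Fin s) (Fin t)).Free G) :
    (completeBipartiteGraph (Fin s) (Fin t)).Free (copies k G) := by
  rintro ⟨f⟩
  apply hG
  have hadj : ∀ i j, (copies k G).Adj (f (Sum.inl i)) (f (Sum.inr j)) := by
    intro i j
    apply f.toHom.map_adj
    rw [completeBipartiteGraph_adj]
    simp
  have hhigh : ∀ v (r : Fin k), f v (Fin.natAdd L r) = f (Sum.inr ⟨0, ht⟩) (Fin.natAdd L r) := by
    intro v r
    rcases v with i | j
    · exact (hadj i ⟨0, ht⟩).2 r
    · exact ((hadj ⟨0, hs⟩ j).2 r).symm.trans ((hadj ⟨0, hs⟩ ⟨0, ht⟩).2 r)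
  refine ⟨⟨⟨fun v => fun r => f v (Fin.castAdd k r), ?_⟩, ?_⟩⟩
  · intro u v huv
    exact (f.toHom.map_adj huv).1
  · intro u v huv
    apply f.injective
    funext r
    refine Fin.addCases (fun r => ?_) (fun r => ?_) r
    · exact congrFun huv r
    · exact (hhigh u r).trans (hhigh v r).symm

theorem copies_card {L : ℕ} (k : ℕ) (G : SimpleGraph (Str L)) :
    2 ^ k * Nat.card G.edgeSet ≤ Nat.card (copies k G).edgeSet := by
  have h1 := KST_card G
  have h2 := KST_card (copies k G)
  have h3 : Nat.card ((Fin k → Bool) × {x : Fin 2 → Str L // G.Adj (x 0) (x 1)}) ≤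
      Nat.card {x : Fin 2 → Str (L + k) // (copies k G).Adj (x 0) (x 1)} := by
    refine Nat.card_le_card_of_injective (fun z => ⟨fun j => Fin.append (z.2.1 j) z.1, ?_⟩) ?_
    · refine ⟨?_, ?_⟩
      · simp only [Fin.append_left]
        exact z.2.2
      · intro t
        simp only [Fin.append_right]
    · intro z z' h
      have h4 := congrArg Subtype.val h
      simp only at h4
      apply Prod.ext
      · funext t
        have h5 := congrFun (congrFun h4 0) (Fin.natAdd L t)
        simpa only [Fin.append_right] using h5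
      · apply Subtype.ext
        funext j t
        have h5 := congrFun (congrFun h4 j) (Fin.castAdd k t)
        simpa only [Fin.append_left] using h5
  rw [Nat.card_prod, h1, h2] at h3
  have h4 : Nat.card (Fin k → Bool) = 2 ^ k := by
    rw [Nat.card_eq_fintype_card, Fintype.card_fun, Fintype.card_fin, Fintype.card_bool]
  rw [h4] at h3
  have e : 2 ^ k * (2 * Nat.card G.edgeSet) = 2 * (2 ^ k * Nat.card G.edgeSet) := by ring
  omega

/-- the norm graphs in terms of natural numbers -/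
theorem norm_nat (s t l : ℕ) (hs : 2 ≤ s) (ht : (s - 1).factorial < t) (hl : 2 ≤ l) :
    ∃ (w : ℕ) (G : SimpleGraph (Str (s * l))), GraphWidth w G ∧
      (completeBipartiteGraph (Fin s) (Fin t)).Free G ∧ w + 1 ≤ 4 * 2 ^ ((s - 1) * l) ∧
      2 ^ ((s - 1) * l) * 2 ^ (s * l) ≤ 8 * Nat.card G.edgeSet := by
  obtain ⟨m, rfl⟩ : ∃ m, s = m + 1 := ⟨s - 1, by omega⟩
  have hm : 1 ≤ m := by omega
  rw [Nat.add_sub_cancel] at ht ⊢
  have e : (m + 1) * l = m * l + l := by ring
  rw [e]
  obtain ⟨G, hw, hfree, hcard⟩ := exists_norm_graph m l hm hl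
  refine ⟨_, G, hw, hfree t ht, ?_, ?_⟩
  · have h2 : 2 ^ l ≤ 2 ^ (m * l) := Nat.pow_le_pow_right (by norm_num) (by nlinarith)
    have h3 : 4 ≤ 2 ^ l := by
      calc 4 = 2 ^ 2 := by norm_num
        _ ≤ 2 ^ l := Nat.pow_le_pow_right (by norm_num) hl
    omega
  · have h2 : 2 ^ (m * l) * (2 ^ (l - 1) * 2 ^ (l - 1)) * 2 ^ ((m - 1) * l) * 4 =
        2 ^ (m * l) * 2 ^ (m * l + l) := by
      have h4 : (4 : ℕ) = 2 ^ 2 := by norm_num
      rw [h4, ← pow_add, ← pow_add, ← pow_add, ← pow_add, ← pow_add]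
      congr 1
      obtain ⟨k, rfl⟩ : ∃ k, m = k + 1 := ⟨m - 1, by omega⟩
      rw [Nat.add_sub_cancel]
      have h5 : (k + 1) * l = k * l + l := by ring
      rw [h5]
      omega
    rw [← h2]
    omega

/-- the trade-off between width and number of edges -/
theorem kst_tradeoff (s t l m : ℕ) (hs : 2 ≤ s) (ht : (s - 1).factorial < t) (hl : 2 ≤ l)
    (hm : s * l ≤ m) :
    ∃ (w : ℕ) (G : SimpleGraph (Str m)), GraphWidth w G ∧
      (completeBipartiteGraph (Fin s) (Fin t)).Free G ∧ w ≤ 4 * 2 ^ ((s - 1) * l) ∧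
      2 ^ ((s - 1) * l) * 2 ^ m ≤ 8 * Nat.card G.edgeSet := by
  obtain ⟨w, G, h1, h2, h3, h4⟩ := norm_nat s t l hs ht hl
  obtain ⟨k, rfl⟩ : ∃ k, m = s * l + k := ⟨m - s * l, by omega⟩
  refine ⟨w + 1, copies k G, copies_width k G h1, copies_free k G (by omega) (by omega) h2, h3, ?_⟩
  have h5 := copies_card k G
  calc 2 ^ ((s - 1) * l) * 2 ^ (s * l + k) = 2 ^ k * (2 ^ ((s - 1) * l) * 2 ^ (s * l)) := by
        rw [pow_add]; ring
    _ ≤ 2 ^ k * (8 * Nat.card G.edgeSet) := Nat.mul_le_mul_left _ h4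
    _ = 8 * (2 ^ k * Nat.card G.edgeSet) := by ring
    _ ≤ 8 * Nat.card (copies k G).edgeSet := Nat.mul_le_mul_left _ h5

theorem krr_tradeoff (r l m : ℕ) (hr : r = 2 ∨ r = 3) (hl : 2 ≤ l) (hm : r * l ≤ m) :
    ∃ (w : ℕ) (G : SimpleGraph (Str m)),
      ObddWidth w (fun x : Fin 2 → Str m => G.Adj (x 0) (x 1)) ∧
      (completeBipartiteGraph (Fin r) (Fin r)).Free G ∧ w ≤ 12 * 2 ^ ((r - 1) * l) ∧
      2 ^ ((r - 1) * l) * 2 ^ m ≤ 8 * Nat.card G.edgeSet := by
  have hfac : (r - 1).factorial < r := by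
    rcases hr with rfl | rfl <;> decide
  obtain ⟨w, G, h1, h2, h3, h4⟩ := kst_tradeoff r r l m (by omega) hfac hl hm
  exact ⟨3 * w, G, obdd_of_width h1, h2, by omega, h4⟩

theorem c4_of_k22 {V : Type} {G : SimpleGraph V}
    (h : (completeBipartiteGraph (Fin 2) (Fin 2)).Free G) :
    (SimpleGraph.cycleGraph (2 * 2)).Free G := by
  rintro ⟨f⟩
  apply h
  have hadj : ∀ u v : Fin 4, (SimpleGraph.cycleGraph (2 * 2)).Adj u v → G.Adj (f u) (f v) :=
    fun u v h => f.toHom.map_adj h
  have h01 := hadj 0 1 (by rw [SimpleGraph.cycleGraph_adj]; decide)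
  have h12 := hadj 1 2 (by rw [SimpleGraph.cycleGraph_adj]; decide)
  have h23 := hadj 2 3 (by rw [SimpleGraph.cycleGraph_adj]; decide)
  have h30 := hadj 3 0 (by rw [SimpleGraph.cycleGraph_adj]; decide)
  let g : Fin 2 ⊕ Fin 2 → Fin 4 := Sum.elim ![0, 2] ![1, 3]
  have hg : Function.Injective g := by decide
  refine ⟨⟨⟨fun v => f (g v), ?_⟩, ?_⟩⟩
  · intro u v huv
    rw [completeBipartiteGraph_adj] at huv
    rcases u with i | i <;> rcases v with j | j <;> simp at huv
    · show G.Adj (f (g (Sum.inl i))) (f (g (Sum.inr j)))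
      fin_cases i <;> fin_cases j
      · exact h01
      · exact h30.symm
      · exact h12.symm
      · exact h23
    · show G.Adj (f (g (Sum.inr i))) (f (g (Sum.inl j)))
      fin_cases i <;> fin_cases j
      · exact h01.symm
      · exact h12
      · exact h30
      · exact h23.symm
  · intro u v huv
    exact hg (f.injective huv)

theorem c4_tradeoff (l m : ℕ) (hl : 2 ≤ l) (hm : 2 * l ≤ m) :
    ∃ (w : ℕ) (G : SimpleGraph (Str m)), GraphWidth w G ∧
      (SimpleGraph.cycleGraph (2 * 2)).Free G ∧ w ≤ 4 * 2 ^ l ∧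
      2 ^ l * 2 ^ m ≤ 8 * Nat.card G.edgeSet := by
  obtain ⟨w, G, h1, h2, h3, h4⟩ := kst_tradeoff 2 2 l m le_rfl (by decide) hl hm
  rw [show (2 - 1) * l = l by omega] at h3 h4
  exact ⟨w, G, h1, c4_of_k22 h2, h3, h4⟩

end Pool.Agent.TH454.BW
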