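import Pool.Agent.TH454.BW.Machine
import Pool.Agent.TH454.BW.Asy

/-!
# A graph without four-cycles of extremal order and small width
-/

set_option autoImplicit false

namespace Pool.Agent.TH454.BW

open Pool.Agent.H607R2.BW

/-- two numbers are adjacent if their sum is in `S` -/
def sumGraph (m : ℕ) (S : Finset ℕ) (hodd : ∀ s ∈ S, s % 2 = 1) : SimpleGraph (Str m) where
  Adj x y := Nat.ofBits x + Nat.ofBits y ∈ S
  symm := ⟨fun x y h => by rw [add_comm]; exact h⟩
  loopless := ⟨fun x h => by have := hodd _ h; omega⟩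

theorem sumGraph_width (m : ℕ) (S : Finset ℕ) (hodd : ∀ s ∈ S, s % 2 = 1)
    (hS : ∀ s ∈ S, s < 2 ^ m) (hne : S.Nonempty) :
    GraphWidth (2 * S.card + 1) (sumGraph m S hodd) :=
  width_add m S hS hne

/-- the bits of a number -/
def toBits (m n : ℕ) : Str m := fun t => n.testBit t

theorem ofBits_toBits {m n : ℕ} (h : n < 2 ^ m) : Nat.ofBits (toBits m n) = n := by
  unfold toBits
  rw [Nat.ofBits_testBit, Nat.mod_eq_of_lt h]

theorem sumGraph_edges (m : ℕ) (S : Finset ℕ) (hodd : ∀ s ∈ S, s % 2 = 1)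
    (hS : ∀ s ∈ S, s < 2 ^ m) (hS' : ∀ s ∈ S, 2 ^ (m - 1) ≤ s) :
    S.card * 2 ^ (m - 1) ≤ 2 * Nat.card (sumGraph m S hodd).edgeSet := by
  classical
  rw [← KST_card]
  have hlt : ∀ (z : S × Fin (2 ^ (m - 1))), (z.2 : ℕ) < 2 ^ m ∧ (z.1 : ℕ) - z.2 < 2 ^ m ∧
      (z.2 : ℕ) + ((z.1 : ℕ) - z.2) = z.1 := by
    intro z
    have h1 := z.2.2
    have h2 := hS z.1 z.1.2
    have h3 := hS' z.1 z.1.2
    have h4 : 2 ^ (m - 1) ≤ 2 ^ m := Nat.pow_le_pow_right (by norm_num) (by omega)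
    omega
  have hinj : Function.Injective (fun z : S × Fin (2 ^ (m - 1)) =>
      (⟨![toBits m z.2, toBits m ((z.1 : ℕ) - z.2)], by
        show Nat.ofBits (toBits m z.2) + Nat.ofBits (toBits m ((z.1 : ℕ) - z.2)) ∈ S
        rw [ofBits_toBits (hlt z).1, ofBits_toBits (hlt z).2.1, (hlt z).2.2]
        exact z.1.2⟩ : {x : Fin 2 → Str m // (sumGraph m S hodd).Adj (x 0) (x 1)})) := by
    intro z z' h
    have h1 := congrArg Subtype.val h
    have h2 : toBits m z.2 = toBits m z'.2 := congrFun h1 0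
    have h3 : toBits m ((z.1 : ℕ) - z.2) = toBits m ((z'.1 : ℕ) - z'.2) := congrFun h1 1
    have h4 := congrArg Nat.ofBits h2
    have h5 := congrArg Nat.ofBits h3
    rw [ofBits_toBits (hlt z).1, ofBits_toBits (hlt z').1] at h4
    rw [ofBits_toBits (hlt z).2.1, ofBits_toBits (hlt z').2.1] at h5
    have h6 := (hlt z).2.2
    have h7 := (hlt z').2.2
    refine Prod.ext (Subtype.ext ?_) (Fin.ext h4)
    omega
  have := Nat.card_le_card_of_injective _ hinj
  refine le_trans (le_of_eq ?_) this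
  rw [Nat.card_eq_fintype_card, Fintype.card_prod, Fintype.card_coe, Fintype.card_fin]

theorem sumGraph_free (m : ℕ) (S : Finset ℕ) (hodd : ∀ s ∈ S, s % 2 = 1)
    (hsid : ∀ a ∈ S, ∀ b ∈ S, ∀ c ∈ S, ∀ d ∈ S, a + b = c + d → a = c ∨ a = d) :
    (SimpleGraph.cycleGraph (2 * 2)).Free (sumGraph m S hodd) := by
  rintro ⟨f⟩
  have hadj : ∀ u v : Fin 4, (SimpleGraph.cycleGraph (2 * 2)).Adj u v →
      Nat.ofBits (f u) + Nat.ofBits (f v) ∈ S := fun u v h => f.toHom.map_adj h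
  have hinj : ∀ u v : Fin 4, Nat.ofBits (f u) = Nat.ofBits (f v) → u = v := by
    intro u v h
    apply f.injective
    show f u = f v
    funext i
    have h1 := Nat.testBit_ofBits_lt (f u) i i.2
    have h2 := Nat.testBit_ofBits_lt (f v) i i.2
    rw [h] at h1
    exact h1.symm.trans h2
  have h01 := hadj 0 1 (by rw [SimpleGraph.cycleGraph_adj]; decide)
  have h12 := hadj 1 2 (by rw [SimpleGraph.cycleGraph_adj]; decide)
  have h23 := hadj 2 3 (by rw [SimpleGraph.cycleGraph_adj]; decide)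
  have h30 := hadj 3 0 (by rw [SimpleGraph.cycleGraph_adj]; decide)
  rcases hsid _ h01 _ h23 _ h12 _ h30 (by ring) with h | h
  · have := hinj 0 2 (by omega)
    exact absurd this (by decide)
  · have := hinj 1 3 (by omega)
    exact absurd this (by decide)

/-- the Sidon set of Erdős and Turán, made odd and shifted -/
def etSet (m p : ℕ) : Finset ℕ :=
  (Finset.range p).image (fun k => 2 ^ (m - 1) + 4 * p * k + 2 * (k ^ 2 % p) + 1)

theorem et_key {p : ℕ} (hp : p.Prime) (hp2 : p ≠ 2) {a b c d : ℕ} (ha : a < p) (hb : b < p)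
    (hc : c < p) (hd : d < p)
    (h : 4 * p * a + 2 * (a ^ 2 % p) + (4 * p * b + 2 * (b ^ 2 % p)) =
      4 * p * c + 2 * (c ^ 2 % p) + (4 * p * d + 2 * (d ^ 2 % p))) : a = c ∨ a = d := by
  have hp0 : 0 < p := hp.pos
  have ra := Nat.mod_lt (a ^ 2) hp0
  have rb := Nat.mod_lt (b ^ 2) hp0
  have rc := Nat.mod_lt (c ^ 2) hp0
  have rd := Nat.mod_lt (d ^ 2) hp0
  set u := a ^ 2 % p with hu
  set v := b ^ 2 % p with hv
  set x := c ^ 2 % p with hx
  set y := d ^ 2 % p with hy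
  have h1 : 2 * p * (a + b) + (u + v) = 2 * p * (c + d) + (x + y) := by nlinarith
  have h2 : (2 * p * (a + b) + (u + v)) / (2 * p) = a + b := by
    rw [Nat.mul_add_div (by omega), Nat.div_eq_of_lt (by omega), add_zero]
  have h3 : (2 * p * (c + d) + (x + y)) / (2 * p) = c + d := by
    rw [Nat.mul_add_div (by omega), Nat.div_eq_of_lt (by omega), add_zero]
  have h4 : a + b = c + d := by rw [← h2, ← h3, h1]
  have h5 : u + v = x + y := by rw [h4] at h1; omega
  haveI : Fact p.Prime := ⟨hp⟩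
  have e1 : ((a : ZMod p)) ^ 2 + (b : ZMod p) ^ 2 = (c : ZMod p) ^ 2 + (d : ZMod p) ^ 2 := by
    have hcast : ((u + v : ℕ) : ZMod p) = ((x + y : ℕ) : ZMod p) := by rw [h5]
    rw [hu, hv, hx, hy] at hcast
    push_cast [ZMod.natCast_mod] at hcast
    exact hcast
  have e2 : (a : ZMod p) + b = c + d := by exact_mod_cast congrArg (Nat.cast : ℕ → ZMod p) h4
  have e3 : ((a : ZMod p) - c) * (2 * (a - d)) = 0 := by
    have hb' : (b : ZMod p) = c + d - a := by rw [← e2]; ring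
    rw [hb'] at e1
    linear_combination e1
  have two : (2 : ZMod p) ≠ 0 := by
    intro h
    have : ((2 : ℕ) : ZMod p) = 0 := by exact_mod_cast h
    rw [ZMod.natCast_eq_zero_iff] at this
    have := (Nat.prime_dvd_prime_iff_eq hp Nat.prime_two).1 this
    exact hp2 this
  have cast_inj : ∀ s t : ℕ, s < p → t < p → (s : ZMod p) = t → s = t := by
    intro s t hs ht hst
    rw [ZMod.natCast_eq_natCast_iff'] at hst
    rwa [Nat.mod_eq_of_lt hs, Nat.mod_eq_of_lt ht] at hst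
  rcases mul_eq_zero.1 e3 with h | h
  · exact Or.inl (cast_inj _ _ ha hc (sub_eq_zero.1 h))
  · rcases mul_eq_zero.1 h with h | h
    · exact absurd h two
    · exact Or.inr (cast_inj _ _ ha hd (sub_eq_zero.1 h))

theorem et_sidon (m p : ℕ) (hp : p.Prime) (hp2 : p ≠ 2) :
    ∀ a ∈ etSet m p, ∀ b ∈ etSet m p, ∀ c ∈ etSet m p, ∀ d ∈ etSet m p,
      a + b = c + d → a = c ∨ a = d := by
  intro a ha b hb c hc d hd h
  simp only [etSet, Finset.mem_image, Finset.mem_range] at ha hb hc hd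
  obtain ⟨a, ha, rfl⟩ := ha
  obtain ⟨b, hb, rfl⟩ := hb
  obtain ⟨c, hc, rfl⟩ := hc
  obtain ⟨d, hd, rfl⟩ := hd
  rcases et_key hp hp2 ha hb hc hd (by omega) with h | h
  · left; rw [h]
  · right; rw [h]

theorem et_card (m p : ℕ) (hp : p.Prime) (hp2 : p ≠ 2) : (etSet m p).card = p := by
  unfold etSet
  rw [Finset.card_image_of_injOn, Finset.card_range]
  intro a ha b hb h
  simp only [Finset.coe_range, Set.mem_Iio] at ha hb
  simp only at h
  rcases et_key hp hp2 ha ha hb hb (by omega) with h | h <;> exact h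

theorem c4_sharp (m : ℕ) (hm : 10 ≤ m) : ∃ (w : ℕ) (G : SimpleGraph (Str m)), GraphWidth w G ∧
    (SimpleGraph.cycleGraph (2 * 2)).Free G ∧ (w : ℝ) ≤ 2 * ((2 : ℝ) ^ m) ^ (1 / 2 : ℝ) ∧
    1 / 32 * ((2 : ℝ) ^ m) ^ (1 + 1 / 2 : ℝ) ≤ Nat.card G.edgeSet := by
  set t := (m - 3) / 2 with ht
  have ht1 : 3 ≤ t := by omega
  have ht2 : 2 * t + 3 ≤ m := by omega
  have ht3 : m ≤ 2 * t + 4 := by omega
  obtain ⟨p, hp, hp1, hp2⟩ := Nat.exists_prime_lt_and_le_two_mul (2 ^ (t - 1)) (by positivity)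
  have hpt : 2 * 2 ^ (t - 1) = 2 ^ t := by
    rw [← pow_succ']; congr 1; omega
  rw [hpt] at hp2
  have hp4 : 4 ≤ 2 ^ (t - 1) := by
    calc 4 = 2 ^ 2 := by norm_num
      _ ≤ 2 ^ (t - 1) := Nat.pow_le_pow_right (by norm_num) (by omega)
  have hpne : p ≠ 2 := by omega
  have hmm : 2 ^ m = 2 * 2 ^ (m - 1) := by
    rw [← pow_succ']; congr 1; omega
  have hsq : 4 * (p * p) ≤ 2 ^ (m - 1) := by
    calc 4 * (p * p) ≤ 4 * (2 ^ t * 2 ^ t) := by gcongr
      _ = 2 ^ (2 * t + 2) := by rw [← pow_add]; ring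
      _ ≤ 2 ^ (m - 1) := Nat.pow_le_pow_right (by norm_num) (by omega)
  have hodd : ∀ s ∈ etSet m p, s % 2 = 1 := by
    intro s hs
    simp only [etSet, Finset.mem_image, Finset.mem_range] at hs
    obtain ⟨k, hk, rfl⟩ := hs
    have : 2 ^ (m - 1) = 2 * 2 ^ (m - 2) := by
      rw [← pow_succ']; congr 1; omega
    have e : 4 * p * k = 2 * (2 * p * k) := by ring
    omega
  have hlow : ∀ s ∈ etSet m p, 2 ^ (m - 1) ≤ s := by
    intro s hs
    simp only [etSet, Finset.mem_image, Finset.mem_range] at hs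
    obtain ⟨k, hk, rfl⟩ := hs
    omega
  have hhigh : ∀ s ∈ etSet m p, s < 2 ^ m := by
    intro s hs
    simp only [etSet, Finset.mem_image, Finset.mem_range] at hs
    obtain ⟨k, hk, rfl⟩ := hs
    have h1 := Nat.mod_lt (k ^ 2) hp.pos
    have h2 : p * (k + 1) ≤ p * p := Nat.mul_le_mul_left _ hk
    have h3 : 4 * p * k = 4 * (p * (k + 1)) - 4 * p := by
      rw [mul_add]; rw [mul_assoc]; omega
    have h4 : 4 * p ≤ 4 * (p * (k + 1)) := by nlinarith
    omega
  have hcard := et_card m p hp hpne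
  refine ⟨2 * p + 1, sumGraph m (etSet m p) hodd, ?_, ?_, ?_, ?_⟩
  · have h := sumGraph_width m (etSet m p) hodd hhigh (by
      rw [← Finset.card_pos, hcard]; exact hp.pos)
    rwa [hcard] at h
  · exact sumGraph_free m _ hodd (et_sidon m p hp hpne)
  · rw [ASY2_rp]
    have h1 : ((2 * p + 1 : ℕ) : ℝ) ≤ 3 * 2 ^ t := by
      have : 2 * p + 1 ≤ 3 * 2 ^ t := by omega
      exact_mod_cast this
    have h2 : (2 : ℝ) * 2 ^ t ≤ 2 ^ ((1 / 2 : ℝ) * m) := by
      have e : (2 : ℝ) * 2 ^ t = 2 ^ ((t + 1 : ℝ)) := by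
        rw [Real.rpow_add (by norm_num), Real.rpow_one, Real.rpow_natCast]; ring
      rw [e]
      apply Real.rpow_le_rpow_of_exponent_le (by norm_num)
      have : (2 * t + 3 : ℝ) ≤ m := by exact_mod_cast ht2
      linarith
    have h3 : (0 : ℝ) < 2 ^ t := by positivity
    linarith
  · rw [ASY2_rp]
    have h1 := sumGraph_edges m (etSet m p) hodd hhigh hlow
    rw [hcard] at h1
    have h2 : 2 ^ (t - 1) * 2 ^ (m - 1) ≤ 2 * Nat.card (sumGraph m (etSet m p) hodd).edgeSet :=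
      le_trans (Nat.mul_le_mul_right _ hp1.le) h1
    have h3 : (2 : ℝ) ^ (t - 1) * 2 ^ (m - 1) ≤
        2 * (Nat.card (sumGraph m (etSet m p) hodd).edgeSet : ℝ) := by exact_mod_cast h2
    have h4 : (2 : ℝ) ^ ((1 + 1 / 2 : ℝ) * m) ≤ 16 * ((2 : ℝ) ^ (t - 1) * 2 ^ (m - 1)) := by
      have e : 16 * ((2 : ℝ) ^ (t - 1) * 2 ^ (m - 1)) = 2 ^ ((t + m + 2 : ℝ)) := by
        rw [← pow_add]
        have : (16 : ℝ) = 2 ^ 4 := by norm_num
        rw [this, ← pow_add, ← Real.rpow_natCast]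
        congr 1
        have : 4 + (t - 1 + (m - 1)) = t + m + 2 := by omega
        rw [this]
        push_cast
        ring
      rw [e]
      apply Real.rpow_le_rpow_of_exponent_le (by norm_num)
      have : (m : ℝ) ≤ 2 * t + 4 := by exact_mod_cast ht3
      linarith
    linarith

end Pool.Agent.TH454.BW
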