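import Pool.Agent.TH454.BW.ObddFinal
import Pool.Agent.TH454.BW.Sidon

/-!
# Decision diagrams of graphs of girth greater than four
-/

set_option autoImplicit false

namespace Pool.Agent.TH454.BW

open Pool.Agent.H607R2.BW

theorem free_of_girth {V : Type} (G : SimpleGraph V) (h : 4 < G.egirth) :
    (completeBipartiteGraph (Fin 2) (Fin 2)).Free G := by
  rintro ⟨f⟩
  have hadj : ∀ i j : Fin 2, G.Adj (f (Sum.inl i)) (f (Sum.inr j)) :=
    fun i j => f.toHom.map_adj (by simp)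
  have h01 : f (Sum.inl 0) ≠ f (Sum.inl 1) := fun he => by
    have := f.injective he
    simp at this
  have h23 : f (Sum.inr 0) ≠ f (Sum.inr 1) := fun he => by
    have := f.injective he
    simp at this
  have n1 := (hadj 0 0).ne
  have n2 := (hadj 0 1).ne
  have n3 := (hadj 1 0).ne
  have n4 := (hadj 1 1).ne
  have hw : (SimpleGraph.Walk.cons (hadj 0 0) (SimpleGraph.Walk.cons (hadj 1 0).symm
      (SimpleGraph.Walk.cons (hadj 1 1) (SimpleGraph.Walk.cons (hadj 0 1).symm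
        SimpleGraph.Walk.nil)))).IsCycle := by
    rw [SimpleGraph.Walk.cons_isCycle_iff]
    constructor
    · simp [SimpleGraph.Walk.isPath_def, h01.symm, h23, n1.symm, n2.symm, n3.symm, n4]
    · simp [h01, h23, n1, n1.symm, n2]
  have h1 := SimpleGraph.egirth_le_length hw
  simp only [SimpleGraph.Walk.length_cons, SimpleGraph.Walk.length_nil] at h1
  have h2 : ((0 + 1 + 1 + 1 + 1 : ℕ) : ℕ∞) = 4 := by norm_num
  rw [h2] at h1
  exact absurd h (not_lt.2 h1)

theorem sumGraph_girth (m : ℕ) (S : Finset ℕ) (hodd : ∀ s ∈ S, s % 2 = 1)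
    (hsid : ∀ a ∈ S, ∀ b ∈ S, ∀ c ∈ S, ∀ d ∈ S, a + b = c + d → a = c ∨ a = d) :
    4 < (sumGraph m S hodd).egirth := by
  by_contra hcon
  rw [not_lt] at hcon
  have hac : ¬ (sumGraph m S hodd).IsAcyclic := by
    intro hac
    rw [hac.egirth_eq_top] at hcon
    exact absurd hcon (by simp)
  obtain ⟨a, w, hw, hlen⟩ := SimpleGraph.exists_egirth_eq_length.2 hac
  rw [hlen] at hcon
  have hle : w.length ≤ 4 := by exact_mod_cast hcon
  have h3 := hw.three_le_length
  have hadj : ∀ i, i < w.length →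
      Nat.ofBits (w.getVert i) + Nat.ofBits (w.getVert (i + 1)) ∈ S :=
    fun i hi => w.adj_getVert_succ hi
  have hval : ∀ u v : Str m, Nat.ofBits u = Nat.ofBits v → u = v := by
    intro u v h
    funext i
    have h1 := Nat.testBit_ofBits_lt u i i.2
    have h2 := Nat.testBit_ofBits_lt v i i.2
    rw [h] at h1
    exact h1.symm.trans h2
  have hclose : w.getVert w.length = w.getVert 0 := by simp
  rcases (by omega : w.length = 3 ∨ w.length = 4) with hl | hl
  · have h0 := hadj 0 (by omega)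
    have h1 := hadj 1 (by omega)
    have h2 := hadj 2 (by omega)
    rw [hl] at hclose
    rw [hclose] at h2
    have o0 := hodd _ h0
    have o1 := hodd _ h1
    have o2 := hodd _ h2
    simp only [zero_add, Nat.reduceAdd] at o0 o1 o2
    omega
  · have h0 := hadj 0 (by omega)
    have h1 := hadj 1 (by omega)
    have h2 := hadj 2 (by omega)
    have h3 := hadj 3 (by omega)
    rw [hl] at hclose
    rw [hclose] at h3
    simp only [zero_add, Nat.reduceAdd] at h0 h1 h2 h3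
    have hinj := hw.getVert_injOn'
    rcases hsid _ h0 _ h2 _ h1 _ h3 (by ring) with h | h
    · have h5 : w.getVert 0 = w.getVert 2 := hval _ _ (by omega)
      have := hinj (by simp) (by simp; omega) h5
      omega
    · have h5 : w.getVert 1 = w.getVert 3 := hval _ _ (by omega)
      have := hinj (by simp; omega) (by simp; omega) h5
      omega

theorem girth_sharp (m : ℕ) (hm : 10 ≤ m) : ∃ (w : ℕ) (G : SimpleGraph (Str m)), GraphWidth w G ∧
    4 < G.egirth ∧ (w : ℝ) ≤ 2 * ((2 : ℝ) ^ m) ^ (1 / 2 : ℝ) ∧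
    1 / 32 * ((2 : ℝ) ^ m) ^ (1 + 1 / 2 : ℝ) ≤ Nat.card G.edgeSet := by
  set t := (m - 3) / 2 with ht
  have ht1 : 3 ≤ t := by omega
  have ht2 : 2 * t + 3 ≤ m := by omega
  have ht3 : m ≤ 2 * t + 4 := by omega
  obtain ⟨p, hp, hp1, hp2⟩ := Nat.exists_prime_lt_and_le_two_mul (2 ^ (t - 1)) (by positivity)
  have hpt : 2 * 2 ^ (t - 1) = 2 ^ t := by
    rw [← pow_succ']; congr 1; omega
  rw [hpt] at hp2
  have hp4 : 4 ≤ 2 ^ (t - 1) := by
    calc 4 = 2 ^ 2 := by norm_num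
      _ ≤ 2 ^ (t - 1) := Nat.pow_le_pow_right (by norm_num) (by omega)
  have hpne : p ≠ 2 := by omega
  have hmm : 2 ^ m = 2 * 2 ^ (m - 1) := by
    rw [← pow_succ']; congr 1; omega
  have hsq : 4 * (p * p) ≤ 2 ^ (m - 1) := by
    calc 4 * (p * p) ≤ 4 * (2 ^ t * 2 ^ t) := by gcongr
      _ = 2 ^ (2 * t + 2) := by rw [← pow_add]; ring
      _ ≤ 2 ^ (m - 1) := Nat.pow_le_pow_right (by norm_num) (by omega)
  have hodd : ∀ s ∈ etSet m p, s % 2 = 1 := by
    intro s hs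
    simp only [etSet, Finset.mem_image, Finset.mem_range] at hs
    obtain ⟨k, hk, rfl⟩ := hs
    have : 2 ^ (m - 1) = 2 * 2 ^ (m - 2) := by
      rw [← pow_succ']; congr 1; omega
    have e : 4 * p * k = 2 * (2 * p * k) := by ring
    omega
  have hlow : ∀ s ∈ etSet m p, 2 ^ (m - 1) ≤ s := by
    intro s hs
    simp only [etSet, Finset.mem_image, Finset.mem_range] at hs
    obtain ⟨k, hk, rfl⟩ := hs
    omega
  have hhigh : ∀ s ∈ etSet m p, s < 2 ^ m := by
    intro s hs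
    simp only [etSet, Finset.mem_image, Finset.mem_range] at hs
    obtain ⟨k, hk, rfl⟩ := hs
    have h1 := Nat.mod_lt (k ^ 2) hp.pos
    have h2 : p * (k + 1) ≤ p * p := Nat.mul_le_mul_left _ hk
    have h3 : 4 * p * k = 4 * (p * (k + 1)) - 4 * p := by
      rw [mul_add]; rw [mul_assoc]; omega
    have h4 : 4 * p ≤ 4 * (p * (k + 1)) := by nlinarith
    omega
  have hcard := et_card m p hp hpne
  refine ⟨2 * p + 1, sumGraph m (etSet m p) hodd, ?_, ?_, ?_, ?_⟩
  · have h := sumGraph_width m (etSet m p) hodd hhigh (by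
      rw [← Finset.card_pos, hcard]; exact hp.pos)
    rwa [hcard] at h
  · exact sumGraph_girth m _ hodd (et_sidon m p hp hpne)
  · rw [ASY2_rp]
    have h1 : ((2 * p + 1 : ℕ) : ℝ) ≤ 3 * 2 ^ t := by
      have : 2 * p + 1 ≤ 3 * 2 ^ t := by omega
      exact_mod_cast this
    have h2 : (2 : ℝ) * 2 ^ t ≤ 2 ^ ((1 / 2 : ℝ) * m) := by
      have e : (2 : ℝ) * 2 ^ t = 2 ^ ((t + 1 : ℝ)) := by
        rw [Real.rpow_add (by norm_num), Real.rpow_one, Real.rpow_natCast]; ring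
      rw [e]
      apply Real.rpow_le_rpow_of_exponent_le (by norm_num)
      have : (2 * t + 3 : ℝ) ≤ m := by exact_mod_cast ht2
      linarith
    have h3 : (0 : ℝ) < 2 ^ t := by positivity
    linarith
  · rw [ASY2_rp]
    have h1 := sumGraph_edges m (etSet m p) hodd hhigh hlow
    rw [hcard] at h1
    have h2 : 2 ^ (t - 1) * 2 ^ (m - 1) ≤ 2 * Nat.card (sumGraph m (etSet m p) hodd).edgeSet :=
      le_trans (Nat.mul_le_mul_right _ hp1.le) h1
    have h3 : (2 : ℝ) ^ (t - 1) * 2 ^ (m - 1) ≤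
        2 * (Nat.card (sumGraph m (etSet m p) hodd).edgeSet : ℝ) := by exact_mod_cast h2
    have h4 : (2 : ℝ) ^ ((1 + 1 / 2 : ℝ) * m) ≤ 16 * ((2 : ℝ) ^ (t - 1) * 2 ^ (m - 1)) := by
      have e : 16 * ((2 : ℝ) ^ (t - 1) * 2 ^ (m - 1)) = 2 ^ ((t + m + 2 : ℝ)) := by
        rw [← pow_add]
        have : (16 : ℝ) = 2 ^ 4 := by norm_num
        rw [this, ← pow_add, ← Real.rpow_natCast]
        congr 1
        have : 4 + (t - 1 + (m - 1)) = t + m + 2 := by omega
        rw [this]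
        push_cast
        ring
      rw [e]
      apply Real.rpow_le_rpow_of_exponent_le (by norm_num)
      have : (m : ℝ) ≤ 2 * t + 4 := by exact_mod_cast ht3
      linarith
    linarith


theorem girth_nobdd_bound (m β : ℕ) (G : SimpleGraph (Str m))
    (hG : HasNObdd β (fun x : Fin 2 → Str m => G.Adj (x 0) (x 1))) (hg : 4 < G.egirth) :
    2 * Nat.card G.edgeSet ≤ β * m * 2 ^ m := by
  have h := kst_nobdd_bound m β 2 2 G le_rfl le_rfl hG (free_of_girth G hg)
  omega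

theorem girth_obdd_bound (m w : ℕ) (G : SimpleGraph (Str m))
    (hG : ObddWidth w (fun x : Fin 2 → Str m => G.Adj (x 0) (x 1))) (hg : 4 < G.egirth) :
    Nat.card G.edgeSet ≤ w * m * 2 ^ m := by
  have h := kst_obdd_bound m w 2 2 G le_rfl le_rfl hG (free_of_girth G hg)
  omega

theorem girth_obdd_asy (k : ℕ) (c c' : ℝ) (hk : 2 ≤ k) (hc' : 0 < c') (hc : c < 1 / k) :
    ∃ m₀ : ℕ, ∀ (m w : ℕ) (G : SimpleGraph (Str m)), m₀ ≤ m →
      ObddWidth w (fun x : Fin 2 → Str m => G.Adj (x 0) (x 1)) →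
      ((2 * k : ℕ) : ℕ∞) < G.egirth →
      c' * ((2 : ℝ) ^ m) ^ (1 + 1 / (k : ℝ)) ≤ Nat.card G.edgeSet →
      ((2 : ℝ) ^ m) ^ c < w := by
  obtain ⟨m₀, hm₀⟩ := asy 1 c (1 / (k : ℝ)) (c' / 2) (by positivity) hc
  refine ⟨m₀, fun m w G hm hw hG he => ?_⟩
  by_contra hcon
  rw [not_lt] at hcon
  have h4 : (4 : ℕ∞) < G.egirth := by
    refine lt_of_le_of_lt ?_ hG
    have : (4 : ℕ) ≤ 2 * k := by omega
    exact_mod_cast this
  have h1 := girth_obdd_bound m w G hw h4
  have h2 := hm₀ m w hm hcon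
  have h3 : (Nat.card G.edgeSet : ℝ) ≤ (w : ℝ) * m * 2 ^ m := by exact_mod_cast h1
  rw [Nat.cast_one, one_mul] at h2
  have h5 : (0 : ℝ) < c' * ((2 : ℝ) ^ m) ^ (1 + 1 / (k : ℝ)) := by positivity
  linarith

theorem girth_obdd_sharp (m : ℕ) (hm : 10 ≤ m) : ∃ (w : ℕ) (G : SimpleGraph (Str m)),
    ObddWidth w (fun x : Fin 2 → Str m => G.Adj (x 0) (x 1)) ∧ 4 < G.egirth ∧
    (w : ℝ) ≤ 6 * ((2 : ℝ) ^ m) ^ (1 / 2 : ℝ) ∧
    1 / 32 * ((2 : ℝ) ^ m) ^ (1 + 1 / 2 : ℝ) ≤ Nat.card G.edgeSet := by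
  obtain ⟨w, G, h1, h2, h3, h4⟩ := girth_sharp m hm
  refine ⟨3 * w, G, obdd_of_width h1, h2, ?_, h4⟩
  push_cast
  linarith

end Pool.Agent.TH454.BW
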