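import Pool.Agent.TH454.BW.Blow
import Pool.Agent.TH454.BW.Girth

/-!
# Disjoint copies of graphs of girth greater than four
-/

set_option autoImplicit false

namespace Pool.Agent.TH454.BW

open Pool.Agent.H607R2.BW

theorem copies_girth {L : ℕ} (k : ℕ) (G : SimpleGraph (Str L)) (hG : 4 < G.egirth) :
    4 < (copies k G).egirth := by
  by_contra hcon
  rw [not_lt] at hcon
  have hac : ¬ (copies k G).IsAcyclic := by
    intro hac
    rw [hac.egirth_eq_top] at hcon
    exact absurd hcon (by simp)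
  obtain ⟨a, w, hw, hlen⟩ := SimpleGraph.exists_egirth_eq_length.2 hac
  rw [hlen] at hcon
  have hle : w.length ≤ 4 := by exact_mod_cast hcon
  have h3 := hw.three_le_length
  have hadj : ∀ i, i < w.length → (copies k G).Adj (w.getVert i) (w.getVert (i + 1)) :=
    fun i hi => w.adj_getVert_succ hi
  have hhigh : ∀ i, i ≤ w.length → ∀ r : Fin k,
      w.getVert i (Fin.natAdd L r) = w.getVert 0 (Fin.natAdd L r) := by
    intro i
    induction i with
    | zero => intro _ r; rfl
    | succ i ih =>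
      intro hi r
      rw [← ih (by omega) r]
      exact ((hadj i (by omega)).2 r).symm
  have hclose : w.getVert w.length = w.getVert 0 := by simp
  have hinj := hw.getVert_injOn'
  let x : ℕ → Str L := fun i t => w.getVert i (Fin.castAdd k t)
  have hx : ∀ i, i < w.length → G.Adj (x i) (x (i + 1)) := fun i hi => (hadj i hi).1
  have hxx : ∀ i j, i ≤ w.length → j ≤ w.length → x i = x j → w.getVert i = w.getVert j := by
    intro i j hi hj h
    funext r
    refine Fin.addCases (fun r => ?_) (fun r => ?_) r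
    · exact congrFun h r
    · exact (hhigh i hi r).trans (hhigh j hj r).symm
  rcases (by omega : w.length = 3 ∨ w.length = 4) with hl | hl
  · have h0 := hx 0 (by omega)
    have h1 := hx 1 (by omega)
    have h2 := hx 2 (by omega)
    have e : x 3 = x 0 := by
      rw [hl] at hclose
      funext t
      exact congrFun hclose _
    simp only [zero_add, Nat.reduceAdd] at h0 h1 h2
    rw [e] at h2
    have n0 := h0.ne
    have n1 := h1.ne
    have n2 := h2.ne
    have hcyc : (SimpleGraph.Walk.cons h0 (SimpleGraph.Walk.cons h1 (SimpleGraph.Walk.cons h2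
        SimpleGraph.Walk.nil))).IsCycle := by
      rw [SimpleGraph.Walk.cons_isCycle_iff]
      constructor
      · simp [SimpleGraph.Walk.isPath_def, n0.symm, n1, n2]
      · simp [n0, n0.symm, n1, n1.symm, n2, n2.symm]
    have h5 := SimpleGraph.egirth_le_length hcyc
    simp only [SimpleGraph.Walk.length_cons, SimpleGraph.Walk.length_nil] at h5
    have h6 : ((0 + 1 + 1 + 1 : ℕ) : ℕ∞) = 3 := by norm_num
    rw [h6] at h5
    have h7 := lt_of_lt_of_le hG h5
    exact absurd h7 (by decide)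
  · apply free_of_girth G hG
    have h0 := hx 0 (by omega)
    have h1 := hx 1 (by omega)
    have h2 := hx 2 (by omega)
    have h3 := hx 3 (by omega)
    have e : x 4 = x 0 := by
      rw [hl] at hclose
      funext t
      exact congrFun hclose _
    simp only [zero_add, Nat.reduceAdd] at h0 h1 h2 h3
    rw [e] at h3
    have n02 : x 0 ≠ x 2 := by
      intro h
      have := hinj (by simp) (by simp; omega) (hxx 0 2 (by omega) (by omega) h)
      omega
    have n13 : x 1 ≠ x 3 := by
      intro h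
      have := hinj (by simp; omega) (by simp; omega) (hxx 1 3 (by omega) (by omega) h)
      omega
    refine ⟨⟨⟨Sum.elim ![x 0, x 2] ![x 1, x 3], ?_⟩, ?_⟩⟩
    · intro u v huv
      rw [completeBipartiteGraph_adj] at huv
      rcases u with i | i <;> rcases v with j | j <;> simp at huv
      · fin_cases i <;> fin_cases j
        · exact h0
        · exact h3.symm
        · exact h1.symm
        · exact h2
      · fin_cases i <;> fin_cases j
        · exact h0.symm
        · exact h1
        · exact h3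
        · exact h2.symm
    · have n01 := h0.ne
      have n12 := h1.ne
      have n23 := h2.ne
      have n30 := h3.ne
      intro u v huv
      rcases u with i | i <;> rcases v with j | j <;> fin_cases i <;> fin_cases j <;>
        simp_all

theorem girth_nat (t : ℕ) (ht : 3 ≤ t) : ∃ (w : ℕ) (G : SimpleGraph (Str (2 * t + 3))),
    GraphWidth w G ∧ 4 < G.egirth ∧ w + 1 ≤ 3 * 2 ^ t ∧
    2 ^ t * 2 ^ (2 * t + 3) ≤ 8 * Nat.card G.edgeSet := by
  obtain ⟨p, hp, hp1, hp2⟩ := Nat.exists_prime_lt_and_le_two_mul (2 ^ (t - 1)) (by positivity)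
  have hpt : 2 * 2 ^ (t - 1) = 2 ^ t := by
    rw [← pow_succ']; congr 1; omega
  rw [hpt] at hp2
  have hp4 : 4 ≤ 2 ^ (t - 1) := by
    calc 4 = 2 ^ 2 := by norm_num
      _ ≤ 2 ^ (t - 1) := Nat.pow_le_pow_right (by norm_num) (by omega)
  have hpne : p ≠ 2 := by omega
  have hmm : 2 ^ (2 * t + 3) = 2 * 2 ^ (2 * t + 2) := by
    rw [← pow_succ']
  have hmm1 : 2 ^ (2 * t + 2) = 2 * 2 ^ (2 * t + 1) := by
    rw [← pow_succ']
  have hsq : 4 * (p * p) ≤ 2 ^ (2 * t + 2) := by
    calc 4 * (p * p) ≤ 4 * (2 ^ t * 2 ^ t) := by gcongr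
      _ = 2 ^ (2 * t + 2) := by rw [← pow_add]; ring
  have e0 : 2 * t + 3 - 1 = 2 * t + 2 := by omega
  have hodd : ∀ s ∈ etSet (2 * t + 3) p, s % 2 = 1 := by
    intro s hs
    simp only [etSet, Finset.mem_image, Finset.mem_range] at hs
    obtain ⟨k, hk, rfl⟩ := hs
    have e : 4 * p * k = 2 * (2 * p * k) := by ring
    rw [e0]
    omega
  have hlow : ∀ s ∈ etSet (2 * t + 3) p, 2 ^ (2 * t + 3 - 1) ≤ s := by
    intro s hs
    simp only [etSet, Finset.mem_image, Finset.mem_range] at hs
    obtain ⟨k, hk, rfl⟩ := hs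
    omega
  have hhigh : ∀ s ∈ etSet (2 * t + 3) p, s < 2 ^ (2 * t + 3) := by
    intro s hs
    simp only [etSet, Finset.mem_image, Finset.mem_range] at hs
    obtain ⟨k, hk, rfl⟩ := hs
    have h1 := Nat.mod_lt (k ^ 2) hp.pos
    have h2 : p * (k + 1) ≤ p * p := Nat.mul_le_mul_left _ hk
    have h3 : 4 * p * k = 4 * (p * (k + 1)) - 4 * p := by
      rw [mul_add]; rw [mul_assoc]; omega
    have h4 : 4 * p ≤ 4 * (p * (k + 1)) := by nlinarith
    rw [e0]
    omega
  have hcard := et_card (2 * t + 3) p hp hpne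
  refine ⟨2 * p + 1, sumGraph (2 * t + 3) (etSet (2 * t + 3) p) hodd, ?_, ?_, ?_, ?_⟩
  · have h := sumGraph_width (2 * t + 3) (etSet (2 * t + 3) p) hodd hhigh (by
      rw [← Finset.card_pos, hcard]; exact hp.pos)
    rwa [hcard] at h
  · exact sumGraph_girth _ _ hodd (et_sidon _ p hp hpne)
  · omega
  · have h1 := sumGraph_edges (2 * t + 3) (etSet (2 * t + 3) p) hodd hhigh hlow
    rw [hcard, e0] at h1
    have h2 : 2 ^ (t - 1) * 2 ^ (2 * t + 2) ≤ p * 2 ^ (2 * t + 2) :=
      Nat.mul_le_mul_right _ hp1.le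
    have h3 : 2 ^ t * 2 ^ (2 * t + 3) = 4 * (2 ^ (t - 1) * 2 ^ (2 * t + 2)) := by
      rw [hmm, ← hpt]; ring
    rw [h3]
    omega

theorem girth_tradeoff (t m : ℕ) (ht : 3 ≤ t) (hm : 2 * t + 3 ≤ m) :
    ∃ (w : ℕ) (G : SimpleGraph (Str m)),
      ObddWidth w (fun x : Fin 2 → Str m => G.Adj (x 0) (x 1)) ∧ 4 < G.egirth ∧
      w ≤ 9 * 2 ^ t ∧ 2 ^ t * 2 ^ m ≤ 8 * Nat.card G.edgeSet := by
  obtain ⟨w, G, h1, h2, h3, h4⟩ := girth_nat t ht
  obtain ⟨k, rfl⟩ : ∃ k, m = 2 * t + 3 + k := ⟨m - (2 * t + 3), by omega⟩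
  refine ⟨3 * (w + 1), copies k G, obdd_of_width (copies_width k G h1), copies_girth k G h2,
    by omega, ?_⟩
  have h5 := copies_card k G
  calc 2 ^ t * 2 ^ (2 * t + 3 + k) = 2 ^ k * (2 ^ t * 2 ^ (2 * t + 3)) := by
        rw [pow_add]; ring
    _ ≤ 2 ^ k * (8 * Nat.card G.edgeSet) := Nat.mul_le_mul_left _ h4
    _ = 8 * (2 ^ k * Nat.card G.edgeSet) := by ring
    _ ≤ 8 * Nat.card (copies k G).edgeSet := Nat.mul_le_mul_left _ h5

end Pool.Agent.TH454.BW
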