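import Pool.Agent.TH454.BW.Trellis

/-!
# The cut lemma with general thresholds
-/

set_option autoImplicit false

namespace Pool.Agent.TH454.BW

variable {σ A : Type} (T : ℕ → Finset (σ × A × σ)) [Finite A]

/-- the cut lemma with thresholds `a q` for prefixes and `b q` for suffixes -/
theorem cut2 (β m : ℕ) (hT : ∀ p, (T p).card ≤ β) (s₀ : σ) (acc : Set σ) (a b : ℕ → ℕ)
    (hm : 1 ≤ m) (h1 : 1 ≤ a 0) (h2 : 1 ≤ b m)
    (h : ∀ q ≤ m, ∀ s, (pre T s₀ q s).card ≤ a q ∨ (suf T acc q (m - q) s).card ≤ b q) :
    (suf T acc 0 m s₀).card ≤ ∑ q ∈ Finset.range m, β * (a q * b (q + 1)) := by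
  classical
  -- the pieces
  let Z : ℕ → (σ × A × σ) → Finset (List A) := fun q τ =>
    if (pre T s₀ q τ.1).card ≤ a q ∧
        (suf T acc (q + 1) (m - (q + 1)) τ.2.2).card ≤ b (q + 1) then
      (pre T s₀ q τ.1 ×ˢ suf T acc (q + 1) (m - (q + 1)) τ.2.2).image
        (fun z => z.1 ++ τ.2.1 :: z.2)
    else ∅
  have hZ : ∀ q < m, ∀ τ, (Z q τ).card ≤ a q * b (q + 1) := by
    intro q hq τ
    simp only [Z]
    split_ifs with hs
    · refine le_trans Finset.card_image_le ?_
      rw [Finset.card_product]
      exact Nat.mul_le_mul hs.1 hs.2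
    · simp
  -- every accepted word is in a piece
  have hcover : suf T acc 0 m s₀ ⊆ (Finset.range m).biUnion (fun q => (T q).biUnion (Z q)) := by
    intro l hl
    by_contra hno
    rw [mem_suf] at hl
    obtain ⟨hlen, hacc⟩ := hl
    have hinv : ∀ q, q ≤ m → ∃ s l₁ l₂, l = l₁ ++ l₂ ∧ l₁ ∈ pre T s₀ q s ∧
        l₂ ∈ suf T acc q (m - q) s ∧ (pre T s₀ q s).card ≤ a q ∧
        (q = m → False) := by
      intro q
      induction q with
      | zero =>
        intro _
        refine ⟨s₀, [], l, rfl, ?_, ?_, ?_, by omega⟩
        · rw [mem_pre]; exact ⟨rfl, rfl⟩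
        · rw [mem_suf]; exact ⟨by omega, hacc⟩
        · have : pre T s₀ 0 s₀ ⊆ {[]} := by
            intro x hx
            rw [mem_pre, List.length_eq_zero_iff] at hx
            simp [hx.1]
          have := Finset.card_le_card this
          simp only [Finset.card_singleton] at this
          omega
      | succ q ih =>
        intro hq
        obtain ⟨s, l₁, l₂, hl12, hl1, hl2, hsm, -⟩ := ih (by omega)
        have hl2' := hl2
        rw [mem_suf] at hl2'
        obtain ⟨hlen2, s', hs', hp⟩ := hl2'
        match l₂, hlen2, hp, hl2, hl12 with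
        | [], hlen2, _, _, _ =>
          simp at hlen2; omega
        | c :: l₂, hlen2, hp, hl2, hl12 =>
          obtain ⟨s₁, hs₁, hp'⟩ := hp
          simp only [List.length_cons] at hlen2
          have hl2s : l₂ ∈ suf T acc (q + 1) (m - (q + 1)) s₁ := by
            rw [mem_suf]
            exact ⟨by omega, s', hs', hp'⟩
          have hnot : ¬ (suf T acc (q + 1) (m - (q + 1)) s₁).card ≤ b (q + 1) := by
            intro hle
            apply hno
            simp only [Finset.mem_biUnion, Finset.mem_range]
            refine ⟨q, by omega, (s, c, s₁), hs₁, ?_⟩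
            simp only [Z]
            rw [if_pos ⟨hsm, hle⟩, Finset.mem_image]
            exact ⟨(l₁, l₂), Finset.mem_product.2 ⟨hl1, hl2s⟩, hl12.symm⟩
          have hqm : q + 1 ≠ m := by
            intro hqm
            apply hnot
            have : suf T acc (q + 1) (m - (q + 1)) s₁ ⊆ {[]} := by
              intro x hx
              rw [mem_suf, hqm, Nat.sub_self, List.length_eq_zero_iff] at hx
              simp [hx.1]
            have := Finset.card_le_card this
            rw [hqm, Nat.sub_self] at this ⊢
            simp only [Finset.card_singleton] at this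
            omega
          refine ⟨s₁, l₁ ++ [c], l₂, ?_, ?_, hl2s, ?_, fun h => hqm h⟩
          · simp [hl12]
          · rw [mem_pre] at hl1 ⊢
            refine ⟨by simp [hl1.1], ?_⟩
            rw [path_append]
            refine ⟨s, hl1.2, s₁, ?_, rfl⟩
            rw [hl1.1]
            simpa using hs₁
          · rcases h (q + 1) hq s₁ with h | h
            · exact h
            · exact absurd h hnot
    obtain ⟨_, _, _, _, _, _, _, hfalse⟩ := hinv m le_rfl
    exact hfalse rfl
  refine le_trans (Finset.card_le_card hcover) ?_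
  refine le_trans Finset.card_biUnion_le ?_
  refine Finset.sum_le_sum fun q hq => ?_
  rw [Finset.mem_range] at hq
  refine le_trans Finset.card_biUnion_le ?_
  refine le_trans (Finset.sum_le_card_nsmul _ _ _ (fun τ _ => hZ q hq τ)) ?_
  rw [smul_eq_mul]
  exact Nat.mul_le_mul_right _ (hT q)

end Pool.Agent.TH454.BW
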