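import Mathlib

/-!
# Staircases in dense bipartite relations
-/

set_option autoImplicit false

namespace Pool.Agent.TH454.BW

variable {α γ : Type} [LinearOrder α] [LinearOrder γ]

/-- a staircase with `p` steps from `(x, y)`: a path `b 0, a 0, b 1, a 1, …, a (p - 1), b p` in `B`
with increasing `a i` and decreasing `b i` -/
def Stair (B : Finset (α × γ)) (p : ℕ) (x : α) (y : γ) : Prop :=
  ∃ (a : ℕ → α) (b : ℕ → γ), a 0 = x ∧ b 0 = y ∧
    (∀ i < p, (a i, b i) ∈ B ∧ (a i, b (i + 1)) ∈ B) ∧
    (∀ i j, i < j → j < p → a i < a j) ∧ (∀ i j, i < j → j ≤ p → b j < b i)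

theorem stair_one {B : Finset (α × γ)} {x : α} {y y' : γ} (h : (x, y) ∈ B) (h' : (x, y') ∈ B)
    (hy : y' < y) : Stair B 1 x y := by
  refine ⟨fun _ => x, fun i => if i = 0 then y else y', rfl, by simp, ?_, ?_, ?_⟩
  · intro i hi
    have : i = 0 := by omega
    subst this
    simp [h, h']
  · intro i j h1 h2; omega
  · intro i j h1 h2
    have h3 : i = 0 := by omega
    have h4 : j = 1 := by omega
    subst h3 h4
    simpa using hy

theorem stair_succ {B : Finset (α × γ)} {p : ℕ} {x x' : α} {y y' : γ} (h : (x, y) ∈ B)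
    (h' : (x, y') ∈ B) (hy : y' < y) (hx : x < x') (hs : Stair B p x' y') :
    Stair B (p + 1) x y := by
  obtain ⟨a, b, ha, hb, hab, h1, h2⟩ := hs
  refine ⟨fun i => if i = 0 then x else a (i - 1), fun i => if i = 0 then y else b (i - 1),
    by simp, by simp, ?_, ?_, ?_⟩
  · intro i hi
    rcases Nat.eq_zero_or_pos i with rfl | hi0
    · simp [h, hb, h']
    · obtain ⟨i, rfl⟩ : ∃ i', i = i' + 1 := ⟨i - 1, by omega⟩
      simpa using hab i (by omega)
  · intro i j hij hj
    obtain ⟨j, rfl⟩ : ∃ j', j = j' + 1 := ⟨j - 1, by omega⟩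
    rcases Nat.eq_zero_or_pos i with rfl | hi0
    · simp only [↓reduceIte, Nat.add_eq_zero_iff, one_ne_zero, and_false, Nat.add_sub_cancel]
      rcases Nat.eq_zero_or_pos j with rfl | hj0
      · rw [ha]; exact hx
      · refine lt_trans hx ?_
        rw [← ha]
        exact h1 0 j hj0 (by omega)
    · obtain ⟨i, rfl⟩ : ∃ i', i = i' + 1 := ⟨i - 1, by omega⟩
      simpa using h1 i j (by omega) (by omega)
  · intro i j hij hj
    obtain ⟨j, rfl⟩ : ∃ j', j = j' + 1 := ⟨j - 1, by omega⟩
    rcases Nat.eq_zero_or_pos i with rfl | hi0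
    · simp only [↓reduceIte, Nat.add_eq_zero_iff, one_ne_zero, and_false, Nat.add_sub_cancel]
      rcases Nat.eq_zero_or_pos j with rfl | hj0
      · rw [hb]; exact hy
      · refine lt_trans ?_ hy
        rw [← hb]
        exact h2 0 j hj0 (by omega)
    · obtain ⟨i, rfl⟩ : ∃ i', i = i' + 1 := ⟨i - 1, by omega⟩
      simpa using h2 i j (by omega) (by omega)

open Classical in
/-- the pairs whose second coordinate is minimal in their row -/
theorem card_rowmin (E : Finset (α × γ)) (N : ℕ) (hN : (E.image Prod.fst).card ≤ N) :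
    (E.filter (fun z => ∀ y' < z.2, (z.1, y') ∉ E)).card ≤ N := by
  refine le_trans ?_ hN
  refine le_trans (le_of_eq (Finset.card_image_of_injOn (f := Prod.fst) ?_).symm) ?_
  · intro z hz z' hz' heq
    simp only [Finset.coe_filter, Set.mem_ofPred_eq] at hz hz'
    refine Prod.ext heq ?_
    rcases lt_trichotomy z.2 z'.2 with h | h | h
    · exact absurd (by rw [← heq]; exact hz.1) (hz'.2 _ h)
    · exact h
    · exact absurd (by rw [heq]; exact hz'.1) (hz.2 _ h)
  · exact Finset.card_le_card (Finset.image_subset_image (Finset.filter_subset _ _))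

open Classical in
/-- the pairs whose first coordinate is maximal in their column -/
theorem card_colmax (E : Finset (α × γ)) (N : ℕ) (hN : (E.image Prod.snd).card ≤ N) :
    (E.filter (fun z => ∀ x' > z.1, (x', z.2) ∉ E)).card ≤ N := by
  refine le_trans ?_ hN
  refine le_trans (le_of_eq (Finset.card_image_of_injOn (f := Prod.snd) ?_).symm) ?_
  · intro z hz z' hz' heq
    simp only [Finset.coe_filter, Set.mem_ofPred_eq] at hz hz'
    refine Prod.ext ?_ heq
    rcases lt_trichotomy z.1 z'.1 with h | h | h
    · exact absurd (by rw [heq]; exact hz'.1) (hz.2 _ h)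
    · exact h
    · exact absurd (by rw [← heq]; exact hz.1) (hz'.2 _ h)
  · exact Finset.card_le_card (Finset.image_subset_image (Finset.filter_subset _ _))

theorem image_mono_card {β δ : Type} [DecidableEq δ] {E B : Finset β} (f : β → δ) (h : E ⊆ B)
    {N : ℕ} (hN : (B.image f).card ≤ N) : (E.image f).card ≤ N :=
  le_trans (Finset.card_le_card (Finset.image_subset_image h)) hN

open Classical in
/-- all but `(2 p + 1) N` pairs of `B` start a staircase with `p + 1` steps -/
theorem card_nostair (B : Finset (α × γ)) (N : ℕ) (h1 : (B.image Prod.fst).card ≤ N)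
    (h2 : (B.image Prod.snd).card ≤ N) (p : ℕ) :
    (B.filter (fun z => ¬ Stair B (p + 1) z.1 z.2)).card ≤ (2 * p + 1) * N := by
  induction p with
  | zero =>
    simp only [mul_zero, zero_add, one_mul]
    refine le_trans (Finset.card_le_card ?_) (card_rowmin B N h1)
    intro z hz
    rw [Finset.mem_filter] at hz ⊢
    refine ⟨hz.1, fun y' hy' hmem => hz.2 ?_⟩
    exact stair_one hz.1 hmem hy'
  | succ p ih =>
    set S : Finset (α × γ) := B.filter (fun z => Stair B (p + 1) z.1 z.2) with hS
    set E : Finset (α × γ) := B.filter (fun z => ∃ x' > z.1, (x', z.2) ∈ S) with hE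
    have hSB : S ⊆ B := Finset.filter_subset _ _
    have hEB : E ⊆ B := Finset.filter_subset _ _
    have hsub : B.filter (fun z => ¬ Stair B (p + 1 + 1) z.1 z.2) ⊆
        (B.filter (fun z => ¬ Stair B (p + 1) z.1 z.2)) ∪
        ((S.filter (fun z => ∀ x' > z.1, (x', z.2) ∉ S)) ∪
          (E.filter (fun z => ∀ y' < z.2, (z.1, y') ∉ E))) := by
      intro z hz
      rw [Finset.mem_filter] at hz
      obtain ⟨hzB, hzn⟩ := hz
      rw [Finset.mem_union, Finset.mem_union]
      by_cases hzS : Stair B (p + 1) z.1 z.2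
      · right
        have hzS' : z ∈ S := by rw [hS, Finset.mem_filter]; exact ⟨hzB, hzS⟩
        by_cases hzE : ∃ x' > z.1, (x', z.2) ∈ S
        · right
          have hzE' : z ∈ E := by rw [hE, Finset.mem_filter]; exact ⟨hzB, hzE⟩
          rw [Finset.mem_filter]
          refine ⟨hzE', fun y' hy' hmem => hzn ?_⟩
          rw [hE, Finset.mem_filter] at hmem
          obtain ⟨hm1, x', hx', hm2⟩ := hmem
          rw [hS, Finset.mem_filter] at hm2
          exact stair_succ hzB hm1 hy' hx' hm2.2
        · left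
          rw [Finset.mem_filter]
          refine ⟨hzS', fun x' hx' hmem => hzE ⟨x', hx', hmem⟩⟩
      · left
        rw [Finset.mem_filter]
        exact ⟨hzB, hzS⟩
    refine le_trans (Finset.card_le_card hsub) ?_
    refine le_trans (Finset.card_union_le _ _) ?_
    have h3 := card_colmax S N (image_mono_card Prod.snd hSB h2)
    have h4 := card_rowmin E N (image_mono_card Prod.fst hEB h1)
    have h5 := Finset.card_union_le (S.filter (fun z => ∀ x' > z.1, (x', z.2) ∉ S))
      (E.filter (fun z => ∀ y' < z.2, (z.1, y') ∉ E))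
    have : (2 * (p + 1) + 1) * N = (2 * p + 1) * N + (N + N) := by ring
    omega

/-- a relation with more than `(2 p + 1) N` pairs contains a staircase with `p + 1` steps -/
theorem exists_stair (B : Finset (α × γ)) (N : ℕ) (U : Finset α) (V : Finset γ)
    (hU : ∀ z ∈ B, z.1 ∈ U) (hV : ∀ z ∈ B, z.2 ∈ V) (hUN : U.card ≤ N) (hVN : V.card ≤ N)
    (p : ℕ) (hB : (2 * p + 1) * N < B.card) :
    ∃ (a : ℕ → α) (b : ℕ → γ), (∀ i < p + 1, (a i, b i) ∈ B ∧ (a i, b (i + 1)) ∈ B) ∧
      (∀ i j, i < j → j < p + 1 → a i < a j) ∧ (∀ i j, i < j → j ≤ p + 1 → b j < b i) := by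
  classical
  have h1 : (B.image Prod.fst).card ≤ N := by
    refine le_trans (Finset.card_le_card ?_) hUN
    intro x hx
    obtain ⟨z, hz, rfl⟩ := Finset.mem_image.1 hx
    exact hU z hz
  have h2 : (B.image Prod.snd).card ≤ N := by
    refine le_trans (Finset.card_le_card ?_) hVN
    intro x hx
    obtain ⟨z, hz, rfl⟩ := Finset.mem_image.1 hx
    exact hV z hz
  have h := card_nostair B N h1 h2 p
  have h3 : ∃ z ∈ B, Stair B (p + 1) z.1 z.2 := by
    by_contra hno
    push Not at hno
    have : B.filter (fun z => ¬ Stair B (p + 1) z.1 z.2) = B := by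
      rw [Finset.filter_eq_self]
      exact hno
    rw [this] at h
    omega
  obtain ⟨z, _, a, b, _, _, h4, h5, h6⟩ := h3
  exact ⟨a, b, h4, h5, h6⟩

/-- a relation on a linear order with more than `(4 p + 3) N` pairs contains a staircase with
`p + 1` steps all of whose left vertices differ from all of its right vertices -/
theorem exists_stair_disj (B : Finset (α × α)) (N : ℕ) (U : Finset α)
    (hU : ∀ z ∈ B, z.1 ∈ U ∧ z.2 ∈ U) (hUN : U.card ≤ N) (p : ℕ)
    (hB : (4 * p + 3) * N < B.card) :
    ∃ (a b : ℕ → α), (∀ i < p + 1, (a i, b i) ∈ B ∧ (a i, b (i + 1)) ∈ B) ∧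
      (∀ i j, i < j → j < p + 1 → a i ≠ a j) ∧ (∀ i j, i < j → j ≤ p + 1 → b i ≠ b j) ∧
      (∀ i j, i < p + 1 → j ≤ p + 1 → a i ≠ b j) := by
  classical
  set D := B.filter (fun z => z.1 = z.2) with hD
  set L := B.filter (fun z => z.1 < z.2) with hL
  set G := B.filter (fun z => z.2 < z.1) with hG
  have hDN : D.card ≤ N := by
    refine le_trans ?_ hUN
    refine Finset.card_le_card_of_injOn Prod.fst ?_ ?_
    · intro z hz
      simp only [hD, Finset.coe_filter, Set.mem_ofPred_eq] at hz
      exact (hU z hz.1).1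
    · intro z hz z' hz' heq
      simp only [hD, Finset.coe_filter, Set.mem_ofPred_eq] at hz hz'
      exact Prod.ext heq (by rw [← hz.2, ← hz'.2]; exact heq)
  have hsub : B ⊆ D ∪ (L ∪ G) := by
    intro z hz
    simp only [hD, hL, hG, Finset.mem_union, Finset.mem_filter]
    rcases lt_trichotomy z.1 z.2 with h | h | h
    · exact Or.inr (Or.inl ⟨hz, h⟩)
    · exact Or.inl ⟨hz, h⟩
    · exact Or.inr (Or.inr ⟨hz, h⟩)
  have hc := Finset.card_le_card hsub
  have hc1 := Finset.card_union_le D (L ∪ G)
  have hc2 := Finset.card_union_le L G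
  have hring : (4 * p + 3) * N = N + 2 * ((2 * p + 1) * N) := by ring
  have hLG : (2 * p + 1) * N < L.card ∨ (2 * p + 1) * N < G.card := by
    by_contra hcon
    push Not at hcon
    omega
  rcases hLG with hlt | hlt
  · obtain ⟨a, b, h3, h4, h5⟩ := exists_stair L N U U
      (fun z hz => (hU z (Finset.mem_filter.1 hz).1).1)
      (fun z hz => (hU z (Finset.mem_filter.1 hz).1).2) hUN hUN p hlt
    refine ⟨a, b, fun i hi => ?_, fun i j hij hj => (h4 i j hij hj).ne,
      fun i j hij hj => (h5 i j hij hj).ne', fun i j hi hj => ?_⟩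
    · have := h3 i hi
      simp only [hL, Finset.mem_filter] at this
      exact ⟨this.1.1, this.2.1⟩
    · have e1 : a i ≤ a p := by
        rcases Nat.lt_or_ge i p with h | h
        · exact (h4 i p h (by omega)).le
        · have : i = p := by omega
          rw [this]
      have e2 : b (p + 1) ≤ b j := by
        rcases Nat.lt_or_ge j (p + 1) with h | h
        · exact (h5 j (p + 1) h le_rfl).le
        · have : j = p + 1 := by omega
          rw [this]
      have e3 : a p < b (p + 1) := by
        have := (h3 p (by omega)).2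
        simp only [hL, Finset.mem_filter] at this
        exact this.2
      exact (lt_of_le_of_lt e1 (lt_of_lt_of_le e3 e2)).ne
  · -- the reversed orders
    let f : α × α ↪ αᵒᵈ × αᵒᵈ :=
      ⟨fun z => (OrderDual.toDual z.1, OrderDual.toDual z.2), fun z z' h => by
        simpa [Prod.ext_iff] using h⟩
    have hmem : ∀ x y : αᵒᵈ, (x, y) ∈ G.map f →
        (OrderDual.ofDual x, OrderDual.ofDual y) ∈ G := by
      intro x y h
      rw [Finset.mem_map] at h
      obtain ⟨z, hz, he⟩ := h
      have h6 : OrderDual.toDual z.1 = x := congrArg Prod.fst he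
      have h7 : OrderDual.toDual z.2 = y := congrArg Prod.snd he
      rw [← h6, ← h7]
      exact hz
    have hex := exists_stair (α := αᵒᵈ) (γ := αᵒᵈ) (G.map f) N
      (U.map OrderDual.toDual.toEmbedding) (U.map OrderDual.toDual.toEmbedding)
      (fun z hz => by
        have h6 := hmem z.1 z.2 hz
        have h7 := (hU _ (Finset.mem_filter.1 h6).1).1
        exact Finset.mem_map.2 ⟨_, h7, rfl⟩)
      (fun z hz => by
        have h6 := hmem z.1 z.2 hz
        have h7 := (hU _ (Finset.mem_filter.1 h6).1).2
        exact Finset.mem_map.2 ⟨_, h7, rfl⟩)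
      (by rw [Finset.card_map]; exact hUN) (by rw [Finset.card_map]; exact hUN) p
      (by rw [Finset.card_map]; exact hlt)
    obtain ⟨a, b, h3, h4, h5⟩ := hex
    have h3' : ∀ i < p + 1, (OrderDual.ofDual (a i), OrderDual.ofDual (b i)) ∈ G ∧
        (OrderDual.ofDual (a i), OrderDual.ofDual (b (i + 1))) ∈ G := fun i hi =>
      ⟨hmem _ _ (h3 i hi).1, hmem _ _ (h3 i hi).2⟩
    refine ⟨fun i => OrderDual.ofDual (a i), fun i => OrderDual.ofDual (b i),
      fun i hi => ?_, fun i j hij hj h => (h4 i j hij hj).ne h,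
      fun i j hij hj h => (h5 i j hij hj).ne' h, fun i j hi hj => ?_⟩
    · have := h3' i hi
      simp only [hG, Finset.mem_filter] at this
      exact ⟨this.1.1, this.2.1⟩
    · have e1 : a i ≤ a p := by
        rcases Nat.lt_or_ge i p with h | h
        · exact (h4 i p h (by omega)).le
        · have : i = p := by omega
          rw [this]
      have e2 : b (p + 1) ≤ b j := by
        rcases Nat.lt_or_ge j (p + 1) with h | h
        · exact (h5 j (p + 1) h le_rfl).le
        · have : j = p + 1 := by omega
          rw [this]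
      have e3 : a p < b (p + 1) := by
        have := (h3' p (by omega)).2
        simp only [hG, Finset.mem_filter] at this
        exact this.2
      exact fun h => (lt_of_le_of_lt e1 (lt_of_lt_of_le e3 e2)).ne h

end Pool.Agent.TH454.BW
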