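import Pool.Agent.TH454.BW.Trellis
import Pool.Agent.TH454.BW.Zigzag
import Pool.Agent.H607R2.BW.KST

/-!
# Graphs decided by trellises: cut into two dense relations
-/

set_option autoImplicit false

namespace Pool.Agent.TH454.BW

open Pool.Agent.H607R2.BW

/-- the two strings of a word -/
def ps (l : List (Fin 2 → Bool)) : List Bool × List Bool :=
  (l.map (fun a => a 0), l.map (fun a => a 1))

theorem ps_inj : Function.Injective ps := by
  intro l
  induction l with
  | nil =>
    intro l' h
    cases l' with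
    | nil => rfl
    | cons a l' => simp [ps] at h
  | cons a l ih =>
    intro l' h
    cases l' with
    | nil => simp [ps] at h
    | cons a' l' =>
      simp only [ps, List.map_cons, Prod.mk.injEq, List.cons.injEq] at h
      obtain ⟨⟨h1, h2⟩, h3, h4⟩ := h
      have h5 : a = a' := by
        funext i
        fin_cases i
        · exact h1
        · exact h3
      rw [h5, ih (Prod.ext h2 h4)]

/-- the string of a list of length `m` -/
def toStr (m : ℕ) (l : List Bool) : Str m := fun t => l.getD t false

theorem toStr_inj {m : ℕ} {l l' : List Bool} (h : l.length = m) (h' : l'.length = m)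
    (he : toStr m l = toStr m l') : l = l' := by
  apply List.ext_getElem (by omega)
  intro i h1 h2
  have h3 := congrFun he ⟨i, by omega⟩
  simp only [toStr] at h3
  rw [List.getD_eq_getElem _ _ h1, List.getD_eq_getElem _ _ h2] at h3
  exact h3

theorem toStr_map {m : ℕ} (l : List (Fin 2 → Bool)) (h : l.length = m) (j : Fin 2) (i : ℕ)
    (hi : i < m) (hi' : i < l.length) :
    toStr m (l.map (fun a => a j)) ⟨i, hi⟩ = l[i] j := by
  unfold toStr
  rw [List.getD_eq_getElem _ _ (by simpa using hi')]
  simp

theorem word_toStr {m : ℕ} (l : List (Fin 2 → Bool)) (h : l.length = m) :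
    word ![toStr m (ps l).1, toStr m (ps l).2] = l := by
  apply List.ext_getElem
  · simp [word, h]
  · intro i h1 h2
    simp only [word, List.getElem_ofFn]
    funext j
    fin_cases j
    · exact toStr_map l h 0 i (by omega) h2
    · exact toStr_map l h 1 i (by omega) h2

theorem card_Wd (q : ℕ) : (Wd Bool q).card = 2 ^ q := by
  classical
  have : Wd Bool q = (Finset.univ : Finset (Fin q → Bool)).image List.ofFn := by
    ext l
    rw [mem_Wd, Finset.mem_image]
    constructor
    · rintro rfl
      exact ⟨l.get, Finset.mem_univ _, List.ofFn_get l⟩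
    · rintro ⟨f, _, rfl⟩
      simp
  rw [this, Finset.card_image_of_injective _ List.ofFn_injective, Finset.card_univ,
    Fintype.card_fun, Fintype.card_bool, Fintype.card_fin]

theorem exists_cut {m β : ℕ} (G : SimpleGraph (Str m))
    (hG : HasTrellis β (fun x : Fin 2 → Str m => G.Adj (x 0) (x 1))) (K₁ K₂ : ℕ) (h1 : 1 ≤ K₁)
    (h2 : 1 ≤ K₂) (hcard : m * β * (K₁ * K₂ * 2 ^ (m - 1)) < 2 * Nat.card G.edgeSet) :
    ∃ q ≤ m, ∃ B M : Finset (List Bool × List Bool),
      (∀ z ∈ B, z.1 ∈ Wd Bool q ∧ z.2 ∈ Wd Bool q) ∧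
      (∀ z ∈ M, z.1 ∈ Wd Bool (m - q) ∧ z.2 ∈ Wd Bool (m - q)) ∧
      K₁ * 2 ^ q < B.card ∧ K₂ * 2 ^ (m - q) < M.card ∧
      ∀ z ∈ B, ∀ z' ∈ M, G.Adj (toStr m (z.1 ++ z'.1)) (toStr m (z.2 ++ z'.2)) := by
  classical
  rcases Nat.eq_zero_or_pos m with hm | hm
  · subst hm
    exfalso
    have : IsEmpty G.edgeSet := by
      constructor
      rintro ⟨e, he⟩
      induction e using Sym2.ind with
      | _ x y =>
        rw [SimpleGraph.mem_edgeSet] at he
        exact he.ne (Subsingleton.elim _ _)
    rw [Nat.card_of_isEmpty] at hcard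
    omega
  obtain ⟨σ, T, s₀, acc, hT, hR⟩ := hG
  have hacc : ∀ l : List (Fin 2 → Bool), l.length = m → (∃ s' ∈ acc, Path T 0 s₀ l s') →
      G.Adj (toStr m (ps l).1) (toStr m (ps l).2) := by
    intro l hl h
    have := (hR ![toStr m (ps l).1, toStr m (ps l).2]).2 (by rw [word_toStr l hl]; exact h)
    simpa using this
  -- the number of accepted words
  have hcount : 2 * Nat.card G.edgeSet ≤ (suf T acc 0 m s₀).card := by
    rw [← KST_card]
    have hinj : Function.Injective (fun x : {x : Fin 2 → Str m // G.Adj (x 0) (x 1)} =>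
        (⟨word x.1, by
          rw [mem_suf]
          exact ⟨by simp [word], (hR x.1).1 x.2⟩⟩ : {l // l ∈ suf T acc 0 m s₀})) := by
      intro x y hxy
      have h3 : word x.1 = word y.1 := congrArg Subtype.val hxy
      have h4 := List.ofFn_injective h3
      apply Subtype.ext
      funext j t
      exact congrFun (congrFun h4 t) j
    have := Nat.card_le_card_of_injective _ hinj
    rwa [Nat.card_eq_fintype_card (α := {l // l ∈ suf T acc 0 m s₀}), Fintype.card_coe] at this
  have hex : ∃ q ≤ m, ∃ s, K₁ * 2 ^ q < (pre T s₀ q s).card ∧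
      K₂ * 2 ^ (m - q) < (suf T acc q (m - q) s).card := by
    by_contra hno
    push Not at hno
    have := cut T β m hT s₀ acc K₁ K₂ 2 hm h1 h2 (by
      intro q hq s
      by_cases hle : (pre T s₀ q s).card ≤ K₁ * 2 ^ q
      · exact Or.inl hle
      · exact Or.inr (hno q hq s (by omega)))
    omega
  obtain ⟨q, hq, s, hB, hM⟩ := hex
  refine ⟨q, hq, (pre T s₀ q s).image ps, (suf T acc q (m - q) s).image ps, ?_, ?_, ?_, ?_, ?_⟩
  · intro z hz
    obtain ⟨l, hl, rfl⟩ := Finset.mem_image.1 hz
    rw [mem_pre] at hl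
    simp [ps, mem_Wd, hl.1]
  · intro z hz
    obtain ⟨l, hl, rfl⟩ := Finset.mem_image.1 hz
    rw [mem_suf] at hl
    simp [ps, mem_Wd, hl.1]
  · rwa [Finset.card_image_of_injective _ ps_inj]
  · rwa [Finset.card_image_of_injective _ ps_inj]
  · intro z hz z' hz'
    obtain ⟨l, hl, rfl⟩ := Finset.mem_image.1 hz
    obtain ⟨l', hl', rfl⟩ := Finset.mem_image.1 hz'
    rw [mem_pre] at hl
    rw [mem_suf] at hl'
    have h3 := hacc (l ++ l') (by rw [List.length_append, hl.1, hl'.1]; omega) (by
      obtain ⟨s', hs', hp⟩ := hl'.2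
      refine ⟨s', hs', ?_⟩
      rw [path_append]
      refine ⟨s, hl.2, ?_⟩
      rw [hl.1, zero_add]
      exact hp)
    simpa [ps] using h3

/-- an alternating closed sequence of `2 k` vertices is a cycle of length `2 k` -/
theorem cycle_of_seq {V : Type} (G : SimpleGraph V) (k : ℕ) (hk : 2 ≤ k) (L R : ℕ → V)
    (h1 : ∀ i < k, G.Adj (L i) (R i)) (h2 : ∀ i, i + 1 < k → G.Adj (L (i + 1)) (R i))
    (h3 : G.Adj (L 0) (R (k - 1))) (hL : ∀ i j, i < k → j < k → L i = L j → i = j)
    (hR : ∀ i j, i < k → j < k → R i = R j → i = j) (hLR : ∀ i j, i < k → j < k → L i ≠ R j) :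
    (SimpleGraph.cycleGraph (2 * k)).IsContained G := by
  let f : Fin (2 * k) → V := fun v => if (v : ℕ) % 2 = 0 then L (v / 2) else R (v / 2)
  have key : ∀ u v : Fin (2 * k), ((v - u : Fin (2 * k)) : ℕ) = 1 → G.Adj (f u) (f v) := by
    intro u v huv
    have hu := u.2
    have hv := v.2
    have hcases : (v : ℕ) = u + 1 ∨ ((u : ℕ) = 2 * k - 1 ∧ (v : ℕ) = 0) := by
      rcases Nat.lt_or_ge (v : ℕ) u with hlt | hge
      · have := Fin.coe_sub_iff_lt.2 (show v < u from hlt)
        omega
      · have := Fin.coe_sub_iff_le.2 (show u ≤ v from hge)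
        omega
    rcases hcases with h | ⟨h, h'⟩
    · rcases Nat.mod_two_eq_zero_or_one u with hu2 | hu2
      · obtain ⟨i, hi⟩ : ∃ i, (u : ℕ) = 2 * i := ⟨u / 2, by omega⟩
        have e1 : f u = L i := by
          simp only [f]; rw [if_pos hu2]; congr 1; omega
        have e2 : f v = R i := by
          simp only [f]; rw [if_neg (by omega)]; congr 1; omega
        rw [e1, e2]
        exact h1 i (by omega)
      · obtain ⟨i, hi⟩ : ∃ i, (u : ℕ) = 2 * i + 1 := ⟨u / 2, by omega⟩
        have e1 : f u = R i := by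
          simp only [f]; rw [if_neg (by omega)]; congr 1; omega
        have e2 : f v = L (i + 1) := by
          simp only [f]; rw [if_pos (by omega)]; congr 1; omega
        rw [e1, e2]
        exact (h2 i (by omega)).symm
    · have e1 : f u = R (k - 1) := by
        simp only [f]; rw [if_neg (by omega)]; congr 1; omega
      have e2 : f v = L 0 := by
        simp only [f]; rw [if_pos (by omega)]; congr 1; omega
      rw [e1, e2]
      exact h3.symm
  refine ⟨⟨⟨f, ?_⟩, ?_⟩⟩
  · intro u v huv
    rw [SimpleGraph.cycleGraph_adj'] at huv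
    rcases huv with h | h
    · exact (key v u h).symm
    · exact key u v h
  · intro u v huv
    have hu := u.2
    have hv := v.2
    have huv' : f u = f v := huv
    simp only [f] at huv'
    apply Fin.ext
    split_ifs at huv' with hu2 hv2 hv2
    · have := hL _ _ (by omega) (by omega) huv'
      omega
    · exact absurd huv' (hLR _ _ (by omega) (by omega))
    · exact absurd huv'.symm (hLR _ _ (by omega) (by omega))
    · have := hR _ _ (by omega) (by omega) huv'
      omega

end Pool.Agent.TH454.BW
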