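import Pool.Agent.TH454.BW.Cut2
import Pool.Agent.TH454.BW.Graph

/-!
# Cutting words into three parts
-/

set_option autoImplicit false

namespace Pool.Agent.TH454.BW

open Pool.Agent.H607R2.BW

section

variable {σ A : Type} (T : ℕ → Finset (σ × A × σ)) [Finite A]

omit [Finite A] in
theorem path_shift (q : ℕ) (l : List A) : ∀ (p : ℕ) (s s' : σ),
    Path (fun p => T (q + p)) p s l s' ↔ Path T (q + p) s l s' := by
  induction l with
  | nil => intro p s s'; exact Iff.rfl
  | cons a l ih =>
    intro p s s'
    simp only [Path, ih]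
    rfl

theorem suf_shift (acc : Set σ) (q p n : ℕ) (s : σ) :
    suf (fun p => T (q + p)) acc p n s = suf T acc (q + p) n s := by
  ext l
  rw [mem_suf, mem_suf]
  simp only [path_shift]

theorem suf_zero (acc : Set σ) (q : ℕ) (s : σ) : (suf T acc q 0 s).card ≤ 1 := by
  have : suf T acc q 0 s ⊆ {[]} := by
    intro x hx
    rw [mem_suf, List.length_eq_zero_iff] at hx
    simp [hx.1]
  have := Finset.card_le_card this
  simpa using this

/-- many accepted words give a cut into three large pieces -/
theorem exists_cut3 (β m : ℕ) (hT : ∀ p, (T p).card ≤ β) (s₀ : σ) (acc : Set σ) (K₁ K₂ K₃ : ℕ)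
    (hm : 1 ≤ m) (hβ : 1 ≤ β) (h1 : 1 ≤ K₁) (h2 : 1 ≤ K₂) (h3 : 1 ≤ K₃)
    (hcard : (m * β) * (m * β) * (K₁ * K₂ * K₃ * 2 ^ (m - 1)) < (suf T acc 0 m s₀).card) :
    ∃ q₁ q₂ q₃, q₁ + q₂ + q₃ = m ∧ ∃ s₁ s₂, K₁ * 2 ^ q₁ < (pre T s₀ q₁ s₁).card ∧
      K₂ * 2 ^ q₂ < (pre (fun p => T (q₁ + p)) s₁ q₂ s₂).card ∧
      K₃ * 2 ^ q₃ < (suf T acc (q₁ + q₂) q₃ s₂).card := by
  by_contra hno
  have hcut := cut2 T β m hT s₀ acc (fun q => K₁ * 2 ^ q)
    (fun q => m * β * (K₂ * K₃) * 2 ^ (m - q)) hm
    (by simpa using h1) (by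
      have : 0 < m * β * (K₂ * K₃) := by positivity
      simp only [Nat.sub_self, pow_zero, mul_one]
      omega) (by
      intro q hq s
      by_cases hle : (pre T s₀ q s).card ≤ K₁ * 2 ^ q
      · exact Or.inl hle
      · right
        rcases Nat.eq_zero_or_pos (m - q) with h0 | hpos
        · rw [h0]
          have h4 := suf_zero T acc q s
          have : 0 < m * β * (K₂ * K₃) := by positivity
          simp only [pow_zero, mul_one]
          omega
        · have h5 := cut (fun p => T (q + p)) β (m - q) (fun p => hT _) s acc K₂ K₃ 2 hpos h2 h3 (by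
            intro q' hq' s'
            by_cases hle' : (pre (fun p => T (q + p)) s q' s').card ≤ K₂ * 2 ^ q'
            · exact Or.inl hle'
            · right
              by_contra hcon
              apply hno
              refine ⟨q, q', m - q - q', by omega, s, s', by omega, by omega, ?_⟩
              rw [suf_shift] at hcon
              omega)
          rw [suf_shift] at h5
          have e0 : q + 0 = q := rfl
          rw [e0] at h5
          refine le_trans h5 ?_
          calc (m - q) * β * (K₂ * K₃ * 2 ^ (m - q - 1))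
              ≤ m * β * (K₂ * K₃ * 2 ^ (m - q)) := by
                apply Nat.mul_le_mul (Nat.mul_le_mul_right _ (by omega))
                exact Nat.mul_le_mul_left _ (Nat.pow_le_pow_right (by norm_num) (by omega))
            _ = m * β * (K₂ * K₃) * 2 ^ (m - q) := by ring)
  have hsum : ∑ q ∈ Finset.range m, β * (K₁ * 2 ^ q * (m * β * (K₂ * K₃) * 2 ^ (m - (q + 1)))) ≤
      (m * β) * (m * β) * (K₁ * K₂ * K₃ * 2 ^ (m - 1)) := by
    refine le_trans (Finset.sum_le_card_nsmul _ _ (β * (m * β * (K₁ * K₂ * K₃ * 2 ^ (m - 1)))) ?_) ?_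
    · intro q hq
      rw [Finset.mem_range] at hq
      apply Nat.mul_le_mul_left
      have e : 2 ^ (m - 1) = 2 ^ q * 2 ^ (m - (q + 1)) := by
        rw [← pow_add]; congr 1; omega
      rw [e]
      exact le_of_eq (by ring)
    · rw [Finset.card_range, smul_eq_mul]
      exact le_of_eq (by ring)
  omega

end

section

variable {ι : Type}

/-- many words contain `N` different ones with the same `j`-th string -/
theorem exists_star (F : Finset (List (ι → Bool))) (q N : ℕ) (hF : ∀ l ∈ F, l.length = q)
    (hN : (N - 1) * 2 ^ q < F.card) (j : ι) :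
    ∃ f : Fin N → List (ι → Bool), Function.Injective f ∧ (∀ i, f i ∈ F) ∧
      ∃ y : List Bool, ∀ i, (f i).map (fun a => a j) = y := by
  classical
  obtain ⟨y, hy, hys⟩ := Finset.exists_lt_card_fiber_of_mul_lt_card_of_maps_to
    (s := F) (t := Wd Bool q) (f := fun l => l.map (fun a => a j)) (n := N - 1)
    (fun l hl => by rw [mem_Wd, List.length_map]; exact hF l hl)
    (by rw [card_Wd, mul_comm]; exact hN)
  set H : Finset (List (ι → Bool)) := F.filter (fun l => l.map (fun a => a j) = y) with hH
  have hc : Fintype.card (Fin N) ≤ Fintype.card {z // z ∈ H} := by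
    rw [Fintype.card_fin, Fintype.card_coe]; omega
  obtain ⟨f⟩ := Function.Embedding.nonempty_of_card_le hc
  refine ⟨fun i => (f i).1, fun i i' h => f.injective (Subtype.ext h),
    fun i => (Finset.mem_filter.1 (f i).2).1, y, fun i => (Finset.mem_filter.1 (f i).2).2⟩

/-- the strings of a word -/
def strs {ι : Type} (m : ℕ) (l : List (ι → Bool)) : ι → Str m :=
  fun j => toStr m (l.map (fun a => a j))

theorem word_strs {ι : Type} {m : ℕ} (l : List (ι → Bool)) (h : l.length = m) :
    word (strs m l) = l := by
  apply List.ext_getElem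
  · simp [word, h]
  · intro i h1 h2
    simp only [word, List.getElem_ofFn]
    funext j
    unfold strs toStr
    rw [List.getD_eq_getElem _ _ (by simpa using h2)]
    simp

theorem strs_inj {ι : Type} {m : ℕ} {l l' : List (ι → Bool)} (h : l.length = m)
    (h' : l'.length = m) (he : strs m l = strs m l') : l = l' := by
  rw [← word_strs l h, ← word_strs l' h', he]

end

end Pool.Agent.TH454.BW
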