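import Pool.Agent.TH454.BW.Graph

/-!
# Even cycles and complete bipartite graphs in graphs decided by trellises
-/

set_option autoImplicit false

namespace Pool.Agent.TH454.BW

open Pool.Agent.H607R2.BW

theorem ne_of_lt_sym {V : Type} {n : ℕ} {a : ℕ → V} (h : ∀ i j, i < j → j < n → a i ≠ a j)
    {i j : ℕ} (hi : i < n) (hj : j < n) (he : a i = a j) : i = j := by
  rcases lt_trichotomy i j with h1 | h1 | h1
  · exact absurd he (h i j h1 hj)
  · exact h1
  · exact absurd he.symm (h j i h1 hi)

/-- a graph with more than `7 k` edges per vertex, branch and level contains a cycle of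
length `2 k` -/
theorem cycle_of_trellis {m β : ℕ} (G : SimpleGraph (Str m))
    (hG : HasTrellis β (fun x : Fin 2 → Str m => G.Adj (x 0) (x 1))) (k : ℕ) (hk : 2 ≤ k)
    (hcard : m * β * (7 * k * 2 ^ (m - 1)) < 2 * Nat.card G.edgeSet) :
    (SimpleGraph.cycleGraph (2 * k)).IsContained G := by
  classical
  obtain ⟨q, hq, B, M, hB, hM, hBc, hMc, hadj⟩ := exists_cut G hG 7 k (by norm_num) (by omega) hcard
  obtain ⟨a, b, hab, ha, hb, hdisj⟩ := exists_stair_disj B (2 ^ q) (Wd Bool q) hB
    (le_of_eq (card_Wd q)) 1 (by omega)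
  -- number of steps in the second staircase
  set p := (k + 1) / 2 with hp
  set r := k / 2 with hr
  have hpr : p + r = k := by omega
  have hr1 : 1 ≤ r := by omega
  have hp1 : 1 ≤ p := by omega
  obtain ⟨c, d, hcd, hc, hd⟩ := exists_stair M (2 ^ (m - q)) (Wd Bool (m - q)) (Wd Bool (m - q))
    (fun z hz => (hM z hz).1) (fun z hz => (hM z hz).2) (le_of_eq (card_Wd _))
    (le_of_eq (card_Wd _)) (p - 1) (by
      refine lt_of_le_of_lt (Nat.mul_le_mul_right _ ?_) hMc
      omega)
  have hp' : p - 1 + 1 = p := by omega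
  rw [hp'] at hcd hc hd
  -- lengths
  have la : ∀ i, i < 2 → (a i).length = q := fun i hi => mem_Wd.1 (hB _ (hab i hi).1).1
  have lb : ∀ i, i ≤ 2 → (b i).length = q := by
    intro i hi
    rcases Nat.lt_or_ge i 2 with h | h
    · exact mem_Wd.1 (hB _ (hab i h).1).2
    · have : i = 2 := by omega
      subst this
      exact mem_Wd.1 (hB _ (hab 1 (by omega)).2).2
  have lc : ∀ i, i < p → (c i).length = m - q := fun i hi => mem_Wd.1 (hM _ (hcd i hi).1).1
  have ld : ∀ i, i ≤ p → (d i).length = m - q := by
    intro i hi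
    rcases Nat.lt_or_ge i p with h | h
    · exact mem_Wd.1 (hM _ (hcd i h).1).2
    · obtain ⟨i', rfl⟩ : ∃ i', i = i' + 1 := ⟨i - 1, by omega⟩
      exact mem_Wd.1 (hM _ (hcd i' (by omega)).2).2
  let X : ℕ → ℕ → Str m := fun i j => toStr m (a i ++ c j)
  let Y : ℕ → ℕ → Str m := fun i j => toStr m (b i ++ d j)
  have hXY : ∀ i j i' j', i < 2 → j < p → (i' = i ∨ i' = i + 1) → (j' = j ∨ j' = j + 1) →
      G.Adj (X i j) (Y i' j') := by
    intro i j i' j' hi hj hi' hj'
    have h1 : (a i, b i') ∈ B := by
      rcases hi' with rfl | rfl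
      · exact (hab _ hi).1
      · exact (hab _ hi).2
    have h2 : (c j, d j') ∈ M := by
      rcases hj' with rfl | rfl
      · exact (hcd _ hj).1
      · exact (hcd _ hj).2
    exact hadj _ h1 _ h2
  have hX : ∀ i j i' j', i < 2 → j < p → i' < 2 → j' < p → X i j = X i' j' → i = i' ∧ j = j' := by
    intro i j i' j' hi hj hi' hj' he
    have h1 := toStr_inj (by rw [List.length_append, la i hi, lc j hj]; omega)
      (by rw [List.length_append, la i' hi', lc j' hj']; omega) he
    have h2 := List.append_inj h1 (by rw [la i hi, la i' hi'])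
    exact ⟨ne_of_lt_sym ha hi hi' h2.1, ne_of_lt_sym (fun i j h h' => (hc i j h h').ne) hj hj' h2.2⟩
  have hY : ∀ i j i' j', i ≤ 2 → j ≤ p → i' ≤ 2 → j' ≤ p → Y i j = Y i' j' → i = i' ∧ j = j' := by
    intro i j i' j' hi hj hi' hj' he
    have h1 := toStr_inj (by rw [List.length_append, lb i hi, ld j hj]; omega)
      (by rw [List.length_append, lb i' hi', ld j' hj']; omega) he
    have h2 := List.append_inj h1 (by rw [lb i hi, lb i' hi'])
    exact ⟨ne_of_lt_sym (n := 3) (fun i j h h' => hb i j h (by omega)) (by omega) (by omega) h2.1,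
      ne_of_lt_sym (n := p + 1) (fun i j h h' => (hd i j h (by omega)).ne') (by omega) (by omega)
        h2.2⟩
  have hne : ∀ i j i' j', i < 2 → j < p → i' ≤ 2 → j' ≤ p → X i j ≠ Y i' j' := by
    intro i j i' j' hi hj hi' hj' he
    have h1 := toStr_inj (by rw [List.length_append, la i hi, lc j hj]; omega)
      (by rw [List.length_append, lb i' hi', ld j' hj']; omega) he
    have h2 := List.append_inj h1 (by rw [la i hi, lb i' hi'])
    exact hdisj i i' hi (by omega) h2.1
  -- the cycle
  let L : ℕ → Str m := fun i => if i < p then X 0 i else X 1 (k - 1 - i)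
  let R : ℕ → Str m := fun i =>
    if i + 1 < p then Y 0 (i + 1) else if i + 1 = p then Y 1 r else
      if i + 1 < k then Y 2 (k - 1 - i) else Y 1 0
  refine cycle_of_seq G k hk L R ?_ ?_ ?_ ?_ ?_ ?_
  · -- L i ~ R i
    intro i hi
    simp only [L, R]
    by_cases h1 : i < p
    · rw [if_pos h1]
      by_cases h2 : i + 1 < p
      · rw [if_pos h2]
        exact hXY 0 i 0 (i + 1) (by omega) h1 (Or.inl rfl) (Or.inr rfl)
      · rw [if_neg h2, if_pos (by omega : i + 1 = p)]
        refine hXY 0 i 1 r (by omega) h1 (Or.inr rfl) ?_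
        omega
    · rw [if_neg h1, if_neg (by omega), if_neg (by omega)]
      by_cases h2 : i + 1 < k
      · rw [if_pos h2]
        exact hXY 1 _ 2 _ (by omega) (by omega) (Or.inr rfl) (Or.inl rfl)
      · rw [if_neg h2]
        refine hXY 1 _ 1 0 (by omega) (by omega) (Or.inl rfl) (Or.inl (by omega))
  · -- L (i + 1) ~ R i
    intro i hi
    simp only [L, R]
    by_cases h1 : i + 1 < p
    · rw [if_pos h1, if_pos h1]
      exact hXY 0 _ 0 _ (by omega) h1 (Or.inl rfl) (Or.inl rfl)
    · rw [if_neg h1, if_neg h1]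
      by_cases h2 : i + 1 = p
      · rw [if_pos h2]
        refine hXY 1 _ 1 r (by omega) (by omega) (Or.inl rfl) ?_
        omega
      · rw [if_neg h2, if_pos hi]
        refine hXY 1 _ 2 _ (by omega) (by omega) (Or.inr rfl) (Or.inr (by omega))
  · simp only [L, R]
    rw [if_pos (by omega), if_neg (by omega), if_neg (by omega), if_neg (by omega)]
    exact hXY 0 0 1 0 (by omega) (by omega) (Or.inr rfl) (Or.inl rfl)
  · intro i j hi hj he
    simp only [L] at he
    split_ifs at he with h1 h2 h2
    · exact (hX _ _ _ _ (by omega) h1 (by omega) h2 he).2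
    · have := (hX _ _ _ _ (by omega) (by omega) (by omega) (by omega) he).1
      omega
    · have := (hX _ _ _ _ (by omega) (by omega) (by omega) (by omega) he).1
      omega
    · have := (hX _ _ _ _ (by omega) (by omega) (by omega) (by omega) he).2
      omega
  · intro i j hi hj he
    simp only [R] at he
    split_ifs at he <;>
    · have := hY _ _ _ _ (by omega) (by omega) (by omega) (by omega) he
      omega
  · intro i j hi hj
    simp only [L, R]
    split_ifs <;> exact hne _ _ _ _ (by omega) (by omega) (by omega) (by omega)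

/-- more than `(s - 1) (t - 1)` edges per vertex, branch and level give a `K_{s,t}` -/
theorem kst_of_trellis {m β : ℕ} (G : SimpleGraph (Str m))
    (hG : HasTrellis β (fun x : Fin 2 → Str m => G.Adj (x 0) (x 1))) (s t : ℕ) (hs : 2 ≤ s)
    (ht : 2 ≤ t)
    (hcard : m * β * ((s - 1) * (t - 1) * 2 ^ (m - 1)) < 2 * Nat.card G.edgeSet) :
    (completeBipartiteGraph (Fin s) (Fin t)).IsContained G := by
  classical
  obtain ⟨q, hq, B, M, hB, hM, hBc, hMc, hadj⟩ := exists_cut G hG (s - 1) (t - 1) (by omega)
    (by omega) hcard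
  -- a column of `B` with `s` elements
  obtain ⟨y, hy, hys⟩ := Finset.exists_lt_card_fiber_of_mul_lt_card_of_maps_to
    (s := B) (t := Wd Bool q) (f := Prod.snd) (n := s - 1) (fun z hz => (hB z hz).2)
    (by rw [card_Wd, mul_comm]; exact hBc)
  obtain ⟨c, hc, hct⟩ := Finset.exists_lt_card_fiber_of_mul_lt_card_of_maps_to
    (s := M) (t := Wd Bool (m - q)) (f := Prod.fst) (n := t - 1) (fun z hz => (hM z hz).1)
    (by rw [card_Wd, mul_comm]; exact hMc)
  set F : Finset (List Bool × List Bool) := B.filter (fun z => Prod.snd z = y) with hF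
  set H : Finset (List Bool × List Bool) := M.filter (fun z => Prod.fst z = c) with hH
  have hys' : Fintype.card (Fin s) ≤ Fintype.card {z // z ∈ F} := by
    rw [Fintype.card_fin, Fintype.card_coe]; omega
  have hct' : Fintype.card (Fin t) ≤ Fintype.card {z // z ∈ H} := by
    rw [Fintype.card_fin, Fintype.card_coe]; omega
  obtain ⟨f⟩ := Function.Embedding.nonempty_of_card_le hys'
  obtain ⟨g⟩ := Function.Embedding.nonempty_of_card_le hct'
  let X : Fin s → Str m := fun i => toStr m ((f i).1.1 ++ c)
  let Y : Fin t → Str m := fun j => toStr m (y ++ (g j).1.2)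
  have hf : ∀ i, (f i).1 ∈ B ∧ (f i).1.2 = y := fun i => Finset.mem_filter.1 (f i).2
  have hg : ∀ j, (g j).1 ∈ M ∧ (g j).1.1 = c := fun j => Finset.mem_filter.1 (g j).2
  have hXY : ∀ i j, G.Adj (X i) (Y j) := by
    intro i j
    have h := hadj _ (hf i).1 _ (hg j).1
    rw [(hf i).2, (hg j).2] at h
    exact h
  have hX : Function.Injective X := by
    intro i i' he
    have l1 := mem_Wd.1 (hB _ (hf i).1).1
    have l2 := mem_Wd.1 (hB _ (hf i').1).1
    have l3 := mem_Wd.1 hc
    have h1 := toStr_inj (by rw [List.length_append, l1, l3]; omega)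
      (by rw [List.length_append, l2, l3]; omega) he
    have h2 := (List.append_inj h1 (by rw [l1, l2])).1
    apply f.injective
    apply Subtype.ext
    exact Prod.ext h2 (by rw [(hf i).2, (hf i').2])
  have hY : Function.Injective Y := by
    intro i i' he
    have l1 := mem_Wd.1 (hM _ (hg i).1).2
    have l2 := mem_Wd.1 (hM _ (hg i').1).2
    have l3 := mem_Wd.1 hy
    have h1 := toStr_inj (by rw [List.length_append, l1, l3]; omega)
      (by rw [List.length_append, l2, l3]; omega) he
    have h2 := (List.append_inj h1 rfl).2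
    apply g.injective
    apply Subtype.ext
    exact Prod.ext (by rw [(hg i).2, (hg i').2]) h2
  refine ⟨⟨⟨Sum.elim X Y, ?_⟩, ?_⟩⟩
  · intro x y hxy
    rw [completeBipartiteGraph_adj] at hxy
    rcases x with x | x <;> rcases y with y | y <;> simp at hxy
    · exact hXY x y
    · exact (hXY y x).symm
  · intro x y hxy
    have hxy' : Sum.elim X Y x = Sum.elim X Y y := hxy
    rcases x with x | x <;> rcases y with y | y
    · exact congrArg Sum.inl (hX hxy')
    · exact absurd hxy' (G.ne_of_adj (hXY x y))
    · exact absurd hxy'.symm (G.ne_of_adj (hXY y x))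
    · exact congrArg Sum.inr (hY hxy')

end Pool.Agent.TH454.BW
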