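import Pool.Agent.TH454.BW.ObddFinal
import Pool.Agent.H607R2.BW.DES

/-!
# Symmetric designs whose incidence relation has small decision diagrams
-/

set_option autoImplicit false

namespace Pool.Agent.TH454.BW

open Pool.Agent.H607R2.BW

/-- a cut with many prefixes and many suffixes gives a rectangle in the relation -/
theorem rect_of_cut {m : ℕ} (ord : Fin (2 * m) ≃ Fin 2 × Fin m) (R : (Fin 2 → Str m) → Prop)
    (s t : ℕ) (q : ℕ) (hq : q ≤ 2 * m) (P Q : Finset (List Bool)) (hP : ∀ u ∈ P, u.length = q)
    (hQ : ∀ v ∈ Q, v.length = 2 * m - q)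
    (hadj : ∀ u ∈ P, ∀ v ∈ Q, R (un ord (u ++ v)))
    (j k : Fin 2) (hjk : j ≠ k)
    (hPc : (s - 1) * 2 ^ (rd ord k q).card < P.card)
    (hQc : (t - 1) * 2 ^ (m - (rd ord j q).card) < Q.card) :
    ∃ (X : Fin s → Str m) (Y : Fin t → Str m), Function.Injective X ∧ Function.Injective Y ∧
      ∀ i i', R (fun l => if l = j then X i else Y i') := by
  classical
  obtain ⟨y, hy, hys⟩ := Finset.exists_lt_card_fiber_of_mul_lt_card_of_maps_to
    (s := P) (t := supp (rd ord k q)) (f := part ord k q) (n := s - 1)
    (fun z _ => part_mem ord k q z) (by rw [supp_card, mul_comm]; exact hPc)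
  obtain ⟨c, hc, hct⟩ := Finset.exists_lt_card_fiber_of_mul_lt_card_of_maps_to
    (s := Q) (t := supp (rd ord j q)ᶜ) (f := part' ord j q) (n := t - 1)
    (fun z _ => part'_mem ord j q z) (by
      rw [supp_card, mul_comm, Finset.card_compl, Fintype.card_fin]; exact hQc)
  set F : Finset (List Bool) := P.filter (fun z => part ord k q z = y) with hF
  set H : Finset (List Bool) := Q.filter (fun z => part' ord j q z = c) with hH
  have hys' : Fintype.card (Fin s) ≤ Fintype.card {z // z ∈ F} := by
    rw [Fintype.card_fin, Fintype.card_coe]; omega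
  have hct' : Fintype.card (Fin t) ≤ Fintype.card {z // z ∈ H} := by
    rw [Fintype.card_fin, Fintype.card_coe]; omega
  obtain ⟨f⟩ := Function.Embedding.nonempty_of_card_le hys'
  obtain ⟨g⟩ := Function.Embedding.nonempty_of_card_le hct'
  have hf : ∀ i, (f i).1 ∈ P ∧ part ord k q (f i).1 = y := fun i => Finset.mem_filter.1 (f i).2
  have hg : ∀ i, (g i).1 ∈ Q ∧ part' ord j q (g i).1 = c := fun i => Finset.mem_filter.1 (g i).2
  let X : Fin s → Str m := fun i => fun t => if t ∈ rd ord j q then part ord j q (f i).1 t else c t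
  let Y : Fin t → Str m := fun i => fun t => if t ∈ rd ord k q then y t else part' ord k q (g i).1 t
  have hXY : ∀ i i', R (fun l => if l = j then X i else Y i') := by
    intro i i'
    have h := hadj _ (hf i).1 _ (hg i').1
    have e : un ord ((f i).1 ++ (g i').1) = fun l => if l = j then X i else Y i' := by
      funext l
      rw [un_append ord l q _ _ (hP _ (hf i).1)]
      by_cases hl : l = j
      · rw [if_pos hl, hl, (hg i').2]
      · have hlk : l = k := by omega
        rw [if_neg hl, hlk, (hf i).2]
    rw [e] at h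
    exact h
  refine ⟨X, Y, ?_, ?_, hXY⟩
  · intro i i' he
    apply f.injective
    apply Subtype.ext
    apply part_inj ord hq (hP _ (hf i).1) (hP _ (hf i').1)
    refine fin2_cases hjk ?_ ?_
    · funext t
      have h1 := congrFun he t
      simp only [X] at h1
      by_cases ht : t ∈ rd ord j q
      · simpa [ht] using h1
      · simp [part, ht]
    · rw [(hf i).2, (hf i').2]
  · intro i i' he
    apply g.injective
    apply Subtype.ext
    apply part'_inj ord hq (hQ _ (hg i).1) (hQ _ (hg i').1)
    refine fin2_cases hjk ?_ ?_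
    · rw [(hg i).2, (hg i').2]
    · funext t
      have h1 := congrFun he t
      simp only [Y] at h1
      by_cases ht : t ∈ rd ord k q
      · simp [part', ht]
      · simpa [ht] using h1

/-- relations without `r × r` rectangles given by decision diagrams -/
theorem rect_nobdd_bound (m β r : ℕ) (R : (Fin 2 → Str m) → Prop) (hr : 2 ≤ r) (hm : 1 ≤ m)
    (hG : HasNObdd β R)
    (hfree : ∀ X Y : Fin r → Str m, Function.Injective X → Function.Injective Y →
      ∃ i i', ¬ R ![X i, Y i']) :
    Nat.card {x // R x} ≤ (r - 1) * (r - 1) * (β * m * 2 ^ m) := by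
  classical
  obtain ⟨ord, σ, T, s₀, acc, hT, hR⟩ := hG
  have hacc : ∀ l : List Bool, l.length = 2 * m → (∃ s' ∈ acc, Path T 0 s₀ l s') →
      R (un ord l) := by
    intro l hl h
    exact (hR (un ord l)).2 (by rw [bits_un ord l hl]; exact h)
  have hcount : Nat.card {x // R x} ≤ (suf T acc 0 (2 * m) s₀).card := by
    have hinj : Function.Injective (fun x : {x : Fin 2 → Str m // R x} =>
        (⟨bits ord x.1, by
          rw [mem_suf]
          exact ⟨by simp [bits], (hR x.1).1 x.2⟩⟩ : {l // l ∈ suf T acc 0 (2 * m) s₀})) := by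
      intro x y hxy
      have h3 : bits ord x.1 = bits ord y.1 := congrArg Subtype.val hxy
      have h4 := List.ofFn_injective h3
      apply Subtype.ext
      funext j t
      have h5 := congrFun h4 (ord.symm (j, t))
      simpa using h5
    have := Nat.card_le_card_of_injective _ hinj
    rwa [natcard_coe] at this
  -- sizes
  set mn : ℕ → ℕ := fun q => min (rd ord 0 q).card (rd ord 1 q).card with hmn
  set mx : ℕ → ℕ := fun q => max (rd ord 0 q).card (rd ord 1 q).card with hmx
  have hsum : ∀ q ≤ 2 * m, mn q + mx q = q := by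
    intro q hq
    have := rd_card ord q hq
    simp only [hmn, hmx]
    omega
  have hcut := cut2 T β (2 * m) hT s₀ acc (fun q => (r - 1) * 2 ^ mn q)
    (fun q => (r - 1) * 2 ^ (m - mx q)) (by omega)
    (Nat.mul_pos (by omega) (by positivity)) (Nat.mul_pos (by omega) (by positivity)) (by
      intro q hq st
      by_contra hcon
      push Not at hcon
      obtain ⟨hc1, hc2⟩ := hcon
      have hadj : ∀ u ∈ pre T s₀ q st, ∀ v ∈ suf T acc q (2 * m - q) st,
          R (un ord (u ++ v)) := by
        intro u hu v hv
        rw [mem_pre] at hu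
        rw [mem_suf] at hv
        apply hacc _ (by rw [List.length_append, hu.1, hv.1]; omega)
        obtain ⟨s', hs', hp⟩ := hv.2
        refine ⟨s', hs', ?_⟩
        rw [path_append]
        refine ⟨st, hu.2, ?_⟩
        rw [hu.1, zero_add]
        exact hp
      rcases le_total (rd ord 1 q).card (rd ord 0 q).card with hle | hle
      · obtain ⟨X, Y, hX, hY, hXY⟩ := rect_of_cut ord R r r q hq (pre T s₀ q st)
          (suf T acc q (2 * m - q) st)
          (fun u hu => ((mem_pre T).1 hu).1) (fun v hv => ((mem_suf T).1 hv).1) hadj 0 1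
          (by decide) (by
            have : mn q = (rd ord 1 q).card := by simp only [hmn]; omega
            rw [← this]; exact hc1) (by
            have : mx q = (rd ord 0 q).card := by simp only [hmx]; omega
            rw [← this]; exact hc2)
        obtain ⟨i, i', h⟩ := hfree X Y hX hY
        apply h
        have h2 := hXY i i'
        have e : (fun l : Fin 2 => if l = 0 then X i else Y i') = ![X i, Y i'] := by
          funext l
          fin_cases l <;> rfl
        rw [e] at h2
        exact h2
      · obtain ⟨X, Y, hX, hY, hXY⟩ := rect_of_cut ord R r r q hq (pre T s₀ q st)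
          (suf T acc q (2 * m - q) st)
          (fun u hu => ((mem_pre T).1 hu).1) (fun v hv => ((mem_suf T).1 hv).1) hadj 1 0
          (by decide) (by
            have : mn q = (rd ord 0 q).card := by simp only [hmn]; omega
            rw [← this]; exact hc1) (by
            have : mx q = (rd ord 1 q).card := by simp only [hmx]; omega
            rw [← this]; exact hc2)
        obtain ⟨i, i', h⟩ := hfree Y X hY hX
        apply h
        have h2 := hXY i' i
        have e : (fun l : Fin 2 => if l = 1 then X i' else Y i) = ![Y i, X i'] := by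
          funext l
          fin_cases l <;> rfl
        rw [e] at h2
        exact h2)
  refine le_trans hcount (le_trans hcut ?_)
  refine le_trans (Finset.sum_le_card_nsmul _ _ (β * ((r - 1) * (r - 1) * 2 ^ (m - 1))) ?_) ?_
  · intro q hq
    rw [Finset.mem_range] at hq
    apply Nat.mul_le_mul_left
    have h1 := hsum q (by omega)
    have h2 := hsum (q + 1) (by omega)
    have h3 : mn q ≤ mx q := by simp only [hmn, hmx]; omega
    have h4 : mn (q + 1) ≤ mx (q + 1) := by simp only [hmn, hmx]; omega
    have h5 : mx (q + 1) ≤ m := by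
      simp only [hmx]
      exact max_le (rd_le ord 0 _) (rd_le ord 1 _)
    have h6 : mn q + (m - mx (q + 1)) ≤ m - 1 := by omega
    calc (r - 1) * 2 ^ mn q * ((r - 1) * 2 ^ (m - mx (q + 1)))
        = (r - 1) * (r - 1) * 2 ^ (mn q + (m - mx (q + 1))) := by rw [pow_add]; ring
      _ ≤ (r - 1) * (r - 1) * 2 ^ (m - 1) :=
        Nat.mul_le_mul_left _ (Nat.pow_le_pow_right (by norm_num) h6)
  · rw [Finset.card_range, smul_eq_mul]
    have : 2 ^ m = 2 * 2 ^ (m - 1) := by
      rw [← pow_succ']; congr 1; omega
    rw [this]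
    exact le_of_eq (by ring)

/-- the incidence relation of a family of blocks in which two points are never in more than `lam`
blocks -/
theorem design_bound (lam m β v k : ℕ) (B : Fin v → Finset (Fin v)) (p b : Fin v → Str m)
    (hl : 1 ≤ lam) (hm : 1 ≤ m) (hk : ∀ i, (B i).card = k)
    (hlam : ∀ x y : Fin v, x ≠ y →
      (Finset.univ.filter (fun i => x ∈ B i ∧ y ∈ B i)).card ≤ lam)
    (hp : Function.Injective p) (hb : Function.Injective b)
    (hw : HasNObdd β (fun x : Fin 2 → Str m => ∃ i j, i ∈ B j ∧ x 0 = p i ∧ x 1 = b j)) :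
    v * k ≤ lam ^ 2 * (β * m * 2 ^ m) := by
  classical
  have h1 := rect_nobdd_bound m β (lam + 1) _ (by omega) hm hw (by
    intro X Y hX hY
    by_contra hcon
    push Not at hcon
    have h1 : ∀ q r, ∃ i j, i ∈ B j ∧ X q = p i ∧ Y r = b j := by
      intro q r
      simpa using hcon q r
    choose I J hIJ hXp hYb using h1
    have hI : ∀ q r r', I q r = I q r' := by
      intro q r r'
      exact hp ((hXp q r).symm.trans (hXp q r'))
    have hJ : ∀ q q' r, J q r = J q' r := by
      intro q q' r
      exact hb ((hYb q r).symm.trans (hYb q' r))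
    have hfin : (⟨0, by omega⟩ : Fin (lam + 1)) ≠ ⟨1, by omega⟩ := by
      intro h
      have := congrArg Fin.val h
      simp at this
    set a0 : Fin (lam + 1) := ⟨0, by omega⟩
    set a1 : Fin (lam + 1) := ⟨1, by omega⟩
    have hne : I a0 a0 ≠ I a1 a0 := by
      intro h
      have h2 : X a0 = X a1 := by rw [hXp a0 a0, hXp a1 a0, h]
      exact hfin (hX h2)
    have h3 := hlam (I a0 a0) (I a1 a0) hne
    have h4 : (Finset.univ.image (fun r : Fin (lam + 1) => J a0 r)) ⊆
        Finset.univ.filter (fun i => I a0 a0 ∈ B i ∧ I a1 a0 ∈ B i) := by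
      intro j hj
      obtain ⟨r, _, rfl⟩ := Finset.mem_image.1 hj
      rw [Finset.mem_filter]
      refine ⟨Finset.mem_univ _, ?_, ?_⟩
      · rw [hI a0 a0 r]; exact hIJ a0 r
      · rw [hI a1 a0 r, hJ a0 a1 r]; exact hIJ a1 r
    have h5 := Finset.card_le_card h4
    rw [Finset.card_image_of_injective _ (by
      intro r r' h
      apply hY
      rw [hYb a0 r, hYb a0 r']
      exact congrArg b h), Finset.card_univ, Fintype.card_fin] at h5
    omega)
  have hcard : v * k ≤ Nat.card {x : Fin 2 → Str m // ∃ i j, i ∈ B j ∧ x 0 = p i ∧ x 1 = b j} := by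
    have h1 : Nat.card (Σ j : Fin v, {i // i ∈ B j}) = v * k := by
      rw [Nat.card_eq_fintype_card, Fintype.card_sigma]
      rw [Finset.sum_congr rfl (g := fun _ => k) (fun j _ => by rw [Fintype.card_coe, hk])]
      simp
    rw [← h1]
    refine Nat.card_le_card_of_injective
      (fun s => ⟨![p s.2.1, b s.1], s.2.1, s.1, s.2.2, rfl, rfl⟩) ?_
    rintro ⟨j, i, hi⟩ ⟨j', i', hi'⟩ hs
    have h2 := congrArg Subtype.val hs
    have h3 : p i = p i' := congrFun h2 0
    have h4 : b j = b j' := congrFun h2 1
    have h5 := hb h4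
    have h6 := hp h3
    subst h5 h6
    rfl
  refine hcard.trans (h1.trans (le_of_eq ?_))
  rw [Nat.add_sub_cancel]
  ring

end Pool.Agent.TH454.BW
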