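import Pool.Agent.H607R2.BW.Defs

/-!
# Building machines: invariants, binary addition, exclusive or
-/

set_option autoImplicit false

namespace Pool.Agent.TH454.BW

open Pool.Agent.H607R2.BW

theorem run_inv {σ A : Type} (δ : ℕ → σ → A → σ) (P : ℕ → σ → Prop) : ∀ (n : ℕ) (g : Fin n → A)
    (p : ℕ) (s : σ), (∀ (i : ℕ) (hi : i < n) (s : σ), P (p + i) s →
      P (p + i + 1) (δ (p + i) s (g ⟨i, hi⟩))) → P p s → P (p + n) (run δ p s (List.ofFn g)) := by
  intro n
  induction n with
  | zero => intro g p s _ h; simpa [run] using h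
  | succ n ih =>
    intro g p s hstep h
    rw [List.ofFn_succ]
    simp only [run]
    have h1 := ih (fun i => g i.succ) (p + 1) (δ p s (g 0)) (by
      intro i hi s' hs'
      have h2 := hstep (i + 1) (by omega) s' (by
        have : p + (i + 1) = p + 1 + i := by omega
        rw [this]; exact hs')
      have e : p + (i + 1) = p + 1 + i := by omega
      rw [e] at h2
      exact h2) (by
      have h2 := hstep 0 (by omega) s (by simpa using h)
      simpa using h2)
    have e : p + 1 + n = p + (n + 1) := by omega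
    rw [e] at h1
    exact h1

theorem run_map {σ σ' A : Type} (e : σ ≃ σ') (δ : ℕ → σ → A → σ) (l : List A) : ∀ (p : ℕ) (s : σ),
    run (fun q s a => e (δ q (e.symm s) a)) p (e s) l = e (run δ p s l) := by
  induction l with
  | nil => intro p s; rfl
  | cons a l ih =>
    intro p s
    simp only [run]
    rw [← ih]
    simp

/-- a machine with the states of a finite type -/
theorem hasWidth_of {ι : Type} {m w : ℕ} {R : (ι → Str m) → Prop} (σ : Type) [Fintype σ]
    (hw : Fintype.card σ = w) (δ : ℕ → σ → (ι → Bool) → σ) (s : σ) (acc : Set σ)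
    (h : ∀ x : ι → Str m, R x ↔ run δ 0 s (word x) ∈ acc) : HasWidth w R := by
  subst hw
  let e : σ ≃ Fin (Fintype.card σ) := Fintype.equivFin σ
  refine ⟨fun q s a => e (δ q (e.symm s) a), e s, e '' acc, fun x => ?_⟩
  rw [run_map, h, e.injective.mem_set_image]

open Classical in
/-- transitions of the machine which adds two numbers and compares the sum with the elements
of `S` -/
noncomputable def addStep (S : Finset ℕ) (p : ℕ) :
    Option (S × Bool) → (Fin 2 → Bool) → Option (S × Bool)
  | none, _ => none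
  | some (s, c), a =>
    if h : ∃ s' : S, (s' : ℕ) % 2 ^ (p + 1) =
        (s : ℕ) % 2 ^ p + 2 ^ p * ((c.toNat + (a 0).toNat + (a 1).toNat) % 2) then
      some (h.choose, decide (2 ≤ c.toNat + (a 0).toNat + (a 1).toNat))
    else none

/-- invariant of this machine -/
def addInv (S : Finset ℕ) (X Y : ℕ) (p : ℕ) : Option (S × Bool) → Prop
  | none => ∀ s ∈ S, (X % 2 ^ p + Y % 2 ^ p) % 2 ^ p ≠ s % 2 ^ p
  | some (s, c) => X % 2 ^ p + Y % 2 ^ p = (s : ℕ) % 2 ^ p + 2 ^ p * c.toNat

theorem mod_two_pow_succ (x i : ℕ) :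
    x % 2 ^ (i + 1) = 2 ^ i * (x.testBit i).toNat + x % 2 ^ i := by
  rw [Nat.mod_pow_succ, Nat.toNat_testBit]; ring

theorem mod_succ_eq {a b p : ℕ} (h : a % 2 ^ (p + 1) = b % 2 ^ (p + 1)) : a % 2 ^ p = b % 2 ^ p := by
  have h1 : a % 2 ^ (p + 1) % 2 ^ p = a % 2 ^ p := Nat.mod_mod_of_dvd _ ⟨2, by ring⟩
  have h2 : b % 2 ^ (p + 1) % 2 ^ p = b % 2 ^ p := Nat.mod_mod_of_dvd _ ⟨2, by ring⟩
  rw [← h1, ← h2, h]

theorem addInv_step (S : Finset ℕ) (X Y p : ℕ) (a : Fin 2 → Bool) (ha : a 0 = X.testBit p)
    (hb : a 1 = Y.testBit p) (st : Option (S × Bool)) (h : addInv S X Y p st) :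
    addInv S X Y (p + 1) (addStep S p st a) := by
  classical
  have hX := mod_two_pow_succ X p
  have hY := mod_two_pow_succ Y p
  have hP : 0 < 2 ^ p := by positivity
  have hP2 : 2 ^ (p + 1) = 2 * 2 ^ p := by ring
  match st, h with
  | none, h =>
    simp only [addStep, addInv] at h ⊢
    intro s hs heq
    apply h s hs
    have h1 : (X % 2 ^ (p + 1) + Y % 2 ^ (p + 1)) % 2 ^ (p + 1) % 2 ^ p =
        (X % 2 ^ p + Y % 2 ^ p) % 2 ^ p := by
      rw [Nat.mod_mod_of_dvd _ ⟨2, by ring⟩, hX, hY]
      have : 2 ^ p * (X.testBit p).toNat + X % 2 ^ p + (2 ^ p * (Y.testBit p).toNat + Y % 2 ^ p) =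
        X % 2 ^ p + Y % 2 ^ p + 2 ^ p * ((X.testBit p).toNat + (Y.testBit p).toNat) := by ring
      rw [this, Nat.add_mul_mod_self_left]
    rw [← h1, heq, Nat.mod_mod_of_dvd _ ⟨2, by ring⟩]
  | some (s, c), h =>
    simp only [addInv] at h
    set tot := c.toNat + (a 0).toNat + (a 1).toNat with htot
    have htot3 : tot ≤ 3 := by
      have h1 := Bool.toNat_le c
      have h2 := Bool.toNat_le (a 0)
      have h3 := Bool.toNat_le (a 1)
      omega
    have hsum : X % 2 ^ (p + 1) + Y % 2 ^ (p + 1) = (s : ℕ) % 2 ^ p + 2 ^ p * tot := by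
      rw [hX, hY, htot, ha, hb]
      have e : 2 ^ p * (X.testBit p).toNat + X % 2 ^ p + (2 ^ p * (Y.testBit p).toNat + Y % 2 ^ p) =
        (X % 2 ^ p + Y % 2 ^ p) + 2 ^ p * ((X.testBit p).toNat + (Y.testBit p).toNat) := by ring
      rw [e, h]
      ring
    have hlt : (s : ℕ) % 2 ^ p < 2 ^ p := Nat.mod_lt _ hP
    simp only [addStep]
    rw [← htot]
    split_ifs with hex
    · have hc := hex.choose_spec
      simp only [addInv]
      rw [hsum, hc, hP2]
      have : tot = tot % 2 + 2 * (decide (2 ≤ tot)).toNat := by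
        interval_cases tot <;> simp
      conv_lhs => rw [this]
      ring
    · simp only [addInv]
      intro s' hs' heq
      apply hex
      refine ⟨⟨s', hs'⟩, ?_⟩
      show s' % 2 ^ (p + 1) = _
      rw [← heq, hsum]
      have e : tot = tot % 2 + 2 * (tot / 2) := by omega
      have e2 : (s : ℕ) % 2 ^ p + 2 ^ p * tot =
          ((s : ℕ) % 2 ^ p + 2 ^ p * (tot % 2)) + 2 ^ (p + 1) * (tot / 2) := by
        conv_lhs => rw [e]
        ring
      rw [e2, Nat.add_mul_mod_self_left]
      apply Nat.mod_eq_of_lt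
      have : tot % 2 ≤ 1 := by omega
      have : 2 ^ p * (tot % 2) ≤ 2 ^ p * 1 := Nat.mul_le_mul_left _ this
      omega

/-- the sum of two numbers with `m` bits is compared with the elements of `S` by a machine with
`2 |S| + 1` states -/
theorem width_add (m : ℕ) (S : Finset ℕ) (hS : ∀ s ∈ S, s < 2 ^ m) (hne : S.Nonempty) :
    HasWidth (2 * S.card + 1)
      (fun x : Fin 2 → Str m => Nat.ofBits (x 0) + Nat.ofBits (x 1) ∈ S) := by
  classical
  obtain ⟨s₀, hs₀⟩ := hne
  refine hasWidth_of (Option (S × Bool)) ?_ (addStep S) (some (⟨s₀, hs₀⟩, false))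
    {st | ∃ s, st = some (s, false)} ?_
  · rw [Fintype.card_option, Fintype.card_prod, Fintype.card_coe, Fintype.card_bool, mul_comm]
  · intro x
    have hinv := run_inv (addStep S) (addInv S (Nat.ofBits (x 0)) (Nat.ofBits (x 1))) m
      (fun (t : Fin m) (j : Fin 2) => x j t) 0 (some (⟨s₀, hs₀⟩, false)) (by
        intro i hi st hst
        rw [zero_add] at hst ⊢
        refine addInv_step S _ _ i _ ?_ ?_ st hst
        · rw [Nat.testBit_ofBits_lt _ _ hi]
        · rw [Nat.testBit_ofBits_lt _ _ hi]) (by simp [addInv, Nat.mod_one])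
    rw [zero_add] at hinv
    have hx := Nat.ofBits_lt_two_pow (x 0)
    have hy := Nat.ofBits_lt_two_pow (x 1)
    show _ ↔ run (addStep S) 0 (some (⟨s₀, hs₀⟩, false))
      (List.ofFn (fun (t : Fin m) (j : Fin 2) => x j t)) ∈ _
    generalize run (addStep S) 0 (some (⟨s₀, hs₀⟩, false))
      (List.ofFn (fun (t : Fin m) (j : Fin 2) => x j t)) = st at hinv
    match st, hinv with
    | none, hinv =>
      simp only [addInv] at hinv
      constructor
      · intro h
        exfalso
        apply hinv _ h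
        rw [Nat.mod_eq_of_lt hx, Nat.mod_eq_of_lt hy]
      · rintro ⟨s, hs⟩
        exact absurd hs (by simp)
    | some (s, c), hinv =>
      simp only [addInv] at hinv
      rw [Nat.mod_eq_of_lt hx, Nat.mod_eq_of_lt hy, Nat.mod_eq_of_lt (hS s s.2)] at hinv
      constructor
      · intro h
        refine ⟨s, ?_⟩
        have h2 := hS _ h
        cases c with
        | false => rfl
        | true => simp at hinv; omega
      · rintro ⟨s', hs'⟩
        simp only [Option.some.injEq, Prod.mk.injEq] at hs'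
        rw [hs'.2] at hinv
        simp only [Bool.toNat_false, mul_zero, add_zero] at hinv
        show Nat.ofBits (x 0) + Nat.ofBits (x 1) ∈ S
        rw [hinv]
        exact s.2

end Pool.Agent.TH454.BW
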