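import Pool.Agent.TH454.BW.Machine

/-!
# A machine for projective norm graphs in characteristic two

The first `a` bits of two strings are added modulo two; this gives a target `e`; the numbers given
by the last `l` bits are added and compared with `e`.
-/

set_option autoImplicit false

namespace Pool.Agent.TH454.BW

open Pool.Agent.H607R2.BW

variable {a l : ℕ}

/-- the first `a` bits -/
def fstS (x : Str (a + l)) : Str a := fun i => x (Fin.castAdd l i)

/-- the number given by the last `l` bits -/
def sndN (x : Str (a + l)) : ℕ := Nat.ofBits (fun i : Fin l => x (Fin.natAdd a i))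

/-- exclusive or -/
def xorS (x y : Str a) : Str a := fun i => xor (x i) (y i)

/-- adjacency -/
def NAdj (f : Str a → Option (Fin (2 ^ l))) (x y : Str (a + l)) : Prop :=
  ∃ e, f (xorS (fstS x) (fstS y)) = some e ∧ sndN x + sndN y = (e : ℕ) ∧
    sndN x < 2 ^ (l - 1) ∧ sndN y < 2 ^ (l - 1)

/-- states: the partial sum modulo two, or the target and a carry, or rejection -/
abbrev NSt (a l : ℕ) : Type := Str a ⊕ Option (Fin (2 ^ l) × Bool)

def conv (f : Str a → Option (Fin (2 ^ l))) : NSt a l → Option (Fin (2 ^ l) × Bool)
  | Sum.inl z => (f z).map (fun e => (e, false))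
  | Sum.inr s => s

def step2 (l r : ℕ) : Option (Fin (2 ^ l) × Bool) → (Fin 2 → Bool) → Option (Fin (2 ^ l) × Bool)
  | none, _ => none
  | some (e, c), b =>
    if (c.toNat + (b 0).toNat + (b 1).toNat) % 2 = ((e : ℕ).testBit r).toNat then
      (if r + 1 = l ∧ (b 0 = true ∨ b 1 = true) then none
      else some (e, decide (2 ≤ c.toNat + (b 0).toNat + (b 1).toNat)))
    else none

open Classical in
noncomputable def nStep (f : Str a → Option (Fin (2 ^ l))) (p : ℕ) (st : NSt a l)
    (b : Fin 2 → Bool) : NSt a l :=
  if h : p < a then
    match st with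
    | Sum.inl z => Sum.inl (Function.update z ⟨p, h⟩ (xor (b 0) (b 1)))
    | Sum.inr s => Sum.inr s
  else Sum.inr (step2 l (p - a) (conv f st) b)

def partialX (z : Str a) (p : ℕ) : Str a := fun i => if (i : ℕ) < p then z i else false

/-- invariant of the second phase -/
def inv2 (f : Str a → Option (Fin (2 ^ l))) (x y : Str (a + l)) (r : ℕ) :
    Option (Fin (2 ^ l) × Bool) → Prop
  | none => ¬ NAdj f x y
  | some (e, c) => f (xorS (fstS x) (fstS y)) = some e ∧
      sndN x % 2 ^ r + sndN y % 2 ^ r = (e : ℕ) % 2 ^ r + 2 ^ r * c.toNat ∧
      (r = l → sndN x < 2 ^ (l - 1) ∧ sndN y < 2 ^ (l - 1))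

theorem inv2_step (hl : 1 ≤ l) (f : Str a → Option (Fin (2 ^ l))) (x y : Str (a + l)) (r : ℕ)
    (hr : r < l) (b : Fin 2 → Bool) (hb0 : b 0 = (sndN x).testBit r)
    (hb1 : b 1 = (sndN y).testBit r) (s : Option (Fin (2 ^ l) × Bool)) (h : inv2 f x y r s) :
    inv2 f x y (r + 1) (step2 l r s b) := by
  have hX := mod_two_pow_succ (sndN x) r
  have hY := mod_two_pow_succ (sndN y) r
  have hP : 0 < 2 ^ r := by positivity
  have hP2 : 2 ^ (r + 1) = 2 * 2 ^ r := by ring
  match s, h with
  | none, h => exact h
  | some (e, c), h =>
    obtain ⟨h1, h2, _⟩ := h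
    have hE := mod_two_pow_succ (e : ℕ) r
    set tot := c.toNat + (b 0).toNat + (b 1).toNat with htot
    have htot3 : tot ≤ 3 := by
      have h3 := Bool.toNat_le c
      have h4 := Bool.toNat_le (b 0)
      have h5 := Bool.toNat_le (b 1)
      omega
    have hsum : sndN x % 2 ^ (r + 1) + sndN y % 2 ^ (r + 1) = (e : ℕ) % 2 ^ r + 2 ^ r * tot := by
      rw [hX, hY, htot, hb0, hb1]
      have e' : 2 ^ r * ((sndN x).testBit r).toNat + sndN x % 2 ^ r +
          (2 ^ r * ((sndN y).testBit r).toNat + sndN y % 2 ^ r) =
        (sndN x % 2 ^ r + sndN y % 2 ^ r) +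
          2 ^ r * (((sndN x).testBit r).toNat + ((sndN y).testBit r).toNat) := by ring
      rw [e', h2]
      ring
    simp only [step2]
    rw [← htot]
    have hbig : ∀ n : ℕ, n < 2 ^ l → r + 1 = l → n.testBit r = false → n < 2 ^ (l - 1) := by
      intro n hn hrl hbit
      have h3 := mod_two_pow_succ n r
      rw [hrl, Nat.mod_eq_of_lt hn, hbit] at h3
      have h4 : n % 2 ^ r < 2 ^ r := Nat.mod_lt _ hP
      have h5 : l - 1 = r := by omega
      rw [h5]
      simp only [Bool.toNat_false, mul_zero, zero_add] at h3
      omega
    have hx : sndN x < 2 ^ l := Nat.ofBits_lt_two_pow _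
    have hy : sndN y < 2 ^ l := Nat.ofBits_lt_two_pow _
    have hbig' : ∀ n : ℕ, r + 1 = l → n.testBit r = true → ¬ n < 2 ^ (l - 1) := by
      intro n hrl hbit hn
      have h5 : l - 1 = r := by omega
      rw [h5] at hn
      rw [Nat.testBit_lt_two_pow hn] at hbit
      exact absurd hbit (by simp)
    split_ifs with hbit htop
    · -- a top bit is set
      rintro ⟨e', _, _, h5, h6⟩
      rcases htop.2 with h7 | h7
      · exact hbig' _ htop.1 (by rw [← hb0, h7]) h5
      · exact hbig' _ htop.1 (by rw [← hb1, h7]) h6
    · refine ⟨h1, ?_, ?_⟩
      · rw [hsum, hE, ← hbit, hP2]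
        have : tot = tot % 2 + 2 * (decide (2 ≤ tot)).toNat := by
          interval_cases tot <;> simp
        conv_lhs => rw [this]
        ring
      · intro hrl
        have h3 : b 0 = false ∧ b 1 = false := by
          constructor
          · cases hb : b 0 with
            | false => rfl
            | true => exact absurd ⟨hrl, Or.inl hb⟩ htop
          · cases hb : b 1 with
            | false => rfl
            | true => exact absurd ⟨hrl, Or.inr hb⟩ htop
        exact ⟨hbig _ hx hrl (by rw [← hb0, h3.1]), hbig _ hy hrl (by rw [← hb1, h3.2])⟩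
    · -- mismatch
      rintro ⟨e', h3, h4, _, _⟩
      rw [h1, Option.some.injEq] at h3
      subst h3
      apply hbit
      have h5 : (sndN x % 2 ^ (r + 1) + sndN y % 2 ^ (r + 1)) % 2 ^ (r + 1) =
          (e : ℕ) % 2 ^ (r + 1) := by
        rw [← h4, ← Nat.add_mod]
      rw [hsum] at h5
      have e1 : (e : ℕ) % 2 ^ r + 2 ^ r * tot =
          ((e : ℕ) % 2 ^ r + 2 ^ r * (tot % 2)) + 2 ^ (r + 1) * (tot / 2) := by
        have : tot = tot % 2 + 2 * (tot / 2) := by omega
        conv_lhs => rw [this]
        ring
      have hlt : (e : ℕ) % 2 ^ r < 2 ^ r := Nat.mod_lt _ hP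
      have h6 : 2 ^ r * (tot % 2) ≤ 2 ^ r * 1 := Nat.mul_le_mul_left _ (by omega)
      rw [e1, Nat.add_mul_mod_self_left, Nat.mod_eq_of_lt (by omega), hE] at h5
      have h7 : 2 ^ r * (tot % 2) = 2 ^ r * ((e : ℕ).testBit r).toNat := by omega
      exact Nat.eq_of_mul_eq_mul_left hP h7

theorem width_norm (a l : ℕ) (hl : 1 ≤ l) (f : Str a → Option (Fin (2 ^ l))) :
    HasWidth (2 ^ a + (2 ^ l * 2 + 1))
      (fun x : Fin 2 → Str (a + l) => NAdj f (x 0) (x 1)) := by
  classical
  refine hasWidth_of (NSt a l) ?_ (nStep f) (Sum.inl (fun _ => false))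
    {st | ∃ z, conv f st = some z} ?_
  · simp [NSt, Fintype.card_sum, Fintype.card_option, Fintype.card_prod]
  · intro x
    set X := x 0 with hX
    set Y := x 1 with hY
    have hinv := run_inv (nStep f) (fun p st => (p ≤ a → st = Sum.inl
        (partialX (xorS (fstS X) (fstS Y)) p)) ∧ (a ≤ p → inv2 f X Y (p - a) (conv f st)))
      (a + l) (fun (t : Fin (a + l)) (j : Fin 2) => x j t) 0 (Sum.inl (fun _ => false)) (by
        intro i hi st hst
        rw [zero_add] at hst ⊢
        rcases Nat.lt_or_ge i a with hia | hia
        · -- first phase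
          have hst1 := hst.1 hia.le
          have key : nStep f i st (fun j => x j ⟨i, hi⟩) =
              Sum.inl (partialX (xorS (fstS X) (fstS Y)) (i + 1)) := by
            rw [hst1, nStep, dif_pos hia]
            simp only [Sum.inl.injEq]
            funext k
            by_cases hk : k = ⟨i, hia⟩
            · subst hk
              rw [Function.update_self]
              simp only [partialX, xorS, fstS]
              rw [if_pos (by omega)]
              rfl
            · rw [Function.update_of_ne hk]
              have hk' : (k : ℕ) ≠ i := fun h => hk (Fin.ext h)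
              simp only [partialX]
              by_cases hki : (k : ℕ) < i
              · rw [if_pos hki, if_pos (by omega)]
              · rw [if_neg hki, if_neg (by omega)]
          refine ⟨fun _ => key, fun hai => ?_⟩
          have hia' : i + 1 = a := by omega
          rw [key, hia', Nat.sub_self]
          have hfull : partialX (xorS (fstS X) (fstS Y)) a = xorS (fstS X) (fstS Y) := by
            funext k
            simp [partialX]
          rw [hfull]
          simp only [conv]
          cases hf : f (xorS (fstS X) (fstS Y)) with
          | none =>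
            simp only [Option.map_none, inv2]
            rintro ⟨e, he, _⟩
            rw [hf] at he
            exact absurd he (by simp)
          | some e =>
            simp only [Option.map_some, inv2]
            refine ⟨hf, by simp [Nat.mod_one], ?_⟩
            intro h0
            omega
        · refine ⟨fun h => by omega, fun _ => ?_⟩
          have hst2 := hst.2 hia
          rw [nStep, dif_neg (by omega)]
          simp only [conv]
          have e : i + 1 - a = (i - a) + 1 := by omega
          rw [e]
          refine inv2_step hl f X Y (i - a) (by omega) _ ?_ ?_ _ hst2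
          · unfold sndN
            rw [Nat.testBit_ofBits_lt _ _ (by omega : i - a < l)]
            simp only [hX]
            congr 1
            apply Fin.ext
            simp only [Fin.val_natAdd]
            omega
          · unfold sndN
            rw [Nat.testBit_ofBits_lt _ _ (by omega : i - a < l)]
            simp only [hY]
            congr 1
            apply Fin.ext
            simp only [Fin.val_natAdd]
            omega) (by
        refine ⟨fun _ => ?_, fun h0 => ?_⟩
        · congr 1
        · have ha0 : a = 0 := by omega
          have hz : (fun _ => false : Str a) = xorS (fstS X) (fstS Y) := by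
            funext k
            exact absurd k.2 (by omega)
          simp only [conv]
          rw [hz]
          cases hf : f (xorS (fstS X) (fstS Y)) with
          | none =>
            simp only [Option.map_none, inv2]
            rintro ⟨e, he, _⟩
            rw [hf] at he
            exact absurd he (by simp)
          | some e =>
            simp only [Option.map_some, inv2]
            refine ⟨hf, ?_, ?_⟩
            · have : 0 - a = 0 := by omega
              rw [this]
              simp [Nat.mod_one]
            · intro h0; omega)
    rw [zero_add] at hinv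
    have h2 := hinv.2 (by omega)
    have e : a + l - a = l := by omega
    rw [e] at h2
    show _ ↔ run (nStep f) 0 (Sum.inl (fun _ => false))
      (List.ofFn (fun (t : Fin (a + l)) (j : Fin 2) => x j t)) ∈ _
    generalize run (nStep f) 0 (Sum.inl (fun _ => false))
      (List.ofFn (fun (t : Fin (a + l)) (j : Fin 2) => x j t)) = st at h2
    show NAdj f X Y ↔ ∃ z, conv f st = some z
    cases hc : conv f st with
    | none =>
      rw [hc] at h2
      simp only [inv2] at h2
      constructor
      · intro h; exact absurd h h2
      · rintro ⟨z, hz⟩; exact absurd hz (by simp)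
    | some z =>
      obtain ⟨e, c⟩ := z
      rw [hc] at h2
      obtain ⟨h3, h4, h5⟩ := h2
      obtain ⟨h6, h7⟩ := h5 rfl
      constructor
      · intro _; exact ⟨_, rfl⟩
      · intro _
        refine ⟨e, h3, ?_, h6, h7⟩
        have hll : 2 ^ l = 2 * 2 ^ (l - 1) := by
          rw [← pow_succ']; congr 1; omega
        rw [Nat.mod_eq_of_lt (by omega), Nat.mod_eq_of_lt (by omega), Nat.mod_eq_of_lt e.2] at h4
        cases c with
        | false => simpa using h4
        | true => simp at h4; omega

end Pool.Agent.TH454.BW
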