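import Pool.Agent.W834.NG.Sol
import Pool.Agent.TH454.BW.NormMachine
import Pool.Agent.H607R2.BW.KST

/-!
# Projective norm graphs in characteristic two have small width
-/

set_option autoImplicit false

namespace Pool.Agent.TH454.BW

open Pool.Agent.H607R2.BW Pool.Agent.W834.NG

/-- `m + 1` norm equations have at most `m !` common solutions (Alon, Kollár, Rónyai, Szabó) -/
theorem norm_sol {K : Type} [Field K] {m : ℕ} (hm : 0 < m) (φ : K →+* K) (c : Fin (m + 1) → K)
    (hc : Function.Injective c) (a : Fin (m + 1) → K) (S : Finset K) (b : K → K)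
    (hS : ∀ s ∈ S, ∀ i, ∏ j : Fin m, φ^[j] (s + c i) = a i * b s) : S.card ≤ m.factorial := by
  classical
  refine (card_le_F hm φ c a Finset.univ S b (fun s hs i _ => hS s hs i)).trans ?_
  obtain ⟨n, rfl⟩ : ∃ n, m = n + 1 := ⟨m - 1, by omega⟩
  refine F_triv _ n Finset.univ ?_ ?_ Finset.univ ∅ ?_ ?_
  · intro k i _ i' _ h
    apply hc
    have hinj : Function.Injective (φ^[(k : ℕ)]) := Function.Injective.iterate φ.injective k
    exact hinj h
  · simp
  · exact Finset.disjoint_empty_right _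
  · simp

/-- the string of the zeros and ones of a vector -/
def bz (x : Bool) : ZMod 2 := if x then 1 else 0

theorem bz_xor (x y : Bool) : bz (xor x y) = bz x + bz y := by
  cases x <;> cases y <;> decide

theorem bz_inj {x y : Bool} (h : bz x = bz y) : x = y := by
  revert h
  cases x <;> cases y <;> decide

theorem bz_surj (z : ZMod 2) : ∃ x, bz x = z := by
  revert z
  decide

/-- strings of `a` bits are the elements of a field with `2 ^ a` elements -/
theorem exists_psi (a : ℕ) (ha : a ≠ 0) : ∃ ψ : Str a → GaloisField 2 a, Function.Bijective ψ ∧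
    ∀ x y, ψ (xorS x y) = ψ x + ψ y := by
  have : Fact (Nat.Prime 2) := ⟨Nat.prime_two⟩
  have hfr : Module.finrank (ZMod 2) (GaloisField 2 a) = a := GaloisField.finrank 2 ha
  obtain ⟨e⟩ : Nonempty ((Fin a → ZMod 2) ≃+ GaloisField 2 a) :=
    ⟨(Module.finBasisOfFinrankEq (ZMod 2) (GaloisField 2 a) hfr).equivFun.symm.toAddEquiv⟩
  refine ⟨fun x => e (fun i => bz (x i)), ?_, ?_⟩
  · constructor
    · intro x y h
      have h1 := e.injective h
      funext i
      exact bz_inj (congrFun h1 i)
    · intro z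
      choose g hg using bz_surj
      refine ⟨fun i => g (e.symm z i), ?_⟩
      simp only [hg]
      exact e.apply_symm_apply z
  · intro x y
    have h : (fun i => bz (xorS x y i)) = (fun i => bz (x i)) + (fun i => bz (y i)) := by
      funext i
      exact bz_xor _ _
    show e (fun i => bz (xorS x y i)) = _
    rw [h]
    exact e.map_add _ _

theorem str_ext {a l : ℕ} {x y : Str (a + l)} (h1 : fstS x = fstS y) (h2 : sndN x = sndN y) :
    x = y := by
  funext i
  refine Fin.addCases (fun i => ?_) (fun i => ?_) i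
  · exact congrFun h1 i
  · have h3 := Nat.testBit_ofBits_lt (fun i : Fin l => x (Fin.natAdd a i)) i i.2
    have h4 := Nat.testBit_ofBits_lt (fun i : Fin l => y (Fin.natAdd a i)) i i.2
    unfold sndN at h2
    rw [h2, h4] at h3
    exact h3.symm

/-- a string with given parts -/
def mkStr (a l : ℕ) (z : Str a) (n : ℕ) : Str (a + l) :=
  Fin.addCases z (fun i => n.testBit i)

theorem fst_mk {a l : ℕ} (z : Str a) (n : ℕ) : fstS (mkStr a l z n) = z := by
  funext i
  simp [fstS, mkStr]

theorem snd_mk {a l : ℕ} (z : Str a) {n : ℕ} (h : n < 2 ^ l) : sndN (mkStr a l z n) = n := by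
  unfold sndN mkStr
  simp only [Fin.addCases_right]
  rw [Nat.ofBits_testBit, Nat.mod_eq_of_lt h]

theorem xorS_comm {a : ℕ} (x y : Str a) : xorS x y = xorS y x := by
  funext i
  exact Bool.xor_comm _ _

theorem xorS_cancel {a : ℕ} (x y : Str a) : xorS x (xorS x y) = y := by
  funext i
  simp [xorS]

theorem exists_norm_graph (m l : ℕ) (hm : 1 ≤ m) (hl : 2 ≤ l) :
    ∃ G : SimpleGraph (Str (m * l + l)), GraphWidth (2 ^ (m * l) + (2 ^ l * 2 + 1)) G ∧
      (∀ t, m.factorial < t → (completeBipartiteGraph (Fin (m + 1)) (Fin t)).Free G) ∧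
      2 ^ (m * l) * (2 ^ (l - 1) * 2 ^ (l - 1)) * 2 ^ ((m - 1) * l) ≤
        2 * Nat.card G.edgeSet := by
  classical
  have : Fact (Nat.Prime 2) := ⟨Nat.prime_two⟩
  set a := m * l with ha
  have ha0 : a ≠ 0 := by
    have : 1 * 2 ≤ m * l := Nat.mul_le_mul hm hl
    omega
  let K := GaloisField 2 a
  obtain ⟨ψ, hψ, hadd⟩ := exists_psi a ha0
  have hcardK : Nat.card K = 2 ^ a := GaloisField.card 2 a ha0
  have : Fintype K := Fintype.ofFinite K
  -- numbers
  set q := 2 ^ l with hq
  have hq4 : 4 ≤ q := by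
    calc 4 = 2 ^ 2 := by norm_num
      _ ≤ 2 ^ l := Nat.pow_le_pow_right (by norm_num) hl
  set R := ∑ j ∈ Finset.range m, q ^ j with hR
  have hqm : q ^ m = 2 ^ a := by rw [hq, ← pow_mul, mul_comm]
  have hRq : R * (q - 1) + 1 = 2 ^ a := by
    have := geom_sum_mul_add (q - 1) m
    have e : q - 1 + 1 = q := by omega
    rw [e] at this
    rw [← hqm, hR]
    exact this
  have hRpos : q ^ (m - 1) ≤ R := by
    rw [hR]
    exact Finset.single_le_sum (f := fun j => q ^ j) (fun j _ => Nat.zero_le _)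
      (Finset.mem_range.2 (by omega : m - 1 < m))
  have hRpos' : 0 < R := lt_of_lt_of_le (by positivity) hRpos
  -- the Frobenius endomorphism
  let φ : K →+* K := iterateFrobenius K 2 l
  have hit : ∀ (j : ℕ) (x : K), φ^[j] x = x ^ (q ^ j) := by
    intro j x
    induction j with
    | zero => simp
    | succ j ih =>
      rw [Function.iterate_succ_apply', ih]
      show iterateFrobenius K 2 l (x ^ q ^ j) = _
      rw [iterateFrobenius_def, ← pow_mul, ← pow_succ]
  have hnorm : ∀ x : K, ∏ j : Fin m, φ^[j] x = x ^ R := by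
    intro x
    rw [hR, ← Finset.prod_pow_eq_pow_sum, Finset.prod_range]
    exact Finset.prod_congr rfl fun j _ => hit j x
  -- a generator
  obtain ⟨γ₀, hγ₀⟩ := IsCyclic.exists_monoid_generator (α := Kˣ)
  set γ : K := (γ₀ : K) with hγ
  have hgen : ∀ z : K, z ≠ 0 → ∃ u : ℕ, z = γ ^ u := by
    intro z hz
    obtain ⟨u, hu⟩ := hγ₀ (Units.mk0 z hz)
    refine ⟨u, ?_⟩
    have := congrArg Units.val hu
    simp only [Units.val_pow_eq_pow_val, Units.val_mk0] at this
    exact this.symm
  have hγne : γ ≠ 0 := γ₀.ne_zero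
  have hord : orderOf γ₀ = R * (q - 1) := by
    have h1 : orderOf γ₀ = Nat.card Kˣ := by
      apply orderOf_eq_card_of_forall_mem_zpowers
      intro x
      obtain ⟨u, hu⟩ := hγ₀ x
      exact ⟨u, by simpa using hu⟩
    have h2 : Nat.card Kˣ = Nat.card K - 1 := by
      rw [Nat.card_units]
    rw [h1, h2, hcardK]
    omega
  have hpow1 : γ ^ (R * (q - 1)) = 1 := by
    have := pow_orderOf_eq_one γ₀
    rw [hord] at this
    have h := congrArg Units.val this
    simpa using h
  have hinjpow : ∀ u v : ℕ, u < R * (q - 1) → v < R * (q - 1) → γ ^ u = γ ^ v → u = v := by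
    intro u v hu hv h
    have h1 : γ₀ ^ u = γ₀ ^ v := by
      apply Units.ext
      simpa using h
    rw [← hord] at hu hv
    exact pow_injOn_Iio_orderOf (Set.mem_Iio.2 hu) (Set.mem_Iio.2 hv) h1
  set h0 : K := γ ^ R with hh0
  have hh1 : h0 ^ (q - 1) = 1 := by rw [hh0, ← pow_mul]; exact hpow1
  have hhinj : ∀ u v : ℕ, u < q - 1 → v < q - 1 → h0 ^ u = h0 ^ v → u = v := by
    intro u v hu hv h
    rw [hh0, ← pow_mul, ← pow_mul] at h
    have := hinjpow (R * u) (R * v) (Nat.mul_lt_mul_of_pos_left hu hRpos')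
      (Nat.mul_lt_mul_of_pos_left hv hRpos') h
    exact Nat.eq_of_mul_eq_mul_left hRpos' this
  -- the logarithm of the norm
  have hexists : ∀ z : K, z ≠ 0 → ∃ e : Fin (2 ^ l), (e : ℕ) < q - 1 ∧ z ^ R = h0 ^ (e : ℕ) := by
    intro z hz
    obtain ⟨u, rfl⟩ := hgen z hz
    have hlt : u % (q - 1) < q - 1 := Nat.mod_lt _ (by omega)
    refine ⟨⟨u % (q - 1), by omega⟩, hlt, ?_⟩
    show (γ ^ u) ^ R = h0 ^ (u % (q - 1))
    rw [← pow_eq_pow_mod u hh1, hh0, ← pow_mul, ← pow_mul, mul_comm]
  let f : Str a → Option (Fin (2 ^ l)) := fun z =>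
    if hz : ψ z = 0 then none else some (hexists (ψ z) hz).choose
  have hf1 : ∀ z e, f z = some e → ψ z ≠ 0 ∧ (ψ z) ^ R = h0 ^ (e : ℕ) := by
    intro z e hze
    simp only [f] at hze
    split_ifs at hze with hz
    rw [Option.some.injEq] at hze
    rw [← hze]
    exact ⟨hz, (hexists (ψ z) hz).choose_spec.2⟩
  have hf2 : ∀ z (n : ℕ), ψ z ≠ 0 → n < q - 1 → (ψ z) ^ R = h0 ^ n →
      ∃ e : Fin (2 ^ l), f z = some e ∧ (e : ℕ) = n := by
    intro z n hz hn hzn
    refine ⟨(hexists (ψ z) hz).choose, by simp only [f]; rw [dif_neg hz], ?_⟩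
    have hs := (hexists (ψ z) hz).choose_spec
    exact hhinj _ _ hs.1 hn (hs.2.symm.trans hzn)
  have hψ0 : ∀ z : Str a, ψ (xorS z z) = 0 := by
    intro z
    rw [hadd]
    exact CharTwo.add_self_eq_zero _
  let G : SimpleGraph (Str (a + l)) :=
    { Adj := fun x y => NAdj f x y
      symm := ⟨fun x y h => by
        obtain ⟨e, h1, h2, h3, h4⟩ := h
        exact ⟨e, by rw [xorS_comm]; exact h1, by rw [add_comm]; exact h2, h4, h3⟩⟩
      loopless := ⟨fun x h => by
        obtain ⟨e, h1, _⟩ := h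
        exact (hf1 _ _ h1).1 (hψ0 _)⟩ }
  refine ⟨G, width_norm a l (by omega) f, ?_, ?_⟩
  · -- no complete bipartite subgraph
    intro t ht
    rintro ⟨F⟩
    set x : Fin (m + 1) → Str (a + l) := fun i => F (Sum.inl i) with hx
    set y : Fin t → Str (a + l) := fun j => F (Sum.inr j) with hy
    have hxinj : Function.Injective x := fun i k h => Sum.inl_injective (F.injective h)
    have hyinj : Function.Injective y := fun i k h => Sum.inr_injective (F.injective h)
    have hadj : ∀ i j, NAdj f (x i) (y j) := by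
      intro i j
      have : G.Adj (F (Sum.inl i)) (F (Sum.inr j)) := F.toHom.map_adj (by simp)
      exact this
    have ht0 : 0 < t := by omega
    have hxf : Function.Injective (fun i => ψ (fstS (x i))) := by
      intro i k hik
      have h1 : fstS (x i) = fstS (x k) := hψ.1 hik
      apply hxinj
      apply str_ext h1
      obtain ⟨e, he, hs, _⟩ := hadj i ⟨0, ht0⟩
      obtain ⟨e', he', hs', _⟩ := hadj k ⟨0, ht0⟩
      rw [h1, he', Option.some.injEq] at he
      rw [he] at hs'
      omega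
    have hyf : Function.Injective (fun j => ψ (fstS (y j))) := by
      intro j k hjk
      have h1 : fstS (y j) = fstS (y k) := hψ.1 hjk
      apply hyinj
      apply str_ext h1
      obtain ⟨e, he, hs, _⟩ := hadj 0 j
      obtain ⟨e', he', hs', _⟩ := hadj 0 k
      rw [h1, he', Option.some.injEq] at he
      rw [he] at hs'
      omega
    let b : K → K := fun s =>
      if hs : ∃ j, ψ (fstS (y j)) = s then h0 ^ sndN (y hs.choose) else 0
    have hb : ∀ j, b (ψ (fstS (y j))) = h0 ^ sndN (y j) := by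
      intro j
      have hs : ∃ k, ψ (fstS (y k)) = ψ (fstS (y j)) := ⟨j, rfl⟩
      simp only [b]
      rw [dif_pos hs]
      congr 2
      exact congrArg y (hyf hs.choose_spec)
    have := norm_sol (by omega : 0 < m) φ (fun i => ψ (fstS (x i))) hxf
      (fun i => h0 ^ sndN (x i)) (Finset.univ.image (fun j => ψ (fstS (y j)))) b (by
        intro s hs i
        obtain ⟨j, _, rfl⟩ := Finset.mem_image.1 hs
        rw [hb, hnorm]
        obtain ⟨e, he, hsum, _⟩ := hadj i j
        have h1 := (hf1 _ _ he).2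
        rw [hadd] at h1
        rw [add_comm, h1, ← hsum, pow_add])
    rw [Finset.card_image_of_injective _ hyf, Finset.card_univ, Fintype.card_fin] at this
    omega
  · -- the number of edges
    rw [← KST_card]
    have hll : 2 ^ l = 2 * 2 ^ (l - 1) := by
      rw [← pow_succ']; congr 1; omega
    have hR2 : ∀ v : Fin (2 ^ ((m - 1) * l)), (v : ℕ) < R := by
      intro v
      refine lt_of_lt_of_le v.2 ?_
      rw [mul_comm, pow_mul]
      exact hRpos
    -- exponents
    have hexp : ∀ (i j : Fin (2 ^ (l - 1))) (v : Fin (2 ^ ((m - 1) * l))),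
        (i : ℕ) + j + (q - 1) * v < R * (q - 1) := by
      intro i j v
      have h1 := i.2
      have h2 := j.2
      have h3 := hR2 v
      have h4 : (q - 1) * ((v : ℕ) + 1) ≤ (q - 1) * R := Nat.mul_le_mul_left _ h3
      have h5 : (q - 1) * ((v : ℕ) + 1) = (q - 1) * v + (q - 1) := by ring
      have h6 : (q - 1) * R = R * (q - 1) := mul_comm _ _
      omega
    choose inv hinv using hψ.2
    let zz : Fin (2 ^ (l - 1)) → Fin (2 ^ (l - 1)) → Fin (2 ^ ((m - 1) * l)) → Str a :=
      fun i j v => inv (γ ^ ((i : ℕ) + j + (q - 1) * v))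
    have hzz : ∀ i j v, ψ (zz i j v) = γ ^ ((i : ℕ) + j + (q - 1) * v) := fun i j v => hinv _
    let Φ : Str a × (Fin (2 ^ (l - 1)) × Fin (2 ^ (l - 1))) × Fin (2 ^ ((m - 1) * l)) →
        {w : Fin 2 → Str (a + l) // G.Adj (w 0) (w 1)} := fun z =>
      ⟨![mkStr a l z.1 z.2.1.1, mkStr a l (xorS z.1 (zz z.2.1.1 z.2.1.2 z.2.2)) z.2.1.2], by
        show NAdj f (mkStr a l z.1 z.2.1.1)
          (mkStr a l (xorS z.1 (zz z.2.1.1 z.2.1.2 z.2.2)) z.2.1.2)
        have h1 := z.2.1.1.2
        have h2 := z.2.1.2.2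
        have h3 : (ψ (zz z.2.1.1 z.2.1.2 z.2.2)) ^ R = h0 ^ ((z.2.1.1 : ℕ) + z.2.1.2) := by
          rw [hzz, ← pow_mul, hh0, ← pow_mul]
          have e : ((z.2.1.1 : ℕ) + z.2.1.2 + (q - 1) * z.2.2) * R =
              R * ((z.2.1.1 : ℕ) + z.2.1.2) + (R * (q - 1)) * z.2.2 := by ring
          rw [e, pow_add, pow_mul γ (R * (q - 1)), hpow1, one_pow, mul_one]
        obtain ⟨e, he, hen⟩ := hf2 (zz z.2.1.1 z.2.1.2 z.2.2) _ (by
          rw [hzz]; exact pow_ne_zero _ hγne) (by omega) h3
        refine ⟨e, ?_, ?_, ?_, ?_⟩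
        · rw [fst_mk, fst_mk, xorS_cancel]; exact he
        · rw [snd_mk _ (by omega), snd_mk _ (by omega), hen]
        · rw [snd_mk _ (by omega)]; exact h1
        · rw [snd_mk _ (by omega)]; exact h2⟩
    have hΦ : Function.Injective Φ := by
      intro z z' h
      have h1 := congrArg Subtype.val h
      have h2 : mkStr a l z.1 z.2.1.1 = mkStr a l z'.1 z'.2.1.1 := congrFun h1 0
      have h3 : mkStr a l (xorS z.1 (zz z.2.1.1 z.2.1.2 z.2.2)) z.2.1.2 =
          mkStr a l (xorS z'.1 (zz z'.2.1.1 z'.2.1.2 z'.2.2)) z'.2.1.2 := congrFun h1 1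
      have b1 := z.2.1.1.2
      have b2 := z.2.1.2.2
      have b3 := z'.2.1.1.2
      have b4 := z'.2.1.2.2
      have e1 := congrArg fstS h2
      rw [fst_mk, fst_mk] at e1
      have e2 := congrArg sndN h2
      rw [snd_mk _ (by omega), snd_mk _ (by omega)] at e2
      have e3 := congrArg fstS h3
      rw [fst_mk, fst_mk] at e3
      have e4 := congrArg sndN h3
      rw [snd_mk _ (by omega), snd_mk _ (by omega)] at e4
      have e5 : zz z.2.1.1 z.2.1.2 z.2.2 = zz z'.2.1.1 z'.2.1.2 z'.2.2 := by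
        have := congrArg (xorS z.1) e3
        rw [xorS_cancel] at this
        rw [this, e1, xorS_cancel]
      have e6 := congrArg ψ e5
      rw [hzz, hzz] at e6
      have e7 := hinjpow _ _ (hexp _ _ _) (hexp _ _ _) e6
      have e8 : (q - 1) * (z.2.2 : ℕ) = (q - 1) * z'.2.2 := by omega
      have e9 := Nat.eq_of_mul_eq_mul_left (by omega : 0 < q - 1) e8
      exact Prod.ext e1 (Prod.ext (Prod.ext (Fin.ext e2) (Fin.ext e4)) (Fin.ext e9))
    have := Nat.card_le_card_of_injective Φ hΦ
    refine le_trans (le_of_eq ?_) this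
    rw [Nat.card_eq_fintype_card]
    simp only [Fintype.card_prod, Fintype.card_fin, Fintype.card_fun, Fintype.card_bool]
    ring

end Pool.Agent.TH454.BW
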