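import Pool.Agent.TH454.BW.Cut2
import Pool.Agent.TH454.BW.Graph

/-!
# Ordered binary decision diagrams of graphs without complete bipartite subgraphs
-/

set_option autoImplicit false

namespace Pool.Agent.TH454.BW

open Pool.Agent.H607R2.BW

/-- the bits of two strings in the order `ord` -/
def bits {m : ℕ} (ord : Fin (2 * m) ≃ Fin 2 × Fin m) (x : Fin 2 → Str m) : List Bool :=
  List.ofFn (fun p => x (ord p).1 (ord p).2)

/-- The relation `R` between two strings of `m` bits is decided by a nondeterministic ordered
binary decision diagram with at most `β` edges at each level: the `2 m` bits of the two strings are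
read in some fixed order, each of them once; `R x` holds if and only if some path from the root to
an accepting node has the bits as its labels. -/
def HasNObdd {m : ℕ} (β : ℕ) (R : (Fin 2 → Str m) → Prop) : Prop :=
  ∃ (ord : Fin (2 * m) ≃ Fin 2 × Fin m) (σ : Type) (T : ℕ → Finset (σ × Bool × σ)) (s₀ : σ)
    (acc : Set σ), (∀ p, (T p).card ≤ β) ∧
      ∀ x : Fin 2 → Str m, R x ↔ ∃ s' ∈ acc, Path T 0 s₀ (bits ord x) s'

/-- The relation `R` between two strings of `m` bits is decided by an ordered binary decision
diagram with at most `w` nodes at each level, for some order of the `2 m` bits. -/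
def ObddWidth {m : ℕ} (w : ℕ) (R : (Fin 2 → Str m) → Prop) : Prop :=
  ∃ (ord : Fin (2 * m) ≃ Fin 2 × Fin m) (δ : ℕ → Fin w → Bool → Fin w) (s : Fin w)
    (acc : Set (Fin w)), ∀ x : Fin 2 → Str m, R x ↔ run δ 0 s (bits ord x) ∈ acc

theorem nobdd_of_obdd {m w : ℕ} {R : (Fin 2 → Str m) → Prop} (h : ObddWidth w R) :
    HasNObdd (2 * w) R := by
  classical
  obtain ⟨ord, δ, s, acc, hR⟩ := h
  let T : ℕ → Finset (Fin w × Bool × Fin w) := fun p =>
    (Finset.univ : Finset (Bool × Fin w)).image (fun z => (z.2, z.1, δ p z.2 z.1))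
  have hT : ∀ p s a s₁, (s, a, s₁) ∈ T p ↔ s₁ = δ p s a := by
    intro p s a s₁
    simp only [T, Finset.mem_image, Finset.mem_univ, true_and, Prod.mk.injEq]
    constructor
    · rintro ⟨z, h1, h2, h3⟩
      rw [← h1, ← h2, h3]
    · rintro rfl
      exact ⟨(a, s), rfl, rfl, rfl⟩
  have hP : ∀ (x : List Bool) (p : ℕ) (s s' : Fin w),
      Path T p s x s' ↔ run δ p s x = s' := by
    intro x
    induction x with
    | nil => intro p s s'; rfl
    | cons a x ih =>
      intro p s s'
      simp only [Path, run, hT]
      constructor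
      · rintro ⟨s₁, rfl, h⟩
        exact (ih _ _ _).1 h
      · intro h
        exact ⟨_, rfl, (ih _ _ _).2 h⟩
  refine ⟨ord, Fin w, T, s, acc, ?_, ?_⟩
  · intro p
    refine le_trans Finset.card_image_le ?_
    rw [Finset.card_univ, Fintype.card_prod, Fintype.card_bool, Fintype.card_fin]
  · intro x
    rw [hR]
    constructor
    · intro h
      exact ⟨_, h, (hP _ _ _ _).2 rfl⟩
    · rintro ⟨s', hs', h⟩
      rw [(hP _ _ _ _).1 h]
      exact hs'

section

variable {m : ℕ} (ord : Fin (2 * m) ≃ Fin 2 × Fin m)

/-- the strings with a given list of bits -/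
def un (l : List Bool) : Fin 2 → Str m := fun j t => l.getD (ord.symm (j, t)) false

theorem bits_un (l : List Bool) (h : l.length = 2 * m) : bits ord (un ord l) = l := by
  apply List.ext_getElem
  · simp [bits, h]
  · intro i h1 h2
    simp only [bits, List.getElem_ofFn, un]
    simp only [Prod.mk.eta, Equiv.symm_apply_apply]
    rw [List.getD_eq_getElem _ _ h2]

/-- the positions of the `j`-th string which are read before time `q` -/
def rd (j : Fin 2) (q : ℕ) : Finset (Fin m) :=
  Finset.univ.filter (fun t => (ord.symm (j, t) : ℕ) < q)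

theorem rd_card (q : ℕ) (hq : q ≤ 2 * m) : (rd ord 0 q).card + (rd ord 1 q).card = q := by
  classical
  have h1 : ∑ j : Fin 2, (rd ord j q).card = q := by
    have h2 : ∑ j : Fin 2, (rd ord j q).card =
        (Finset.univ.sigma (fun j => rd ord j q)).card := (Finset.card_sigma _ _).symm
    rw [h2]
    have h3 : (Finset.univ.sigma (fun j => rd ord j q)).card = (Finset.range q).card := by
      refine Finset.card_bij (fun z _ => (ord.symm (z.1, z.2) : ℕ)) ?_ ?_ ?_
      · intro z hz
        have := (Finset.mem_sigma.1 hz).2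
        simp only [rd, Finset.mem_filter, Finset.mem_univ, true_and] at this
        exact Finset.mem_range.2 this
      · intro z _ z' _ h
        have h4 := ord.symm.injective (Fin.ext h)
        obtain ⟨a, b⟩ := z
        obtain ⟨a', b'⟩ := z'
        simp only [Prod.mk.injEq] at h4
        obtain ⟨rfl, rfl⟩ := h4
        rfl
      · intro p hp
        rw [Finset.mem_range] at hp
        refine ⟨⟨(ord ⟨p, by omega⟩).1, (ord ⟨p, by omega⟩).2⟩, ?_, ?_⟩
        · simp only [Finset.mem_sigma, Finset.mem_univ, true_and, rd, Finset.mem_filter,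
            Prod.mk.eta, Equiv.symm_apply_apply]
          exact hp
        · simp
    rw [h3, Finset.card_range]
  rw [Fin.sum_univ_two] at h1
  exact h1

theorem rd_le (j : Fin 2) (q : ℕ) : (rd ord j q).card ≤ m := by
  have := Finset.card_le_univ (rd ord j q)
  rwa [Fintype.card_fin] at this

theorem rd_mono (j : Fin 2) {q q' : ℕ} (h : q ≤ q') : (rd ord j q).card ≤ (rd ord j q').card := by
  apply Finset.card_le_card
  intro t ht
  simp only [rd, Finset.mem_filter, Finset.mem_univ, true_and] at ht ⊢
  omega

/-- the part of the `j`-th string given by the first `q` bits -/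
def part (j : Fin 2) (q : ℕ) (u : List Bool) : Str m := fun t =>
  if t ∈ rd ord j q then u.getD (ord.symm (j, t)) false else false

/-- the part of the `j`-th string given by the remaining bits -/
def part' (j : Fin 2) (q : ℕ) (v : List Bool) : Str m := fun t =>
  if t ∈ rd ord j q then false else v.getD (ord.symm (j, t) - q) false

/-- functions which vanish outside of `D` -/
def supp (D : Finset (Fin m)) : Finset (Str m) :=
  Fintype.piFinset (fun t => if t ∈ D then Finset.univ else {false})

theorem supp_card (D : Finset (Fin m)) : (supp D).card = 2 ^ D.card := by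
  unfold supp
  rw [Fintype.card_piFinset]
  have : ∀ t, (if t ∈ D then (Finset.univ : Finset Bool) else {false}).card =
      if t ∈ D then 2 else 1 := by
    intro t
    split_ifs <;> simp
  simp only [this]
  rw [Finset.prod_ite_mem]
  simp

theorem part_mem (j : Fin 2) (q : ℕ) (u : List Bool) : part ord j q u ∈ supp (rd ord j q) := by
  unfold supp
  rw [Fintype.mem_piFinset]
  intro t
  by_cases h : t ∈ rd ord j q
  · simp [h]
  · simp [h, part]

theorem part'_mem (j : Fin 2) (q : ℕ) (v : List Bool) :
    part' ord j q v ∈ supp (rd ord j q)ᶜ := by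
  unfold supp
  rw [Fintype.mem_piFinset]
  intro t
  by_cases h : t ∈ rd ord j q
  · simp [h, part']
  · simp [h]

theorem un_append (j : Fin 2) (q : ℕ) (u v : List Bool) (hu : u.length = q) :
    un ord (u ++ v) j = fun t => if t ∈ rd ord j q then part ord j q u t
      else part' ord j q v t := by
  funext t
  unfold un part part'
  by_cases h : t ∈ rd ord j q
  · have h' := h
    simp only [rd, Finset.mem_filter, Finset.mem_univ, true_and] at h'
    simp only [h, if_true]
    rw [List.getD_append _ _ _ _ (by omega)]
  · have h' := h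
    simp only [rd, Finset.mem_filter, Finset.mem_univ, true_and, not_lt] at h'
    simp only [h, if_false]
    rw [List.getD_append_right _ _ _ _ (by omega), hu]

theorem part_inj {q : ℕ} (hq : q ≤ 2 * m) {u u' : List Bool} (hu : u.length = q)
    (hu' : u'.length = q) (h : ∀ j, part ord j q u = part ord j q u') : u = u' := by
  apply List.ext_getElem (by omega)
  intro i h1 h2
  have h3 := congrFun (h (ord ⟨i, by omega⟩).1) (ord ⟨i, by omega⟩).2
  have hmem : (ord ⟨i, by omega⟩).2 ∈ rd ord (ord ⟨i, by omega⟩).1 q := by
    simp only [rd, Finset.mem_filter, Finset.mem_univ, true_and, Prod.mk.eta,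
      Equiv.symm_apply_apply]
    omega
  simp only [part, hmem, if_true, Prod.mk.eta, Equiv.symm_apply_apply] at h3
  rwa [List.getD_eq_getElem _ _ h1, List.getD_eq_getElem _ _ h2] at h3

theorem part'_inj {q : ℕ} (hq : q ≤ 2 * m) {v v' : List Bool} (hv : v.length = 2 * m - q)
    (hv' : v'.length = 2 * m - q) (h : ∀ j, part' ord j q v = part' ord j q v') : v = v' := by
  apply List.ext_getElem (by omega)
  intro i h1 h2
  have h3 := congrFun (h (ord ⟨q + i, by omega⟩).1) (ord ⟨q + i, by omega⟩).2
  have hmem : ¬ (ord ⟨q + i, by omega⟩).2 ∈ rd ord (ord ⟨q + i, by omega⟩).1 q := by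
    simp only [rd, Finset.mem_filter, Finset.mem_univ, true_and, Prod.mk.eta,
      Equiv.symm_apply_apply]
    omega
  simp only [part', hmem, if_false, Prod.mk.eta, Equiv.symm_apply_apply,
    Nat.add_sub_cancel_left] at h3
  rwa [List.getD_eq_getElem _ _ h1, List.getD_eq_getElem _ _ h2] at h3

theorem fin2_cases {P : Fin 2 → Prop} {j k : Fin 2} (hjk : j ≠ k) (h1 : P j) (h2 : P k) :
    ∀ i, P i := by
  intro i
  by_cases hi : i = j
  · rw [hi]; exact h1
  · have : i = k := by omega
    rw [this]; exact h2

end

theorem natcard_coe {α : Type} (s : Finset α) : Nat.card {l // l ∈ s} = s.card := by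
  rw [Nat.card_eq_fintype_card, Fintype.card_coe]

/-- a cut with many prefixes and many suffixes gives a complete bipartite subgraph -/
theorem kst_of_cut {m : ℕ} (ord : Fin (2 * m) ≃ Fin 2 × Fin m) (G : SimpleGraph (Str m)) (s t : ℕ)
    (q : ℕ) (hq : q ≤ 2 * m) (P Q : Finset (List Bool)) (hP : ∀ u ∈ P, u.length = q)
    (hQ : ∀ v ∈ Q, v.length = 2 * m - q)
    (hadj : ∀ u ∈ P, ∀ v ∈ Q, G.Adj (un ord (u ++ v) 0) (un ord (u ++ v) 1))
    (j k : Fin 2) (hjk : j ≠ k)
    (hPc : (s - 1) * 2 ^ (rd ord k q).card < P.card)
    (hQc : (t - 1) * 2 ^ (m - (rd ord j q).card) < Q.card) :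
    (completeBipartiteGraph (Fin s) (Fin t)).IsContained G := by
  classical
  have hadj' : ∀ u ∈ P, ∀ v ∈ Q, G.Adj (un ord (u ++ v) j) (un ord (u ++ v) k) := by
    intro u hu v hv
    have h := hadj u hu v hv
    have hj : j = 0 ∧ k = 1 ∨ j = 1 ∧ k = 0 := by omega
    rcases hj with ⟨rfl, rfl⟩ | ⟨rfl, rfl⟩
    · exact h
    · exact h.symm
  obtain ⟨y, hy, hys⟩ := Finset.exists_lt_card_fiber_of_mul_lt_card_of_maps_to
    (s := P) (t := supp (rd ord k q)) (f := part ord k q) (n := s - 1)
    (fun z _ => part_mem ord k q z) (by rw [supp_card, mul_comm]; exact hPc)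
  obtain ⟨c, hc, hct⟩ := Finset.exists_lt_card_fiber_of_mul_lt_card_of_maps_to
    (s := Q) (t := supp (rd ord j q)ᶜ) (f := part' ord j q) (n := t - 1)
    (fun z _ => part'_mem ord j q z) (by
      rw [supp_card, mul_comm, Finset.card_compl, Fintype.card_fin]; exact hQc)
  set F : Finset (List Bool) := P.filter (fun z => part ord k q z = y) with hF
  set H : Finset (List Bool) := Q.filter (fun z => part' ord j q z = c) with hH
  have hFne : F.Nonempty := by rw [← Finset.card_pos]; omega
  have hHne : H.Nonempty := by rw [← Finset.card_pos]; omega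
  have hys' : Fintype.card (Fin s) ≤ Fintype.card {z // z ∈ F} := by
    rw [Fintype.card_fin, Fintype.card_coe]; omega
  have hct' : Fintype.card (Fin t) ≤ Fintype.card {z // z ∈ H} := by
    rw [Fintype.card_fin, Fintype.card_coe]; omega
  obtain ⟨f⟩ := Function.Embedding.nonempty_of_card_le hys'
  obtain ⟨g⟩ := Function.Embedding.nonempty_of_card_le hct'
  have hf : ∀ i, (f i).1 ∈ P ∧ part ord k q (f i).1 = y := fun i => Finset.mem_filter.1 (f i).2
  have hg : ∀ i, (g i).1 ∈ Q ∧ part' ord j q (g i).1 = c := fun i => Finset.mem_filter.1 (g i).2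
  let X : Fin s → Str m := fun i => fun t => if t ∈ rd ord j q then part ord j q (f i).1 t else c t
  let Y : Fin t → Str m := fun i => fun t => if t ∈ rd ord k q then y t else part' ord k q (g i).1 t
  have hXY : ∀ i i', G.Adj (X i) (Y i') := by
    intro i i'
    have h := hadj' _ (hf i).1 _ (hg i').1
    rw [un_append ord j q _ _ (hP _ (hf i).1), un_append ord k q _ _ (hP _ (hf i).1),
      (hf i).2, (hg i').2] at h
    exact h
  have hX : Function.Injective X := by
    intro i i' he
    apply f.injective
    apply Subtype.ext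
    apply part_inj ord hq (hP _ (hf i).1) (hP _ (hf i').1)
    refine fin2_cases hjk ?_ ?_
    · funext t
      have h1 := congrFun he t
      simp only [X] at h1
      by_cases ht : t ∈ rd ord j q
      · simpa [ht] using h1
      · simp [part, ht]
    · rw [(hf i).2, (hf i').2]
  have hY : Function.Injective Y := by
    intro i i' he
    apply g.injective
    apply Subtype.ext
    apply part'_inj ord hq (hQ _ (hg i).1) (hQ _ (hg i').1)
    refine fin2_cases hjk ?_ ?_
    · rw [(hg i).2, (hg i').2]
    · funext t
      have h1 := congrFun he t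
      simp only [Y] at h1
      by_cases ht : t ∈ rd ord k q
      · simp [part', ht]
      · simpa [ht] using h1
  refine ⟨⟨⟨Sum.elim X Y, ?_⟩, ?_⟩⟩
  · intro x y hxy
    rw [completeBipartiteGraph_adj] at hxy
    rcases x with x | x <;> rcases y with y | y <;> simp at hxy
    · exact hXY x y
    · exact (hXY y x).symm
  · intro x y hxy
    have hxy' : Sum.elim X Y x = Sum.elim X Y y := hxy
    rcases x with x | x <;> rcases y with y | y
    · exact congrArg Sum.inl (hX hxy')
    · exact absurd hxy' (G.ne_of_adj (hXY x y))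
    · exact absurd hxy'.symm (G.ne_of_adj (hXY y x))
    · exact congrArg Sum.inr (hY hxy')

/-- graphs without `K_{s,t}` given by decision diagrams -/
theorem kst_nobdd_bound (m β s t : ℕ) (G : SimpleGraph (Str m)) (hs : 2 ≤ s) (ht : 2 ≤ t)
    (hG : HasNObdd β (fun x : Fin 2 → Str m => G.Adj (x 0) (x 1)))
    (hfree : (completeBipartiteGraph (Fin s) (Fin t)).Free G) :
    2 * Nat.card G.edgeSet ≤ (s - 1) * (t - 1) * (β * m * 2 ^ m) := by
  classical
  rcases Nat.eq_zero_or_pos m with hm | hm
  · subst hm
    have : IsEmpty G.edgeSet := by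
      constructor
      rintro ⟨e, he⟩
      induction e using Sym2.ind with
      | _ x y =>
        rw [SimpleGraph.mem_edgeSet] at he
        exact he.ne (Subsingleton.elim _ _)
    rw [Nat.card_of_isEmpty]
    omega
  obtain ⟨ord, σ, T, s₀, acc, hT, hR⟩ := hG
  have hacc : ∀ l : List Bool, l.length = 2 * m → (∃ s' ∈ acc, Path T 0 s₀ l s') →
      G.Adj (un ord l 0) (un ord l 1) := by
    intro l hl h
    exact (hR (un ord l)).2 (by rw [bits_un ord l hl]; exact h)
  have hcount : 2 * Nat.card G.edgeSet ≤ (suf T acc 0 (2 * m) s₀).card := by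
    rw [← KST_card]
    have hinj : Function.Injective (fun x : {x : Fin 2 → Str m // G.Adj (x 0) (x 1)} =>
        (⟨bits ord x.1, by
          rw [mem_suf]
          exact ⟨by simp [bits], (hR x.1).1 x.2⟩⟩ : {l // l ∈ suf T acc 0 (2 * m) s₀})) := by
      intro x y hxy
      have h3 : bits ord x.1 = bits ord y.1 := congrArg Subtype.val hxy
      have h4 := List.ofFn_injective h3
      apply Subtype.ext
      funext j t
      have h5 := congrFun h4 (ord.symm (j, t))
      simpa using h5
    have := Nat.card_le_card_of_injective _ hinj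
    rwa [natcard_coe] at this
  -- sizes
  set mn : ℕ → ℕ := fun q => min (rd ord 0 q).card (rd ord 1 q).card with hmn
  set mx : ℕ → ℕ := fun q => max (rd ord 0 q).card (rd ord 1 q).card with hmx
  have hsum : ∀ q ≤ 2 * m, mn q + mx q = q := by
    intro q hq
    have := rd_card ord q hq
    simp only [hmn, hmx]
    omega
  have hcut := cut2 T β (2 * m) hT s₀ acc (fun q => (s - 1) * 2 ^ mn q)
    (fun q => (t - 1) * 2 ^ (m - mx q)) (by omega)
    (Nat.mul_pos (by omega) (by positivity)) (Nat.mul_pos (by omega) (by positivity)) (by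
      intro q hq st
      by_contra hcon
      push Not at hcon
      obtain ⟨hc1, hc2⟩ := hcon
      apply hfree
      rcases le_total (rd ord 1 q).card (rd ord 0 q).card with hle | hle
      · refine kst_of_cut ord G s t q hq (pre T s₀ q st) (suf T acc q (2 * m - q) st)
          (fun u hu => ((mem_pre T).1 hu).1) (fun v hv => ((mem_suf T).1 hv).1) ?_ 0 1
          (by decide) ?_ ?_
        · intro u hu v hv
          rw [mem_pre] at hu
          rw [mem_suf] at hv
          apply hacc _ (by rw [List.length_append, hu.1, hv.1]; omega)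
          obtain ⟨s', hs', hp⟩ := hv.2
          refine ⟨s', hs', ?_⟩
          rw [path_append]
          refine ⟨st, hu.2, ?_⟩
          rw [hu.1, zero_add]
          exact hp
        · have : mn q = (rd ord 1 q).card := by simp only [hmn]; omega
          rw [← this]; exact hc1
        · have : mx q = (rd ord 0 q).card := by simp only [hmx]; omega
          rw [← this]; exact hc2
      · refine kst_of_cut ord G s t q hq (pre T s₀ q st) (suf T acc q (2 * m - q) st)
          (fun u hu => ((mem_pre T).1 hu).1) (fun v hv => ((mem_suf T).1 hv).1) ?_ 1 0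
          (by decide) ?_ ?_
        · intro u hu v hv
          rw [mem_pre] at hu
          rw [mem_suf] at hv
          apply hacc _ (by rw [List.length_append, hu.1, hv.1]; omega)
          obtain ⟨s', hs', hp⟩ := hv.2
          refine ⟨s', hs', ?_⟩
          rw [path_append]
          refine ⟨st, hu.2, ?_⟩
          rw [hu.1, zero_add]
          exact hp
        · have : mn q = (rd ord 0 q).card := by simp only [hmn]; omega
          rw [← this]; exact hc1
        · have : mx q = (rd ord 1 q).card := by simp only [hmx]; omega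
          rw [← this]; exact hc2)
  refine le_trans hcount (le_trans hcut ?_)
  refine le_trans (Finset.sum_le_card_nsmul _ _ (β * ((s - 1) * (t - 1) * 2 ^ (m - 1))) ?_) ?_
  · intro q hq
    rw [Finset.mem_range] at hq
    apply Nat.mul_le_mul_left
    have h1 := hsum q (by omega)
    have h2 := hsum (q + 1) (by omega)
    have h3 : mn q ≤ mx q := by simp only [hmn, hmx]; omega
    have h4 : mn (q + 1) ≤ mx (q + 1) := by simp only [hmn, hmx]; omega
    have h5 : mx (q + 1) ≤ m := by
      simp only [hmx]
      exact max_le (rd_le ord 0 _) (rd_le ord 1 _)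
    have h6 : mn q + (m - mx (q + 1)) ≤ m - 1 := by omega
    calc (s - 1) * 2 ^ mn q * ((t - 1) * 2 ^ (m - mx (q + 1)))
        = (s - 1) * (t - 1) * 2 ^ (mn q + (m - mx (q + 1))) := by rw [pow_add]; ring
      _ ≤ (s - 1) * (t - 1) * 2 ^ (m - 1) :=
        Nat.mul_le_mul_left _ (Nat.pow_le_pow_right (by norm_num) h6)
  · rw [Finset.card_range, smul_eq_mul]
    have : 2 ^ m = 2 * 2 ^ (m - 1) := by
      rw [← pow_succ']; congr 1; omega
    rw [this]
    exact le_of_eq (by ring)

theorem kst_obdd_bound (m w s t : ℕ) (G : SimpleGraph (Str m)) (hs : 2 ≤ s) (ht : 2 ≤ t)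
    (hG : ObddWidth w (fun x : Fin 2 → Str m => G.Adj (x 0) (x 1)))
    (hfree : (completeBipartiteGraph (Fin s) (Fin t)).Free G) :
    Nat.card G.edgeSet ≤ (s - 1) * (t - 1) * (w * m * 2 ^ m) := by
  have h := kst_nobdd_bound m _ s t G hs ht (nobdd_of_obdd hG) hfree
  have e : (s - 1) * (t - 1) * (2 * w * m * 2 ^ m) =
      2 * ((s - 1) * (t - 1) * (w * m * 2 ^ m)) := by ring
  omega

end Pool.Agent.TH454.BW
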