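import Pool.Agent.TH454.BW.Sidon

/-!
# The planes over prime fields have an incidence relation of small width
-/

set_option autoImplicit false

namespace Pool.Agent.TH454.BW

open Pool.Agent.H607R2.BW

/-! ### Machines -/

theorem run_prod {σ τ A : Type} (δ : ℕ → σ → A → σ) (ε : ℕ → τ → A → τ) (l : List A) :
    ∀ (p : ℕ) (z : σ × τ), run (fun q z a => (δ q z.1 a, ε q z.2 a)) p z l =
      (run δ p z.1 l, run ε p z.2 l) := by
  induction l with
  | nil => intro p z; rfl
  | cons a l ih =>
    intro p z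
    simp only [run]
    rw [ih]

theorem hasWidth_and {ι : Type} {m w w' : ℕ} {R R' : (ι → Str m) → Prop} (h : HasWidth w R)
    (h' : HasWidth w' R') : HasWidth (w * w') (fun x => R x ∧ R' x) := by
  obtain ⟨δ, s, acc, hR⟩ := h
  obtain ⟨δ', s', acc', hR'⟩ := h'
  refine hasWidth_of (Fin w × Fin w') (by simp) (fun q z a => (δ q z.1 a, δ' q z.2 a)) (s, s')
    {z | z.1 ∈ acc ∧ z.2 ∈ acc'} ?_
  intro x
  rw [run_prod, hR, hR']
  rfl

/-- comparison with a fixed number -/
theorem width_lt (m v : ℕ) (j : Fin 2) (hv : v < 2 ^ m) :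
    HasWidth 2 (fun x : Fin 2 → Str m => Nat.ofBits (x j) < v) := by
  classical
  refine hasWidth_of Bool (by simp) (fun p b a => decide ((a j).toNat < (v.testBit p).toNat ∨
    ((a j).toNat = (v.testBit p).toNat ∧ b = true))) false {true} ?_
  intro x
  have hinv := run_inv (fun p b (a : Fin 2 → Bool) => decide ((a j).toNat < (v.testBit p).toNat ∨
    ((a j).toNat = (v.testBit p).toNat ∧ b = true)))
    (fun p b => b = decide (Nat.ofBits (x j) % 2 ^ p < v % 2 ^ p)) m
    (fun (t : Fin m) (j : Fin 2) => x j t) 0 false (by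
      intro i hi b hb
      rw [zero_add] at hb ⊢
      rw [hb, decide_eq_decide, mod_two_pow_succ (Nat.ofBits (x j)), mod_two_pow_succ v,
        Nat.testBit_ofBits_lt _ _ hi, decide_eq_true_iff]
      have h1 : Nat.ofBits (x j) % 2 ^ i < 2 ^ i := Nat.mod_lt _ (by positivity)
      have h2 : v % 2 ^ i < 2 ^ i := Nat.mod_lt _ (by positivity)
      rcases x j ⟨i, hi⟩ with _ | _ <;> rcases v.testBit i with _ | _ <;> simp <;> omega)
      (by simp [Nat.mod_one])
  rw [zero_add] at hinv
  have hx := Nat.ofBits_lt_two_pow (x j)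
  rw [Nat.mod_eq_of_lt hx, Nat.mod_eq_of_lt hv] at hinv
  show _ ↔ run _ 0 false (List.ofFn (fun (t : Fin m) (j : Fin 2) => x j t)) ∈ _
  rw [hinv]
  simp

/-- the sum of two numbers with `m` bits is compared with the elements of `S` by a machine with
`2 |S| + 1` states -/
theorem width_add' (m : ℕ) (S : Finset ℕ) (hne : S.Nonempty) :
    HasWidth (2 * S.card + 1)
      (fun x : Fin 2 → Str m => Nat.ofBits (x 0) + Nat.ofBits (x 1) ∈ S) := by
  classical
  obtain ⟨s₀, hs₀⟩ := hne
  refine hasWidth_of (Option (S × Bool)) ?_ (addStep S) (some (⟨s₀, hs₀⟩, false))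
    {st | ∃ (s : S) (c : Bool), st = some (s, c) ∧ (s : ℕ) % 2 ^ m + 2 ^ m * c.toNat ∈ S} ?_
  · rw [Fintype.card_option, Fintype.card_prod, Fintype.card_coe, Fintype.card_bool, mul_comm]
  · intro x
    have hinv := run_inv (addStep S) (addInv S (Nat.ofBits (x 0)) (Nat.ofBits (x 1))) m
      (fun (t : Fin m) (j : Fin 2) => x j t) 0 (some (⟨s₀, hs₀⟩, false)) (by
        intro i hi st hst
        rw [zero_add] at hst ⊢
        refine addInv_step S _ _ i _ ?_ ?_ st hst
        · rw [Nat.testBit_ofBits_lt _ _ hi]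
        · rw [Nat.testBit_ofBits_lt _ _ hi]) (by simp [addInv, Nat.mod_one])
    rw [zero_add] at hinv
    have hx := Nat.ofBits_lt_two_pow (x 0)
    have hy := Nat.ofBits_lt_two_pow (x 1)
    show _ ↔ run (addStep S) 0 (some (⟨s₀, hs₀⟩, false))
      (List.ofFn (fun (t : Fin m) (j : Fin 2) => x j t)) ∈ _
    generalize run (addStep S) 0 (some (⟨s₀, hs₀⟩, false))
      (List.ofFn (fun (t : Fin m) (j : Fin 2) => x j t)) = st at hinv
    match st, hinv with
    | none, hinv =>
      simp only [addInv] at hinv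
      constructor
      · intro h
        exfalso
        apply hinv _ h
        rw [Nat.mod_eq_of_lt hx, Nat.mod_eq_of_lt hy]
      · rintro ⟨s, c, hs, _⟩
        exact absurd hs (by simp)
    | some (s, c), hinv =>
      simp only [addInv] at hinv
      rw [Nat.mod_eq_of_lt hx, Nat.mod_eq_of_lt hy] at hinv
      constructor
      · intro h
        refine ⟨s, c, rfl, ?_⟩
        rw [← hinv]
        exact h
      · rintro ⟨s', c', hs', h⟩
        simp only [Option.some.injEq, Prod.mk.injEq] at hs'
        rw [← hs'.1, ← hs'.2, ← hinv] at h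
        exact h

theorem toBits_ofBits {m : ℕ} (x : Str m) : toBits m (Nat.ofBits x) = x := by
  funext t
  unfold toBits
  rw [Nat.testBit_ofBits_lt _ _ t.2]

end Pool.Agent.TH454.BW
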