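import Pool.Agent.TH454.BW.Cut2
import Pool.Agent.TH454.BW.Sidon

/-!
# Representation functions of sets decided by ordered binary decision diagrams
-/

set_option autoImplicit false

namespace Pool.Agent.TH454.BW

open Pool.Agent.H607R2.BW

/-- the bits of a number in the order `ord` -/
def numBits {m : ℕ} (ord : Equiv.Perm (Fin m)) (n : ℕ) : List Bool :=
  List.ofFn (fun p => n.testBit (ord p))

/-- Membership in `A` of the numbers below `2 ^ m` is decided by a nondeterministic ordered binary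
decision diagram with at most `β` edges at each level: the `m` bits of the number are read in some
fixed order, each of them once; the number is in `A` if and only if some path from the root to an
accepting node has the bits as its labels. -/
def SetNObdd (β m : ℕ) (A : Set ℕ) : Prop :=
  ∃ (ord : Equiv.Perm (Fin m)) (σ : Type) (T : ℕ → Finset (σ × Bool × σ)) (s₀ : σ) (acc : Set σ),
    (∀ p, (T p).card ≤ β) ∧ ∀ n < 2 ^ m, n ∈ A ↔ ∃ s' ∈ acc, Path T 0 s₀ (numBits ord n) s'

/-- Membership in `A` of the numbers below `2 ^ m` is decided by an ordered binary decision diagram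
with at most `w` nodes at each level, for some order of the `m` bits. -/
def SetObdd (w m : ℕ) (A : Set ℕ) : Prop :=
  ∃ (ord : Equiv.Perm (Fin m)) (δ : ℕ → Fin w → Bool → Fin w) (s : Fin w) (acc : Set (Fin w)),
    ∀ n < 2 ^ m, n ∈ A ↔ run δ 0 s (numBits ord n) ∈ acc

/-- the number of ordered representations of `n` as a sum of two elements of `A` -/
noncomputable def reps (A : Set ℕ) (n : ℕ) : ℕ :=
  Nat.card {ab : ℕ × ℕ // ab.1 ∈ A ∧ ab.2 ∈ A ∧ ab.1 + ab.2 = n}

theorem setNObdd_of_setObdd {w m : ℕ} {A : Set ℕ} (h : SetObdd w m A) :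
    SetNObdd (2 * w) m A := by
  classical
  obtain ⟨ord, δ, s, acc, hR⟩ := h
  let T : ℕ → Finset (Fin w × Bool × Fin w) := fun p =>
    (Finset.univ : Finset (Bool × Fin w)).image (fun z => (z.2, z.1, δ p z.2 z.1))
  have hT : ∀ p s a s₁, (s, a, s₁) ∈ T p ↔ s₁ = δ p s a := by
    intro p s a s₁
    simp only [T, Finset.mem_image, Finset.mem_univ, true_and, Prod.mk.injEq]
    constructor
    · rintro ⟨z, h1, h2, h3⟩
      rw [← h1, ← h2, h3]
    · rintro rfl
      exact ⟨(a, s), rfl, rfl, rfl⟩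
  have hP : ∀ (x : List Bool) (p : ℕ) (s s' : Fin w),
      Path T p s x s' ↔ run δ p s x = s' := by
    intro x
    induction x with
    | nil => intro p s s'; rfl
    | cons a x ih =>
      intro p s s'
      simp only [Path, run, hT]
      constructor
      · rintro ⟨s₁, rfl, h⟩
        exact (ih _ _ _).1 h
      · intro h
        exact ⟨_, rfl, (ih _ _ _).2 h⟩
  refine ⟨ord, Fin w, T, s, acc, ?_, ?_⟩
  · intro p
    refine le_trans Finset.card_image_le ?_
    rw [Finset.card_univ, Fintype.card_prod, Fintype.card_bool, Fintype.card_fin]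
  · intro n hn
    rw [hR n hn]
    constructor
    · intro h
      exact ⟨_, h, (hP _ _ _ _).2 rfl⟩
    · rintro ⟨s', hs', h⟩
      rw [(hP _ _ _ _).1 h]
      exact hs'

/-! ### boxes -/

/-- combinatorial boxes of dimension `k` -/
def Box : ℕ → Finset (List Bool) → Prop
  | 0, W => W.Nonempty
  | k + 1, W => ∃ (q : ℕ) (P : Finset (List Bool)), (∀ u ∈ P, u.length = q) ∧ Box k P ∧
      ∃ v v' : List Bool, v ≠ v' ∧ v.length = v'.length ∧ ∀ u ∈ P, u ++ v ∈ W ∧ u ++ v' ∈ W

theorem sum_pow_le (β t n : ℕ) :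
    ∑ q ∈ Finset.range n, β * ((1 + β * q) ^ t * 1) ≤ (1 + β * n) ^ (t + 1) := by
  induction n with
  | zero => simp
  | succ n ih =>
    rw [Finset.sum_range_succ]
    have h1 : (1 + β * n) ^ t ≤ (1 + β * (n + 1)) ^ t :=
      Nat.pow_le_pow_left (by rw [mul_add]; omega) t
    calc ∑ q ∈ Finset.range n, β * ((1 + β * q) ^ t * 1) + β * ((1 + β * n) ^ t * 1)
        ≤ (1 + β * n) ^ (t + 1) + β * ((1 + β * n) ^ t * 1) := by omega
      _ = (1 + β * n) ^ t * (1 + β * (n + 1)) := by ring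
      _ ≤ (1 + β * (n + 1)) ^ t * (1 + β * (n + 1)) := Nat.mul_le_mul_right _ h1
      _ = (1 + β * (n + 1)) ^ (t + 1) := by ring

theorem box_one {W : Finset (List Bool)} {n : ℕ} (hW : ∀ u ∈ W, u.length = n)
    (h : ¬ Box 1 W) : W.card ≤ 1 := by
  by_contra hcon
  rw [not_le, Finset.one_lt_card] at hcon
  obtain ⟨v, hv, v', hv', hne⟩ := hcon
  apply h
  refine ⟨0, {[]}, ?_, ⟨[], by simp⟩, v, v', hne, by rw [hW v hv, hW v' hv'], ?_⟩
  · intro u hu
    rw [Finset.mem_singleton] at hu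
    rw [hu]; rfl
  · intro u hu
    rw [Finset.mem_singleton] at hu
    rw [hu]
    exact ⟨hv, hv'⟩

/-- words without a box of dimension `t + 1` -/
theorem box_bound {σ : Type} (T : ℕ → Finset (σ × Bool × σ)) (β : ℕ) (hT : ∀ p, (T p).card ≤ β)
    (s₀ : σ) : ∀ (t n : ℕ) (acc : Set σ), ¬ Box (t + 1) (suf T acc 0 n s₀) →
      (suf T acc 0 n s₀).card ≤ (1 + β * n) ^ t := by
  intro t
  induction t with
  | zero =>
    intro n acc h
    rw [pow_zero]
    exact box_one (n := n) (fun u hu => ((mem_suf T).1 hu).1) h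
  | succ t ih =>
    intro n acc h
    rcases Nat.eq_zero_or_pos n with rfl | hn
    · have : suf T acc 0 0 s₀ ⊆ {[]} := by
        intro x hx
        rw [mem_suf, List.length_eq_zero_iff] at hx
        simp [hx.1]
      have := Finset.card_le_card this
      simpa using this
    · refine le_trans (cut2 T β n hT s₀ acc (fun q => (1 + β * q) ^ t) (fun _ => 1) hn
        (by simp) le_rfl ?_) (sum_pow_le β t n)
      intro q hq s
      by_contra hcon
      rw [not_or, not_le, not_le] at hcon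
      obtain ⟨h1, h2⟩ := hcon
      have hpre : pre T s₀ q s = suf T {s} 0 q s₀ := by
        ext x
        rw [mem_pre, mem_suf]
        constructor
        · rintro ⟨h3, h4⟩
          exact ⟨h3, s, rfl, h4⟩
        · rintro ⟨h3, s', h4, h5⟩
          have : s' = s := h4
          rw [this] at h5
          exact ⟨h3, h5⟩
      rw [hpre] at h1
      have hbox : Box (t + 1) (suf T {s} 0 q s₀) := by
        by_contra hb
        have := ih q {s} hb
        omega
      rw [Finset.one_lt_card] at h2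
      obtain ⟨v, hv, v', hv', hne⟩ := h2
      apply h
      refine ⟨q, suf T {s} 0 q s₀, fun u hu => ((mem_suf T).1 hu).1, hbox, v, v', hne, ?_, ?_⟩
      · rw [((mem_suf T).1 hv).1, ((mem_suf T).1 hv').1]
      · have key : ∀ u ∈ suf T {s} 0 q s₀, ∀ v ∈ suf T acc q (n - q) s,
            u ++ v ∈ suf T acc 0 n s₀ := by
          intro u hu v hv
          rw [mem_suf] at hu hv ⊢
          obtain ⟨hu1, s', hs', hu2⟩ := hu
          have : s' = s := hs'
          rw [this] at hu2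
          obtain ⟨hv1, s'', hs'', hv2⟩ := hv
          refine ⟨by rw [List.length_append, hu1, hv1]; omega, s'', hs'', ?_⟩
          rw [path_append]
          refine ⟨s, hu2, ?_⟩
          rw [hu1, zero_add]
          exact hv2
        intro u hu
        exact ⟨key u hu v hv, key u hu v' hv'⟩

/-- an additive weight of words -/
def wt (c : ℕ → ℕ) : ℕ → List Bool → ℕ
  | _, [] => 0
  | q, b :: l => (if b then c q else 0) + wt c (q + 1) l

theorem wt_append (c : ℕ → ℕ) (u v : List Bool) : ∀ q,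
    wt c q (u ++ v) = wt c q u + wt c (q + u.length) v := by
  induction u with
  | nil => intro q; simp [wt]
  | cons b u ih =>
    intro q
    simp only [List.cons_append, wt, ih, List.length_cons]
    have e : q + 1 + u.length = q + (u.length + 1) := by omega
    rw [e]
    ring

theorem wt_ofFn (c : ℕ → ℕ) : ∀ (n : ℕ) (g : Fin n → Bool) (q : ℕ),
    wt c q (List.ofFn g) = ∑ i : Fin n, if g i then c (q + i) else 0 := by
  intro n
  induction n with
  | zero => intro g q; simp [wt]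
  | succ n ih =>
    intro g q
    rw [List.ofFn_succ, Fin.sum_univ_succ]
    simp only [wt, ih]
    congr 1
    refine Finset.sum_congr rfl fun i _ => ?_
    have e : q + 1 + (i : ℕ) = q + ((i.succ : Fin (n + 1)) : ℕ) := by
      rw [Fin.val_succ]; omega
    rw [e]

/-- a box of dimension `k` has `2 ^ k` pairs with the same sum -/
theorem box_pairs (c : ℕ → ℕ) : ∀ (k : ℕ) (W : Finset (List Bool)), Box k W →
    ∃ (N : ℕ) (Z : Finset (List Bool × List Bool)), 2 ^ k ≤ Z.card ∧
      ∀ z ∈ Z, z.1 ∈ W ∧ z.2 ∈ W ∧ wt c 0 z.1 + wt c 0 z.2 = N := by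
  intro k
  induction k with
  | zero =>
    rintro W ⟨u, hu⟩
    refine ⟨wt c 0 u + wt c 0 u, {(u, u)}, by simp, ?_⟩
    intro z hz
    rw [Finset.mem_singleton] at hz
    rw [hz]
    exact ⟨hu, hu, rfl⟩
  | succ k ih =>
    rintro W ⟨q, P, hP, hbox, v, v', hne, hlen, hW⟩
    classical
    obtain ⟨N, Z, hZ, hZ'⟩ := ih P hbox
    refine ⟨N + wt c q v + wt c q v', Z.image (fun z => (z.1 ++ v, z.2 ++ v')) ∪
      Z.image (fun z => (z.1 ++ v', z.2 ++ v)), ?_, ?_⟩
    · rw [Finset.card_union_of_disjoint, Finset.card_image_of_injective,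
        Finset.card_image_of_injective]
      · rw [pow_succ]; omega
      · intro z z' h
        simp only [Prod.mk.injEq, List.append_cancel_right_eq] at h
        exact Prod.ext h.1 h.2
      · intro z z' h
        simp only [Prod.mk.injEq, List.append_cancel_right_eq] at h
        exact Prod.ext h.1 h.2
      · rw [Finset.disjoint_left]
        intro y h1 h2
        rw [Finset.mem_image] at h1 h2
        obtain ⟨z, hz, rfl⟩ := h1
        obtain ⟨z', hz', h⟩ := h2
        rw [Prod.mk.injEq] at h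
        have l1 := hP _ (hZ' z hz).1
        have l2 := hP _ (hZ' z' hz').1
        have := (List.append_inj h.1 (by rw [l1, l2])).2
        exact hne this.symm
    · intro y hy
      rw [Finset.mem_union, Finset.mem_image, Finset.mem_image] at hy
      rcases hy with ⟨z, hz, rfl⟩ | ⟨z, hz, rfl⟩
      · obtain ⟨h1, h2, h3⟩ := hZ' z hz
        refine ⟨(hW _ h1).1, (hW _ h2).2, ?_⟩
        simp only [wt_append, zero_add]
        rw [hP _ h1, hP _ h2, ← h3]
        ring
      · obtain ⟨h1, h2, h3⟩ := hZ' z hz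
        refine ⟨(hW _ h1).2, (hW _ h2).1, ?_⟩
        simp only [wt_append, zero_add]
        rw [hP _ h1, hP _ h2, ← h3]
        ring

/-! ### numbers -/

theorem natcard_coe' {α : Type} (s : Finset α) : Nat.card {l // l ∈ s} = s.card := by
  rw [Nat.card_eq_fintype_card, Fintype.card_coe]

theorem sum_testBit (n : ℕ) : ∀ m : ℕ,
    ∑ j : Fin m, (if n.testBit j then 2 ^ (j : ℕ) else 0) = n % 2 ^ m := by
  intro m
  induction m with
  | zero => simp [Nat.mod_one]
  | succ m ih =>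
    rw [Fin.sum_univ_castSucc]
    simp only [Fin.val_castSucc, Fin.val_last]
    rw [ih, mod_two_pow_succ]
    cases n.testBit m <;> simp
    ring

/-- the weights of the letters -/
def wts {m : ℕ} (ord : Equiv.Perm (Fin m)) (p : ℕ) : ℕ :=
  if h : p < m then 2 ^ (ord ⟨p, h⟩ : ℕ) else 0

theorem wt_numBits {m : ℕ} (ord : Equiv.Perm (Fin m)) {n : ℕ} (hn : n < 2 ^ m) :
    wt (wts ord) 0 (numBits ord n) = n := by
  unfold numBits
  rw [wt_ofFn]
  have h1 : ∀ i : Fin m, (if n.testBit (ord i) then wts ord (0 + i) else 0) =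
      if n.testBit (ord i) then 2 ^ (ord i : ℕ) else 0 := by
    intro i
    have : wts ord (0 + i) = 2 ^ (ord i : ℕ) := by
      unfold wts
      rw [dif_pos (by rw [zero_add]; exact i.2)]
      congr 3
      exact Fin.ext (by simp)
    rw [this]
  simp only [h1]
  rw [Equiv.sum_comp ord (fun j : Fin m => if n.testBit j then 2 ^ (j : ℕ) else 0), sum_testBit,
    Nat.mod_eq_of_lt hn]

theorem exists_num {m : ℕ} (ord : Equiv.Perm (Fin m)) (l : List Bool) (hl : l.length = m) :
    ∃ n < 2 ^ m, numBits ord n = l ∧ wt (wts ord) 0 l = n := by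
  have hn : Nat.ofBits (fun t : Fin m => l.getD (ord.symm t) false) < 2 ^ m := Nat.ofBits_lt_two_pow _
  have h1 : numBits ord (Nat.ofBits (fun t : Fin m => l.getD (ord.symm t) false)) = l := by
    apply List.ext_getElem
    · simp [numBits, hl]
    · intro i h1 h2
      simp only [numBits, List.getElem_ofFn]
      rw [Nat.testBit_ofBits_lt _ _ (Fin.is_lt _)]
      simp only [Fin.eta, Equiv.symm_apply_apply]
      rw [List.getD_eq_getElem _ _ h2]
  refine ⟨_, hn, h1, ?_⟩
  have h2 := wt_numBits ord hn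
  rwa [h1] at h2

theorem finite_reps (A : Set ℕ) (n : ℕ) :
    Finite {ab : ℕ × ℕ // ab.1 ∈ A ∧ ab.2 ∈ A ∧ ab.1 + ab.2 = n} := by
  have : {ab : ℕ × ℕ | ab.1 ∈ A ∧ ab.2 ∈ A ∧ ab.1 + ab.2 = n} ⊆
      ((Finset.range (n + 1) ×ˢ Finset.range (n + 1) : Finset (ℕ × ℕ)) : Set (ℕ × ℕ)) := by
    rintro ⟨a, b⟩ ⟨-, -, h⟩
    simp only [Finset.coe_product, Finset.coe_range, Set.mem_prod, Set.mem_Iio]
    simp only at h
    omega
  exact (Set.Finite.subset (Finset.finite_toSet _) this).to_subtype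

theorem nobdd_reps (A : Set ℕ) (β m t : ℕ) (hA : SetNObdd β m A)
    (h : (1 + β * m) ^ t < Nat.card {a : ℕ // a ∈ A ∧ a < 2 ^ m}) :
    ∃ n < 2 ^ (m + 1), 2 ^ (t + 1) ≤ reps A n := by
  classical
  obtain ⟨ord, σ, T, s₀, acc, hT, hR⟩ := hA
  set W := suf T acc 0 m s₀ with hWdef
  have hmem : ∀ n < 2 ^ m, n ∈ A ↔ numBits ord n ∈ W := by
    intro n hn
    rw [hR n hn, hWdef, mem_suf]
    constructor
    · intro h
      exact ⟨by simp [numBits], h⟩
    · exact fun h => h.2
  -- the number of words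
  have hcard : Nat.card {a : ℕ // a ∈ A ∧ a < 2 ^ m} ≤ W.card := by
    rw [← natcard_coe' W]
    haveI : Finite {l // l ∈ W} := inferInstance
    refine Nat.card_le_card_of_injective
      (fun a : {a : ℕ // a ∈ A ∧ a < 2 ^ m} =>
        (⟨numBits ord a.1, (hmem a.1 a.2.2).1 a.2.1⟩ : {l // l ∈ W})) ?_
    intro a b hab
    have h1 := congrArg Subtype.val hab
    apply Subtype.ext
    rw [← wt_numBits ord a.2.2, ← wt_numBits ord b.2.2]
    exact congrArg _ h1
  have hbox : Box (t + 1) W := by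
    by_contra hb
    have := box_bound T β hT s₀ t m acc hb
    rw [← hWdef] at this
    omega
  obtain ⟨N, Z, hZ, hZ'⟩ := box_pairs (wts ord) (t + 1) W hbox
  have hlen : ∀ l ∈ W, l.length = m := fun l hl => ((mem_suf T).1 hl).1
  have hword : ∀ l ∈ W, wt (wts ord) 0 l ∈ A ∧ wt (wts ord) 0 l < 2 ^ m ∧
      numBits ord (wt (wts ord) 0 l) = l := by
    intro l hl
    obtain ⟨n, hn, h1, h2⟩ := exists_num ord l (hlen l hl)
    rw [h2]
    refine ⟨?_, hn, h1⟩
    rw [hmem n hn, h1]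
    exact hl
  refine ⟨N, ?_, ?_⟩
  · have hne : Z.Nonempty := by
      rw [← Finset.card_pos]
      exact lt_of_lt_of_le (by positivity) hZ
    obtain ⟨z, hz⟩ := hne
    obtain ⟨h1, h2, h3⟩ := hZ' z hz
    have h4 := (hword _ h1).2.1
    have h5 := (hword _ h2).2.1
    rw [pow_succ]
    omega
  · refine le_trans hZ ?_
    rw [← natcard_coe' Z]
    unfold reps
    haveI := finite_reps A N
    refine Nat.card_le_card_of_injective
      (fun z : {z // z ∈ Z} => (⟨(wt (wts ord) 0 z.1.1, wt (wts ord) 0 z.1.2),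
        (hword _ (hZ' z.1 z.2).1).1, (hword _ (hZ' z.1 z.2).2.1).1, (hZ' z.1 z.2).2.2⟩ :
        {ab : ℕ × ℕ // ab.1 ∈ A ∧ ab.2 ∈ A ∧ ab.1 + ab.2 = N})) ?_
    intro z z' h
    have h1 := congrArg Subtype.val h
    simp only [Prod.mk.injEq] at h1
    apply Subtype.ext
    apply Prod.ext
    · rw [← (hword _ (hZ' z.1 z.2).1).2.2, ← (hword _ (hZ' z'.1 z'.2).1).2.2, h1.1]
    · rw [← (hword _ (hZ' z.1 z.2).2.1).2.2, ← (hword _ (hZ' z'.1 z'.2).2.1).2.2, h1.2]

theorem obdd_reps (A : Set ℕ) (w m t : ℕ) (hA : SetObdd w m A)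
    (h : (1 + 2 * w * m) ^ t < Nat.card {a : ℕ // a ∈ A ∧ a < 2 ^ m}) :
    ∃ n < 2 ^ (m + 1), 2 ^ (t + 1) ≤ reps A n :=
  nobdd_reps A (2 * w) m t (setNObdd_of_setObdd hA) h

/-- the asymptotic form -/
theorem obdd_reps_asy (t : ℕ) (c c' d : ℝ) (ht : 1 ≤ t) (hc' : 0 < c') (hc : c < d / t) :
    ∃ m₀ : ℕ, ∀ (m w : ℕ) (A : Set ℕ), m₀ ≤ m → SetObdd w m A →
      (∀ n < 2 ^ (m + 1), reps A n < 2 ^ (t + 1)) →
      c' * ((2 : ℝ) ^ m) ^ d ≤ Nat.card {a : ℕ // a ∈ A ∧ a < 2 ^ m} →
      ((2 : ℝ) ^ m) ^ c < w := by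
  have ht0 : (0 : ℝ) < t := by exact_mod_cast ht
  set η : ℝ := min 1 c' / 2 with hη
  have hmin : 0 < min 1 c' := lt_min one_pos hc'
  have hη0 : 0 < η := by positivity
  have hη1 : η ≤ 1 := by
    have := min_le_left 1 c'
    rw [hη]; linarith
  have hηc : η < c' := by
    have := min_le_right 1 c'
    rw [hη]; linarith
  obtain ⟨m₀, hm₀⟩ := asy 3 c (d / t) η hη0 hc
  refine ⟨max m₀ 1, fun m w A hm hA hr hcard => ?_⟩
  by_contra hcon
  rw [not_lt] at hcon
  have hm1 : 1 ≤ m := (le_max_right _ _).trans hm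
  have hw1 : 1 ≤ w := by
    obtain ⟨-, -, s, -⟩ := hA
    have := s.2
    omega
  have h1 : Nat.card {a : ℕ // a ∈ A ∧ a < 2 ^ m} ≤ (1 + 2 * w * m) ^ t := by
    by_contra hlt
    rw [not_le] at hlt
    obtain ⟨n, hn, h2⟩ := obdd_reps A w m t hA hlt
    have := hr n hn
    omega
  have h2 := hm₀ m w ((le_max_left _ _).trans hm) hcon
  have h3 : (1 : ℝ) + (d / t) = 1 + d / t := rfl
  have hpos : (0 : ℝ) < 2 ^ m := by positivity
  have h4 : (3 : ℝ) * (w * m) ≤ η * ((2 : ℝ) ^ m) ^ (d / t) := by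
    rw [Real.rpow_add hpos, Real.rpow_one] at h2
    have h5 : (3 * ((w : ℝ) * m)) * 2 ^ m ≤ (η * ((2 : ℝ) ^ m) ^ (d / t)) * 2 ^ m := by
      push_cast at h2
      linarith
    exact le_of_mul_le_mul_right h5 hpos
  have h5 : ((1 + 2 * w * m : ℕ) : ℝ) ≤ η * ((2 : ℝ) ^ m) ^ (d / t) := by
    refine le_trans ?_ h4
    have : 1 + 2 * w * m ≤ 3 * (w * m) := by
      have : 1 ≤ w * m := Nat.mul_pos hw1 hm1
      nlinarith
    exact_mod_cast this
  have h6 : ((Nat.card {a : ℕ // a ∈ A ∧ a < 2 ^ m} : ℕ) : ℝ) ≤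
      (η * ((2 : ℝ) ^ m) ^ (d / t)) ^ t := by
    calc ((Nat.card {a : ℕ // a ∈ A ∧ a < 2 ^ m} : ℕ) : ℝ) ≤ ((1 + 2 * w * m : ℕ) : ℝ) ^ t := by
          exact_mod_cast h1
      _ ≤ _ := pow_le_pow_left₀ (Nat.cast_nonneg _) h5 t
  have h7 : (η * ((2 : ℝ) ^ m) ^ (d / t)) ^ t = η ^ t * ((2 : ℝ) ^ m) ^ d := by
    rw [mul_pow, ← Real.rpow_natCast (((2 : ℝ) ^ m) ^ (d / t)), ← Real.rpow_mul hpos.le,
      div_mul_cancel₀ _ ht0.ne']
  have h8 : η ^ t ≤ η := by
    calc η ^ t ≤ η ^ 1 := pow_le_pow_of_le_one hη0.le hη1 ht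
      _ = η := pow_one η
  have h9 : (0 : ℝ) < ((2 : ℝ) ^ m) ^ d := by positivity
  rw [h7] at h6
  have h10 : η ^ t * ((2 : ℝ) ^ m) ^ d < c' * ((2 : ℝ) ^ m) ^ d :=
    mul_lt_mul_of_pos_right (lt_of_le_of_lt h8 hηc) h9
  linarith

end Pool.Agent.TH454.BW
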