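import Pool.Agent.TH454.BW.RepSharp

/-!
# The density condition of the problem
-/

set_option autoImplicit false

namespace Pool.Agent.TH454.BW

open Pool.Agent.H607R2.BW Filter

theorem force_width (g : ℕ → ℝ) (A : Set ℕ) (t : ℕ) (c : ℝ) (ht : 1 ≤ t) (hc : c < 1 / (2 * t))
    (hg : Tendsto g atTop atTop) (hg' : ∀ ε : ℝ, 0 < ε → ∀ᶠ N : ℕ in atTop, g N ≤ (N : ℝ) ^ ε)
    (hA : ∃ C : ℝ, 0 < C ∧ ∀ᶠ N : ℕ in atTop,
      (N : ℝ) ^ (1 / 2 : ℝ) / g N ≤ C * Nat.card {a : ℕ // a ∈ A ∧ 1 ≤ a ∧ a ≤ N})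
    (hr : ∀ n, reps A n < 2 ^ (t + 1)) :
    ∀ᶠ m : ℕ in atTop, ∀ w : ℕ, SetObdd w m A → ((2 : ℝ) ^ m) ^ c < w := by
  have ht0 : (0 : ℝ) < t := by exact_mod_cast ht
  obtain ⟨C, hC, hA⟩ := hA
  -- choose `ε`
  obtain ⟨ε, hε, hε2, hcε⟩ : ∃ ε : ℝ, 0 < ε ∧ ε ≤ 1 / 2 ∧ c < (1 / 2 - ε) / t := by
    have h1 : 0 < 1 / (2 * t) - c := by linarith
    refine ⟨min (1 / 2) (t * (1 / (2 * t) - c) / 2), ?_, min_le_left _ _, ?_⟩
    · exact lt_min (by norm_num) (by positivity)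
    · have h2 : min (1 / 2) (t * (1 / (2 * t) - c) / 2) ≤ t * (1 / (2 * t) - c) / 2 :=
        min_le_right _ _
      rw [lt_div_iff₀ ht0]
      have h3 : (t : ℝ) * (1 / (2 * t) - c) = 1 / 2 - c * t := by
        field_simp
      rw [h3] at h2 ⊢
      have h4 : 0 < (t : ℝ) * (1 / (2 * t) - c) := by positivity
      rw [h3] at h4
      linarith
  obtain ⟨m₀, hm₀⟩ := obdd_reps_asy t c (1 / (2 * C)) (1 / 2 - ε) ht (by positivity) hcε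
  have hev := (hA.and ((hg' ε hε).and (hg.eventually_gt_atTop 0)))
  obtain ⟨N₀, hN₀⟩ := eventually_atTop.1 hev
  rw [eventually_atTop]
  refine ⟨max m₀ (N₀ + 1), fun m hm w hw => ?_⟩
  have hm1 : N₀ + 1 ≤ m := (le_max_right _ _).trans hm
  refine hm₀ m w A ((le_max_left _ _).trans hm) hw (fun n _ => hr n) ?_
  obtain ⟨k, rfl⟩ : ∃ k, m = k + 1 := ⟨m - 1, by omega⟩
  have hk : N₀ ≤ 2 ^ k := by
    have : k < 2 ^ k := Nat.lt_two_pow_self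
    omega
  obtain ⟨h1, h2, h3⟩ := hN₀ (2 ^ k) hk
  have hNpos : (0 : ℝ) < ((2 ^ k : ℕ) : ℝ) := by positivity
  -- the number of elements
  have h4 : Nat.card {a : ℕ // a ∈ A ∧ 1 ≤ a ∧ a ≤ 2 ^ k} ≤
      Nat.card {a : ℕ // a ∈ A ∧ a < 2 ^ (k + 1)} := by
    have : Finite {a : ℕ // a ∈ A ∧ a < 2 ^ (k + 1)} := by
      apply Set.Finite.to_subtype
      apply Set.Finite.subset (Set.finite_lt_nat (2 ^ (k + 1)))
      intro a ha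
      exact ha.2
    refine Nat.card_le_card_of_injective (fun a => ⟨a.1, a.2.1, ?_⟩) ?_
    · have h5 := a.2.2.2
      have h6 : 0 < 2 ^ k := by positivity
      rw [pow_succ]
      omega
    · intro a b h
      have h5 := congrArg Subtype.val h
      exact Subtype.ext h5
  have h5 : ((2 ^ k : ℕ) : ℝ) ^ (1 / 2 - ε) ≤ ((2 ^ k : ℕ) : ℝ) ^ (1 / 2 : ℝ) / g (2 ^ k) := by
    rw [le_div_iff₀ h3]
    calc ((2 ^ k : ℕ) : ℝ) ^ (1 / 2 - ε) * g (2 ^ k)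
        ≤ ((2 ^ k : ℕ) : ℝ) ^ (1 / 2 - ε) * ((2 ^ k : ℕ) : ℝ) ^ ε :=
          mul_le_mul_of_nonneg_left h2 (by positivity)
      _ = ((2 ^ k : ℕ) : ℝ) ^ (1 / 2 : ℝ) := by
          rw [← Real.rpow_add hNpos]; congr 1; ring
  have h6 : ((2 : ℝ) ^ (k + 1)) ^ (1 / 2 - ε) ≤ 2 * ((2 ^ k : ℕ) : ℝ) ^ (1 / 2 - ε) := by
    have e : ((2 : ℝ) ^ (k + 1)) = 2 * ((2 ^ k : ℕ) : ℝ) := by push_cast; ring
    rw [e, Real.mul_rpow (by norm_num) hNpos.le]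
    apply mul_le_mul_of_nonneg_right _ (by positivity)
    calc (2 : ℝ) ^ (1 / 2 - ε) ≤ 2 ^ (1 : ℝ) :=
          Real.rpow_le_rpow_of_exponent_le (by norm_num) (by linarith)
      _ = 2 := Real.rpow_one 2
  have h7 : ((Nat.card {a : ℕ // a ∈ A ∧ 1 ≤ a ∧ a ≤ 2 ^ k} : ℕ) : ℝ) ≤
      Nat.card {a : ℕ // a ∈ A ∧ a < 2 ^ (k + 1)} := by exact_mod_cast h4
  have h8 : ((2 : ℝ) ^ (k + 1)) ^ (1 / 2 - ε) ≤
      2 * (C * Nat.card {a : ℕ // a ∈ A ∧ a < 2 ^ (k + 1)}) := by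
    have := mul_le_mul_of_nonneg_left h7 hC.le
    linarith
  rw [one_div, inv_mul_le_iff₀ (by positivity)]
  linarith

end Pool.Agent.TH454.BW
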