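import Pool.Agent.TH454.BW.Rep

/-!
# Sets with few representations which are decided by ordered binary decision diagrams
-/

set_option autoImplicit false

namespace Pool.Agent.TH454.BW

open Pool.Agent.H607R2.BW

/-- the numbers below `2 ^ (L * t)` all of whose digits in base `2 ^ L` are in `S` -/
def digitSet (L t : ℕ) (S : Finset ℕ) : Set ℕ :=
  {n | n < 2 ^ (L * t) ∧ ∀ i < t, n / 2 ^ (L * i) % 2 ^ L ∈ S}

theorem dig_testBit {L i j n : ℕ} (hj : j < L) :
    (n / 2 ^ (L * i) % 2 ^ L).testBit j = n.testBit (L * i + j) := by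
  rw [Nat.testBit_mod_two_pow, Nat.testBit_div_two_pow, add_comm j]
  simp [hj]

theorem dig_eq {L i e n : ℕ} (he : e < 2 ^ L) (h : ∀ j < L, e.testBit j = n.testBit (L * i + j)) :
    n / 2 ^ (L * i) % 2 ^ L = e := by
  apply Nat.eq_of_testBit_eq
  intro j
  by_cases hj : j < L
  · rw [dig_testBit hj, h j hj]
  · have h1 : e.testBit j = false := Nat.testBit_lt_two_pow
      (lt_of_lt_of_le he (Nat.pow_le_pow_right (by norm_num) (by omega)))
    rw [h1, Nat.testBit_mod_two_pow]
    simp [hj]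

open Classical in
/-- transitions of the machine which decides `digitSet L t S` -/
noncomputable def digStep (L t : ℕ) (S : Finset ℕ) (q : ℕ) : Option S → Bool → Option S
  | none, _ => none
  | some e, b =>
    if q < L * t then
      if h : ∃ e' : S, (∀ j < q % L, (e' : ℕ).testBit j = (e : ℕ).testBit j) ∧
          (e' : ℕ).testBit (q % L) = b then some h.choose else none
    else if b then none else some e

/-- invariant of this machine -/
def digInv (L t : ℕ) (S : Finset ℕ) (n q : ℕ) : Option S → Prop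
  | none => n ∉ digitSet L t S
  | some e => (∀ i < t, L * i + L ≤ q → n / 2 ^ (L * i) % 2 ^ L ∈ S) ∧
      (q < L * t → ∀ j < q % L, (e : ℕ).testBit j = n.testBit (L * (q / L) + j)) ∧
      (∀ j, L * t ≤ j → j < q → n.testBit j = false)

theorem digInv_step {L t : ℕ} {S : Finset ℕ} (hL : 1 ≤ L) (hS : ∀ s ∈ S, s < 2 ^ L) (n q : ℕ)
    (s : Option S) (h : digInv L t S n q s) :
    digInv L t S n (q + 1) (digStep L t S q s (n.testBit q)) := by
  classical
  match s, h with
  | none, h => exact h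
  | some e, ⟨h1, h2, h3⟩ =>
    have hdm : L * (q / L) + q % L = q := Nat.div_add_mod q L
    have hml : q % L < L := Nat.mod_lt _ hL
    by_cases hq : q < L * t
    · have hqt : q / L < t := Nat.div_lt_of_lt_mul hq
      by_cases hex : ∃ e' : S, (∀ j < q % L, (e' : ℕ).testBit j = (e : ℕ).testBit j) ∧
          (e' : ℕ).testBit (q % L) = n.testBit q
      · have hstep : digStep L t S q (some e) (n.testBit q) = some hex.choose := by
          simp only [digStep]
          rw [if_pos hq, dif_pos hex]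
        rw [hstep]
        obtain ⟨g1, g2⟩ := hex.choose_spec
        set e' := hex.choose with he'
        have hall : ∀ j ≤ q % L, (e' : ℕ).testBit j = n.testBit (L * (q / L) + j) := by
          intro j hj
          rcases Nat.lt_or_eq_of_le hj with hj | hj
          · rw [g1 j hj, h2 hq j hj]
          · rw [hj, g2, hdm]
        refine ⟨?_, ?_, ?_⟩
        · intro i hi hiq
          rcases Nat.lt_or_ge q (L * i + L) with hlt | hge
          · have hqe : q = L * i + (L - 1) := by omega
            have hdiv : q / L = i := by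
              rw [hqe, Nat.mul_add_div (by omega), Nat.div_eq_of_lt (by omega), add_zero]
            have hmod : q % L = L - 1 := by
              rw [hdiv] at hdm
              omega
            have : n / 2 ^ (L * i) % 2 ^ L = e' := by
              apply dig_eq (hS _ e'.2)
              intro j hj
              have := hall j (by omega)
              rwa [hdiv] at this
            rw [this]
            exact e'.2
          · exact h1 i hi hge
        · intro hq1 j hj
          rcases Nat.lt_or_ge (q % L + 1) L with hlt | hge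
          · have hq' : q + 1 = L * (q / L) + (q % L + 1) := by omega
            have hdiv : (q + 1) / L = q / L := by
              rw [hq', Nat.mul_add_div (by omega), Nat.div_eq_of_lt hlt, add_zero]
            have hmod : (q + 1) % L = q % L + 1 := by
              rw [hq', Nat.mul_add_mod, Nat.mod_eq_of_lt hlt]
            rw [hdiv]
            rw [hmod] at hj
            exact hall j (by omega)
          · have hq' : q + 1 = L * (q / L + 1) := by
              rw [mul_add, mul_one]; omega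
            rw [hq', Nat.mul_mod_right] at hj
            omega
        · intro j hj hj'
          omega
      · have hstep : digStep L t S q (some e) (n.testBit q) = none := by
          simp only [digStep]
          rw [if_pos hq, dif_neg hex]
        rw [hstep]
        intro hn
        apply hex
        refine ⟨⟨_, hn.2 (q / L) hqt⟩, ?_, ?_⟩
        · intro j hj
          simp only
          rw [dig_testBit (by omega), h2 hq j hj]
        · simp only
          rw [dig_testBit hml, hdm]
    · cases hb : n.testBit q with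
      | true =>
        have hstep : digStep L t S q (some e) true = none := by
          simp only [digStep]
          rw [if_neg hq]
          simp
        rw [hstep]
        intro hn
        have h4 : n.testBit q = false := Nat.testBit_lt_two_pow
          (lt_of_lt_of_le hn.1 (Nat.pow_le_pow_right (by norm_num) (by omega)))
        rw [h4] at hb
        exact absurd hb (by decide)
      | false =>
        have hstep : digStep L t S q (some e) false = some e := by
          simp only [digStep]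
          rw [if_neg hq]
          simp
        rw [hstep]
        refine ⟨?_, ?_, ?_⟩
        · intro i hi _
          apply h1 i hi
          have : L * (i + 1) ≤ L * t := Nat.mul_le_mul_left _ hi
          rw [mul_add, mul_one] at this
          omega
        · intro hq1
          omega
        · intro j hj hj'
          rcases Nat.lt_or_ge j q with hlt | hge
          · exact h3 j hj hlt
          · have : j = q := by omega
            rw [this]; exact hb

theorem setObdd_of {m w : ℕ} {A : Set ℕ} (σ : Type) [Fintype σ] (hw : Fintype.card σ = w)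
    (ord : Equiv.Perm (Fin m)) (δ : ℕ → σ → Bool → σ) (s : σ) (acc : Set σ)
    (h : ∀ n < 2 ^ m, n ∈ A ↔ run δ 0 s (numBits ord n) ∈ acc) : SetObdd w m A := by
  subst hw
  let e : σ ≃ Fin (Fintype.card σ) := Fintype.equivFin σ
  refine ⟨ord, fun q s a => e (δ q (e.symm s) a), e s, e '' acc, fun n hn => ?_⟩
  rw [run_map, h n hn, e.injective.mem_set_image]

theorem digitSet_obdd {L t m : ℕ} {S : Finset ℕ} (hL : 1 ≤ L) (hm : L * t ≤ m)
    (hS : ∀ s ∈ S, s < 2 ^ L) (hne : S.Nonempty) :
    SetObdd (S.card + 1) m (digitSet L t S) := by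
  classical
  obtain ⟨e₀, he₀⟩ := hne
  refine setObdd_of (Option S) (by simp) (Equiv.refl _) (digStep L t S) (some ⟨e₀, he₀⟩)
    {s | s ≠ none} ?_
  intro n hn
  have hinv : digInv L t S n (0 + m)
      (run (digStep L t S) 0 (some ⟨e₀, he₀⟩) (numBits (Equiv.refl (Fin m)) n)) := by
    refine run_inv (digStep L t S) (digInv L t S n) m _ 0 _ ?_ ?_
    · intro i hi s hs
      have := digInv_step hL hS n (0 + i) s hs
      simpa using this
    · refine ⟨?_, ?_, ?_⟩
      · intro i _ hi; omega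
      · intro _ j hj
        simp at hj
      · intro j _ hj; omega
  rw [zero_add] at hinv
  generalize run (digStep L t S) 0 (some ⟨e₀, he₀⟩) (numBits (Equiv.refl (Fin m)) n) = s at hinv ⊢
  match s, hinv with
  | none, h =>
    constructor
    · intro hh; exact absurd hh h
    · intro hh; exact absurd rfl hh
  | some e, ⟨h1, h2, h3⟩ =>
    constructor
    · intro _; simp
    · intro _
      refine ⟨?_, ?_⟩
      · apply Nat.lt_pow_two_of_testBit
        intro j hj
        rcases Nat.lt_or_ge j m with hjm | hjm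
        · exact h3 j hj hjm
        · exact Nat.testBit_lt_two_pow
            (lt_of_lt_of_le hn (Nat.pow_le_pow_right (by norm_num) hjm))
      · intro i hi
        apply h1 i hi
        have : L * (i + 1) ≤ L * t := Nat.mul_le_mul_left _ hi
        rw [mul_add, mul_one] at this
        omega

theorem finFunctionFinEquiv_symm_val {B t : ℕ} (a : Fin (B ^ t)) (i : Fin t) :
    ((finFunctionFinEquiv.symm a i : Fin B) : ℕ) = (a : ℕ) / B ^ (i : ℕ) % B := rfl

theorem dig_sum {L t n : ℕ} (hn : n < 2 ^ (L * t)) :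
    ∑ i : Fin t, n / 2 ^ (L * i) % 2 ^ L * (2 ^ L) ^ (i : ℕ) = n := by
  have hn' : n < (2 ^ L) ^ t := by rwa [← pow_mul]
  have h1 := finFunctionFinEquiv_apply
    (finFunctionFinEquiv.symm (⟨n, hn'⟩ : Fin ((2 ^ L) ^ t)))
  rw [Equiv.apply_symm_apply] at h1
  simp only [finFunctionFinEquiv_symm_val] at h1
  simp only [pow_mul]
  exact h1.symm

theorem dig_ext {L t : ℕ} (f g : Fin t → ℕ) (hf : ∀ i, f i < 2 ^ L) (hg : ∀ i, g i < 2 ^ L)
    (h : ∑ i : Fin t, f i * (2 ^ L) ^ (i : ℕ) = ∑ i : Fin t, g i * (2 ^ L) ^ (i : ℕ)) :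
    ∀ i, f i = g i := by
  have h1 : finFunctionFinEquiv (fun i => (⟨f i, hf i⟩ : Fin (2 ^ L))) =
      finFunctionFinEquiv (fun i => (⟨g i, hg i⟩ : Fin (2 ^ L))) := by
    apply Fin.ext
    rw [finFunctionFinEquiv_apply, finFunctionFinEquiv_apply]
    exact h
  have h2 := finFunctionFinEquiv.injective h1
  intro i
  have := congrFun h2 i
  simpa using this

theorem digitSet_card {L t m : ℕ} {S : Finset ℕ} (hm : L * t ≤ m) (hS : ∀ s ∈ S, s < 2 ^ L) :
    S.card ^ t ≤ Nat.card {a : ℕ // a ∈ digitSet L t S ∧ a < 2 ^ m} := by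
  classical
  have hF : ∀ f : Fin t → S, ∀ i : Fin t,
      (finFunctionFinEquiv (fun i => (⟨(f i : ℕ), hS _ (f i).2⟩ : Fin (2 ^ L))) : ℕ) /
        2 ^ (L * i) % 2 ^ L = f i := by
    intro f i
    have := finFunctionFinEquiv_symm_val
      (finFunctionFinEquiv (fun i => (⟨(f i : ℕ), hS _ (f i).2⟩ : Fin (2 ^ L)))) i
    rw [Equiv.symm_apply_apply] at this
    simp only [pow_mul]
    exact this.symm
  have hlt : ∀ f : Fin t → S,
      (finFunctionFinEquiv (fun i => (⟨(f i : ℕ), hS _ (f i).2⟩ : Fin (2 ^ L))) : ℕ) <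
        2 ^ (L * t) := by
    intro f
    rw [pow_mul]
    exact Fin.is_lt _
  have hmem : ∀ f : Fin t → S,
      (finFunctionFinEquiv (fun i => (⟨(f i : ℕ), hS _ (f i).2⟩ : Fin (2 ^ L))) : ℕ) ∈
        digitSet L t S := by
    intro f
    refine ⟨hlt f, ?_⟩
    intro i hi
    rw [hF f ⟨i, hi⟩]
    exact (f ⟨i, hi⟩).2
  have hlt' : ∀ f : Fin t → S,
      (finFunctionFinEquiv (fun i => (⟨(f i : ℕ), hS _ (f i).2⟩ : Fin (2 ^ L))) : ℕ) < 2 ^ m :=
    fun f => lt_of_lt_of_le (hlt f) (Nat.pow_le_pow_right (by norm_num) hm)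
  have : Finite {a : ℕ // a ∈ digitSet L t S ∧ a < 2 ^ m} := by
    apply Set.Finite.to_subtype
    apply Set.Finite.subset (Set.finite_lt_nat (2 ^ m))
    intro a ha
    exact ha.2
  have hcard : S.card ^ t = Nat.card (Fin t → S) := by
    rw [Nat.card_eq_fintype_card, Fintype.card_fun, Fintype.card_fin, Fintype.card_coe]
  rw [hcard]
  refine Nat.card_le_card_of_injective (fun f => ⟨_, hmem f, hlt' f⟩) ?_
  intro f g h
  have h1 := congrArg Subtype.val h
  simp only at h1
  funext i
  apply Subtype.ext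
  rw [← hF f i, ← hF g i, h1]

theorem digitSet_reps {L t : ℕ} {S : Finset ℕ} (hL : 1 ≤ L) (hS : ∀ s ∈ S, s < 2 ^ (L - 1))
    (hsid : ∀ a ∈ S, ∀ b ∈ S, ∀ c ∈ S, ∀ d ∈ S, a + b = c + d → a = c ∨ a = d) (N : ℕ) :
    reps (digitSet L t S) N ≤ 2 ^ t := by
  classical
  have hpow : 2 ^ L = 2 * 2 ^ (L - 1) := by
    rw [← pow_succ']; congr 1; omega
  have hadd : ∀ a b c d : ℕ, a ∈ digitSet L t S → b ∈ digitSet L t S → c ∈ digitSet L t S →
      d ∈ digitSet L t S → a + b = c + d → ∀ i : Fin t,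
      a / 2 ^ (L * i) % 2 ^ L + b / 2 ^ (L * i) % 2 ^ L =
        c / 2 ^ (L * i) % 2 ^ L + d / 2 ^ (L * i) % 2 ^ L := by
    intro a b c d ha hb hc hd h
    refine dig_ext (L := L) (fun i : Fin t => a / 2 ^ (L * i) % 2 ^ L + b / 2 ^ (L * i) % 2 ^ L)
      (fun i : Fin t => c / 2 ^ (L * i) % 2 ^ L + d / 2 ^ (L * i) % 2 ^ L) ?_ ?_ ?_
    · intro i
      have h1 := hS _ (ha.2 i i.2)
      have h2 := hS _ (hb.2 i i.2)
      omega
    · intro i
      have h1 := hS _ (hc.2 i i.2)
      have h2 := hS _ (hd.2 i i.2)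
      omega
    · simp only [add_mul, Finset.sum_add_distrib]
      rw [dig_sum ha.1, dig_sum hb.1, dig_sum hc.1, dig_sum hd.1, h]
  unfold reps
  by_cases hempty : Nonempty {ab : ℕ × ℕ // ab.1 ∈ digitSet L t S ∧ ab.2 ∈ digitSet L t S ∧
      ab.1 + ab.2 = N}
  · obtain ⟨⟨⟨a₀, b₀⟩, ha₀, hb₀, h₀⟩⟩ := hempty
    simp only at ha₀ hb₀ h₀
    have hcard : 2 ^ t = Nat.card (Fin t → Bool) := by
      rw [Nat.card_eq_fintype_card, Fintype.card_fun, Fintype.card_fin, Fintype.card_bool]
    rw [hcard]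
    refine Nat.card_le_card_of_injective
      (fun z (i : Fin t) => decide ((z.1.1 : ℕ) / 2 ^ (L * i) % 2 ^ L = a₀ / 2 ^ (L * i) % 2 ^ L))
      ?_
    intro z z' h
    have hdig : ∀ z : {ab : ℕ × ℕ // ab.1 ∈ digitSet L t S ∧ ab.2 ∈ digitSet L t S ∧
        ab.1 + ab.2 = N}, ∀ i : Fin t,
        (z.1.1 : ℕ) / 2 ^ (L * i) % 2 ^ L = a₀ / 2 ^ (L * i) % 2 ^ L ∨
        (z.1.1 : ℕ) / 2 ^ (L * i) % 2 ^ L = b₀ / 2 ^ (L * i) % 2 ^ L := by
      intro z i
      exact hsid _ (z.2.1.2 i i.2) _ (z.2.2.1.2 i i.2) _ (ha₀.2 i i.2) _ (hb₀.2 i i.2)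
        (hadd _ _ _ _ z.2.1 z.2.2.1 ha₀ hb₀ (z.2.2.2.trans h₀.symm) i)
    have hsame : ∀ i : Fin t, (z.1.1 : ℕ) / 2 ^ (L * i) % 2 ^ L =
        (z'.1.1 : ℕ) / 2 ^ (L * i) % 2 ^ L := by
      intro i
      have hi := congrFun h i
      simp only [decide_eq_decide] at hi
      by_cases hc : (z.1.1 : ℕ) / 2 ^ (L * i) % 2 ^ L = a₀ / 2 ^ (L * i) % 2 ^ L
      · rw [hc, hi.1 hc]
      · have hc' : ¬ (z'.1.1 : ℕ) / 2 ^ (L * i) % 2 ^ L = a₀ / 2 ^ (L * i) % 2 ^ L :=
          fun h' => hc (hi.2 h')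
        rw [(hdig z i).resolve_left hc, (hdig z' i).resolve_left hc']
    have h1 : z.1.1 = z'.1.1 := by
      rw [← dig_sum z.2.1.1, ← dig_sum z'.2.1.1]
      exact Finset.sum_congr rfl fun i _ => by rw [hsame i]
    apply Subtype.ext
    apply Prod.ext h1
    have h2 := z.2.2.2
    have h3 := z'.2.2.2
    omega
  · rw [not_nonempty_iff] at hempty
    rw [Nat.card_of_isEmpty]
    exact Nat.zero_le _

theorem rep_sharp (t m : ℕ) (ht : 1 ≤ t) (hm : 8 * t ≤ m) :
    ∃ (w : ℕ) (A : Set ℕ), (∀ a ∈ A, a < 2 ^ m) ∧ SetObdd w m A ∧ (∀ n, reps A n ≤ 2 ^ t) ∧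
      (w : ℝ) ≤ ((2 : ℝ) ^ m) ^ (1 / (2 * t) : ℝ) ∧
      ((2 : ℝ) ^ m) ^ (1 / 2 : ℝ) ≤ 16 ^ t * Nat.card {a : ℕ // a ∈ A ∧ a < 2 ^ m} := by
  have h8 : 8 ≤ m / t := (Nat.le_div_iff_mul_le ht).2 hm
  set l := (m / t - 4) / 2 with hl
  have hl2 : 2 ≤ l := by omega
  have hLm : (2 * l + 4) * t ≤ m :=
    le_trans (Nat.mul_le_mul_right _ (by omega)) (Nat.div_mul_le_self m t)
  have hmL : m ≤ (2 * l + 6) * t := by
    have h1 := Nat.div_add_mod m t
    have h2 : m % t < t := Nat.mod_lt _ ht
    have h3 : t * (m / t + 1) ≤ t * (2 * l + 6) := Nat.mul_le_mul_left _ (by omega)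
    rw [mul_comm (2 * l + 6) t]
    rw [mul_add, mul_one] at h3
    omega
  obtain ⟨p, hp, hp1, hp2⟩ := Nat.exists_prime_lt_and_le_two_mul (2 ^ (l - 1)) (by positivity)
  have hpt : 2 * 2 ^ (l - 1) = 2 ^ l := by
    rw [← pow_succ']; congr 1; omega
  rw [hpt] at hp2
  have hp4 : 2 ≤ 2 ^ (l - 1) := by
    calc 2 = 2 ^ 1 := by norm_num
      _ ≤ 2 ^ (l - 1) := Nat.pow_le_pow_right (by norm_num) (by omega)
  have hpne : p ≠ 2 := by omega
  have hsq : 4 * (p * p) ≤ 2 ^ (2 * l + 2) := by
    calc 4 * (p * p) ≤ 4 * (2 ^ l * 2 ^ l) := by gcongr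
      _ = 2 ^ (2 * l + 2) := by rw [← pow_add]; ring
  have hhigh : ∀ s ∈ etSet (2 * l + 3) p, s < 2 ^ (2 * l + 4 - 1) := by
    intro s hs
    simp only [etSet, Finset.mem_image, Finset.mem_range] at hs
    obtain ⟨k, hk, rfl⟩ := hs
    have h1 := Nat.mod_lt (k ^ 2) hp.pos
    have h2 : p * (k + 1) ≤ p * p := Nat.mul_le_mul_left _ hk
    have h3 : 4 * p * k = 4 * (p * (k + 1)) - 4 * p := by
      rw [mul_add]; rw [mul_assoc]; omega
    have h4 : 4 * p ≤ 4 * (p * (k + 1)) := by nlinarith
    have e1 : 2 * l + 3 - 1 = 2 * l + 2 := by omega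
    have e2 : 2 ^ (2 * l + 4 - 1) = 2 * 2 ^ (2 * l + 2) := by
      rw [← pow_succ']; congr 1
    rw [e1, e2]
    omega
  have hhigh' : ∀ s ∈ etSet (2 * l + 3) p, s < 2 ^ (2 * l + 4) := fun s hs =>
    lt_of_lt_of_le (hhigh s hs) (Nat.pow_le_pow_right (by norm_num) (by omega))
  have hcard := et_card (2 * l + 3) p hp hpne
  refine ⟨p + 1, digitSet (2 * l + 4) t (etSet (2 * l + 3) p), ?_, ?_, ?_, ?_, ?_⟩
  · intro a ha
    exact lt_of_lt_of_le ha.1 (Nat.pow_le_pow_right (by norm_num) hLm)
  · have h := digitSet_obdd (t := t) (by omega) hLm hhigh' (by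
      rw [← Finset.card_pos, hcard]; exact hp.pos)
    rwa [hcard] at h
  · intro n
    exact digitSet_reps (by omega) hhigh (et_sidon (2 * l + 3) p hp hpne) n
  · rw [ASY2_rp]
    have ht0 : (0 : ℝ) < t := by exact_mod_cast ht
    have h1 : ((p + 1 : ℕ) : ℝ) ≤ 2 ^ (l + 2) := by
      have : p + 1 ≤ 2 ^ (l + 2) := by
        rw [pow_add]; omega
      exact_mod_cast this
    refine le_trans h1 ?_
    rw [← Real.rpow_natCast]
    apply Real.rpow_le_rpow_of_exponent_le (by norm_num)
    rw [one_div, inv_mul_eq_div, le_div_iff₀ (by positivity)]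
    have h2 : ((2 * l + 4 : ℕ) : ℝ) * t ≤ m := by exact_mod_cast hLm
    push_cast at h2 ⊢
    linarith
  · rw [ASY2_rp]
    have h1 := digitSet_card (t := t) hLm hhigh'
    rw [hcard] at h1
    have h2 : (2 : ℝ) ^ ((1 / 2 : ℝ) * m) ≤ 2 ^ ((l + 3) * t) := by
      rw [← Real.rpow_natCast]
      apply Real.rpow_le_rpow_of_exponent_le (by norm_num)
      have : (m : ℝ) ≤ ((2 * l + 6) * t : ℕ) := by exact_mod_cast hmL
      push_cast at this ⊢
      linarith
    have h3 : (2 : ℕ) ^ ((l + 3) * t) ≤ 16 ^ t * p ^ t := by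
      calc (2 : ℕ) ^ ((l + 3) * t) = (16 * 2 ^ (l - 1)) ^ t := by
            rw [pow_mul]
            congr 1
            have : l + 3 = 4 + (l - 1) := by omega
            rw [this, pow_add]
            norm_num
        _ ≤ (16 * p) ^ t := Nat.pow_le_pow_left (Nat.mul_le_mul_left _ hp1.le) t
        _ = 16 ^ t * p ^ t := mul_pow _ _ _
    have h4 : (2 : ℕ) ^ ((l + 3) * t) ≤ 16 ^ t * Nat.card {a : ℕ //
        a ∈ digitSet (2 * l + 4) t (etSet (2 * l + 3) p) ∧ a < 2 ^ m} :=
      le_trans h3 (Nat.mul_le_mul_left _ h1)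
    refine le_trans h2 ?_
    exact_mod_cast h4

end Pool.Agent.TH454.BW
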