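import Pool.Agent.TH454.BW.RepForce

/-!
# The trade-off between the width and the number of elements
-/

set_option autoImplicit false

namespace Pool.Agent.TH454.BW

open Pool.Agent.H607R2.BW

theorem rep_tradeoff (t l m : ℕ) (hl2 : 2 ≤ l) (hLm : (2 * l + 4) * t ≤ m) :
    ∃ (w : ℕ) (A : Set ℕ), (∀ a ∈ A, a < 2 ^ m) ∧ SetObdd w m A ∧ (∀ n, reps A n ≤ 2 ^ t) ∧
      w ≤ 2 ^ l + 1 ∧ 2 ^ ((l - 1) * t) ≤ Nat.card {a : ℕ // a ∈ A ∧ a < 2 ^ m} := by
  obtain ⟨p, hp, hp1, hp2⟩ := Nat.exists_prime_lt_and_le_two_mul (2 ^ (l - 1)) (by positivity)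
  have hpt : 2 * 2 ^ (l - 1) = 2 ^ l := by
    rw [← pow_succ']; congr 1; omega
  rw [hpt] at hp2
  have hp4 : 2 ≤ 2 ^ (l - 1) := by
    calc 2 = 2 ^ 1 := by norm_num
      _ ≤ 2 ^ (l - 1) := Nat.pow_le_pow_right (by norm_num) (by omega)
  have hpne : p ≠ 2 := by omega
  have hsq : 4 * (p * p) ≤ 2 ^ (2 * l + 2) := by
    calc 4 * (p * p) ≤ 4 * (2 ^ l * 2 ^ l) := by gcongr
      _ = 2 ^ (2 * l + 2) := by rw [← pow_add]; ring
  have hhigh : ∀ s ∈ etSet (2 * l + 3) p, s < 2 ^ (2 * l + 4 - 1) := by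
    intro s hs
    simp only [etSet, Finset.mem_image, Finset.mem_range] at hs
    obtain ⟨k, hk, rfl⟩ := hs
    have h1 := Nat.mod_lt (k ^ 2) hp.pos
    have h2 : p * (k + 1) ≤ p * p := Nat.mul_le_mul_left _ hk
    have h3 : 4 * p * k = 4 * (p * (k + 1)) - 4 * p := by
      rw [mul_add]; rw [mul_assoc]; omega
    have h4 : 4 * p ≤ 4 * (p * (k + 1)) := by nlinarith
    have e1 : 2 * l + 3 - 1 = 2 * l + 2 := by omega
    have e2 : 2 ^ (2 * l + 4 - 1) = 2 * 2 ^ (2 * l + 2) := by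
      rw [← pow_succ']; congr 1
    rw [e1, e2]
    omega
  have hhigh' : ∀ s ∈ etSet (2 * l + 3) p, s < 2 ^ (2 * l + 4) := fun s hs =>
    lt_of_lt_of_le (hhigh s hs) (Nat.pow_le_pow_right (by norm_num) (by omega))
  have hcard := et_card (2 * l + 3) p hp hpne
  refine ⟨p + 1, digitSet (2 * l + 4) t (etSet (2 * l + 3) p), ?_, ?_, ?_, by omega, ?_⟩
  · intro a ha
    exact lt_of_lt_of_le ha.1 (Nat.pow_le_pow_right (by norm_num) hLm)
  · have h := digitSet_obdd (t := t) (by omega) hLm hhigh' (by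
      rw [← Finset.card_pos, hcard]; exact hp.pos)
    rwa [hcard] at h
  · intro n
    exact digitSet_reps (by omega) hhigh (et_sidon (2 * l + 3) p hp hpne) n
  · have h1 := digitSet_card (t := t) hLm hhigh'
    rw [hcard] at h1
    refine le_trans ?_ h1
    rw [pow_mul]
    exact Nat.pow_le_pow_left hp1.le t

end Pool.Agent.TH454.BW
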