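import Pool.Agent.TH454.BW.Plane

/-!
# Singer's description of the projective planes over prime fields
-/

set_option autoImplicit false

namespace Pool.Agent.TH454.BW

open Pool.Agent.H607R2.BW

section

variable (p : ℕ) [hp : Fact p.Prime]

abbrev KK := GaloisField p 3

theorem pv (p : ℕ) (hp : 2 ≤ p) : (p ^ 2 + p + 1) * (p - 1) = p ^ 3 - 1 := by
  obtain ⟨k, rfl⟩ : ∃ k, p = k + 1 := ⟨p - 1, by omega⟩
  have h : (k + 1) ^ 3 = ((k + 1) ^ 2 + (k + 1) + 1) * k + 1 := by ring
  rw [Nat.add_sub_cancel, h, Nat.add_sub_cancel]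

/-- a linear functional which is not zero -/
theorem exists_lam : ∃ (l : KK p →ₗ[ZMod p] ZMod p) (z : KK p), l z = 1 := by
  have h3 : Module.finrank (ZMod p) (KK p) = 3 := GaloisField.finrank p (by norm_num)
  let b := Module.finBasis (ZMod p) (KK p)
  let i : Fin (Module.finrank (ZMod p) (KK p)) := ⟨0, by omega⟩
  exact ⟨b.coord i, b i, by simp⟩

/-- a primitive element -/
theorem exists_gen : ∃ g : (KK p)ˣ, orderOf g = p ^ 3 - 1 ∧ ∀ z : KK p, z ≠ 0 →
    ∃ e : ℕ, (g : KK p) ^ e = z := by
  classical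
  haveI : Finite (KK p) := inferInstance
  obtain ⟨g, hg⟩ := IsCyclic.exists_monoid_generator (α := (KK p)ˣ)
  refine ⟨g, ?_, ?_⟩
  · have h1 : orderOf g = Nat.card (KK p)ˣ := by
      apply orderOf_eq_card_of_forall_mem_zpowers
      intro x
      exact Submonoid.powers_le_zpowers g (hg x)
    rw [h1, Nat.card_units, GaloisField.card p 3 (by norm_num)]
  · intro z hz
    obtain ⟨e, he⟩ := hg (Units.mk0 z hz)
    refine ⟨e, ?_⟩
    have := congrArg Units.val he
    simpa using this

/-- the elements of the prime field -/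
theorem mem_prime_field (z : KK p) (hz : z ^ (p - 1) = 1) :
    ∃ c : ZMod p, c ≠ 0 ∧ algebraMap (ZMod p) (KK p) c = z := by
  classical
  have hp2 : 2 ≤ p := hp.out.two_le
  haveI : Finite (KK p) := inferInstance
  haveI : Fintype (KK p) := Fintype.ofFinite _
  have hz0 : z ≠ 0 := by
    rintro rfl
    rw [zero_pow (by omega)] at hz
    exact zero_ne_one hz
  let F : (ZMod p)ˣ → (KK p)ˣ := Units.map (algebraMap (ZMod p) (KK p)).toMonoidHom
  have hF : Function.Injective F :=
    Units.map_injective (algebraMap (ZMod p) (KK p)).injective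
  have h1 : Finset.univ.image F ⊆ Finset.univ.filter (fun u : (KK p)ˣ => u ^ (p - 1) = 1) := by
    intro u hu
    obtain ⟨c, _, rfl⟩ := Finset.mem_image.1 hu
    rw [Finset.mem_filter]
    refine ⟨Finset.mem_univ _, ?_⟩
    rw [← map_pow, ZMod.units_pow_card_sub_one_eq_one, map_one]
  have h2 : (Finset.univ.filter (fun u : (KK p)ˣ => u ^ (p - 1) = 1)).card ≤
      (Finset.univ.image F).card := by
    rw [Finset.card_image_of_injective _ hF, Finset.card_univ, ZMod.card_units]
    exact IsCyclic.card_pow_eq_one_le (by omega)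
  have h3 := Finset.eq_of_subset_of_card_le h1 h2
  have h4 : Units.mk0 z hz0 ∈ Finset.univ.filter (fun u : (KK p)ˣ => u ^ (p - 1) = 1) := by
    rw [Finset.mem_filter]
    refine ⟨Finset.mem_univ _, ?_⟩
    apply Units.ext
    simpa using hz
  rw [← h3] at h4
  obtain ⟨c, _, hc⟩ := Finset.mem_image.1 h4
  refine ⟨c, c.ne_zero, ?_⟩
  have := congrArg Units.val hc
  simpa [F] using this

/-- the points common to two lines -/
theorem ker_dim (l : KK p →ₗ[ZMod p] ZMod p) (z : KK p) (hlz : l z = 1) (x y : KK p)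
    (hxy : ∀ a b : ZMod p, a • x + b • y = 0 → a = 0 ∧ b = 0) :
    ∃ t : KK p, t ≠ 0 ∧ l (x * t) = 0 ∧ l (y * t) = 0 ∧
      ∀ s : KK p, l (x * s) = 0 → l (y * s) = 0 → ∃ c : ZMod p, c • t = s := by
  classical
  haveI : FiniteDimensional (ZMod p) (KK p) := by
    apply Module.finite_of_finrank_pos
    rw [GaloisField.finrank p (by norm_num)]
    norm_num
  let f : KK p →ₗ[ZMod p] (ZMod p × ZMod p) :=
    (l ∘ₗ LinearMap.mulLeft (ZMod p) x).prod (l ∘ₗ LinearMap.mulLeft (ZMod p) y)
  have hf : ∀ t, f t = (l (x * t), l (y * t)) := fun t => rfl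
  have hrange : LinearMap.range f = ⊤ := by
    by_contra hne
    obtain ⟨g, hg0, hg⟩ := Submodule.exists_le_ker_of_lt_top _ (lt_top_iff_ne_top.2 hne)
    have hgf : ∀ t, g (1, 0) * l (x * t) + g (0, 1) * l (y * t) = 0 := by
      intro t
      have h1 : g (f t) = 0 := by
        have := hg (LinearMap.mem_range_self f t)
        exact this
      rw [hf] at h1
      have h2 : ((l (x * t), l (y * t)) : ZMod p × ZMod p) =
          l (x * t) • ((1, 0) : ZMod p × ZMod p) + l (y * t) • ((0, 1) : ZMod p × ZMod p) := by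
        ext <;> simp
      rw [h2, map_add, map_smul, map_smul, smul_eq_mul, smul_eq_mul] at h1
      rw [mul_comm (g (1, 0)), mul_comm (g (0, 1))]
      exact h1
    set u : KK p := g (1, 0) • x + g (0, 1) • y with hu
    have hu0 : u = 0 := by
      by_contra hne0
      have h3 := hgf (u⁻¹ * z)
      have h4 : l (u * (u⁻¹ * z)) = 0 := by
        rw [← h3, hu, add_mul, map_add, smul_mul_assoc, smul_mul_assoc, map_smul, map_smul,
          smul_eq_mul, smul_eq_mul]
      rw [← mul_assoc, mul_inv_cancel₀ hne0, one_mul, hlz] at h4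
      exact one_ne_zero h4
    obtain ⟨ha, hb⟩ := hxy _ _ hu0
    apply hg0
    ext
    · simpa using ha
    · simpa using hb
  have hdim := LinearMap.finrank_range_add_finrank_ker f
  rw [hrange, finrank_top, Module.finrank_prod, Module.finrank_self,
    GaloisField.finrank p (by norm_num)] at hdim
  have hker : Module.finrank (ZMod p) (LinearMap.ker f) = 1 := by omega
  obtain ⟨⟨t, ht⟩, ht0, hts⟩ := finrank_eq_one_iff'.1 hker
  have htf : l (x * t) = 0 ∧ l (y * t) = 0 := by
    have h1 : f t = 0 := ht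
    rw [hf] at h1
    exact ⟨congrArg Prod.fst h1, congrArg Prod.snd h1⟩
  refine ⟨t, fun h => ht0 (Subtype.ext h), htf.1, htf.2, ?_⟩
  intro s hs1 hs2
  have hs : s ∈ LinearMap.ker f := by
    rw [LinearMap.mem_ker, hf, hs1, hs2]
    rfl
  obtain ⟨c, hc⟩ := hts ⟨s, hs⟩
  exact ⟨c, congrArg Subtype.val hc⟩

end

end Pool.Agent.TH454.BW
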