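import Pool.Agent.TH454.BW.Singer
import Pool.Agent.TH454.BW.Design
import Pool.Agent.TH454.BW.Bes

/-!
# Planes of small width
-/

set_option autoImplicit false

namespace Pool.Agent.TH454.BW

open Pool.Agent.H607R2.BW

section

variable (p : ℕ) [hp : Fact p.Prime]

/-- Singer's theorem for prime fields, with exponents -/
theorem singer_set : ∃ L : ℕ → Prop,
    (∀ n, L (n + (p ^ 2 + p + 1)) ↔ L n) ∧
    (∀ i i' : ℕ, i < p ^ 2 + p + 1 → i' < p ^ 2 + p + 1 → i ≠ i' →
      ∃ j, j < p ^ 2 + p + 1 ∧ L (i + j) ∧ L (i' + j) ∧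
        ∀ j', j' < p ^ 2 + p + 1 → L (i + j') → L (i' + j') → j' = j) ∧
    (∀ j : ℕ, {i : Fin (p ^ 2 + p + 1) | L (i + j)}.ncard = p + 1) := by
  classical
  have hp2 : 2 ≤ p := hp.out.two_le
  have hpv := pv p hp2
  set v := p ^ 2 + p + 1 with hv
  obtain ⟨l, z, hlz⟩ := exists_lam p
  obtain ⟨g, hg, hgen⟩ := exists_gen p
  set θ : KK p := (g : KK p) with hθ
  have hθ0 : θ ≠ 0 := g.ne_zero
  have hone : ∀ e : ℕ, θ ^ e = 1 ↔ (p ^ 3 - 1) ∣ e := by
    intro e
    rw [← hg, orderOf_dvd_iff_pow_eq_one, hθ, ← Units.val_pow_eq_pow_val, Units.val_eq_one]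
  -- scalars
  obtain ⟨c0, hc0, hcθ⟩ := mem_prime_field p (θ ^ v) (by
    rw [← pow_mul, hpv, (hone _).2 dvd_rfl])
  have hscal : ∀ (a : ℕ) (x : KK p), θ ^ (v * a) * x = c0 ^ a • x := by
    intro a x
    rw [pow_mul, ← hcθ, ← map_pow, Algebra.smul_def]
  have hprop : ∀ (e e' : ℕ) (c : ZMod p), c • θ ^ e = θ ^ (e + e') → v ∣ e' := by
    intro e e' c h
    rw [Algebra.smul_def, pow_add, mul_comm (θ ^ e)] at h
    have h1 : algebraMap (ZMod p) (KK p) c = θ ^ e' := mul_right_cancel₀ (pow_ne_zero e hθ0) h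
    have hc : c ≠ 0 := by
      rintro rfl
      rw [map_zero] at h1
      exact pow_ne_zero e' hθ0 h1.symm
    have h2 : θ ^ (e' * (p - 1)) = 1 := by
      rw [pow_mul, ← h1, ← map_pow, ZMod.pow_card_sub_one_eq_one hc, map_one]
    rw [hone, ← hpv] at h2
    exact Nat.dvd_of_mul_dvd_mul_right (by omega) h2
  have hlt : ∀ (i i' : ℕ) (c : ZMod p), i < v → i' < v → c • θ ^ i = θ ^ i' → i = i' := by
    intro i i' c hi hi' h
    rcases le_total i i' with hle | hle
    · obtain ⟨d, rfl⟩ := Nat.exists_eq_add_of_le hle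
      have h1 := hprop i d c h
      have h2 : d = 0 := Nat.eq_zero_of_dvd_of_lt h1 (by omega)
      omega
    · obtain ⟨d, rfl⟩ := Nat.exists_eq_add_of_le hle
      have hc : c ≠ 0 := by
        rintro rfl
        rw [zero_smul] at h
        exact pow_ne_zero _ hθ0 h.symm
      have h1 := hprop i' d c⁻¹ (by rw [← h, smul_smul, inv_mul_cancel₀ hc, one_smul])
      have h2 : d = 0 := Nat.eq_zero_of_dvd_of_lt h1 (by omega)
      omega
  refine ⟨fun n => l (θ ^ n) = 0, ?_, ?_, ?_⟩
  · intro n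
    show l (θ ^ (n + v)) = 0 ↔ l (θ ^ n) = 0
    have h := hscal 1 (θ ^ n)
    rw [mul_one, pow_one, ← pow_add, add_comm v n] at h
    rw [h, map_smul, smul_eq_mul, mul_eq_zero]
    simp [hc0]
  · intro i i' hi hi' hne
    obtain ⟨t, ht0, ht1, ht2, hts⟩ := ker_dim p l z hlz (θ ^ i) (θ ^ i') (by
      intro a b hab
      by_cases hb : b = 0
      · rw [hb, zero_smul, add_zero] at hab
        exact ⟨(smul_eq_zero.1 hab).resolve_right (pow_ne_zero _ hθ0), hb⟩
      · exfalso
        apply hne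
        apply hlt i i' (-(b⁻¹ * a)) hi hi'
        have h1 : b • θ ^ i' = -(a • θ ^ i) := by
          rw [eq_neg_iff_add_eq_zero, add_comm]; exact hab
        have h2 : θ ^ i' = b⁻¹ • (b • θ ^ i') := by
          rw [smul_smul, inv_mul_cancel₀ hb, one_smul]
        rw [h2, h1, smul_neg, smul_smul, neg_smul])
    obtain ⟨e, he⟩ := hgen t ht0
    have hsplit : θ ^ e = c0 ^ (e / v) • θ ^ (e % v) := by
      rw [← hscal, ← pow_add, Nat.div_add_mod]
    have hc : c0 ^ (e / v) ≠ 0 := pow_ne_zero _ hc0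
    have hmem : ∀ i : ℕ, l (θ ^ i * t) = 0 → l (θ ^ (i + e % v)) = 0 := by
      intro i h
      rw [← he, hsplit, mul_smul_comm, map_smul, smul_eq_mul, mul_eq_zero] at h
      rw [pow_add]
      exact h.resolve_left hc
    refine ⟨e % v, Nat.mod_lt _ (by omega), hmem i ht1, hmem i' ht2, ?_⟩
    intro j' hj' h1 h2
    obtain ⟨c, hcj⟩ := hts (θ ^ j') (by rw [← pow_add]; exact h1) (by rw [← pow_add]; exact h2)
    rw [← he, hsplit, smul_smul] at hcj
    exact (hlt (e % v) j' _ (Nat.mod_lt _ (by omega)) hj' hcj).symm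
  · intro j
    -- the kernel
    let f : KK p →ₗ[ZMod p] ZMod p := l ∘ₗ LinearMap.mulLeft (ZMod p) (θ ^ j)
    have hf : ∀ t, f t = l (θ ^ j * t) := fun t => rfl
    have : FiniteDimensional (ZMod p) (KK p) := by
      apply Module.finite_of_finrank_pos
      rw [GaloisField.finrank p (by norm_num)]
      norm_num
    have hrange : LinearMap.range f = ⊤ := by
      rw [LinearMap.range_eq_top]
      intro c
      refine ⟨c • ((θ ^ j)⁻¹ * z), ?_⟩
      rw [hf, mul_smul_comm, map_smul, ← mul_assoc, mul_inv_cancel₀ (pow_ne_zero _ hθ0), one_mul,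
        hlz, smul_eq_mul, mul_one]
    have hdim := LinearMap.finrank_range_add_finrank_ker f
    rw [hrange, finrank_top, Module.finrank_self, GaloisField.finrank p (by norm_num)] at hdim
    have hker : Module.finrank (ZMod p) (LinearMap.ker f) = 2 := by omega
    have hcardker : Nat.card (LinearMap.ker f) = p ^ 2 := by
      rw [Module.natCard_eq_pow_finrank (K := ZMod p), hker, Nat.card_zmod]
    have hcard0 : ((LinearMap.ker f : Set (KK p)) \ {0}).ncard = p ^ 2 - 1 := by
      rw [Set.ncard_sdiff_singleton_of_mem (by simp)]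
      congr 1
    -- the parametrisation
    have hbij : ((LinearMap.ker f : Set (KK p)) \ {0}).ncard =
        (p - 1) * {i : Fin v | l (θ ^ ((i : ℕ) + j)) = 0}.ncard := by
      have h1 : Nat.card (Fin (p - 1) × {i : Fin v // l (θ ^ ((i : ℕ) + j)) = 0}) =
          (p - 1) * {i : Fin v | l (θ ^ ((i : ℕ) + j)) = 0}.ncard := by
        rw [Nat.card_prod, Nat.card_fin]
        rfl
      rw [← h1]
      symm
      have hF : ∀ y : Fin (p - 1) × {i : Fin v // l (θ ^ ((i : ℕ) + j)) = 0},
          θ ^ (v * (y.1 : ℕ) + (y.2.1 : ℕ)) ∈ (LinearMap.ker f : Set (KK p)) \ {0} := by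
        intro y
        refine ⟨?_, pow_ne_zero _ hθ0⟩
        rw [SetLike.mem_coe, LinearMap.mem_ker, hf, pow_add, ← mul_assoc, mul_comm (θ ^ j),
          mul_assoc, hscal, map_smul, ← pow_add, add_comm j, y.2.2, smul_zero]
      refine Nat.card_congr (Equiv.ofBijective (fun y => (⟨_, hF y⟩ :
        ((LinearMap.ker f : Set (KK p)) \ {0} : Set (KK p)))) ⟨?_, ?_⟩)
      · intro y y' h
        have h2 : θ ^ (v * (y.1 : ℕ) + (y.2.1 : ℕ)) = θ ^ (v * (y'.1 : ℕ) + (y'.2.1 : ℕ)) :=
          congrArg Subtype.val h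
        have hlt' : ∀ y : Fin (p - 1) × {i : Fin v // l (θ ^ ((i : ℕ) + j)) = 0},
            v * (y.1 : ℕ) + (y.2.1 : ℕ) < orderOf g := by
          intro y
          have ha := y.1.2
          have hi := y.2.1.2
          rw [hg, ← hpv]
          calc v * (y.1 : ℕ) + (y.2.1 : ℕ) < v * (y.1 : ℕ) + v := by omega
            _ = v * ((y.1 : ℕ) + 1) := by ring
            _ ≤ v * (p - 1) := Nat.mul_le_mul_left _ (by omega)
        have h3 : g ^ (v * (y.1 : ℕ) + (y.2.1 : ℕ)) = g ^ (v * (y'.1 : ℕ) + (y'.2.1 : ℕ)) := by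
          apply Units.ext
          rw [Units.val_pow_eq_pow_val, Units.val_pow_eq_pow_val]
          exact h2
        have h4 := pow_injOn_Iio_orderOf (Set.mem_Iio.2 (hlt' y)) (Set.mem_Iio.2 (hlt' y')) h3
        have hv0 : 0 < v := by omega
        have e1 : (y.1 : ℕ) = y'.1 := by
          have h5 : (v * (y.1 : ℕ) + (y.2.1 : ℕ)) / v = (v * (y'.1 : ℕ) + (y'.2.1 : ℕ)) / v :=
            congrArg (fun n => n / v) h4
          rw [Nat.mul_add_div hv0, Nat.mul_add_div hv0, Nat.div_eq_of_lt y.2.1.2,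
            Nat.div_eq_of_lt y'.2.1.2] at h5
          omega
        have e2 : (y.2.1 : ℕ) = y'.2.1 := by
          rw [e1] at h4
          omega
        exact Prod.ext (Fin.ext e1) (Subtype.ext (Fin.ext e2))
      · rintro ⟨t, ht, ht0⟩
        have ht0' : t ≠ 0 := ht0
        obtain ⟨e, he⟩ := hgen t ht0'
        have he' : θ ^ (e % (p ^ 3 - 1)) = t := by
          rw [← he]
          conv_rhs => rw [← Nat.div_add_mod e (p ^ 3 - 1)]
          rw [pow_add, pow_mul, (hone _).2 dvd_rfl, one_pow, one_mul]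
        set r := e % (p ^ 3 - 1) with hr
        have hrlt : r < v * (p - 1) := by
          rw [hpv]
          apply Nat.mod_lt
          rw [← hpv]
          exact Nat.mul_pos (by omega) (by omega)
        have hra : r / v < p - 1 := Nat.div_lt_of_lt_mul hrlt
        have hri : r % v < v := Nat.mod_lt _ (by omega)
        have hmem : l (θ ^ (r % v + j)) = 0 := by
          have h1 : l (θ ^ j * t) = 0 := ht
          rw [← he', ← Nat.div_add_mod r v, pow_add, ← mul_assoc, mul_comm (θ ^ j), mul_assoc,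
            hscal, map_smul, smul_eq_mul, mul_eq_zero] at h1
          have h2 := h1.resolve_left (pow_ne_zero _ hc0)
          rw [← pow_add] at h2
          rw [add_comm]
          exact h2
        refine ⟨(⟨r / v, hra⟩, ⟨⟨r % v, hri⟩, hmem⟩), ?_⟩
        apply Subtype.ext
        show θ ^ (v * (r / v) + r % v) = t
        rw [Nat.div_add_mod, he']
    rw [hcard0] at hbij
    have h3 : (p - 1) * (p + 1) = p ^ 2 - 1 := by
      obtain ⟨k, rfl⟩ : ∃ k, p = k + 1 := ⟨p - 1, by omega⟩
      have : (k + 1) ^ 2 = k * (k + 1 + 1) + 1 := by ring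
      rw [this, Nat.add_sub_cancel, Nat.add_sub_cancel]
    rw [← h3] at hbij
    exact (Nat.eq_of_mul_eq_mul_left (by omega) hbij).symm

/-- the plane over the prime field with `p` elements has an incidence relation of width
`16 p + 20`, for suitable names of the points and lines with `m` bits, `2 ^ m > p² + p + 1` -/
theorem plane_width (m : ℕ) (hm : p ^ 2 + p + 1 < 2 ^ m) :
    ∃ (B : Fin (p ^ 2 + p + 1) → Finset (Fin (p ^ 2 + p + 1)))
      (pt bl : Fin (p ^ 2 + p + 1) → Str m),
      (∀ i, (B i).card = p + 1) ∧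
      (∀ x y, x ≠ y → (Finset.univ.filter (fun i => x ∈ B i ∧ y ∈ B i)).card = 1) ∧
      Function.Injective pt ∧ Function.Injective bl ∧
      HasWidth (16 * p + 20)
        (fun x : Fin 2 → Str m => ∃ i j, i ∈ B j ∧ x 0 = pt i ∧ x 1 = bl j) := by
  classical
  obtain ⟨L, hper, hpair, hcard⟩ := singer_set p
  set v := p ^ 2 + p + 1 with hv
  let B : Fin v → Finset (Fin v) := fun j => Finset.univ.filter (fun i : Fin v => L (i + j))
  have hB : ∀ j, (B j).card = p + 1 := by
    intro j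
    rw [← hcard j, ← Set.ncard_coe_finset]
    congr 1
    ext i
    simp [B]
  let nm : Fin v → Str m := fun i => toBits m i
  have hnm : ∀ i : Fin v, Nat.ofBits (nm i) = i := fun i =>
    ofBits_toBits (lt_trans i.2 hm)
  have hnminj : Function.Injective nm := by
    intro i i' h
    apply Fin.ext
    rw [← hnm i, ← hnm i', h]
  refine ⟨B, nm, nm, hB, ?_, hnminj, hnminj, ?_⟩
  · intro x y hxy
    rw [Finset.card_eq_one]
    obtain ⟨j, hj, h1, h2, h3⟩ := hpair x y x.2 y.2 (fun h => hxy (Fin.ext h))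
    refine ⟨⟨j, hj⟩, ?_⟩
    ext i
    simp only [B, Finset.mem_filter, Finset.mem_univ, true_and, Finset.mem_singleton]
    constructor
    · rintro ⟨h4, h5⟩
      exact Fin.ext (h3 i i.2 h4 h5)
    · rintro rfl
      exact ⟨h1, h2⟩
  · -- the machine
    let S : Finset ℕ := (Finset.range (2 * v)).filter (fun n => L n)
    have hv0 : 0 < v := by omega
    have hS : S.card = 2 * (p + 1) := by
      let B0 : Finset ℕ := (B ⟨0, hv0⟩).map Fin.valEmbedding
      have e : S = B0 ∪ B0.map (addRightEmbedding v) := by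
        ext n
        simp only [S, B0, B, Finset.mem_filter, Finset.mem_range, Finset.mem_union, Finset.mem_map,
          Finset.mem_univ, true_and, Fin.valEmbedding_apply, addRightEmbedding_apply, add_zero,
          exists_exists_and_eq_and]
        constructor
        · rintro ⟨h1, h2⟩
          rcases Nat.lt_or_ge n v with h3 | h3
          · left
            exact ⟨⟨n, h3⟩, h2, rfl⟩
          · right
            refine ⟨⟨n - v, by omega⟩, ?_, ?_⟩
            · show L (n - v)
              rw [← hper, Nat.sub_add_cancel h3]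
              exact h2
            · show n - v + v = n
              omega
        · rintro (⟨i, h1, rfl⟩ | ⟨i, h1, rfl⟩)
          · exact ⟨by have := i.2; omega, h1⟩
          · exact ⟨by have := i.2; omega, (hper _).2 h1⟩
      have hB0 : B0.card = p + 1 := by
        rw [Finset.card_map, hB]
      rw [e, Finset.card_union_of_disjoint, Finset.card_map (addRightEmbedding v), hB0]
      · ring
      · rw [Finset.disjoint_left]
        intro n hn hn'
        simp only [B0, Finset.mem_map, Fin.valEmbedding_apply, addRightEmbedding_apply] at hn hn'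
        obtain ⟨i, _, rfl⟩ := hn
        obtain ⟨_, ⟨i', _, rfl⟩, h⟩ := hn'
        have := i.2
        omega
    have hSne : S.Nonempty := by
      rw [← Finset.card_pos, hS]; omega
    have h := hasWidth_and (hasWidth_and (width_lt m v 0 hm) (width_lt m v 1 hm))
      (width_add' m S hSne)
    have e : 2 * 2 * (2 * S.card + 1) = 16 * p + 20 := by
      rw [hS]; ring
    rw [e] at h
    have e2 : (fun x : Fin 2 → Str m => ((Nat.ofBits (x 0) < v ∧ Nat.ofBits (x 1) < v) ∧
        Nat.ofBits (x 0) + Nat.ofBits (x 1) ∈ S)) =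
        fun x : Fin 2 → Str m => ∃ i j, i ∈ B j ∧ x 0 = nm i ∧ x 1 = nm j := by
      funext x
      apply propext
      constructor
      · rintro ⟨⟨h1, h2⟩, h3⟩
        refine ⟨⟨_, h1⟩, ⟨_, h2⟩, ?_, ?_, ?_⟩
        · simp only [B, Finset.mem_filter, Finset.mem_univ, true_and]
          exact (Finset.mem_filter.1 h3).2
        · exact (toBits_ofBits (x 0)).symm
        · exact (toBits_ofBits (x 1)).symm
      · rintro ⟨i, j, h1, h2, h3⟩
        rw [h2, h3, hnm, hnm]
        refine ⟨⟨i.2, j.2⟩, ?_⟩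
        simp only [S, Finset.mem_filter, Finset.mem_range]
        simp only [B, Finset.mem_filter, Finset.mem_univ, true_and] at h1
        exact ⟨by have := i.2; have := j.2; omega, h1⟩
    rw [e2] at h
    exact h

end

/-- symmetric designs: explicit bound -/
theorem design_width (lam m w v k : ℕ) (B : Fin v → Finset (Fin v)) (p b : Fin v → Str m)
    (hl : 1 ≤ lam) (hv : 2 ≤ v) (hvm : 2 ^ m ≤ 2 * v) (hk : ∀ i, (B i).card = k)
    (hlam : ∀ x y : Fin v, x ≠ y →
      (Finset.univ.filter (fun i => x ∈ B i ∧ y ∈ B i)).card = lam)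
    (hp : Function.Injective p) (hb : Function.Injective b)
    (hw : ObddWidth w (fun x : Fin 2 → Str m => ∃ i j, i ∈ B j ∧ x 0 = p i ∧ x 1 = b j)) :
    k ≤ 4 * lam ^ 2 * w * m ∧ 2 ^ m ≤ (8 * lam ^ 2 * w * m) ^ 2 := by
  have hm : 1 ≤ m := by
    by_contra h
    have hm0 : m = 0 := by omega
    subst hm0
    have h1 := Fintype.card_le_of_injective p hp
    simp at h1
    omega
  have h1 := design_bound lam m (2 * w) v k B p b hl hm hk (fun x y h => (hlam x y h).le) hp hb
    (nobdd_of_obdd hw)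
  have h2 : k ≤ 4 * lam ^ 2 * w * m := by
    have hv0 : 0 < v := by omega
    refine le_of_mul_le_mul_left ?_ hv0
    calc v * k ≤ lam ^ 2 * (2 * w * m * 2 ^ m) := h1
      _ ≤ lam ^ 2 * (2 * w * m * (2 * v)) := by gcongr
      _ = v * (4 * lam ^ 2 * w * m) := by ring
  refine ⟨h2, ?_⟩
  have h3 := DES_repl v k lam hv hl B hk hlam
  have hk1 : 1 ≤ k * k := by omega
  calc 2 ^ m ≤ 2 * v := hvm
    _ ≤ 4 * (k * k) := by omega
    _ = (2 * k) ^ 2 := by ring
    _ ≤ (2 * (4 * lam ^ 2 * w * m)) ^ 2 := by gcongr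
    _ = (8 * lam ^ 2 * w * m) ^ 2 := by ring

/-- symmetric designs: asymptotic form -/
theorem design_asy (lam : ℕ) (c : ℝ) (hl : 1 ≤ lam) (hc : c < 1 / 2) :
    ∃ m₀ : ℕ, ∀ (m w v k : ℕ) (B : Fin v → Finset (Fin v)) (p b : Fin v → Str m),
      m₀ ≤ m → 2 ^ m ≤ 2 * v → (∀ i, (B i).card = k) →
      (∀ x y : Fin v, x ≠ y →
        (Finset.univ.filter (fun i => x ∈ B i ∧ y ∈ B i)).card = lam) →
      Function.Injective p → Function.Injective b →
      ObddWidth w (fun x : Fin 2 → Str m => ∃ i j, i ∈ B j ∧ x 0 = p i ∧ x 1 = b j) →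
      ((2 : ℝ) ^ m) ^ c < w := by
  obtain ⟨m₀, hm₀⟩ := asy2 (64 * lam ^ 4) c 1 (1 / 2) (by norm_num) (by linarith)
  refine ⟨max m₀ 2, fun m w v k B p b hm hvm hk hlam hp hb hw => ?_⟩
  by_contra hcon
  push Not at hcon
  have hm1 : m₀ ≤ m := le_trans (le_max_left _ _) hm
  have hm2 : 2 ≤ m := le_trans (le_max_right _ _) hm
  have h4 : 4 ≤ 2 ^ m := by
    calc 4 = 2 ^ 2 := by norm_num
      _ ≤ 2 ^ m := Nat.pow_le_pow_right (by norm_num) hm2
  have h1 := (design_width lam m w v k B p b hl (by omega) hvm hk hlam hp hb hw).2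
  have h2 := hm₀ m w hm1 hcon
  have h3 : ((2 : ℝ) ^ m) ≤ (8 * lam ^ 2 * w * m) ^ 2 := by exact_mod_cast h1
  have hpos : (0 : ℝ) < 2 ^ m := by positivity
  have e1 : ((2 : ℝ) ^ m) ^ ((1 : ℝ) + 1) = 2 ^ m * 2 ^ m := by
    rw [Real.rpow_add hpos, Real.rpow_one]
  rw [e1] at h2
  push_cast at h2
  have h5 : (2 : ℝ) ^ m * 2 ^ m ≤ (64 * (lam : ℝ) ^ 4) * (w * m) ^ 2 * 2 ^ m := by
    calc (2 : ℝ) ^ m * 2 ^ m ≤ (8 * lam ^ 2 * w * m) ^ 2 * 2 ^ m :=
          mul_le_mul_of_nonneg_right h3 hpos.le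
      _ = (64 * (lam : ℝ) ^ 4) * (w * m) ^ 2 * 2 ^ m := by ring
  have h6 : (0 : ℝ) < 2 ^ m * 2 ^ m := by positivity
  linarith

end Pool.Agent.TH454.BW
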