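import Pool.Agent.H607R2.BW.Defs

/-!
# Trellises and the cut lemma

A trellis (nondeterministic machine) reads a word letter by letter; the words accepted by it are
counted by cutting them at the first level at which the set of prefixes is large.
-/

set_option autoImplicit false

namespace Pool.Agent.TH454.BW

open Pool.Agent.H607R2.BW

/-- the word `x` labels a path from `s` (at level `p`) to `s'` in the trellis `T`; an element
`(s, a, s₁)` of `T p` is a branch from the state `s` at level `p` to the state `s₁` at level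
`p + 1` with the label `a` -/
def Path {σ A : Type} (T : ℕ → Finset (σ × A × σ)) : ℕ → σ → List A → σ → Prop
  | _, s, [], s' => s = s'
  | p, s, a :: x, s' => ∃ s₁, (s, a, s₁) ∈ T p ∧ Path T (p + 1) s₁ x s'

/-- The relation `R` between strings `x j` of `m` bits (`j : ι`) is decided by a trellis with at
most `β` branches at each level: `R x` holds if and only if some path from the starting state to a
final state has as its labels the letters of `x` (the `t`-th letter is the tuple of the `t`-th bits
of all `x j`). -/
def HasTrellis {ι : Type} {m : ℕ} (β : ℕ) (R : (ι → Str m) → Prop) : Prop :=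
  ∃ (σ : Type) (T : ℕ → Finset (σ × (ι → Bool) × σ)) (s₀ : σ) (acc : Set σ),
    (∀ p, (T p).card ≤ β) ∧ ∀ x : ι → Str m, R x ↔ ∃ s' ∈ acc, Path T 0 s₀ (word x) s'

/-- a machine of width `w` is a trellis with at most `2 ^ r * w` branches at each level -/
theorem trellis_of_width {ι : Type} [Fintype ι] {m w : ℕ} {R : (ι → Str m) → Prop}
    (h : HasWidth w R) : HasTrellis (2 ^ Fintype.card ι * w) R := by
  classical
  obtain ⟨δ, s, acc, hR⟩ := h
  let T : ℕ → Finset (Fin w × (ι → Bool) × Fin w) := fun p =>
    (Finset.univ : Finset ((ι → Bool) × Fin w)).image (fun z => (z.2, z.1, δ p z.2 z.1))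
  have hT : ∀ p s a s₁, (s, a, s₁) ∈ T p ↔ s₁ = δ p s a := by
    intro p s a s₁
    simp only [T, Finset.mem_image, Finset.mem_univ, true_and, Prod.mk.injEq]
    constructor
    · rintro ⟨z, h1, h2, h3⟩
      rw [← h1, ← h2, h3]
    · rintro rfl
      exact ⟨(a, s), rfl, rfl, rfl⟩
  have hP : ∀ (x : List (ι → Bool)) (p : ℕ) (s s' : Fin w),
      Path T p s x s' ↔ run δ p s x = s' := by
    intro x
    induction x with
    | nil => intro p s s'; rfl
    | cons a x ih =>
      intro p s s'
      simp only [Path, run, hT]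
      constructor
      · rintro ⟨s₁, rfl, h⟩
        exact (ih _ _ _).1 h
      · intro h
        exact ⟨_, rfl, (ih _ _ _).2 h⟩
  refine ⟨Fin w, T, s, acc, ?_, ?_⟩
  · intro p
    refine le_trans Finset.card_image_le ?_
    rw [Finset.card_univ, Fintype.card_prod, Fintype.card_fun, Fintype.card_bool, Fintype.card_fin]
  · intro x
    rw [hR]
    constructor
    · intro h
      exact ⟨_, h, (hP _ _ _ _).2 rfl⟩
    · rintro ⟨s', hs', h⟩
      rw [(hP _ _ _ _).1 h]
      exact hs'

section

variable {σ A : Type} (T : ℕ → Finset (σ × A × σ))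

theorem path_append (x y : List A) : ∀ (p : ℕ) (s s' : σ),
    Path T p s (x ++ y) s' ↔ ∃ s₁, Path T p s x s₁ ∧ Path T (p + x.length) s₁ y s' := by
  induction x with
  | nil =>
    intro p s s'
    constructor
    · intro h
      exact ⟨s, rfl, h⟩
    · rintro ⟨s₁, h1, h2⟩
      have h1' : s = s₁ := h1
      subst h1'
      exact h2
  | cons a x ih =>
    intro p s s'
    simp only [List.cons_append, Path, List.length_cons, ih]
    have e : p + 1 + x.length = p + (x.length + 1) := by omega
    rw [e]
    constructor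
    · rintro ⟨s₂, h1, s₁, h2, h3⟩
      exact ⟨s₁, ⟨s₂, h1, h2⟩, h3⟩
    · rintro ⟨s₁, ⟨s₂, h1, h2⟩, h3⟩
      exact ⟨s₂, h1, s₁, h2, h3⟩

variable [Finite A]

/-- words of length `q` -/
noncomputable def Wd (A : Type) [Finite A] (q : ℕ) : Finset (List A) :=
  (List.finite_length_eq A q).toFinset

omit [Finite A] in
theorem mem_Wd {A : Type} [Finite A] {q : ℕ} {x : List A} : x ∈ Wd A q ↔ x.length = q := by
  simp [Wd]

/-- words of length `q` which lead from the starting state to `s` -/
noncomputable def pre (s₀ : σ) (q : ℕ) (s : σ) : Finset (List A) :=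
  open Classical in (Wd A q).filter (fun x => Path T 0 s₀ x s)

/-- words of length `n` which lead from `s` (at level `q`) to a final state -/
noncomputable def suf (acc : Set σ) (q n : ℕ) (s : σ) : Finset (List A) :=
  open Classical in (Wd A n).filter (fun x => ∃ s' ∈ acc, Path T q s x s')

theorem mem_pre {s₀ : σ} {q : ℕ} {s : σ} {x : List A} :
    x ∈ pre T s₀ q s ↔ x.length = q ∧ Path T 0 s₀ x s := by
  simp [pre, mem_Wd]

theorem mem_suf {acc : Set σ} {q n : ℕ} {s : σ} {x : List A} :
    x ∈ suf T acc q n s ↔ x.length = n ∧ ∃ s' ∈ acc, Path T q s x s' := by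
  simp [suf, mem_Wd]

/-- the cut lemma -/
theorem cut (β m : ℕ) (hT : ∀ p, (T p).card ≤ β) (s₀ : σ) (acc : Set σ) (K₁ K₂ D : ℕ)
    (hm : 1 ≤ m) (h1 : 1 ≤ K₁) (h2 : 1 ≤ K₂)
    (h : ∀ q ≤ m, ∀ s, (pre T s₀ q s).card ≤ K₁ * D ^ q ∨
      (suf T acc q (m - q) s).card ≤ K₂ * D ^ (m - q)) :
    (suf T acc 0 m s₀).card ≤ m * β * (K₁ * K₂ * D ^ (m - 1)) := by
  classical
  -- the pieces
  let Z : ℕ → (σ × A × σ) → Finset (List A) := fun q τ =>
    if (pre T s₀ q τ.1).card ≤ K₁ * D ^ q ∧
        (suf T acc (q + 1) (m - (q + 1)) τ.2.2).card ≤ K₂ * D ^ (m - (q + 1)) then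
      (pre T s₀ q τ.1 ×ˢ suf T acc (q + 1) (m - (q + 1)) τ.2.2).image
        (fun z => z.1 ++ τ.2.1 :: z.2)
    else ∅
  have hZ : ∀ q < m, ∀ τ, (Z q τ).card ≤ K₁ * K₂ * D ^ (m - 1) := by
    intro q hq τ
    simp only [Z]
    split_ifs with hs
    · refine le_trans Finset.card_image_le ?_
      rw [Finset.card_product]
      calc (pre T s₀ q τ.1).card * (suf T acc (q + 1) (m - (q + 1)) τ.2.2).card
          ≤ (K₁ * D ^ q) * (K₂ * D ^ (m - (q + 1))) := Nat.mul_le_mul hs.1 hs.2
        _ = K₁ * K₂ * (D ^ q * D ^ (m - (q + 1))) := by ring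
        _ = K₁ * K₂ * D ^ (m - 1) := by
          rw [← pow_add]; congr 2; omega
    · simp
  -- every accepted word is in a piece
  have hcover : suf T acc 0 m s₀ ⊆ (Finset.range m).biUnion (fun q => (T q).biUnion (Z q)) := by
    intro l hl
    by_contra hno
    rw [mem_suf] at hl
    obtain ⟨hlen, hacc⟩ := hl
    have hinv : ∀ q, q ≤ m → ∃ s l₁ l₂, l = l₁ ++ l₂ ∧ l₁ ∈ pre T s₀ q s ∧
        l₂ ∈ suf T acc q (m - q) s ∧ (pre T s₀ q s).card ≤ K₁ * D ^ q ∧
        (q = m → False) := by
      intro q
      induction q with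
      | zero =>
        intro _
        refine ⟨s₀, [], l, rfl, ?_, ?_, ?_, by omega⟩
        · rw [mem_pre]; exact ⟨rfl, rfl⟩
        · rw [mem_suf]; exact ⟨by omega, hacc⟩
        · have : pre T s₀ 0 s₀ ⊆ {[]} := by
            intro x hx
            rw [mem_pre, List.length_eq_zero_iff] at hx
            simp [hx.1]
          have := Finset.card_le_card this
          simp only [Finset.card_singleton] at this
          simp only [pow_zero, mul_one]
          omega
      | succ q ih =>
        intro hq
        obtain ⟨s, l₁, l₂, hl12, hl1, hl2, hsm, -⟩ := ih (by omega)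
        have hl2' := hl2
        rw [mem_suf] at hl2'
        obtain ⟨hlen2, s', hs', hp⟩ := hl2'
        match l₂, hlen2, hp, hl2, hl12 with
        | [], hlen2, _, _, _ =>
          simp at hlen2; omega
        | a :: l₂, hlen2, hp, hl2, hl12 =>
          obtain ⟨s₁, hs₁, hp'⟩ := hp
          simp only [List.length_cons] at hlen2
          have hl2s : l₂ ∈ suf T acc (q + 1) (m - (q + 1)) s₁ := by
            rw [mem_suf]
            exact ⟨by omega, s', hs', hp'⟩
          have hnot : ¬ (suf T acc (q + 1) (m - (q + 1)) s₁).card ≤ K₂ * D ^ (m - (q + 1)) := by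
            intro hle
            apply hno
            simp only [Finset.mem_biUnion, Finset.mem_range]
            refine ⟨q, by omega, (s, a, s₁), hs₁, ?_⟩
            simp only [Z]
            rw [if_pos ⟨hsm, hle⟩, Finset.mem_image]
            exact ⟨(l₁, l₂), Finset.mem_product.2 ⟨hl1, hl2s⟩, hl12.symm⟩
          have hqm : q + 1 ≠ m := by
            intro hqm
            apply hnot
            have : suf T acc (q + 1) (m - (q + 1)) s₁ ⊆ {[]} := by
              intro x hx
              rw [mem_suf, hqm, Nat.sub_self, List.length_eq_zero_iff] at hx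
              simp [hx.1]
            have := Finset.card_le_card this
            rw [hqm, Nat.sub_self] at this ⊢
            simp only [Finset.card_singleton] at this
            simp only [pow_zero, mul_one]
            omega
          refine ⟨s₁, l₁ ++ [a], l₂, ?_, ?_, hl2s, ?_, fun h => hqm h⟩
          · simp [hl12]
          · rw [mem_pre] at hl1 ⊢
            refine ⟨by simp [hl1.1], ?_⟩
            rw [path_append]
            refine ⟨s, hl1.2, s₁, ?_, rfl⟩
            rw [hl1.1]
            simpa using hs₁
          · rcases h (q + 1) hq s₁ with h | h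
            · exact h
            · exact absurd h hnot
    obtain ⟨_, _, _, _, _, _, _, hfalse⟩ := hinv m le_rfl
    exact hfalse rfl
  refine le_trans (Finset.card_le_card hcover) ?_
  refine le_trans Finset.card_biUnion_le ?_
  refine le_trans (Finset.sum_le_card_nsmul _ _ (β * (K₁ * K₂ * D ^ (m - 1))) ?_) ?_
  · intro q hq
    rw [Finset.mem_range] at hq
    refine le_trans Finset.card_biUnion_le ?_
    refine le_trans (Finset.sum_le_card_nsmul _ _ _ (fun τ _ => hZ q hq τ)) ?_
    rw [smul_eq_mul]
    exact Nat.mul_le_mul_right _ (hT q)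
  · rw [Finset.card_range, smul_eq_mul]
    exact le_of_eq (by ring)

end

end Pool.Agent.TH454.BW
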