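import Pool.Agent.TH454.BW.ObddFinal
import Pool.Agent.TH454.BW.Asy

/-!
# Unit distance graphs decided by machines of small width
-/

set_option autoImplicit false

namespace Pool.Agent.TH454.BW

open Pool.Agent.H607R2.BW

/-- the Euclidean plane -/
abbrev E2 : Type := EuclideanSpace ℝ (Fin 2)

/-- The unit distance graph of the points `P x`: `x` and `y` are adjacent if the distance of
`P x` and `P y` is `1`. -/
def unitGraph {V X : Type} [MetricSpace X] (P : V → X) : SimpleGraph V where
  Adj x y := dist (P x) (P y) = 1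
  symm := ⟨fun x y h => by rw [dist_comm]; exact h⟩
  loopless := ⟨fun x h => by simp at h⟩

theorem unit_free {V : Type} (P : V → E2) (hP : Function.Injective P) :
    (completeBipartiteGraph (Fin 2) (Fin 3)).Free (unitGraph P) := by
  rintro ⟨f⟩
  have hinj : Function.Injective f := f.injective
  have hadj : ∀ (i : Fin 2) (j : Fin 3), dist (P (f (Sum.inr j))) (P (f (Sum.inl i))) = 1 := by
    intro i j
    have h : (completeBipartiteGraph (Fin 2) (Fin 3)).Adj (Sum.inr j) (Sum.inl i) := by
      simp [completeBipartiteGraph]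
    exact f.toHom.map_adj h
  have hc : P (f (Sum.inl 0)) ≠ P (f (Sum.inl 1)) := by
    intro h; have := hinj (hP h); simp at this
  have hp : ∀ i j : Fin 3, i ≠ j → P (f (Sum.inr i)) ≠ P (f (Sum.inr j)) := by
    intro i j hij h; have := hinj (hP h); simp at this; exact hij this
  have := EuclideanGeometry.eq_of_dist_eq_of_dist_eq_of_finrank_eq_two
    (V := E2) (P := E2) (by simp) hc (hp 0 1 (by decide)) (hadj 0 0) (hadj 0 1) (hadj 0 2)
    (hadj 1 0) (hadj 1 1) (hadj 1 2)
  rcases this with h | h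
  · exact hp 2 0 (by decide) h
  · exact hp 2 1 (by decide) h

theorem finite_of_two {α : Type} {S : Set α}
    (h : ∀ a ∈ S, ∀ b ∈ S, ∀ c ∈ S, a ≠ b → a ≠ c → b ≠ c → False) : S.Finite := by
  classical
  by_cases hs : S.Subsingleton
  · exact hs.finite
  · rw [Set.not_subsingleton_iff] at hs
    obtain ⟨a, ha, b, hb, hab⟩ := hs
    refine (Set.toFinite {a, b}).subset fun c hc => ?_
    by_contra hcon
    simp only [Set.mem_insert_iff, Set.mem_singleton_iff, not_or] at hcon
    exact h a ha b hb c hc hab (Ne.symm hcon.1) (Ne.symm hcon.2)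

theorem circle_infinite : {v : E2 | ‖v‖ = 1}.Infinite := by
  have h1 : (1 : Cardinal) < Module.rank ℝ E2 := by
    rw [← Module.finrank_eq_rank, finrank_euclideanSpace_fin]
    norm_num
  have h2 := isPreconnected_sphere h1 (0 : E2) 1
  have h3 : (Metric.sphere (0 : E2) 1).Nontrivial := by
    obtain ⟨v, hv⟩ : ∃ v : E2, ‖v‖ = 1 := ⟨EuclideanSpace.single 0 1, by simp⟩
    refine ⟨v, by simp [hv], -v, by simp [hv], fun h => ?_⟩
    have h4 : v = 0 := by
      have : (2 : ℝ) • v = 0 := by
        rw [two_smul]; nth_rewrite 2 [h]; simp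
      simpa using this
    rw [h4] at hv; simp at hv
  have h4 := h2.infinite_of_nontrivial h3
  refine h4.mono fun v hv => ?_
  simpa using hv

theorem not_collinear_of_dist {r a b c : E2} (ha : dist a r = 1) (hb : dist b r = 1)
    (hc : dist c r = 1) (hab : a ≠ b) (hac : a ≠ c) (hbc : b ≠ c) :
    ¬ Collinear ℝ ({a, b, c} : Set E2) := by
  have h1 : EuclideanGeometry.Cospherical ({a, b, c} : Set E2) := by
    refine ⟨r, 1, fun p hp => ?_⟩
    simp only [Set.mem_insert_iff, Set.mem_singleton_iff] at hp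
    rcases hp with rfl | rfl | rfl <;> assumption
  exact affineIndependent_iff_not_collinear_set.1 (h1.affineIndependent_of_ne hab hac hbc)

theorem bad2 (d : E2) (hd : d ≠ 0) : {v : E2 | ‖v‖ = 1 ∧ dist v d = 1}.Finite := by
  refine finite_of_two fun a ha b hb c hc hab hac hbc => ?_
  have := EuclideanGeometry.eq_of_dist_eq_of_dist_eq_of_finrank_eq_two
    (V := E2) (P := E2) (by simp) (c₁ := 0) (c₂ := d) (Ne.symm hd) hab
    (r₁ := 1) (r₂ := 1) (by simpa using ha.1) (by simpa using hb.1) (by simpa using hc.1)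
    ha.2 hb.2 hc.2
  rcases this with h | h
  · exact hac h.symm
  · exact hbc h.symm

theorem bad3 (p q r : E2) (hpq : p ≠ q) :
    {v : E2 | ‖v‖ = 1 ∧ Collinear ℝ ({p, q, r + v} : Set E2)}.Finite := by
  refine finite_of_two fun a ha b hb c hc hab hac hbc => ?_
  have hm : ∀ v : E2, Collinear ℝ ({p, q, r + v} : Set E2) → r + v ∈ line[ℝ, p, q] :=
    fun v hv => hv.mem_affineSpan_of_mem_of_ne (by simp) (by simp) (by simp) hpq
  refine not_collinear_of_dist (r := r) (a := r + a) (b := r + b) (c := r + c)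
    (by simpa using ha.1) (by simpa using hb.1) (by simpa using hc.1)
    (by simpa using hab) (by simpa using hac) (by simpa using hbc) ?_
  exact collinear_triple_of_mem_affineSpan_pair (hm _ ha.2) (hm _ hb.2) (hm _ hc.2)

theorem sub_mem_line {p q r v : E2} (hpq : p ≠ q)
    (h : Collinear ℝ ({p + v, q + v, r} : Set E2)) : r - v ∈ line[ℝ, p, q] := by
  have h1 : r ∈ line[ℝ, p + v, q + v] :=
    h.mem_affineSpan_of_mem_of_ne (by simp) (by simp) (by simp) (by simpa using hpq)
  rw [mem_affineSpan_pair_iff_exists_lineMap_eq] at h1 ⊢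
  obtain ⟨t, ht⟩ := h1
  refine ⟨t, ?_⟩
  rw [← ht]
  simp only [AffineMap.lineMap_apply, vsub_eq_sub, vadd_eq_add]
  module

theorem bad4 (p q r : E2) (hpq : p ≠ q) :
    {v : E2 | ‖v‖ = 1 ∧ Collinear ℝ ({p + v, q + v, r} : Set E2)}.Finite := by
  refine finite_of_two fun a ha b hb c hc hab hac hbc => ?_
  refine not_collinear_of_dist (r := r) (a := r - a) (b := r - b) (c := r - c)
    (by simpa using ha.1) (by simpa using hb.1) (by simpa using hc.1)
    (by simpa using hab) (by simpa using hac) (by simpa using hbc) ?_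
  exact collinear_triple_of_mem_affineSpan_pair (sub_mem_line hpq ha.2) (sub_mem_line hpq hb.2)
    (sub_mem_line hpq hc.2)

/-- the number of positions where two strings differ -/
def ham {m : ℕ} (x y : Str m) : ℕ := ∑ t, if x t = y t then 0 else 1

theorem ham_eq_zero {m : ℕ} {x y : Str m} : ham x y = 0 ↔ x = y := by
  unfold ham
  rw [Finset.sum_eq_zero_iff]
  constructor
  · intro h; funext t; by_contra hne; have := h t (Finset.mem_univ t); simp [hne] at this
  · rintro rfl; simp

theorem ham_succ {m : ℕ} (x y : Str (m + 1)) :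
    ham x y = (if x 0 = y 0 then 0 else 1) + ham (Fin.tail x) (Fin.tail y) := by
  unfold ham; rw [Fin.sum_univ_succ]; rfl

theorem perm1 {X Y Z : E2} (h : Collinear ℝ ({X, Y, Z} : Set E2)) :
    Collinear ℝ ({X, Z, Y} : Set E2) := by
  rwa [Set.pair_comm Z Y]

theorem perm2 {X Y Z : E2} (h : Collinear ℝ ({X, Y, Z} : Set E2)) :
    Collinear ℝ ({Y, Z, X} : Set E2) := by
  have : ({Y, Z, X} : Set E2) = {X, Y, Z} := by
    ext u; simp only [Set.mem_insert_iff, Set.mem_singleton_iff]; tauto
  rwa [this]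

theorem ustr_ext {m : ℕ} {z z' : Str (m + 1)} (h0 : z 0 = z' 0)
    (h1 : (Fin.tail z : Str m) = Fin.tail z') : z = z' := by
  funext i
  refine Fin.cases h0 (fun j => ?_) i
  exact congrFun h1 j

theorem exists_unit_cube (m : ℕ) : ∃ P : Str m → E2, Function.Injective P ∧
    (∀ x y z : Str m, x ≠ y → x ≠ z → y ≠ z → ¬ Collinear ℝ ({P x, P y, P z} : Set E2)) ∧
    ∀ x y : Str m, dist (P x) (P y) = 1 ↔ ham x y = 1 := by
  classical
  induction m with
  | zero =>
    refine ⟨fun _ => 0, fun x y _ => Subsingleton.elim _ _,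
      fun x y z h => absurd (Subsingleton.elim _ _) h, fun x y => ?_⟩
    simp [ham]
  | succ m ih =>
    obtain ⟨P, hinj, hcol, hdist⟩ := ih
    let B : Str m → Str m → Str m → Set E2 := fun x y z => {v | ‖v‖ = 1 ∧ (v = P y - P x ∨
      (P x ≠ P y ∧ (dist v (P y - P x) = 1 ∨ Collinear ℝ ({P x, P y, P z + v} : Set E2) ∨
        Collinear ℝ ({P x + v, P y + v, P z} : Set E2))))}
    have hB : (⋃ x : Str m, ⋃ y : Str m, ⋃ z : Str m, B x y z).Finite := by
      refine Set.finite_iUnion fun x => Set.finite_iUnion fun y => Set.finite_iUnion fun z => ?_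
      by_cases hxy : P x = P y
      · refine (Set.finite_singleton (P y - P x)).subset fun v hv => ?_
        rcases hv.2 with h | h
        · exact h
        · exact absurd hxy h.1
      · refine ((Set.finite_singleton (P y - P x)).union ((bad2 (P y - P x)
          (sub_ne_zero.2 (Ne.symm hxy))).union ((bad3 (P x) (P y) (P z) hxy).union
          (bad4 (P x) (P y) (P z) hxy)))).subset fun v hv => ?_
        rcases hv.2 with h | ⟨_, h | h | h⟩
        · exact Or.inl h
        · exact Or.inr (Or.inl ⟨hv.1, h⟩)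
        · exact Or.inr (Or.inr (Or.inl ⟨hv.1, h⟩))
        · exact Or.inr (Or.inr (Or.inr ⟨hv.1, h⟩))
    obtain ⟨v, hv1, hvB⟩ := circle_infinite.exists_notMem_finite hB
    have hv1 : ‖v‖ = 1 := hv1
    have hv : ∀ x y z : Str m, v ≠ P y - P x ∧ (P x ≠ P y → dist v (P y - P x) ≠ 1 ∧
        ¬ Collinear ℝ ({P x, P y, P z + v} : Set E2) ∧
        ¬ Collinear ℝ ({P x + v, P y + v, P z} : Set E2)) := by
      intro x y z
      have h : v ∉ B x y z := by
        intro h
        exact hvB (Set.mem_iUnion.2 ⟨x, Set.mem_iUnion.2 ⟨y, Set.mem_iUnion.2 ⟨z, h⟩⟩⟩)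
      refine ⟨fun h1 => h ⟨hv1, Or.inl h1⟩, fun hne => ⟨fun h1 => h ⟨hv1, Or.inr ⟨hne, Or.inl h1⟩⟩,
        fun h1 => h ⟨hv1, Or.inr ⟨hne, Or.inr (Or.inl h1)⟩⟩,
        fun h1 => h ⟨hv1, Or.inr ⟨hne, Or.inr (Or.inr h1)⟩⟩⟩⟩
    have K2 : ∀ a b c : Str m, a ≠ b → a ≠ c → b ≠ c →
        ¬ Collinear ℝ ({P a + v, P b + v, P c + v} : Set E2) := by
      intro a b c hab hac hbc h
      have h1 := sub_mem_line (hinj.ne hab) h
      rw [add_sub_cancel_right] at h1
      exact hcol a b c hab hac hbc (collinear_triple_of_mem_affineSpan_pair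
        (left_mem_affineSpan_pair _ _ _) (right_mem_affineSpan_pair _ _ _) h1)
    have K3 : ∀ a b c : Str m, a ≠ b → ¬ Collinear ℝ ({P a, P b, P c + v} : Set E2) :=
      fun a b c hab => ((hv a b c).2 (hinj.ne hab)).2.1
    have K4 : ∀ a b c : Str m, a ≠ b → ¬ Collinear ℝ ({P a + v, P b + v, P c} : Set E2) :=
      fun a b c hab => ((hv a b c).2 (hinj.ne hab)).2.2
    let Q : Str (m + 1) → E2 := fun z => bif z 0 then P (Fin.tail z) + v else P (Fin.tail z)
    have Qt : ∀ z : Str (m + 1), z 0 = true → Q z = P (Fin.tail z) + v := by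
      intro z h; simp only [Q, h, cond_true]
    have Qf : ∀ z : Str (m + 1), z 0 = false → Q z = P (Fin.tail z) := by
      intro z h; simp only [Q, h, cond_false]
    have hne : ∀ z z' : Str (m + 1), z ≠ z' → z 0 = z' 0 →
        (Fin.tail z : Str m) ≠ Fin.tail z' := fun z z' h h0 h1 => h (ustr_ext h0 h1)
    refine ⟨Q, ?_, ?_, ?_⟩
    · intro z z' h
      rcases hz : z 0 with _ | _ <;> rcases hz' : z' 0 with _ | _
      · rw [Qf z hz, Qf z' hz'] at h
        exact ustr_ext (hz.trans hz'.symm) (hinj h)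
      · rw [Qf z hz, Qt z' hz'] at h
        exact absurd (by rw [h]; abel) (hv (Fin.tail z') (Fin.tail z) (Fin.tail z)).1
      · rw [Qt z hz, Qf z' hz'] at h
        exact absurd (by rw [← h]; abel) (hv (Fin.tail z) (Fin.tail z') (Fin.tail z)).1
      · rw [Qt z hz, Qt z' hz'] at h
        exact ustr_ext (hz.trans hz'.symm) (hinj (add_right_cancel h))
    · intro x y z hxy hxz hyz h
      rcases hx : x 0 with _ | _ <;> rcases hy : y 0 with _ | _ <;> rcases hz : z 0 with _ | _
      · rw [Qf x hx, Qf y hy, Qf z hz] at h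
        exact hcol _ _ _ (hne _ _ hxy (hx.trans hy.symm)) (hne _ _ hxz (hx.trans hz.symm))
          (hne _ _ hyz (hy.trans hz.symm)) h
      · rw [Qf x hx, Qf y hy, Qt z hz] at h
        exact K3 _ _ _ (hne _ _ hxy (hx.trans hy.symm)) h
      · rw [Qf x hx, Qt y hy, Qf z hz] at h
        exact K3 _ _ _ (hne _ _ hxz (hx.trans hz.symm)) (perm1 h)
      · rw [Qf x hx, Qt y hy, Qt z hz] at h
        exact K4 _ _ _ (hne _ _ hyz (hy.trans hz.symm)) (perm2 h)
      · rw [Qt x hx, Qf y hy, Qf z hz] at h
        exact K3 _ _ _ (hne _ _ hyz (hy.trans hz.symm)) (perm2 h)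
      · rw [Qt x hx, Qf y hy, Qt z hz] at h
        exact K4 _ _ _ (hne _ _ hxz (hx.trans hz.symm)) (perm1 h)
      · rw [Qt x hx, Qt y hy, Qf z hz] at h
        exact K4 _ _ _ (hne _ _ hxy (hx.trans hy.symm)) h
      · rw [Qt x hx, Qt y hy, Qt z hz] at h
        exact K2 _ _ _ (hne _ _ hxy (hx.trans hy.symm)) (hne _ _ hxz (hx.trans hz.symm))
          (hne _ _ hyz (hy.trans hz.symm)) h
    · have key : ∀ a b : Str m, dist (P a + v) (P b) = 1 ↔ ham a b = 0 := by
        intro a b
        rw [ham_eq_zero]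
        constructor
        · intro h
          by_contra hab
          apply ((hv a b a).2 (hinj.ne hab)).1
          rw [dist_eq_norm] at h ⊢
          rw [← h]; congr 1; abel
        · rintro rfl
          rw [dist_eq_norm, add_sub_cancel_left]; exact hv1
      intro z z'
      rw [ham_succ]
      rcases hz : z 0 with _ | _ <;> rcases hz' : z' 0 with _ | _
      · rw [Qf z hz, Qf z' hz', hdist]; simp
      · rw [Qf z hz, Qt z' hz', dist_comm, key]
        have : ham (Fin.tail z') (Fin.tail z : Str m) = 0 ↔ ham (Fin.tail z : Str m) (Fin.tail z') = 0 := by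
          rw [ham_eq_zero, ham_eq_zero]; exact eq_comm
        rw [this]; simp
      · rw [Qt z hz, Qf z' hz', key]; simp
      · rw [Qt z hz, Qt z' hz', dist_add_right, hdist]; simp

/-- transitions of the machine which counts the positions where two strings differ -/
def cStep (_ : ℕ) (s : Fin 3) (a : Fin 2 → Bool) : Fin 3 :=
  if a 0 = a 1 then s else ⟨min (s + 1) 2, by omega⟩

theorem run_cStep : ∀ (n : ℕ) (g : Fin n → (Fin 2 → Bool)) (p : ℕ) (s : Fin 3),
    ((run cStep p s (List.ofFn g) : Fin 3) : ℕ) =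
      min ((s : ℕ) + ∑ t, if g t 0 = g t 1 then 0 else 1) 2 := by
  intro n
  induction n with
  | zero => intro g p s; simp [run]; omega
  | succ n ih =>
    intro g p s
    rw [List.ofFn_succ]
    simp only [run]
    rw [ih (fun i => g i.succ) (p + 1) _, Fin.sum_univ_succ]
    by_cases h : g 0 0 = g 0 1
    · simp [cStep, h]
    · simp only [cStep, h, if_false]
      omega

theorem cube_width {m : ℕ} (G : SimpleGraph (Str m)) (h : ∀ x y, G.Adj x y ↔ ham x y = 1) :
    GraphWidth 3 G := by
  refine ⟨cStep, 0, {1}, fun x => ?_⟩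
  have h1 := run_cStep m (fun t j => x j t) 0 0
  have h2 : ham (x 0) (x 1) = ∑ t, if x 0 t = x 1 t then 0 else 1 := rfl
  change G.Adj (x 0) (x 1) ↔ _
  rw [h, h2, Set.mem_singleton_iff, Fin.ext_iff]
  unfold word
  rw [h1]
  simp only [Fin.val_zero, Fin.val_one]
  omega

theorem cube_card {m : ℕ} (G : SimpleGraph (Str m)) (h : ∀ x y, ham x y = 1 → G.Adj x y) :
    m * 2 ^ m ≤ 2 * Nat.card G.edgeSet := by
  classical
  have h1 : ∀ x : Str m, m ≤ G.degree x := by
    intro x
    have h2 : Function.Injective (fun i : Fin m => Function.update x i (!x i)) := by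
      intro i j hij
      by_contra hne
      have := congrFun hij i
      simp [Function.update_of_ne hne] at this
    have h3 : (Finset.univ.image (fun i : Fin m => Function.update x i (!x i))).card = m := by
      rw [Finset.card_image_of_injective _ h2]; simp
    refine h3.symm.le.trans ?_
    rw [← SimpleGraph.card_neighborFinset_eq_degree]
    refine Finset.card_le_card fun y hy => ?_
    obtain ⟨i, _, rfl⟩ := Finset.mem_image.1 hy
    rw [SimpleGraph.mem_neighborFinset]
    apply h
    unfold ham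
    have : ∀ t : Fin m, (if x t = Function.update x i (!x i) t then 0 else 1) =
        if t = i then 1 else 0 := by
      intro t
      by_cases ht : t = i
      · subst ht; simp
      · simp [ht]
    rw [Finset.sum_congr rfl (fun t _ => this t)]
    simp
  have h2 := G.sum_degrees_eq_twice_card_edges
  rw [Nat.card_eq_fintype_card, ← SimpleGraph.edgeFinset_card, ← h2]
  calc m * 2 ^ m = ∑ _x : Str m, m := by simp [mul_comm]
    _ ≤ ∑ x : Str m, G.degree x := Finset.sum_le_sum fun x _ => h1 x

/-- bounded width and `m 2 ^ m / 2` unit distances, no three points on a line -/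
theorem unit_sharp (m : ℕ) : ∃ P : Str m → E2, Function.Injective P ∧
    (∀ x y z : Str m, x ≠ y → x ≠ z → y ≠ z → ¬ Collinear ℝ ({P x, P y, P z} : Set E2)) ∧
    ObddWidth 9 (fun x : Fin 2 → Str m => (unitGraph P).Adj (x 0) (x 1)) ∧
    m * 2 ^ m ≤ 2 * Nat.card (unitGraph P).edgeSet := by
  obtain ⟨P, h1, h2, h3⟩ := exists_unit_cube m
  exact ⟨P, h1, h2, obdd_of_width (w := 3) (cube_width _ h3),
    cube_card _ fun x y h => (h3 x y).2 h⟩

theorem unit_nobdd (m β : ℕ) (P : Str m → E2) (hP : Function.Injective P)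
    (h : HasNObdd β (fun x : Fin 2 → Str m => (unitGraph P).Adj (x 0) (x 1))) :
    Nat.card (unitGraph P).edgeSet ≤ β * m * 2 ^ m := by
  have := kst_nobdd_bound m β 2 3 (unitGraph P) (by norm_num) (by norm_num) h (unit_free P hP)
  have e : (2 - 1) * (3 - 1) = 2 := rfl
  rw [e] at this
  omega

theorem unit_obdd (m w : ℕ) (P : Str m → E2) (hP : Function.Injective P)
    (h : ObddWidth w (fun x : Fin 2 → Str m => (unitGraph P).Adj (x 0) (x 1))) :
    Nat.card (unitGraph P).edgeSet ≤ 2 * (w * m * 2 ^ m) := by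
  have := kst_obdd_bound m w 2 3 (unitGraph P) (by norm_num) (by norm_num) h (unit_free P hP)
  have e : (2 - 1) * (3 - 1) = 2 := rfl
  rw [e] at this
  omega

end Pool.Agent.TH454.BW
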