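import Pool.Agent.TH454.BW.Unit

/-!
# Unit distances in space decided by machines of small width
-/

set_option autoImplicit false

namespace Pool.Agent.TH454.BW

open Pool.Agent.H607R2.BW

/-- Euclidean space of dimension three -/
abbrev E3 : Type := EuclideanSpace ℝ (Fin 3)

open scoped RealInnerProductSpace in
theorem inner_of_dist {a b c d : E3} (h1 : dist a c = 1) (h2 : dist b c = 1) (h3 : dist a d = 1)
    (h4 : dist b d = 1) : inner ℝ (b - a) (d - c) = 0 := by
  have e : ∀ u v : E3, dist u v = 1 → inner ℝ (u - v) (u - v) = 1 := by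
    intro u v h
    rw [real_inner_self_eq_norm_sq, ← dist_eq_norm, h]; norm_num
  have k1 := e a c h1
  have k2 := e b c h2
  have k3 := e a d h3
  have k4 := e b d h4
  simp only [inner_sub_left, inner_sub_right] at k1 k2 k3 k4 ⊢
  rw [real_inner_comm a c] at k1
  rw [real_inner_comm b c] at k2
  rw [real_inner_comm a d] at k3
  rw [real_inner_comm b d] at k4
  have s1 := real_inner_comm a c
  have s2 := real_inner_comm b c
  have s3 := real_inner_comm a d
  have s4 := real_inner_comm b d
  linarith

theorem li_of_sphere {r a b c : E3} (ha : dist a r = 1) (hb : dist b r = 1) (hc : dist c r = 1)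
    (hab : a ≠ b) (hac : a ≠ c) (hbc : b ≠ c) : LinearIndependent ℝ ![b - a, c - a] := by
  have h1 : EuclideanGeometry.Cospherical ({a, b, c} : Set E3) := by
    refine ⟨r, 1, fun p hp => ?_⟩
    simp only [Set.mem_insert_iff, Set.mem_singleton_iff] at hp
    rcases hp with rfl | rfl | rfl <;> assumption
  have h2 := h1.affineIndependent_of_ne hab hac hbc
  rw [affineIndependent_iff_linearIndependent_vsub ℝ _ (0 : Fin 3)] at h2
  have h3 := h2.comp (fun i : Fin 2 => (⟨i.succ, Fin.succ_ne_zero i⟩ : {x : Fin 3 // x ≠ 0}))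
    (by
      intro i j hij
      simpa [Subtype.ext_iff] using hij)
  have e : ((fun i : {x : Fin 3 // x ≠ 0} => ![a, b, c] ↑i -ᵥ ![a, b, c] 0) ∘
      fun i : Fin 2 => (⟨i.succ, Fin.succ_ne_zero i⟩ : {x : Fin 3 // x ≠ 0})) =
      ![b - a, c - a] := by
    funext i
    fin_cases i <;> simp
  rw [e] at h3
  exact h3

theorem unit_free3 {V : Type} (P : V → E3) (hP : Function.Injective P) :
    (completeBipartiteGraph (Fin 3) (Fin 3)).Free (unitGraph P) := by
  rintro ⟨f⟩
  have hinj : Function.Injective f := f.injective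
  have hadj : ∀ (i j : Fin 3), dist (P (f (Sum.inr j))) (P (f (Sum.inl i))) = 1 := by
    intro i j
    have h : (completeBipartiteGraph (Fin 3) (Fin 3)).Adj (Sum.inr j) (Sum.inl i) := by
      simp [completeBipartiteGraph]
    exact f.toHom.map_adj h
  have hc : ∀ i j : Fin 3, i ≠ j → P (f (Sum.inl i)) ≠ P (f (Sum.inl j)) := by
    intro i j hij h; have := hinj (hP h); simp at this; exact hij this
  have hp : ∀ i j : Fin 3, i ≠ j → P (f (Sum.inr i)) ≠ P (f (Sum.inr j)) := by
    intro i j hij h; have := hinj (hP h); simp at this; exact hij this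
  set p : Fin 3 → E3 := fun i => P (f (Sum.inr i)) with hpd
  set c : Fin 3 → E3 := fun i => P (f (Sum.inl i)) with hcd
  have hd : ∀ i j, dist (p j) (c i) = 1 := hadj
  have hl1 : LinearIndependent ℝ ![p 1 - p 0, p 2 - p 0] :=
    li_of_sphere (hd 0 0) (hd 0 1) (hd 0 2) (hp 0 1 (by decide)) (hp 0 2 (by decide))
      (hp 1 2 (by decide))
  have hl2 : LinearIndependent ℝ ![c 1 - c 0, c 2 - c 0] :=
    li_of_sphere (r := p 0) (by rw [dist_comm]; exact hd 0 0) (by rw [dist_comm]; exact hd 1 0)
      (by rw [dist_comm]; exact hd 2 0) (hc 0 1 (by decide)) (hc 0 2 (by decide))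
      (hc 1 2 (by decide))
  have h1 := finrank_span_eq_card hl1
  have h2 := finrank_span_eq_card hl2
  have hle : Submodule.span ℝ (Set.range ![c 1 - c 0, c 2 - c 0]) ≤
      (Submodule.span ℝ (Set.range ![p 1 - p 0, p 2 - p 0]))ᗮ := by
    rw [Submodule.span_le]
    rintro _ ⟨i, rfl⟩
    rw [SetLike.mem_coe, Submodule.mem_orthogonal]
    intro u hu
    induction hu using Submodule.span_induction with
    | mem x hx =>
      obtain ⟨j, rfl⟩ := hx
      fin_cases i <;> fin_cases j <;> simp only [Matrix.cons_val_zero, Matrix.cons_val_one,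
        Fin.zero_eta, Fin.mk_one, Matrix.cons_val_fin_one] <;>
        exact inner_of_dist (hd _ _) (hd _ _) (hd _ _) (hd _ _)
    | zero => simp
    | add x y _ _ hx hy => rw [inner_add_left, hx, hy, add_zero]
    | smul a x _ hx => rw [inner_smul_left, hx, mul_zero]
  have h3 := Submodule.finrank_mono hle
  have h4 := (Submodule.span ℝ (Set.range ![p 1 - p 0, p 2 - p 0])).finrank_add_finrank_orthogonal
  rw [finrank_euclideanSpace_fin] at h4
  simp only [Fintype.card_fin] at h1 h2
  omega

theorem unit3_nobdd (m β : ℕ) (P : Str m → E3) (hP : Function.Injective P)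
    (h : HasNObdd β (fun x : Fin 2 → Str m => (unitGraph P).Adj (x 0) (x 1))) :
    Nat.card (unitGraph P).edgeSet ≤ 2 * (β * m * 2 ^ m) := by
  have := kst_nobdd_bound m β 3 3 (unitGraph P) (by norm_num) (by norm_num) h (unit_free3 P hP)
  have e : (3 - 1) * (3 - 1) = 4 := rfl
  rw [e] at this
  omega

theorem unit3_obdd (m w : ℕ) (P : Str m → E3) (hP : Function.Injective P)
    (h : ObddWidth w (fun x : Fin 2 → Str m => (unitGraph P).Adj (x 0) (x 1))) :
    Nat.card (unitGraph P).edgeSet ≤ 4 * (w * m * 2 ^ m) := by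
  have := kst_obdd_bound m w 3 3 (unitGraph P) (by norm_num) (by norm_num) h (unit_free3 P hP)
  have e : (3 - 1) * (3 - 1) = 4 := rfl
  rw [e] at this
  omega

end Pool.Agent.TH454.BW
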