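import Pool.Agent.TH454.BW.Unit3

set_option autoImplicit false

namespace Pool.Agent.TH454.BW

open Pool.Agent.H607R2.BW

theorem unit3_asy (c c' : ℝ) (hc' : 0 < c') (hc : c < 1 / 3) :
    ∃ m₀ : ℕ, ∀ (m w : ℕ) (P : Str m → E3), m₀ ≤ m → Function.Injective P →
      ObddWidth w (fun x : Fin 2 → Str m => (unitGraph P).Adj (x 0) (x 1)) →
      c' * ((2 : ℝ) ^ m) ^ (4 / 3 : ℝ) ≤ Nat.card (unitGraph P).edgeSet →
      ((2 : ℝ) ^ m) ^ c < w := by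
  obtain ⟨m₀, hm₀⟩ := asy 4 c (1 / 3) (c' / 2) (by positivity) hc
  refine ⟨m₀, fun m w P hm hP hw he => ?_⟩
  by_contra hcon
  rw [not_lt] at hcon
  have h1 := unit3_obdd m w P hP hw
  have h2 := hm₀ m w hm hcon
  have h3 : (Nat.card (unitGraph P).edgeSet : ℝ) ≤ ((4 : ℕ) : ℝ) * (w * m * 2 ^ m) := by
    exact_mod_cast h1
  have h4 : (1 : ℝ) + (1 / 3 : ℝ) = 4 / 3 := by norm_num
  rw [h4] at h2
  have h5 : (0 : ℝ) < c' * ((2 : ℝ) ^ m) ^ (4 / 3 : ℝ) := by positivity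
  have h6 := he.trans (h3.trans h2)
  set X : ℝ := ((2 : ℝ) ^ m) ^ (4 / 3 : ℝ) with hX
  have h7 : c' / 2 * X = c' * X / 2 := by ring
  rw [h7] at h6
  linarith

end Pool.Agent.TH454.BW
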