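import Pool.Agent.TH454.BW.Bicyc
import Pool.Agent.TH454.BW.Bes

/-!
# Hypergraphs decided by machines with fewer than `n ^ (1 - δ)` states
-/

set_option autoImplicit false

namespace Pool.Agent.TH454.BW

open Pool.Agent.H607R2.BW

section

variable {σ A : Type}

open Classical in
/-- the branches whose labels satisfy a condition -/
noncomputable def restr (T : ℕ → Finset (σ × A × σ)) (P : ℕ → A → Prop) :
    ℕ → Finset (σ × A × σ) := fun p => (T p).filter (fun z => P p z.2.1)

open Classical in
theorem restr_card_le (T : ℕ → Finset (σ × A × σ)) (P : ℕ → A → Prop) (p : ℕ) :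
    (restr T P p).card ≤ (T p).card := by
  unfold restr
  exact Finset.card_filter_le _ _

theorem path_restr (T : ℕ → Finset (σ × A × σ)) (P : ℕ → A → Prop) (l : List A) :
    ∀ (p : ℕ) (s s' : σ), Path (restr T P) p s l s' ↔
      (Path T p s l s' ∧ ∀ (i : ℕ) (hi : i < l.length), P (p + i) l[i]) := by
  induction l with
  | nil =>
    intro p s s'
    simp [Path]
  | cons a l ih =>
    intro p s s'
    simp only [Path, ih, restr, Finset.mem_filter]
    constructor
    · rintro ⟨s₁, ⟨h1, h2⟩, h3, h4⟩
      refine ⟨⟨s₁, h1, h3⟩, ?_⟩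
      intro i hi
      cases i with
      | zero => simpa using h2
      | succ i =>
        have := h4 i (by simpa using hi)
        have e : p + (i + 1) = p + 1 + i := by omega
        rw [e]
        simpa using this
    · rintro ⟨⟨s₁, h1, h3⟩, h4⟩
      refine ⟨s₁, ⟨h1, ?_⟩, h3, ?_⟩
      · have := h4 0 (by simp)
        simpa using this
      · intro i hi
        have := h4 (i + 1) (by simpa using hi)
        have e : p + (i + 1) = p + 1 + i := by omega
        rw [e] at this
        simpa using this

end

/-- the strings have prescribed bits at given positions -/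
def Sep {m r s : ℕ} (t : Fin s → Fin m) (π : Fin r → Fin s → Bool) (x : Fin r → Str m) : Prop :=
  ∀ j i, x j (t i) = π j i

theorem trellis_sep {m r s β : ℕ} {R : (Fin r → Str m) → Prop} (h : HasTrellis β R)
    (t : Fin s → Fin m) (π : Fin r → Fin s → Bool) :
    HasTrellis β (fun x => R x ∧ Sep t π x) := by
  classical
  obtain ⟨σ, T, s₀, acc, hT, hR⟩ := h
  refine ⟨σ, restr T (fun p a => ∀ i, p = t i → ∀ j, a j = π j i), s₀, acc, ?_, ?_⟩
  · intro p
    exact (restr_card_le T _ p).trans (hT p)
  · intro x
    show (R x ∧ Sep t π x) ↔ _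
    rw [hR]
    simp only [path_restr]
    have key : Sep t π x ↔ ∀ (i : ℕ) (hi : i < (word x).length),
        ∀ i', 0 + i = t i' → ∀ j, (word x)[i] j = π j i' := by
      constructor
      · intro hs i hi i' he j
        simp only [word, List.getElem_ofFn]
        have e : (⟨i, by simpa [word] using hi⟩ : Fin m) = t i' := Fin.ext (by simpa using he)
        rw [e]
        exact hs j i'
      · intro h j i'
        have h1 := h (t i') (by simp [word]) i' (by simp) j
        simp only [word, List.getElem_ofFn] at h1
        exact h1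
    rw [key]
    constructor
    · rintro ⟨⟨s', hs', hp⟩, hq⟩
      exact ⟨s', hs', hp, hq⟩
    · rintro ⟨s', hs', hp, hq⟩
      exact ⟨⟨s', hs', hp⟩, hq⟩

/-- `n + 1` different strings are separated by `n` positions -/
theorem exists_positions {m : ℕ} (n : ℕ) : ∀ (x : Fin (n + 1) → Str m), Function.Injective x →
    ∃ t : Fin n → Fin m, Function.Injective (fun (j : Fin (n + 1)) (i : Fin n) => x j (t i)) := by
  induction n with
  | zero =>
    intro x _
    refine ⟨fun i => i.elim0, ?_⟩
    intro i j _
    exact Subsingleton.elim (α := Fin 1) i j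
  | succ n ih =>
    intro x hx
    obtain ⟨t, ht⟩ := ih (fun j => x j.succ) (fun i j h => Fin.succ_injective _ (hx h))
    have hp : ∃ p : Fin m, ∀ j : Fin (n + 1), (∀ i, x 0 (t i) = x j.succ (t i)) →
        x 0 p ≠ x j.succ p := by
      by_cases h : ∃ j : Fin (n + 1), ∀ i, x 0 (t i) = x j.succ (t i)
      · obtain ⟨j, hj⟩ := h
        have h1 : x 0 ≠ x j.succ := fun h => absurd (hx h) (Fin.succ_ne_zero j).symm
        obtain ⟨p, hp⟩ := Function.ne_iff.1 h1
        refine ⟨p, fun j' hj' => ?_⟩
        have : j' = j := by
          apply ht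
          funext i
          exact (hj' i).symm.trans (hj i)
        rw [this]
        exact hp
      · have h1 : x 0 ≠ x (Fin.succ 0) := fun h => absurd (hx h) (Fin.succ_ne_zero _).symm
        obtain ⟨p, _⟩ := Function.ne_iff.1 h1
        exact ⟨p, fun j' hj' => absurd ⟨j', hj'⟩ h⟩
    obtain ⟨p, hp⟩ := hp
    refine ⟨Fin.cons p t, ?_⟩
    intro i j hij
    have hij0 : x i p = x j p := by
      have := congrFun hij 0
      simpa using this
    have hij1 : ∀ a, x i (t a) = x j (t a) := by
      intro a
      have := congrFun hij a.succ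
      simpa using this
    induction i using Fin.cases with
    | zero =>
      induction j using Fin.cases with
      | zero => rfl
      | succ j => exact absurd hij0 (hp j hij1)
    | succ i =>
      induction j using Fin.cases with
      | zero => exact absurd hij0.symm (hp i (fun a => (hij1 a).symm))
      | succ j =>
        congr 1
        apply ht
        funext a
        exact hij1 a

theorem exists_sep {m r : ℕ} (hr : 1 ≤ r) (x : Fin r → Str m) (hx : Function.Injective x) :
    ∃ (t : Fin (r - 1) → Fin m) (π : Fin r → Fin (r - 1) → Bool),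
      Function.Injective π ∧ Sep t π x := by
  obtain ⟨n, rfl⟩ : ∃ n, r = n + 1 := ⟨r - 1, by omega⟩
  obtain ⟨t, ht⟩ := exists_positions n x hx
  exact ⟨t, fun j i => x j (t i), ht, fun j i => rfl⟩

/-- a role separated part contains a large part of the relation -/
theorem exists_sep_part {m r : ℕ} (hr : 1 ≤ r) (R : (Fin r → Str m) → Prop)
    (hR : ∀ x, R x → Function.Injective x) (C : ℕ)
    (hC : ∀ (t : Fin (r - 1) → Fin m) (π : Fin r → Fin (r - 1) → Bool), Function.Injective π →
      Nat.card {x // R x ∧ Sep t π x} ≤ C) :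
    Nat.card {x // R x} ≤ 2 ^ (r * (r - 1)) * m ^ (r - 1) * C := by
  classical
  let I := (Fin (r - 1) → Fin m) × (Fin r → Fin (r - 1) → Bool)
  let F : I → Finset (Fin r → Str m) := fun i =>
    if Function.Injective i.2 then Finset.univ.filter (fun x => R x ∧ Sep i.1 i.2 x) else ∅
  have h1 : (Finset.univ.filter (fun x => R x)) ⊆ (Finset.univ : Finset I).biUnion F := by
    intro x hx
    rw [Finset.mem_filter] at hx
    obtain ⟨t, π, hπ, hs⟩ := exists_sep hr x (hR x hx.2)
    rw [Finset.mem_biUnion]
    refine ⟨(t, π), Finset.mem_univ _, ?_⟩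
    simp only [F]
    rw [if_pos hπ, Finset.mem_filter]
    exact ⟨Finset.mem_univ _, hx.2, hs⟩
  have h2 : ∀ i ∈ (Finset.univ : Finset I), (F i).card ≤ C := by
    intro i _
    simp only [F]
    split_ifs with h
    · have := hC i.1 i.2 h
      rwa [Nat.card_eq_fintype_card, Fintype.card_subtype] at this
    · simp
  rw [Nat.card_eq_fintype_card, Fintype.card_subtype]
  refine le_trans (Finset.card_le_card h1) (le_trans Finset.card_biUnion_le ?_)
  refine le_trans (Finset.sum_le_card_nsmul _ _ C h2) ?_
  rw [Finset.card_univ, smul_eq_mul]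
  apply Nat.mul_le_mul_right
  simp only [I, Fintype.card_prod, Fintype.card_fin, Fintype.card_fun, Fintype.card_bool]
  rw [← pow_mul, mul_comm (r - 1) r, mul_comm]

/-- a large set of words has a small subset with few projections -/
theorem exists_bicyc_words {r : ℕ} (P : Finset (List (Fin r → Bool))) (q L : ℕ) (hL : 1 ≤ L)
    (hlen : ∀ u ∈ P, u.length = q) (hP : 2 * (L * (2 ^ ((q + 1) / L + 1) * 2 ^ q)) < P.card)
    (i j : Fin r) :
    ∃ S ⊆ P, S.card ≤ 3 * (L + 1) ∧
      (S.image (fun u => u.map (fun a => a i))).card +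
        (S.image (fun u => u.map (fun a => a j))).card + 1 ≤ S.card := by
  classical
  let pr : List (Fin r → Bool) → List Bool × List Bool :=
    fun l => (l.map (fun a => a i), l.map (fun a => a j))
  by_cases hf : ∃ b, 2 < (P.filter (fun u => pr u = b)).card
  · obtain ⟨b, hb⟩ := hf
    obtain ⟨S, hS, hS3⟩ := Finset.exists_subset_card_eq (n := 3) (by omega :
      3 ≤ (P.filter (fun u => pr u = b)).card)
    have hSb : ∀ u ∈ S, u.map (fun a => a i) = b.1 ∧ u.map (fun a => a j) = b.2 := by
      intro u hu
      have h1 := (Finset.mem_filter.1 (hS hu)).2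
      exact ⟨congrArg Prod.fst h1, congrArg Prod.snd h1⟩
    refine ⟨S, hS.trans (Finset.filter_subset _ _), by omega, ?_⟩
    have h1 : (S.image (fun u => u.map (fun a => a i))).card ≤ 1 := by
      rw [Finset.card_le_one]
      intro a ha c hc
      obtain ⟨u, hu, rfl⟩ := Finset.mem_image.1 ha
      obtain ⟨u', hu', rfl⟩ := Finset.mem_image.1 hc
      rw [(hSb u hu).1, (hSb u' hu').1]
    have h2 : (S.image (fun u => u.map (fun a => a j))).card ≤ 1 := by
      rw [Finset.card_le_one]
      intro a ha c hc
      obtain ⟨u, hu, rfl⟩ := Finset.mem_image.1 ha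
      obtain ⟨u', hu', rfl⟩ := Finset.mem_image.1 hc
      rw [(hSb u hu).2, (hSb u' hu').2]
    omega
  · push Not at hf
    set B : Finset (List Bool × List Bool) := P.image pr with hB
    have hBcard : L * (2 ^ ((q + 1) / L + 1) * 2 ^ q) < B.card := by
      have h1 : P.card ≤ 2 * B.card := by
        rw [hB]
        exact Finset.card_le_mul_card_image _ 2 (fun b _ => hf b)
      omega
    have hBW : ∀ z ∈ B, z.1 ∈ Wd Bool q ∧ z.2 ∈ Wd Bool q := by
      intro z hz
      obtain ⟨u, hu, rfl⟩ := Finset.mem_image.1 hz
      simp only [pr, mem_Wd, List.length_map, hlen u hu, and_self]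
    obtain ⟨S, hSB, hS1, hS2⟩ := exists_bicyc' B (2 ^ ((q + 1) / L + 1)) (2 ^ q) L (Wd Bool q)
      (Wd Bool q) (fun z hz => (hBW z hz).1) (fun z hz => (hBW z hz).2) (le_of_eq (card_Wd q))
      (le_of_eq (card_Wd q)) hBcard (by
        rw [← pow_mul, ← pow_succ']
        apply Nat.pow_lt_pow_right (by norm_num)
        have h1 := Nat.div_add_mod (q + 1) L
        have h2 := Nat.mod_lt (q + 1) (by omega : 0 < L)
        have h3 : ((q + 1) / L + 1) * L = L * ((q + 1) / L) + L := by ring
        omega)
    have hrep : ∀ b : List Bool × List Bool, ∃ u, b ∈ S → (u ∈ P ∧ pr u = b) := by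
      intro b
      by_cases hb : b ∈ S
      · obtain ⟨u, hu, hub⟩ := Finset.mem_image.1 (hSB hb)
        exact ⟨u, fun _ => ⟨hu, hub⟩⟩
      · exact ⟨[], fun h => absurd h hb⟩
    choose u hu using hrep
    have hc : (S.image u).card = S.card := by
      apply Finset.card_image_of_injOn
      intro b hb b' hb' h
      rw [← (hu b hb).2, ← (hu b' hb').2, h]
    refine ⟨S.image u, ?_, by rw [hc]; exact hS1, ?_⟩
    · intro x hx
      obtain ⟨b, hb, rfl⟩ := Finset.mem_image.1 hx
      exact (hu b hb).1
    · rw [hc]
      have h1 : ((S.image u).image (fun u => u.map (fun a => a i))).card ≤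
          (S.image Prod.fst).card := by
        apply Finset.card_le_card
        intro x hx
        rw [Finset.image_image, Finset.mem_image] at hx
        obtain ⟨b, hb, rfl⟩ := hx
        exact Finset.mem_image.2 ⟨b, hb, (congrArg Prod.fst (hu b hb).2).symm⟩
      have h2 : ((S.image u).image (fun u => u.map (fun a => a j))).card ≤
          (S.image Prod.snd).card := by
        apply Finset.card_le_card
        intro x hx
        rw [Finset.image_image, Finset.mem_image] at hx
        obtain ⟨b, hb, rfl⟩ := hx
        exact Finset.mem_image.2 ⟨b, hb, (congrArg Prod.snd (hu b hb).2).symm⟩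
      omega

/-- the numerical inequality behind the main step -/
theorem deficit (L k e : ℕ) (he : 0 < e) (heL : e ≤ 3 * (L + 1)) (hk : 36 * (L + 1) ^ 2 ≤ k) :
    2 * e + k / (6 * (L + 1)) ≤ k / e := by
  have h1 : k / (3 * (L + 1)) ≤ k / e := Nat.div_le_div_left heL he
  have h2 : 2 * (k / (6 * (L + 1))) ≤ k / (3 * (L + 1)) := by
    rw [Nat.le_div_iff_mul_le (by omega)]
    have h3 := Nat.div_mul_le_self k (6 * (L + 1))
    calc 2 * (k / (6 * (L + 1))) * (3 * (L + 1)) = k / (6 * (L + 1)) * (6 * (L + 1)) := by ring
      _ ≤ k := h3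
  have h4 : 6 * (L + 1) ≤ k / (6 * (L + 1)) := by
    rw [Nat.le_div_iff_mul_le (by omega)]
    calc 6 * (L + 1) * (6 * (L + 1)) = 36 * (L + 1) ^ 2 := by ring
      _ ≤ k := hk
  omega

/-- the main step: a role separated part of a hypergraph without `k` edges on few vertices -/
theorem wide_part (r m β k L : ℕ) (E : Finset (Finset (Str m))) (hr : 3 ≤ r) (hL : 1 ≤ L)
    (hk : 36 * (L + 1) ^ 2 ≤ k) (hm : 1 ≤ m)
    (hW : HasTrellis β (fun x : Fin r → Str m => Function.Injective x ∧
      (Finset.univ.image x) ∈ E))
    (hfree : ∀ T ⊆ E, T.card = k → (r - 2) * k < (T.biUnion id).card + k / (6 * (L + 1)))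
    (t : Fin (r - 1) → Fin m) (π : Fin r → Fin (r - 1) → Bool) (hπ : Function.Injective π) :
    Nat.card {x : Fin r → Str m // (Function.Injective x ∧
      (Finset.univ.image x) ∈ E) ∧ Sep t π x} ≤
      m * (β * (2 * (L * 2 ^ ((m + 1) / L + 1)) * (k * 2 ^ (m - 1)))) := by
  classical
  have hk0 : 144 ≤ k := by
    refine le_trans ?_ hk
    have : 2 ^ 2 ≤ (L + 1) ^ 2 := Nat.pow_le_pow_left (by omega) 2
    omega
  obtain ⟨σ, T, s₀, acc, hT, hR⟩ := trellis_sep hW t π
  have hcount : Nat.card {x : Fin r → Str m // (Function.Injective x ∧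
      (Finset.univ.image x) ∈ E) ∧ Sep t π x} ≤ (suf T acc 0 m s₀).card := by
    have hinj : Function.Injective
        (fun x : {x : Fin r → Str m // (Function.Injective x ∧
          (Finset.univ.image x) ∈ E) ∧ Sep t π x} =>
        (⟨word x.1, by
          rw [mem_suf]
          exact ⟨by simp [word], (hR x.1).1 x.2⟩⟩ :
            {l // l ∈ suf T acc 0 m s₀})) := by
      intro x y hxy
      have h3 : word x.1 = word y.1 := congrArg Subtype.val hxy
      have h4 := List.ofFn_injective h3
      apply Subtype.ext
      funext j t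
      exact congrFun (congrFun h4 t) j
    have h5 := Nat.card_le_card_of_injective _ hinj
    have h6 : Nat.card {l // l ∈ suf T acc 0 m s₀} = (suf T acc 0 m s₀).card := by
      rw [Nat.card_eq_fintype_card, Fintype.card_coe]
    rw [h6] at h5
    exact h5
  refine hcount.trans ?_
  let j1 : Fin r := ⟨0, by omega⟩
  let j2 : Fin r := ⟨1, by omega⟩
  let j3 : Fin r := ⟨2, by omega⟩
  let J : Finset (Fin r) := ((Finset.univ.erase j1).erase j2).erase j3
  have hJ : J.card = r - 3 := by
    have h12 : j2 ≠ j1 := by intro h; have := congrArg Fin.val h; simp [j1, j2] at this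
    have h13 : j3 ≠ j1 := by intro h; have := congrArg Fin.val h; simp [j1, j3] at this
    have h23 : j3 ≠ j2 := by intro h; have := congrArg Fin.val h; simp [j2, j3] at this
    simp only [J]
    rw [Finset.card_erase_of_mem, Finset.card_erase_of_mem, Finset.card_erase_of_mem,
      Finset.card_univ, Fintype.card_fin]
    · omega
    · exact Finset.mem_univ _
    · exact Finset.mem_erase.2 ⟨h12, Finset.mem_univ _⟩
    · exact Finset.mem_erase.2 ⟨h23, Finset.mem_erase.2 ⟨h13, Finset.mem_univ _⟩⟩
  -- thresholds
  have hcut := cut2 T β m hT s₀ acc (fun q => 2 * (L * (2 ^ ((q + 1) / L + 1) * 2 ^ q)))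
    (fun q => (k - 1) * 2 ^ (m - q)) hm
    (by
      have : 0 < 2 * (L * (2 ^ ((0 + 1) / L + 1) * 2 ^ 0)) := by positivity
      exact this)
    (by simp only [Nat.sub_self, pow_zero, mul_one]; omega) (by
      intro q hq s
      by_contra hcon
      push Not at hcon
      obtain ⟨hP, hQ⟩ := hcon
      -- accepted words
      have hacc : ∀ u ∈ pre T s₀ q s, ∀ v ∈ suf T acc q (m - q) s,
          (Function.Injective (strs m (u ++ v)) ∧ Finset.univ.image (strs m (u ++ v)) ∈ E) ∧
            Sep t π (strs m (u ++ v)) := by
        intro u hu v hv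
        rw [mem_pre] at hu
        rw [mem_suf] at hv
        refine (hR _).2 ?_
        rw [word_strs _ (by rw [List.length_append, hu.1, hv.1]; omega)]
        obtain ⟨s', hs', h4⟩ := hv.2
        refine ⟨s', hs', ?_⟩
        rw [path_append]
        refine ⟨s, hu.2, ?_⟩
        rw [hu.1, zero_add]
        exact h4
      -- the words of an edge are determined by it
      have hdet : ∀ x y : Fin r → Str m, Sep t π x → Sep t π y →
          Finset.univ.image x = Finset.univ.image y → x = y := by
        intro x y hx hy hxy
        funext j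
        have h1 : x j ∈ Finset.univ.image y := by
          rw [← hxy]; exact Finset.mem_image_of_mem _ (Finset.mem_univ _)
        obtain ⟨i, _, hi⟩ := Finset.mem_image.1 h1
        have h2 : π i = π j := by
          funext a
          rw [← hx j a, ← hy i a, hi]
        rw [← hi, hπ h2]
      have lP : ∀ u ∈ pre T s₀ q s, u.length = q := fun u hu => ((mem_pre T).1 hu).1
      have lQ : ∀ v ∈ suf T acc q (m - q) s, v.length = m - q := fun v hv => ((mem_suf T).1 hv).1
      have hwinj : ∀ u ∈ pre T s₀ q s, ∀ v ∈ suf T acc q (m - q) s, ∀ u' ∈ pre T s₀ q s,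
          ∀ v' ∈ suf T acc q (m - q) s,
          Finset.univ.image (strs m (u ++ v)) = Finset.univ.image (strs m (u' ++ v')) →
          u = u' ∧ v = v' := by
        intro u hu v hv u' hu' v' hv' h
        have h1 := hdet _ _ (hacc u hu v hv).2 (hacc u' hu' v' hv').2 h
        have h2 := strs_inj (by rw [List.length_append, lP u hu, lQ v hv]; omega)
          (by rw [List.length_append, lP u' hu', lQ v' hv']; omega) h1
        exact List.append_inj h2 (by rw [lP u hu, lP u' hu'])
      -- the star
      obtain ⟨v, hv, hv1, yv, hyv⟩ := exists_star _ (m - q) k lQ hQ j2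
      -- the bicyclic set of prefixes
      obtain ⟨S, hSP, hS1, hS2⟩ := exists_bicyc_words (pre T s₀ q s) q L hL lP hP j1 j3
      -- the size of `S`
      have hSne : S.Nonempty := by
        rw [← Finset.card_pos]; omega
      set e₁ := S.card with he₁
      have he3 : 1 ≤ e₁ := by omega
      have hM1 := deficit L k e₁ he3 hS1 hk
      set M := k / e₁ with hM
      have hMk : e₁ * M + k % e₁ = k := Nat.div_add_mod k e₁
      have hrem : k % e₁ < e₁ := Nat.mod_lt _ (by omega)
      have hi1 : 0 < (S.image (fun u => u.map (fun a => a j1))).card :=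
        Finset.card_pos.2 (hSne.image _)
      have hMlt : M < k := Nat.div_lt_self (by omega) (by omega)
      obtain ⟨S0, hS0, hS0c⟩ := Finset.exists_subset_card_eq (s := S) (n := k % e₁) (by omega)
      -- pairs
      let Pr : Finset (List (Fin r → Bool) × ℕ) :=
        (S ×ˢ Finset.range M) ∪ (S0 ×ˢ {M})
      have hPrmem : ∀ z ∈ Pr, z.1 ∈ S ∧ z.2 < k ∧ z.2 ≤ M := by
        intro z hz
        rcases Finset.mem_union.1 hz with h | h
        · have := Finset.mem_product.1 h
          have h2 := Finset.mem_range.1 this.2
          exact ⟨this.1, by omega, by omega⟩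
        · have := Finset.mem_product.1 h
          have h2 := Finset.mem_singleton.1 this.2
          exact ⟨hS0 this.1, by omega, by omega⟩
      have hPrc : Pr.card = k := by
        rw [Finset.card_union_of_disjoint, Finset.card_product, Finset.card_product,
          Finset.card_range, Finset.card_singleton, hS0c, mul_one, ← he₁]
        · exact hMk
        · rw [Finset.disjoint_left]
          intro z hz hz'
          have h1 := Finset.mem_range.1 (Finset.mem_product.1 hz).2
          have h2 := Finset.mem_singleton.1 (Finset.mem_product.1 hz').2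
          omega
      let vv : ℕ → List (Fin r → Bool) := fun i => if h : i < k then v ⟨i, h⟩ else []
      have hvv : ∀ i, i < k → vv i ∈ suf T acc q (m - q) s ∧ (vv i).map (fun a => a j2) = yv := by
        intro i hi
        simp only [vv]
        rw [dif_pos hi]
        exact ⟨hv1 _, hyv _⟩
      have hvvinj : ∀ i i', i < k → i' < k → vv i = vv i' → i = i' := by
        intro i i' hi hi' h
        simp only [vv] at h
        rw [dif_pos hi, dif_pos hi'] at h
        exact congrArg Fin.val (hv h)
      let ed : List (Fin r → Bool) × ℕ → Finset (Str m) := fun z =>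
        Finset.univ.image (strs m (z.1 ++ vv z.2))
      have hTE : Pr.image ed ⊆ E := by
        intro e he
        obtain ⟨z, hz, rfl⟩ := Finset.mem_image.1 he
        obtain ⟨h1, h2, _⟩ := hPrmem z hz
        exact (hacc _ (hSP h1) _ (hvv z.2 h2).1).1.2
      have hTk : (Pr.image ed).card = k := by
        rw [Finset.card_image_of_injOn, hPrc]
        intro z hz z' hz' h
        obtain ⟨h1, h2, _⟩ := hPrmem z hz
        obtain ⟨h1', h2', _⟩ := hPrmem z' hz'
        have h3 := hwinj _ (hSP h1) _ (hvv z.2 h2).1 _ (hSP h1') _ (hvv z'.2 h2').1 h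
        exact Prod.ext h3.1 (hvvinj _ _ h2 h2' h3.2)
      have h1 := hfree _ hTE hTk
      -- the vertices
      let V0 : Finset (Str m) := ((S.image (fun u => u.map (fun a => a j1))) ×ˢ
        Finset.range (M + 1)).image (fun z => toStr m (z.1 ++ (vv z.2).map (fun a => a j1)))
      let V2 : Finset (Str m) := ((S.image (fun u => u.map (fun a => a j3))) ×ˢ
        Finset.range (M + 1)).image (fun z => toStr m (z.1 ++ (vv z.2).map (fun a => a j3)))
      let V1 : Finset (Str m) := S.image (fun u => toStr m (u.map (fun a => a j2) ++ yv))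
      let V3 : Finset (Str m) := Pr.biUnion (fun z => J.image (strs m (z.1 ++ vv z.2)))
      have h2 : (Pr.image ed).biUnion id ⊆ V3 ∪ (V0 ∪ (V2 ∪ V1)) := by
        intro x hx
        obtain ⟨e, he, hxe⟩ := Finset.mem_biUnion.1 hx
        obtain ⟨z, hz, rfl⟩ := Finset.mem_image.1 he
        obtain ⟨i, _, hi⟩ := Finset.mem_image.1 (show x ∈ Finset.univ.image _ from hxe)
        obtain ⟨g1, g2, g3⟩ := hPrmem z hz
        rw [Finset.mem_union, Finset.mem_union, Finset.mem_union]
        by_cases hi1 : i = j1
        · right; left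
          rw [Finset.mem_image]
          refine ⟨(z.1.map (fun a => a j1), z.2), ?_, ?_⟩
          · rw [Finset.mem_product, Finset.mem_range]
            exact ⟨Finset.mem_image_of_mem _ g1, by show z.2 < M + 1; omega⟩
          · rw [← hi, hi1]
            simp only [strs, List.map_append]
        · by_cases hi2 : i = j2
          · right; right; right
            rw [Finset.mem_image]
            refine ⟨z.1, g1, ?_⟩
            rw [← hi, hi2]
            simp only [strs, List.map_append]
            rw [(hvv z.2 g2).2]
          · by_cases hi3 : i = j3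
            · right; right; left
              rw [Finset.mem_image]
              refine ⟨(z.1.map (fun a => a j3), z.2), ?_, ?_⟩
              · rw [Finset.mem_product, Finset.mem_range]
                exact ⟨Finset.mem_image_of_mem _ g1, by show z.2 < M + 1; omega⟩
              · rw [← hi, hi3]
                simp only [strs, List.map_append]
            · left
              rw [Finset.mem_biUnion]
              refine ⟨z, hz, Finset.mem_image.2 ⟨i, ?_, hi⟩⟩
              exact Finset.mem_erase.2 ⟨hi3, Finset.mem_erase.2 ⟨hi2, Finset.mem_erase.2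
                ⟨hi1, Finset.mem_univ _⟩⟩⟩
      have h3 := Finset.card_le_card h2
      have h3' := Finset.card_union_le V3 (V0 ∪ (V2 ∪ V1))
      have h4 := Finset.card_union_le V0 (V2 ∪ V1)
      have h5 := Finset.card_union_le V2 V1
      have h6 : V0.card ≤ (S.image (fun u => u.map (fun a => a j1))).card * (M + 1) := by
        refine le_trans Finset.card_image_le ?_
        rw [Finset.card_product, Finset.card_range]
      have h7 : V2.card ≤ (S.image (fun u => u.map (fun a => a j3))).card * (M + 1) := by
        refine le_trans Finset.card_image_le ?_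
        rw [Finset.card_product, Finset.card_range]
      have h8 : V1.card ≤ e₁ := Finset.card_image_le
      have h8' : V3.card ≤ (r - 3) * k := by
        refine le_trans Finset.card_biUnion_le ?_
        refine le_trans (Finset.sum_le_card_nsmul _ _ (r - 3) ?_) ?_
        · intro e _
          rw [← hJ]
          exact Finset.card_image_le
        · rw [hPrc, smul_eq_mul, mul_comm]
      have h9 : (S.image (fun u => u.map (fun a => a j1))).card * (M + 1) +
          (S.image (fun u => u.map (fun a => a j3))).card * (M + 1) + (M + 1) ≤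
          e₁ * (M + 1) := by
        calc (S.image (fun u => u.map (fun a => a j1))).card * (M + 1) +
            (S.image (fun u => u.map (fun a => a j3))).card * (M + 1) + (M + 1)
            = ((S.image (fun u => u.map (fun a => a j1))).card +
              (S.image (fun u => u.map (fun a => a j3))).card + 1) * (M + 1) := by ring
          _ ≤ e₁ * (M + 1) := Nat.mul_le_mul_right _ hS2
      have h10 : e₁ * (M + 1) = e₁ * M + e₁ := by ring
      have h11 : (r - 2) * k = (r - 3) * k + k := by
        obtain ⟨r', rfl⟩ : ∃ r', r = r' + 3 := ⟨r - 3, by omega⟩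
        have e1 : r' + 3 - 2 = r' + 1 := by omega
        have e2 : r' + 3 - 3 = r' := by omega
        rw [e1, e2]
        ring
      omega)
  refine hcut.trans ?_
  refine le_trans (Finset.sum_le_card_nsmul _ _
    (β * (2 * (L * 2 ^ ((m + 1) / L + 1)) * (k * 2 ^ (m - 1)))) ?_) ?_
  · intro q hq
    rw [Finset.mem_range] at hq
    apply Nat.mul_le_mul_left
    have e : 2 ^ (m - 1) = 2 ^ q * 2 ^ (m - (q + 1)) := by
      rw [← pow_add]; congr 1; omega
    have h1 : 2 ^ ((q + 1) / L + 1) ≤ 2 ^ ((m + 1) / L + 1) := by
      apply Nat.pow_le_pow_right (by norm_num)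
      have := Nat.div_le_div_right (c := L) (by omega : q + 1 ≤ m + 1)
      omega
    calc 2 * (L * (2 ^ ((q + 1) / L + 1) * 2 ^ q)) * ((k - 1) * 2 ^ (m - (q + 1)))
        ≤ 2 * (L * (2 ^ ((m + 1) / L + 1) * 2 ^ q)) * (k * 2 ^ (m - (q + 1))) := by
          gcongr
          omega
      _ = 2 * (L * 2 ^ ((m + 1) / L + 1)) * (k * 2 ^ (m - 1)) := by
          rw [e]; ring
  · rw [Finset.card_range, smul_eq_mul]

/-- the bound for hypergraphs without `k` edges on few vertices -/
theorem wide_bound (r m w k L : ℕ) (E : Finset (Finset (Str m))) (hr : 3 ≤ r) (hL : 1 ≤ L)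
    (hk : 36 * (L + 1) ^ 2 ≤ k) (hE : ∀ s ∈ E, s.card = r) (hW : HyperWidth r w E)
    (hfree : ∀ T ⊆ E, T.card = k → (r - 2) * k < (T.biUnion id).card + k / (6 * (L + 1))) :
    r.factorial * E.card ≤ 2 ^ (r ^ 2 + 1) * (L * k * w * m ^ r * 2 ^ ((m + 1) / L) * 2 ^ m) := by
  rcases Nat.eq_zero_or_pos m with hm | hm
  · subst hm
    have : E = ∅ := by
      by_contra hne
      obtain ⟨s, hs⟩ := Finset.nonempty_iff_ne_empty.2 hne
      have h1 := hE s hs
      have h2 := Finset.card_le_univ s
      have h3 : Fintype.card (Str 0) = 1 := by simp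
      rw [h3, h1] at h2
      omega
    rw [this]
    simp
  classical
  have hW' := hW
  unfold HyperWidth at hW'
  have hT := trellis_of_width hW'
  rw [Fintype.card_fin] at hT
  have hT' : HasTrellis (2 ^ r * w) (fun x : Fin r → Str m => Function.Injective x ∧
      (Finset.univ.image x) ∈ E) := by
    convert hT
  have h1 := t_ORD m r E hE
  have h1' : Nat.card {x : Fin r → Str m // Function.Injective x ∧ Finset.univ.image x ∈ E} =
      r.factorial * E.card := by
    convert h1
  rw [← h1']
  have h2 := exists_sep_part (m := m) (r := r) (by omega)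
    (fun x : Fin r → Str m => Function.Injective x ∧ (Finset.univ.image x) ∈ E)
    (fun x hx => hx.1) _ (fun t π hπ => wide_part r m (2 ^ r * w) k L E hr hL hk hm hT' hfree t π hπ)
  refine h2.trans (le_of_eq ?_)
  obtain ⟨m', rfl⟩ : ∃ m', m = m' + 1 := ⟨m - 1, by omega⟩
  obtain ⟨r', rfl⟩ : ∃ r', r = r' + 1 := ⟨r - 1, by omega⟩
  simp only [Nat.add_sub_cancel]
  have e1 : 2 ^ ((r' + 1) ^ 2 + 1) = 2 ^ ((r' + 1) * r') * 2 ^ (r' + 1) * 2 := by
    rw [← pow_add, ← pow_succ]
    congr 1
    ring
  rw [e1]
  ring

end Pool.Agent.TH454.BW
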