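import Pool.Agent.TH454.BW.Wide

/-!
# Hypergraphs decided by machines with fewer than `n ^ (1 - δ)` states, asymptotic form
-/

set_option autoImplicit false

namespace Pool.Agent.TH454.BW

open Pool.Agent.H607R2.BW

theorem asy_wide (C r L : ℕ) (δ : ℝ) (hC : 1 ≤ C) (hr : 1 ≤ r) (hL1 : 1 ≤ L) (hδ : 0 < δ)
    (hL : 4 ≤ δ * L) :
    ∃ m₀ : ℕ, ∀ m w : ℕ, m₀ ≤ m → (w : ℝ) ≤ ((2 : ℝ) ^ m) ^ (1 - δ) →
      (C : ℝ) * w * m ^ r * 2 ^ ((m + 1) / L) * 2 ^ m ≤ ((2 : ℝ) ^ m) ^ (2 - δ / 2) := by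
  have hq : (1 : ℝ) < 2 ^ (δ / 4) := Real.one_lt_rpow (by norm_num) (by linarith)
  obtain ⟨m₁, hm₁⟩ := ASY2_poly r (2 * C) _ hq
  refine ⟨m₁, fun m w hm hw => ?_⟩
  have hp := hm₁ m hm
  rw [ASY2_rp] at hw
  rw [ASY2_rp]
  have e4 : ((2 : ℝ) ^ (δ / 4)) ^ m = 2 ^ (δ / 4 * m) := by
    rw [← Real.rpow_natCast, ← Real.rpow_mul (by norm_num)]
  have hm0 : (0 : ℝ) ≤ m := Nat.cast_nonneg m
  have hC1 : (1 : ℝ) ≤ C := by exact_mod_cast hC
  have hw0 : (0 : ℝ) ≤ w := Nat.cast_nonneg w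
  have hL0 : (0 : ℝ) < L := by exact_mod_cast hL1
  have h1 : (2 * C : ℝ) * m ^ r ≤ 2 ^ (δ / 4 * m) := by
    rw [← e4]
    refine le_trans ?_ hp
    calc (2 * C : ℝ) * m ^ r ≤ (2 * C : ℝ) ^ r * m ^ r := by
          apply mul_le_mul_of_nonneg_right _ (by positivity)
          calc (2 * C : ℝ) = (2 * C : ℝ) ^ 1 := (pow_one _).symm
            _ ≤ (2 * C : ℝ) ^ r := pow_le_pow_right₀ (by linarith) hr
      _ = ((2 * C : ℝ) * m) ^ r := (mul_pow _ _ _).symm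
      _ ≤ _ := by
          push_cast
          gcongr
          linarith
  have h2 : (2 : ℝ) ^ ((m + 1) / L) ≤ 2 * 2 ^ (δ / 4 * m) := by
    have h3 : (m + 1) / L ≤ m / L + 1 := by
      rw [Nat.div_le_iff_le_mul_add_pred hL1]
      have := Nat.div_add_mod m L
      have h4 := Nat.mod_lt m hL1
      have h5 : L * (m / L + 1) = L * (m / L) + L := by ring
      omega
    calc (2 : ℝ) ^ ((m + 1) / L) ≤ 2 ^ (m / L + 1) := pow_le_pow_right₀ (by norm_num) h3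
      _ = 2 * 2 ^ (m / L) := by ring
      _ ≤ 2 * 2 ^ (δ / 4 * m) := by
        apply mul_le_mul_of_nonneg_left _ (by norm_num)
        rw [← Real.rpow_natCast]
        apply Real.rpow_le_rpow_of_exponent_le (by norm_num)
        refine le_trans Nat.cast_div_le ?_
        rw [div_le_iff₀ hL0]
        nlinarith
  calc (C : ℝ) * w * m ^ r * 2 ^ ((m + 1) / L) * 2 ^ m
      ≤ (C : ℝ) * 2 ^ ((1 - δ) * m) * m ^ r * (2 * 2 ^ (δ / 4 * m)) * 2 ^ m := by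
        gcongr
    _ = ((2 * C : ℝ) * m ^ r) * (2 ^ ((1 - δ) * m) * 2 ^ (δ / 4 * m) * 2 ^ m) := by ring
    _ ≤ 2 ^ (δ / 4 * m) * (2 ^ ((1 - δ) * m) * 2 ^ (δ / 4 * m) * 2 ^ m) :=
        mul_le_mul_of_nonneg_right h1 (by positivity)
    _ = 2 ^ ((2 - δ / 2) * m) := by
        rw [← Real.rpow_natCast 2 m, ← Real.rpow_add (by norm_num), ← Real.rpow_add (by norm_num),
          ← Real.rpow_add (by norm_num)]
        congr 1
        ring

theorem wide_asy (r : ℕ) (hr : 3 ≤ r) (δ : ℝ) (hδ : 0 < δ) :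
    ∃ K : ℕ, 1 ≤ K ∧ ∀ k : ℕ, K ≤ k → ∃ m₀ : ℕ,
      ∀ (m w : ℕ) (E : Finset (Finset (Str m))), m₀ ≤ m →
      (w : ℝ) ≤ ((2 : ℝ) ^ m) ^ (1 - δ) → (∀ s ∈ E, s.card = r) → HyperWidth r w E →
      ((2 : ℝ) ^ m) ^ (2 - δ / 2) < E.card →
      ∃ T ⊆ E, T.card = k ∧ (T.biUnion id).card + k / K ≤ (r - 2) * k := by
  obtain ⟨L₀, hL₀⟩ := exists_nat_ge (4 / δ)
  set L := L₀ + 1 with hL
  have hL4 : 4 ≤ δ * L := by
    rw [div_le_iff₀ hδ] at hL₀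
    rw [hL]
    push_cast
    nlinarith
  have hK1 : 1 ≤ 36 * (L + 1) ^ 2 := Nat.succ_le_of_lt (by positivity)
  refine ⟨36 * (L + 1) ^ 2, hK1, fun k hk => ?_⟩
  have hk1 : 1 ≤ k := le_trans hK1 hk
  obtain ⟨m₀, hm₀⟩ := asy_wide (2 ^ (r ^ 2 + 1) * (L * k)) r L δ
    (Nat.one_le_iff_ne_zero.2 (by positivity)) (by omega) (by omega) hδ hL4
  refine ⟨m₀, fun m w E hm hw hE hW hcard => ?_⟩
  by_contra hcon
  push Not at hcon
  have hfree : ∀ T ⊆ E, T.card = k →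
      (r - 2) * k < (T.biUnion id).card + k / (6 * (L + 1)) := by
    intro T hT hTk
    have h1 := hcon T hT hTk
    have h2 : k / (36 * (L + 1) ^ 2) ≤ k / (6 * (L + 1)) := by
      apply Nat.div_le_div_left _ (by positivity)
      have h3 : 36 * (L + 1) ^ 2 = (6 * (L + 1)) * (6 * (L + 1)) := by ring
      rw [h3]
      exact Nat.le_mul_of_pos_right _ (by positivity)
    omega
  have h1 := wide_bound r m w k L E hr (by omega) hk hE hW hfree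
  have h2 := hm₀ m w hm hw
  have h3 : E.card ≤ 2 ^ (r ^ 2 + 1) * (L * k * w * m ^ r * 2 ^ ((m + 1) / L) * 2 ^ m) :=
    le_trans (Nat.le_mul_of_pos_left _ (Nat.factorial_pos r)) h1
  have h4 : (E.card : ℝ) ≤ ((2 ^ (r ^ 2 + 1) * (L * k) : ℕ) : ℝ) * w * m ^ r *
      2 ^ ((m + 1) / L) * 2 ^ m := by
    have : (E.card : ℝ) ≤
      ((2 ^ (r ^ 2 + 1) * (L * k * w * m ^ r * 2 ^ ((m + 1) / L) * 2 ^ m) : ℕ) : ℝ) := by
      exact_mod_cast h3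
    refine this.trans (le_of_eq ?_)
    push_cast
    ring
  linarith

end Pool.Agent.TH454.BW
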